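import Pool.Agent.Lib.H14Z.E1
import Pool.Agent.Lib.H2AF.A1

/-! # Certificate A, block 1 (P1_A1, sq, size 26): the word form of the block -/

namespace Pool.Agent.H14Z

open Pool.Agent.H2AF

/-- The value of the block, one word pair per class. -/
def wA1 : E :=
 [(.ofNat 320086080, [], []),
  (.negSucc 77124959, [.k], []),
  (.negSucc 5003195039, [.k], [.k]),
  (.negSucc 1675684799, [.k], [.p, .k, .p]),
  (.ofNat 480772800, [.k], [.p, .k, .p, .p, .p]),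
  (.negSucc 961545599, [.k], [.p, .k, .p, .y, .y]),
  (.ofNat 523886400, [.k], [.p, .p]),
  (.ofNat 37458720, [.k], [.p, .p, .k, .p, .p]),
  (.negSucc 74917439, [.k], [.p, .p, .k, .y, .y]),
  (.ofNat 32451840, [.k], [.p, .p, .p, .p]),
  (.negSucc 68160959, [.k], [.p, .p, .p, .y, .z]),
  (.ofNat 68160960, [.k], [.p, .p, .y, .p, .z]),
  (.negSucc 64903679, [.k], [.p, .p, .y, .y]),
  (.negSucc 68160959, [.k], [.p, .p, .y, .z, .p]),
  (.ofNat 646107840, [.k], [.p, .y, .z]),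
  (.ofNat 5085104580, [.k, .k], []),
  (.negSucc 300323231, [.k, .k], [.k]),
  (.negSucc 5279294339, [.k, .k], [.k, .k]),
  (.ofNat 137095200, [.k, .k], [.k, .p, .k, .p]),
  (.ofNat 74429280, [.k, .k], [.k, .p, .p]),
  (.ofNat 4172981760, [.k, .k], [.k, .p, .p, .k]),
  (.ofNat 582871680, [.k, .k], [.k, .p, .y, .z]),
  (.negSucc 353648159, [.k, .k], [.p, .k, .p]),
  (.negSucc 5759778239, [.k, .k], [.p, .p]),
  (.ofNat 702598320, [.k, .k], [.p, .p, .p, .p]),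
  (.negSucc 1405196639, [.k, .k], [.p, .p, .y, .y]),
  (.ofNat 179746560, [.k, .k], [.p, .y, .z]),
  (.ofNat 454573152, [.k, .k, .k], []),
  (.ofNat 8944822080, [.k, .k, .k], [.k]),
  (.negSucc 19889279, [.k, .k, .k], [.k, .k]),
  (.negSucc 4198246559, [.k, .k, .k], [.k, .k, .k]),
  (.negSucc 6049693439, [.k, .k, .k], [.k, .p, .p]),
  (.ofNat 13115520, [.k, .k, .k], [.p, .k, .p]),
  (.negSucc 562057919, [.k, .k, .k], [.p, .p]),
  (.negSucc 1070772479, [.k, .k, .k], [.p, .y, .z]),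
  (.negSucc 4789605059, [.k, .k, .k, .k], []),
  (.ofNat 294390720, [.k, .k, .k, .k], [.k]),
  (.ofNat 6804209520, [.k, .k, .k, .k], [.k, .k]),
  (.ofNat 2332437120, [.k, .k, .k, .k], [.p, .p]),
  (.negSucc 351626399, [.k, .k, .k, .k, .k], []),
  (.negSucc 4144292639, [.k, .k, .k, .k, .k], [.k]),
  (.ofNat 2260411380, [.k, .k, .k, .k, .k, .k], []),
  (.ofNat 1236824640, [.k, .k, .k, .k, .p], [.p]),
  (.ofNat 381233160, [.k, .k, .k, .k, .p, .p], []),
  (.negSucc 1628199359, [.k, .k, .k, .p], [.k, .p]),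
  (.negSucc 1175208479, [.k, .k, .k, .p], [.p]),
  (.negSucc 202815359, [.k, .k, .k, .p], [.p, .k]),
  (.ofNat 1620043200, [.k, .k, .k, .p], [.y, .z]),
  (.ofNat 2449150560, [.k, .k, .k, .p, .k], [.p]),
  (.negSucc 441331199, [.k, .k, .k, .p, .k, .p], []),
  (.ofNat 335923200, [.k, .k, .k, .p, .p], []),
  (.negSucc 2874445919, [.k, .k, .k, .p, .p], [.k]),
  (.ofNat 4155006240, [.k, .k, .k, .p, .p, .k], []),
  (.negSucc 888675839, [.k, .k, .k, .p, .y], [.z]),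
  (.ofNat 551171520, [.k, .k, .k, .p, .y, .z], []),
  (.negSucc 1805898239, [.k, .k, .p], [.k, .p]),
  (.ofNat 3955914720, [.k, .k, .p], [.k, .p, .k]),
  (.negSucc 3351261599, [.k, .k, .p], [.p]),
  (.ofNat 745839360, [.k, .k, .p], [.p, .k]),
  (.negSucc 523700639, [.k, .k, .p], [.p, .k, .k]),
  (.ofNat 3810240, [.k, .k, .p], [.p, .p, .p]),
  (.negSucc 7620479, [.k, .k, .p], [.p, .y, .y]),
  (.negSucc 1059471359, [.k, .k, .p], [.y, .z]),
  (.negSucc 2321377919, [.k, .k, .p], [.y, .z, .k]),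
  (.ofNat 3670367040, [.k, .k, .p, .k], [.p]),
  (.negSucc 5320339199, [.k, .k, .p, .k], [.p, .k]),
  (.ofNat 10454400, [.k, .k, .p, .k, .p], []),
  (.ofNat 632685600, [.k, .k, .p, .k, .p], [.k]),
  (.ofNat 2531202840, [.k, .k, .p, .p], []),
  (.ofNat 798517440, [.k, .k, .p, .p], [.k]),
  (.ofNat 3275052480, [.k, .k, .p, .p], [.k, .k]),
  (.negSucc 190810079, [.k, .k, .p, .p], [.p, .p]),
  (.ofNat 381620160, [.k, .k, .p, .p], [.y, .y]),
  (.ofNat 252067680, [.k, .k, .p, .p, .k], []),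
  (.negSucc 4242589919, [.k, .k, .p, .p, .k], [.k]),
  (.ofNat 347034240, [.k, .k, .p, .y], [.z]),
  (.ofNat 2272363200, [.k, .k, .p, .y], [.z, .k]),
  (.ofNat 20304000, [.k, .k, .p, .y, .z], []),
  (.negSucc 280834559, [.k, .k, .p, .y, .z], [.k]),
  (.ofNat 3043491840, [.k, .p], [.k, .p]),
  (.negSucc 1024820639, [.k, .p], [.p]),
  (.ofNat 3366092160, [.k, .p], [.p, .k]),
  (.ofNat 361454400, [.k, .p], [.p, .k, .p, .p]),
  (.negSucc 884528639, [.k, .p], [.p, .k, .y, .y]),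
  (.ofNat 288061920, [.k, .p], [.p, .p, .k, .p]),
  (.negSucc 432380159, [.k, .p], [.p, .p, .p]),
  (.ofNat 125133120, [.k, .p], [.p, .p, .y, .z]),
  (.negSucc 151035839, [.k, .p], [.p, .y, .k, .y]),
  (.negSucc 125133119, [.k, .p], [.p, .y, .p, .z]),
  (.ofNat 5114880, [.k, .p], [.p, .y, .y]),
  (.ofNat 78649920, [.k, .p], [.p, .y, .z, .p]),
  (.ofNat 161619840, [.k, .p], [.y, .k, .y, .p]),
  (.ofNat 46483200, [.k, .p], [.y, .p, .z, .p]),
  (.negSucc 425087999, [.k, .p], [.y, .y, .k, .p]),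
  (.ofNat 859645440, [.k, .p], [.y, .y, .p]),
  (.negSucc 23327999, [.k, .p], [.y, .z]),
  (.ofNat 286657920, [.k, .p], [.y, .z, .p, .p]),
  (.negSucc 333141119, [.k, .p], [.y, .z, .y, .y]),
  (.ofNat 333141120, [.k, .p], [.y, .z, .z, .z]),
  (.negSucc 410279039, [.k, .p, .k], [.k, .p]),
  (.negSucc 2500018559, [.k, .p, .k], [.p]),
  (.ofNat 179923680, [.k, .p, .k], [.p, .p, .p]),
  (.negSucc 359847359, [.k, .p, .k], [.p, .y, .y]),
  (.ofNat 1334119680, [.k, .p, .k, .p], []),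
  (.negSucc 17159039, [.k, .p, .k, .p], [.k]),
  (.negSucc 126442079, [.k, .p, .k, .p], [.p, .p]),
  (.negSucc 31777919, [.k, .p, .k, .p], [.y, .y]),
  (.negSucc 102189599, [.k, .p, .k, .p, .p], [.p]),
  (.ofNat 284662080, [.k, .p, .k, .y], [.y, .p]),
  (.ofNat 204379200, [.k, .p, .k, .y, .y], [.p]),
  (.negSucc 1012296959, [.k, .p, .p], []),
  (.ofNat 8142340320, [.k, .p, .p], [.k]),
  (.negSucc 2854833119, [.k, .p, .p], [.k, .p, .p]),
  (.ofNat 3586740480, [.k, .p, .p], [.k, .y, .y]),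
  (.ofNat 282242880, [.k, .p, .p], [.p, .k, .p]),
  (.ofNat 641675520, [.k, .p, .p], [.p, .p]),
  (.negSucc 634543199, [.k, .p, .p], [.p, .p, .k]),
  (.negSucc 851497919, [.k, .p, .p], [.p, .y, .z]),
  (.ofNat 2150478720, [.k, .p, .p], [.y, .k, .y]),
  (.ofNat 851497920, [.k, .p, .p], [.y, .p, .z]),
  (.negSucc 321088319, [.k, .p, .p], [.y, .y]),
  (.ofNat 1269086400, [.k, .p, .p], [.y, .y, .k]),
  (.negSucc 962746559, [.k, .p, .p], [.y, .z, .p]),
  (.negSucc 5755920479, [.k, .p, .p, .k], []),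
  (.negSucc 410469119, [.k, .p, .p, .k], [.k]),
  (.ofNat 3391757280, [.k, .p, .p, .k], [.p, .p]),
  (.negSucc 2398403519, [.k, .p, .p, .k], [.y, .y]),
  (.negSucc 884567519, [.k, .p, .p, .k, .p], [.p]),
  (.ofNat 490661280, [.k, .p, .p, .k, .p, .p], []),
  (.ofNat 64592640, [.k, .p, .p, .k, .y], [.y]),
  (.negSucc 981322559, [.k, .p, .p, .k, .y, .y], []),
  (.negSucc 1703363039, [.k, .p, .p, .p], [.k, .p]),
  (.ofNat 1084155840, [.k, .p, .p, .p], [.p]),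
  (.ofNat 37130400, [.k, .p, .p, .p], [.p, .k]),
  (.ofNat 636880320, [.k, .p, .p, .p], [.y, .z]),
  (.ofNat 800794080, [.k, .p, .p, .p, .k], [.p]),
  (.ofNat 372203160, [.k, .p, .p, .p, .k, .p], []),
  (.negSucc 89186399, [.k, .p, .p, .p, .p], []),
  (.negSucc 1244471039, [.k, .p, .p, .p, .p], [.k]),
  (.ofNat 1159671480, [.k, .p, .p, .p, .p, .k], []),
  (.negSucc 811676159, [.k, .p, .p, .p, .y], [.z]),
  (.ofNat 470119680, [.k, .p, .p, .p, .y, .z], []),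
  (.ofNat 1051773120, [.k, .p, .p, .y], [.k, .y]),
  (.negSucc 636880319, [.k, .p, .p, .y], [.p, .z]),
  (.negSucc 572685119, [.k, .p, .p, .y], [.y]),
  (.negSucc 74260799, [.k, .p, .p, .y], [.y, .k]),
  (.ofNat 625976640, [.k, .p, .p, .y], [.z, .p]),
  (.negSucc 1601588159, [.k, .p, .p, .y, .k], [.y]),
  (.negSucc 744406319, [.k, .p, .p, .y, .k, .y], []),
  (.ofNat 811676160, [.k, .p, .p, .y, .p], [.z]),
  (.negSucc 470119679, [.k, .p, .p, .y, .p, .z], []),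
  (.ofNat 178372800, [.k, .p, .p, .y, .y], []),
  (.ofNat 2488942080, [.k, .p, .p, .y, .y], [.k]),
  (.negSucc 2319342959, [.k, .p, .p, .y, .y, .k], []),
  (.negSucc 1007432639, [.k, .p, .p, .y, .z], [.p]),
  (.ofNat 470119680, [.k, .p, .p, .y, .z, .p], []),
  (.ofNat 2122925760, [.k, .p, .y], [.k, .y, .p]),
  (.ofNat 111248640, [.k, .p, .y], [.p, .z, .p]),
  (.negSucc 2714964479, [.k, .p, .y], [.y, .k, .p]),
  (.negSucc 962262719, [.k, .p, .y], [.y, .p]),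
  (.negSucc 659024639, [.k, .p, .y], [.z]),
  (.ofNat 581411520, [.k, .p, .y], [.z, .k]),
  (.negSucc 463510079, [.k, .p, .y], [.z, .p, .p]),
  (.ofNat 352261440, [.k, .p, .y], [.z, .y, .y]),
  (.negSucc 352261439, [.k, .p, .y], [.z, .z, .z]),
  (.negSucc 4385111039, [.k, .p, .y, .k], [.y, .p]),
  (.ofNat 1704542400, [.k, .p, .y, .k, .y], [.p]),
  (.ofNat 10903680, [.k, .p, .y, .p], [.z, .p]),
  (.ofNat 195756480, [.k, .p, .y, .p, .z], [.p]),
  (.ofNat 2354952960, [.k, .p, .y, .y], [.k, .p]),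
  (.negSucc 1595626559, [.k, .p, .y, .y], [.p]),
  (.negSucc 428543999, [.k, .p, .y, .z], []),
  (.negSucc 261817919, [.k, .p, .y, .z], [.k]),
  (.ofNat 213840000, [.k, .p, .y, .z], [.p, .p]),
  (.negSucc 224743679, [.k, .p, .y, .z], [.y, .y]),
  (.ofNat 224743680, [.k, .p, .y, .z], [.z, .z]),
  (.negSucc 195756479, [.k, .p, .y, .z, .p], [.p]),
  (.negSucc 525139199, [.p], [.p]),
  (.ofNat 964202400, [.p, .k, .k, .p], [.p, .p]),
  (.negSucc 716973119, [.p, .k, .k, .p, .p], [.p]),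
  (.negSucc 1928404799, [.p, .k, .k, .y], [.y, .p]),
  (.ofNat 1433946240, [.p, .k, .k, .y, .y], [.p]),
  (.ofNat 360352800, [.p, .k, .p], []),
  (.negSucc 756548639, [.p, .k, .p], [.p, .k, .p]),
  (.ofNat 40301280, [.p, .k, .p], [.p, .p]),
  (.negSucc 648527039, [.p, .k, .p], [.p, .y, .z]),
  (.ofNat 470836800, [.p, .k, .p], [.y, .k, .y]),
  (.ofNat 83548800, [.p, .k, .p], [.y, .p, .z]),
  (.negSucc 65750399, [.p, .k, .p], [.y, .y]),
  (.negSucc 641109599, [.p, .k, .p, .k, .p], [.p]),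
  (.ofNat 665366400, [.p, .k, .p, .k, .p, .p], []),
  (.ofNat 1282219200, [.p, .k, .p, .k, .y], [.y]),
  (.negSucc 1330732799, [.p, .k, .p, .k, .y, .y], []),
  (.negSucc 285746399, [.p, .k, .p, .p], [.p]),
  (.ofNat 964232640, [.p, .k, .p, .p], [.y, .z]),
  (.ofNat 501692640, [.p, .k, .p, .p, .k, .p], []),
  (.negSucc 147856319, [.p, .k, .p, .p, .p], []),
  (.negSucc 391003199, [.p, .k, .p, .p, .y], [.z]),
  (.ofNat 183703680, [.p, .k, .p, .p, .y, .z], []),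
  (.negSucc 381205439, [.p, .k, .p, .y], [.p, .z]),
  (.ofNat 190987200, [.p, .k, .p, .y], [.y]),
  (.ofNat 928264320, [.p, .k, .p, .y], [.z, .p]),
  (.negSucc 1003385279, [.p, .k, .p, .y, .k, .y], []),
  (.ofNat 391003200, [.p, .k, .p, .y, .p], [.z]),
  (.negSucc 183703679, [.p, .k, .p, .y, .p, .z], []),
  (.ofNat 295712640, [.p, .k, .p, .y, .y], []),
  (.negSucc 672900479, [.p, .k, .p, .y, .z], [.p]),
  (.ofNat 183703680, [.p, .k, .p, .y, .z, .p], []),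
  (.ofNat 481429440, [.p, .k, .y], [.p, .z, .p]),
  (.ofNat 1042260480, [.p, .k, .y], [.y, .k, .p]),
  (.negSucc 14852159, [.p, .k, .y], [.y, .p]),
  (.ofNat 481429440, [.p, .k, .y], [.y, .y, .z]),
  (.negSucc 547058879, [.p, .k, .y, .p], [.z, .p]),
  (.ofNat 281897280, [.p, .k, .y, .p, .z], [.p]),
  (.ofNat 380505600, [.p, .k, .y, .y], [.p]),
  (.negSucc 583027199, [.p, .k, .y, .y], [.y, .z]),
  (.ofNat 583027200, [.p, .k, .y, .y], [.z, .y]),
  (.ofNat 547058880, [.p, .k, .y, .z], [.p, .p]),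
  (.negSucc 281897279, [.p, .k, .y, .z, .p], [.p]),
  (.negSucc 307825919, [.p, .p], []),
  (.ofNat 176992560, [.p, .p], [.p, .p]),
  (.negSucc 271460159, [.p, .p], [.p, .y, .z]),
  (.negSucc 11663999, [.p, .p], [.y, .p, .z]),
  (.ofNat 121357440, [.p, .p], [.y, .y]),
  (.ofNat 294088320, [.p, .p], [.y, .z, .y, .z]),
  (.negSucc 294088319, [.p, .p], [.y, .z, .z, .y]),
  (.ofNat 610802100, [.p, .p, .k, .k, .p, .p], []),
  (.negSucc 1221604199, [.p, .p, .k, .k, .y, .y], []),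
  (.negSucc 21522239, [.p, .p, .k, .p, .p], []),
  (.negSucc 259485119, [.p, .p, .k, .p, .y], [.z]),
  (.ofNat 203376960, [.p, .p, .k, .p, .y, .z], []),
  (.ofNat 259485120, [.p, .p, .k, .y, .p], [.z]),
  (.negSucc 203376959, [.p, .p, .k, .y, .p, .z], []),
  (.ofNat 43044480, [.p, .p, .k, .y, .y], []),
  (.negSucc 259485119, [.p, .p, .k, .y, .z], [.p]),
  (.ofNat 203376960, [.p, .p, .k, .y, .z, .p], []),
  (.negSucc 55844639, [.p, .p, .p], [.p]),
  (.negSucc 188015039, [.p, .p, .p], [.y, .z]),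
  (.ofNat 144627120, [.p, .p, .p, .p], []),
  (.ofNat 266086080, [.p, .p, .p, .y], [.z]),
  (.negSucc 99178559, [.p, .p, .p, .y, .z], []),
  (.ofNat 188015040, [.p, .p, .y], [.p, .z]),
  (.ofNat 111689280, [.p, .p, .y], [.y]),
  (.negSucc 482803199, [.p, .p, .y], [.z, .p]),
  (.negSucc 446567039, [.p, .p, .y], [.z, .y, .z]),
  (.ofNat 223283520, [.p, .p, .y], [.z, .z, .y]),
  (.negSucc 266086079, [.p, .p, .y, .p], [.z]),
  (.ofNat 99178560, [.p, .p, .y, .p, .z], []),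
  (.negSucc 289254239, [.p, .p, .y, .y], []),
  (.ofNat 316422720, [.p, .p, .y, .z], [.p]),
  (.ofNat 62657280, [.p, .p, .y, .z], [.y, .z]),
  (.negSucc 62657279, [.p, .p, .y, .z], [.z, .y]),
  (.negSucc 99178559, [.p, .p, .y, .z, .p], []),
  (.negSucc 475342559, [.p, .y], [.y, .p]),
  (.ofNat 131025600, [.p, .y], [.z]),
  (.negSucc 294788159, [.p, .y, .p], [.p, .z]),
  (.ofNat 223283520, [.p, .y, .p], [.z, .y, .z]),
  (.negSucc 117745919, [.p, .y, .p, .y, .z], [.z]),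
  (.negSucc 50336639, [.p, .y, .p, .z], [.p]),
  (.negSucc 650833919, [.p, .y, .p, .z], [.y, .z]),
  (.ofNat 62657280, [.p, .y, .p, .z], [.z, .y]),
  (.ofNat 117745920, [.p, .y, .p, .z, .y], [.z]),
  (.ofNat 117745920, [.p, .y, .y, .p, .z], [.z]),
  (.ofNat 294088320, [.p, .y, .y, .z], [.p, .z]),
  (.negSucc 117745919, [.p, .y, .y, .z, .p], [.z]),
  (.ofNat 61767360, [.p, .y, .z], []),
  (.negSucc 262820159, [.p, .y, .z], [.p, .y, .z]),
  (.ofNat 302356800, [.p, .y, .z], [.p, .z, .y]),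
  (.negSucc 79073279, [.p, .y, .z], [.y, .z, .p]),
  (.ofNat 39536640, [.p, .y, .z], [.z, .y, .p]),
  (.ofNat 50336640, [.p, .y, .z, .p], [.p]),
  (.ofNat 356745600, [.p, .y, .z, .p], [.y, .z]),
  (.negSucc 62657279, [.p, .y, .z, .p], [.z, .y]),
  (.negSucc 117745919, [.p, .y, .z, .p, .y], [.z]),
  (.ofNat 71228160, [.p, .y, .z, .p, .y, .z], []),
  (.negSucc 142456319, [.p, .y, .z, .p, .z, .y], []),
  (.ofNat 117745920, [.p, .y, .z, .y, .p], [.z]),
  (.ofNat 71228160, [.p, .y, .z, .y, .z, .p], []),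
  (.ofNat 71228160, [.p, .y, .z, .z, .p, .y], []),
  (.negSucc 71228159, [.p, .y, .z, .z, .y, .p], [])]

set_option maxRecDepth 100000 in
theorem cA1 : blkOK smulL e1 gA1 wA1 = true := by decide +kernel

end Pool.Agent.H14Z
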