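import Pool.Agent.Lib.H14Z.E2
import Pool.Agent.Lib.H2AF.A2

/-! # Certificate A, block 2 (P1_T1, sq, size 50): the word form of the block -/

namespace Pool.Agent.H14Z

open Pool.Agent.H2AF

/-- The value of the block, one word pair per class. -/
def wA2 : E :=
 [(.ofNat 1715987880, [.k], [.p, .k, .k, .k, .p]),
  (.negSucc 3363919559, [.k], [.p, .k, .k, .p]),
  (.ofNat 1310114160, [.k], [.p, .k, .k, .y, .z]),
  (.ofNat 3278984960, [.k], [.p, .k, .p]),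
  (.ofNat 928199880, [.k], [.p, .k, .p, .p, .p]),
  (.negSucc 267123599, [.k], [.p, .k, .p, .y, .y]),
  (.negSucc 190341359, [.k], [.p, .k, .y, .k, .z]),
  (.ofNat 807759360, [.k], [.p, .k, .y, .p, .y]),
  (.ofNat 22138560, [.k], [.p, .k, .y, .y, .p]),
  (.negSucc 3340361519, [.k], [.p, .k, .y, .z]),
  (.negSucc 112815431, [.k], [.p, .p]),
  (.negSucc 754268039, [.k], [.p, .p, .p, .p]),
  (.ofNat 1179972720, [.k], [.p, .p, .p, .y, .z]),
  (.negSucc 469016639, [.k], [.p, .p, .y, .p, .z]),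
  (.ofNat 714405600, [.k], [.p, .p, .y, .y]),
  (.ofNat 469016640, [.k], [.p, .p, .y, .z, .p]),
  (.negSucc 311821199, [.k], [.p, .y, .k, .p, .y]),
  (.ofNat 311821200, [.k], [.p, .y, .k, .y, .p]),
  (.ofNat 150572160, [.k], [.p, .y, .p, .p, .z]),
  (.negSucc 1229855039, [.k], [.p, .y, .p, .y]),
  (.ofNat 188568000, [.k], [.p, .y, .p, .z, .p]),
  (.ofNat 785334960, [.k], [.p, .y, .y, .p]),
  (.negSucc 339140159, [.k], [.p, .y, .y, .y, .z]),
  (.ofNat 695692800, [.k], [.p, .y, .z]),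
  (.ofNat 5285846880, [.k, .k], [.k, .p, .k, .p]),
  (.negSucc 917655479, [.k, .k], [.k, .p, .p]),
  (.ofNat 7289345520, [.k, .k], [.k, .p, .p, .k]),
  (.ofNat 1719452160, [.k, .k], [.k, .p, .y, .z]),
  (.ofNat 7761985380, [.k, .k], [.p, .k, .k, .p]),
  (.negSucc 5578242839, [.k, .k], [.p, .k, .p]),
  (.ofNat 4266167040, [.k, .k], [.p, .k, .y, .z]),
  (.negSucc 2629645307, [.k, .k], [.p, .p]),
  (.ofNat 1236403440, [.k, .k], [.p, .p, .p, .p]),
  (.negSucc 1150070399, [.k, .k], [.p, .p, .y, .y]),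
  (.ofNat 2630390580, [.k, .k], [.p, .y, .p, .y]),
  (.negSucc 2161676339, [.k, .k], [.p, .y, .y, .p]),
  (.negSucc 3756512879, [.k, .k], [.p, .y, .z]),
  (.ofNat 78158480, [.k, .k, .k], [.k, .p, .p]),
  (.ofNat 1270999600, [.k, .k, .k], [.p, .k, .p]),
  (.negSucc 1361390039, [.k, .k, .k], [.p, .p]),
  (.ofNat 240930000, [.k, .k, .k], [.p, .y, .z]),
  (.ofNat 4120028820, [.k, .k, .k, .k], [.p, .p]),
  (.negSucc 2528525519, [.k, .k, .k, .k, .p], [.p]),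
  (.negSucc 2175398639, [.k, .k, .k, .p], [.k, .p]),
  (.ofNat 2323170360, [.k, .k, .k, .p], [.p]),
  (.negSucc 988162199, [.k, .k, .k, .p], [.p, .k]),
  (.ofNat 3370039200, [.k, .k, .k, .p], [.y, .z]),
  (.ofNat 233997120, [.k, .k, .k, .p, .k], [.p]),
  (.negSucc 753963839, [.k, .k, .k, .p, .y], [.z]),
  (.ofNat 1513369800, [.k, .k, .p], [.k, .k, .p]),
  (.ofNat 2261338920, [.k, .k, .p], [.k, .p]),
  (.negSucc 3365448119, [.k, .k, .p], [.k, .p, .k]),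
  (.ofNat 646773120, [.k, .k, .p], [.k, .y, .z]),
  (.negSucc 4993090199, [.k, .k, .p], [.p]),
  (.negSucc 827646839, [.k, .k, .p], [.p, .k]),
  (.ofNat 116696160, [.k, .k, .p], [.p, .k, .k]),
  (.negSucc 417139199, [.k, .k, .p], [.p, .p, .p]),
  (.ofNat 773838000, [.k, .k, .p], [.p, .y, .y]),
  (.ofNat 659048400, [.k, .k, .p], [.y, .k, .z]),
  (.negSucc 881896319, [.k, .k, .p], [.y, .p, .y]),
  (.negSucc 651612239, [.k, .k, .p], [.y, .y, .p]),
  (.negSucc 1208112479, [.k, .k, .p], [.y, .z]),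
  (.negSucc 1163019599, [.k, .k, .p], [.y, .z, .k]),
  (.negSucc 1316031119, [.k, .k, .p, .k], [.k, .p]),
  (.ofNat 1642685760, [.k, .k, .p, .k], [.p]),
  (.ofNat 690300720, [.k, .k, .p, .k], [.p, .k]),
  (.ofNat 3884206320, [.k, .k, .p, .k], [.y, .z]),
  (.ofNat 2376787680, [.k, .k, .p, .k, .k], [.p]),
  (.negSucc 917877599, [.k, .k, .p, .k, .k, .p], []),
  (.ofNat 1290156840, [.k, .k, .p, .k, .p], []),
  (.negSucc 5082269759, [.k, .k, .p, .k, .p], [.k]),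
  (.ofNat 4122893520, [.k, .k, .p, .k, .p, .k], []),
  (.ofNat 904842000, [.k, .k, .p, .k, .y], [.z]),
  (.ofNat 230271840, [.k, .k, .p, .k, .y, .z], []),
  (.negSucc 674054279, [.k, .k, .p, .p], []),
  (.ofNat 3448202040, [.k, .k, .p, .p], [.k]),
  (.ofNat 943908120, [.k, .k, .p, .p], [.k, .k]),
  (.ofNat 468104400, [.k, .k, .p, .p], [.p, .p]),
  (.negSucc 2909450879, [.k, .k, .p, .p], [.y, .y]),
  (.negSucc 1890746999, [.k, .k, .p, .p, .k], []),
  (.negSucc 4750181639, [.k, .k, .p, .p, .k], [.k]),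
  (.ofNat 2695259340, [.k, .k, .p, .p, .k, .k], []),
  (.ofNat 1112826600, [.k, .k, .p, .p, .p], [.p]),
  (.negSucc 484622279, [.k, .k, .p, .p, .p, .p], []),
  (.ofNat 903108960, [.k, .k, .p, .p, .y], [.y]),
  (.negSucc 1044745199, [.k, .k, .p, .p, .y, .y], []),
  (.negSucc 248218559, [.k, .k, .p, .y], [.k, .z]),
  (.negSucc 862167599, [.k, .k, .p, .y], [.p, .y]),
  (.ofNat 1292942880, [.k, .k, .p, .y], [.y, .p]),
  (.ofNat 1908455760, [.k, .k, .p, .y], [.z]),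
  (.ofNat 1144184400, [.k, .k, .p, .y], [.z, .k]),
  (.ofNat 1657392480, [.k, .k, .p, .y, .k], [.z]),
  (.ofNat 172766160, [.k, .k, .p, .y, .k, .z], []),
  (.ofNat 393449040, [.k, .k, .p, .y, .p], [.y]),
  (.negSucc 205397279, [.k, .k, .p, .y, .p, .y], []),
  (.negSucc 1988305919, [.k, .k, .p, .y, .y], [.p]),
  (.negSucc 196515359, [.k, .k, .p, .y, .y, .p], []),
  (.ofNat 1329714000, [.k, .k, .p, .y, .z], []),
  (.negSucc 1937463839, [.k, .k, .p, .y, .z], [.k]),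
  (.ofNat 1518238080, [.k, .k, .p, .y, .z, .k], []),
  (.ofNat 2308338144, [.k, .p], [.k, .p]),
  (.negSucc 1528003259, [.k, .p], [.p]),
  (.ofNat 10211134680, [.k, .p], [.p, .k]),
  (.ofNat 92704320, [.k, .p], [.p, .k, .y, .y]),
  (.negSucc 2392456319, [.k, .p], [.p, .p, .k, .p]),
  (.negSucc 337816799, [.k, .p], [.p, .p, .p]),
  (.negSucc 1150692479, [.k, .p], [.p, .p, .y, .z]),
  (.ofNat 1878809040, [.k, .p], [.p, .y, .k, .y]),
  (.ofNat 174784320, [.k, .p], [.p, .y, .p, .z]),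
  (.negSucc 2728510559, [.k, .p], [.p, .y, .y]),
  (.ofNat 68137920, [.k, .p], [.p, .y, .z, .p]),
  (.ofNat 1567446480, [.k, .p], [.y, .k, .k, .z]),
  (.negSucc 245985119, [.k, .p], [.y, .k, .p, .y]),
  (.ofNat 153280800, [.k, .p], [.y, .k, .y, .p]),
  (.ofNat 129505680, [.k, .p], [.y, .k, .z]),
  (.ofNat 1005878880, [.k, .p], [.y, .p, .k, .y]),
  (.ofNat 2101924800, [.k, .p], [.y, .p, .p, .z]),
  (.ofNat 555868800, [.k, .p], [.y, .p, .y]),
  (.negSucc 679265279, [.k, .p], [.y, .p, .z, .p]),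
  (.ofNat 1508693760, [.k, .p], [.y, .y, .k, .p]),
  (.negSucc 1022605199, [.k, .p], [.y, .y, .p]),
  (.ofNat 25840800, [.k, .p], [.y, .y, .y, .z]),
  (.negSucc 964022399, [.k, .p], [.y, .y, .z, .y]),
  (.negSucc 403844363, [.k, .p], [.y, .z]),
  (.negSucc 379339199, [.k, .p], [.y, .z, .p, .p]),
  (.ofNat 622261440, [.k, .p], [.y, .z, .y, .y]),
  (.ofNat 1154499840, [.k, .p], [.y, .z, .z, .z]),
  (.ofNat 408074400, [.k, .p, .k], [.k, .p]),
  (.negSucc 6845522399, [.k, .p, .k], [.k, .p, .k]),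
  (.negSucc 4585737599, [.k, .p, .k], [.k, .y, .z]),
  (.negSucc 1430855639, [.k, .p, .k], [.p]),
  (.ofNat 63448560, [.k, .p, .k], [.p, .p, .p]),
  (.ofNat 1422095760, [.k, .p, .k], [.p, .y, .y]),
  (.negSucc 634245839, [.k, .p, .k], [.y, .k, .z]),
  (.negSucc 214597439, [.k, .p, .k], [.y, .p, .y]),
  (.ofNat 2035968480, [.k, .p, .k], [.y, .z]),
  (.ofNat 1108610280, [.k, .p, .k, .k, .k, .p], []),
  (.ofNat 1492512120, [.k, .p, .k, .k, .p], []),
  (.negSucc 2731959719, [.k, .p, .k, .k, .p], [.k]),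
  (.ofNat 3279042720, [.k, .p, .k, .k, .p, .k], []),
  (.ofNat 1099476000, [.k, .p, .k, .k, .y], [.z]),
  (.ofNat 956777760, [.k, .p, .k, .k, .y, .z], []),
  (.negSucc 2079652319, [.k, .p, .k, .p], []),
  (.ofNat 4602072240, [.k, .p, .k, .p], [.k]),
  (.negSucc 98516699, [.k, .p, .k, .p], [.p, .p]),
  (.negSucc 2519921519, [.k, .p, .k, .p], [.y, .y]),
  (.negSucc 833463359, [.k, .p, .k, .p, .k], []),
  (.negSucc 2971120679, [.k, .p, .k, .p, .k], [.k]),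
  (.negSucc 136560599, [.k, .p, .k, .p, .p], [.p]),
  (.ofNat 641740320, [.k, .p, .k, .p, .p, .p], []),
  (.ofNat 697718880, [.k, .p, .k, .p, .y], [.y]),
  (.negSucc 1803035519, [.k, .p, .k, .p, .y, .y], []),
  (.negSucc 1069660799, [.k, .p, .k, .y], [.k, .z]),
  (.ofNat 1816937280, [.k, .p, .k, .y], [.p, .y]),
  (.negSucc 1457637839, [.k, .p, .k, .y], [.y, .p]),
  (.ofNat 2299024080, [.k, .p, .k, .y], [.z]),
  (.ofNat 2768932080, [.k, .p, .k, .y], [.z, .k]),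
  (.negSucc 431139599, [.k, .p, .k, .y, .k], [.z]),
  (.ofNat 1332966960, [.k, .p, .k, .y, .k, .z], []),
  (.negSucc 1097852399, [.k, .p, .k, .y, .p], [.y]),
  (.negSucc 251546399, [.k, .p, .k, .y, .p, .y], []),
  (.ofNat 913404240, [.k, .p, .k, .y, .y], [.p]),
  (.negSucc 1054235519, [.k, .p, .k, .y, .y, .p], []),
  (.negSucc 314300159, [.k, .p, .k, .y, .z], []),
  (.negSucc 1222094879, [.k, .p, .k, .y, .z], [.k]),
  (.ofNat 1556213760, [.k, .p, .k, .y, .z, .k], []),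
  (.negSucc 1283422895, [.k, .p, .p], []),
  (.negSucc 11606866159, [.k, .p, .p], [.k]),
  (.ofNat 514995120, [.k, .p, .p], [.k, .y, .y]),
  (.ofNat 2932216000, [.k, .p, .p], [.p, .k, .p]),
  (.negSucc 254480039, [.k, .p, .p], [.p, .p]),
  (.ofNat 1902546880, [.k, .p, .p], [.p, .p, .k]),
  (.ofNat 765187200, [.k, .p, .p], [.p, .y, .z]),
  (.negSucc 4292099999, [.k, .p, .p], [.y, .k, .y]),
  (.negSucc 166884479, [.k, .p, .p], [.y, .p, .z]),
  (.ofNat 3075657840, [.k, .p, .p], [.y, .y]),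
  (.negSucc 349158959, [.k, .p, .p], [.y, .y, .k]),
  (.ofNat 111582720, [.k, .p, .p], [.y, .z, .p]),
  (.ofNat 1231769160, [.k, .p, .p, .k], []),
  (.ofNat 2374128000, [.k, .p, .p, .k], [.k]),
  (.negSucc 4742428139, [.k, .p, .p, .k], [.y, .y]),
  (.ofNat 1539262080, [.k, .p, .p, .k, .y], [.y]),
  (.negSucc 1742953679, [.k, .p, .p, .p], [.k, .p]),
  (.ofNat 589645800, [.k, .p, .p, .p], [.p]),
  (.negSucc 6389153639, [.k, .p, .p, .p], [.p, .k]),
  (.ofNat 993911040, [.k, .p, .p, .p], [.y, .z]),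
  (.ofNat 699911280, [.k, .p, .p, .p, .p], []),
  (.ofNat 3737046600, [.k, .p, .p, .p, .p], [.k]),
  (.ofNat 468195840, [.k, .p, .p, .p, .y], [.z]),
  (.ofNat 2082898080, [.k, .p, .p, .y], [.k, .y]),
  (.ofNat 994057920, [.k, .p, .p, .y], [.p, .z]),
  (.negSucc 3161159999, [.k, .p, .p, .y], [.y]),
  (.negSucc 2442737519, [.k, .p, .p, .y], [.y, .k]),
  (.negSucc 499861439, [.k, .p, .p, .y], [.z, .p]),
  (.ofNat 1474725240, [.k, .p, .p, .y, .k], [.y]),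
  (.ofNat 64416960, [.k, .p, .p, .y, .p], [.z]),
  (.ofNat 469511280, [.k, .p, .p, .y, .y], []),
  (.ofNat 481778640, [.k, .p, .p, .y, .y], [.k]),
  (.negSucc 734252399, [.k, .p, .y], [.k, .p, .y]),
  (.ofNat 219257280, [.k, .p, .y], [.k, .y, .p]),
  (.ofNat 5184790560, [.k, .p, .y], [.k, .z]),
  (.ofNat 2060749440, [.k, .p, .y], [.p, .k, .y]),
  (.negSucc 818478719, [.k, .p, .y], [.p, .p, .z]),
  (.negSucc 1188495359, [.k, .p, .y], [.p, .y]),
  (.negSucc 904585679, [.k, .p, .y], [.p, .y, .k]),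
  (.negSucc 737786879, [.k, .p, .y], [.p, .z, .p]),
  (.negSucc 251112959, [.k, .p, .y], [.y, .k, .p]),
  (.negSucc 1525051439, [.k, .p, .y], [.y, .p]),
  (.ofNat 1459926720, [.k, .p, .y], [.y, .p, .k]),
  (.ofNat 865329840, [.k, .p, .y], [.y, .y, .z]),
  (.ofNat 2112526080, [.k, .p, .y], [.y, .z, .y]),
  (.negSucc 6682956479, [.k, .p, .y], [.z]),
  (.ofNat 1117175040, [.k, .p, .y], [.z, .k]),
  (.negSucc 417562559, [.k, .p, .y], [.z, .p, .p]),
  (.ofNat 362260800, [.k, .p, .y], [.z, .y, .y]),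
  (.negSucc 522299519, [.k, .p, .y], [.z, .z, .z]),
  (.ofNat 3175754400, [.k, .p, .y, .k], [.k, .z]),
  (.ofNat 4715871660, [.k, .p, .y, .k], [.p, .y]),
  (.ofNat 26556480, [.k, .p, .y, .k], [.y, .p]),
  (.ofNat 92231280, [.k, .p, .y, .k], [.z]),
  (.negSucc 733124879, [.k, .p, .y, .k, .k, .z], []),
  (.negSucc 1114021439, [.k, .p, .y, .k, .p], [.y]),
  (.ofNat 169421760, [.k, .p, .y, .k, .p, .y], []),
  (.negSucc 425240639, [.k, .p, .y, .k, .y], [.p]),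
  (.negSucc 169421759, [.k, .p, .y, .k, .y, .p], []),
  (.negSucc 397231199, [.k, .p, .y, .k, .z], []),
  (.negSucc 620138879, [.k, .p, .y, .k, .z], [.k]),
  (.ofNat 271761120, [.k, .p, .y, .p], [.k, .y]),
  (.ofNat 823060800, [.k, .p, .y, .p], [.p, .z]),
  (.ofNat 2231058960, [.k, .p, .y, .p], [.y]),
  (.ofNat 257718960, [.k, .p, .y, .p], [.y, .k]),
  (.negSucc 14353919, [.k, .p, .y, .p], [.z, .p]),
  (.negSucc 1474725239, [.k, .p, .y, .p, .k], [.y]),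
  (.ofNat 780685560, [.k, .p, .y, .p, .k, .y], []),
  (.negSucc 649480319, [.k, .p, .y, .p, .p], [.z]),
  (.negSucc 43297919, [.k, .p, .y, .p, .p, .z], []),
  (.negSucc 134684639, [.k, .p, .y, .p, .y], []),
  (.negSucc 1096225199, [.k, .p, .y, .p, .y], [.k]),
  (.ofNat 710656380, [.k, .p, .y, .p, .y, .k], []),
  (.ofNat 326900160, [.k, .p, .y, .p, .z], [.p]),
  (.ofNat 91635840, [.k, .p, .y, .p, .z, .p], []),
  (.negSucc 61853039, [.k, .p, .y, .y], [.k, .p]),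
  (.negSucc 297203759, [.k, .p, .y, .y], [.p]),
  (.ofNat 1672606800, [.k, .p, .y, .y], [.p, .k]),
  (.negSucc 375217199, [.k, .p, .y, .y], [.y, .z]),
  (.ofNat 990236160, [.k, .p, .y, .y], [.z, .y]),
  (.negSucc 780685559, [.k, .p, .y, .y, .k, .p], []),
  (.negSucc 198873359, [.k, .p, .y, .y, .p], []),
  (.negSucc 386555759, [.k, .p, .y, .y, .p], [.k]),
  (.negSucc 710656379, [.k, .p, .y, .y, .p, .k], []),
  (.negSucc 37859039, [.k, .p, .y, .y, .y], [.z]),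
  (.ofNat 43297920, [.k, .p, .y, .y, .y, .z], []),
  (.ofNat 141295680, [.k, .p, .y, .y, .z], [.y]),
  (.negSucc 91635839, [.k, .p, .y, .y, .z, .y], []),
  (.ofNat 257193360, [.k, .p, .y, .z], []),
  (.ofNat 2495835360, [.k, .p, .y, .z], [.k]),
  (.ofNat 111035520, [.k, .p, .y, .z], [.p, .p]),
  (.ofNat 383160960, [.k, .p, .y, .z], [.y, .y]),
  (.ofNat 416387520, [.k, .p, .y, .z], [.z, .z]),
  (.negSucc 1890426239, [.k, .p, .y, .z, .k], []),
  (.negSucc 1162827359, [.k, .p, .y, .z, .k], [.k]),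
  (.negSucc 15756479, [.k, .p, .y, .z, .p], [.p]),
  (.ofNat 418515840, [.k, .p, .y, .z, .p, .p], []),
  (.ofNat 80173440, [.k, .p, .y, .z, .y], [.y]),
  (.negSucc 418515839, [.k, .p, .y, .z, .y, .y], []),
  (.ofNat 85726080, [.k, .p, .y, .z, .z], [.z]),
  (.negSucc 519717599, [.k, .p, .y, .z, .z, .z], []),
  (.negSucc 2661143507, [.p], [.p]),
  (.ofNat 1668731040, [.p, .k, .k, .k, .k, .p], []),
  (.negSucc 674709119, [.p, .k, .k, .k, .p], []),
  (.negSucc 252357839, [.p, .k, .k, .k, .y], [.z]),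
  (.ofNat 638636400, [.p, .k, .k, .k, .y, .z], []),
  (.negSucc 2049519959, [.p, .k, .k, .p], []),
  (.ofNat 487669500, [.p, .k, .k, .p], [.p, .p]),
  (.negSucc 2449524959, [.p, .k, .k, .p], [.y, .y]),
  (.negSucc 1404588959, [.p, .k, .k, .p, .p], [.p]),
  (.ofNat 1755498960, [.p, .k, .k, .p, .p, .p], []),
  (.ofNat 299310480, [.p, .k, .k, .p, .y], [.y]),
  (.negSucc 209095199, [.p, .k, .k, .p, .y, .y], []),
  (.ofNat 2376724320, [.p, .k, .k, .y], [.p, .y]),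
  (.negSucc 708004799, [.p, .k, .k, .y], [.y, .p]),
  (.ofNat 281113200, [.p, .k, .k, .y], [.z]),
  (.ofNat 460712880, [.p, .k, .k, .y, .k, .z], []),
  (.negSucc 686121839, [.p, .k, .k, .y, .p], [.y]),
  (.negSucc 184319279, [.p, .k, .k, .y, .p, .y], []),
  (.ofNat 1116246960, [.p, .k, .k, .y, .y], [.p]),
  (.negSucc 1022219999, [.p, .k, .k, .y, .y, .p], []),
  (.negSucc 858712319, [.p, .k, .k, .y, .z], []),
  (.negSucc 1266391367, [.p, .k, .p], []),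
  (.ofNat 157319280, [.p, .k, .p], [.p, .p]),
  (.ofNat 514301760, [.p, .k, .p], [.p, .y, .z]),
  (.negSucc 270771839, [.p, .k, .p], [.y, .k, .y]),
  (.ofNat 555765120, [.p, .k, .p], [.y, .p, .z]),
  (.ofNat 1538922240, [.p, .k, .p], [.y, .y]),
  (.negSucc 306543599, [.p, .k, .p, .k, .y], [.y]),
  (.ofNat 922540320, [.p, .k, .p, .p], [.p]),
  (.ofNat 510465600, [.p, .k, .p, .p], [.y, .z]),
  (.negSucc 85481999, [.p, .k, .p, .p, .p], []),
  (.ofNat 463101120, [.p, .k, .p, .p, .y], [.z]),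
  (.negSucc 194088959, [.p, .k, .p, .y], [.p, .z]),
  (.negSucc 1097590319, [.p, .k, .p, .y], [.y]),
  (.ofNat 240736320, [.p, .k, .p, .y], [.z, .p]),
  (.ofNat 173350080, [.p, .k, .p, .y, .p], [.z]),
  (.ofNat 87940080, [.p, .k, .p, .y, .y], []),
  (.ofNat 258272640, [.p, .k, .y], [.p, .k, .y]),
  (.negSucc 1243981439, [.p, .k, .y], [.p, .p, .z]),
  (.negSucc 1087933679, [.p, .k, .y], [.p, .y]),
  (.negSucc 1638106559, [.p, .k, .y], [.p, .z, .p]),
  (.ofNat 12499200, [.p, .k, .y], [.y, .k, .p]),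
  (.ofNat 530496720, [.p, .k, .y], [.y, .p]),
  (.ofNat 426245040, [.p, .k, .y], [.y, .y, .z]),
  (.negSucc 2134764719, [.p, .k, .y], [.z]),
  (.ofNat 240362640, [.p, .k, .y], [.z, .z, .z]),
  (.ofNat 306543600, [.p, .k, .y, .k, .p], [.y]),
  (.ofNat 226607760, [.p, .k, .y, .k, .p, .y], []),
  (.negSucc 226607759, [.p, .k, .y, .k, .y, .p], []),
  (.negSucc 349905599, [.p, .k, .y, .k, .z], []),
  (.ofNat 1039973760, [.p, .k, .y, .p], [.p, .z]),
  (.ofNat 988022160, [.p, .k, .y, .p], [.y]),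
  (.negSucc 219847679, [.p, .k, .y, .p], [.z, .p]),
  (.ofNat 808981560, [.p, .k, .y, .p, .k, .y], []),
  (.negSucc 317848319, [.p, .k, .y, .p, .p], [.z]),
  (.ofNat 160058880, [.p, .k, .y, .p, .p, .z], []),
  (.negSucc 1128347999, [.p, .k, .y, .p, .y], []),
  (.ofNat 171714240, [.p, .k, .y, .p, .z], [.p]),
  (.negSucc 64428479, [.p, .k, .y, .p, .z, .p], []),
  (.negSucc 1013700959, [.p, .k, .y, .y], [.p]),
  (.ofNat 504734400, [.p, .k, .y, .y], [.y, .z]),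
  (.ofNat 489576960, [.p, .k, .y, .y], [.z, .y]),
  (.negSucc 808981559, [.p, .k, .y, .y, .k, .p], []),
  (.ofNat 965406960, [.p, .k, .y, .y, .p], []),
  (.negSucc 280273679, [.p, .k, .y, .y, .y], [.z]),
  (.negSucc 160058879, [.p, .k, .y, .y, .y, .z], []),
  (.ofNat 291386880, [.p, .k, .y, .y, .z], [.y]),
  (.ofNat 64428480, [.p, .k, .y, .y, .z, .y], []),
  (.negSucc 1222629839, [.p, .k, .y, .z], []),
  (.ofNat 466214400, [.p, .k, .y, .z], [.p, .p]),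
  (.negSucc 1396825919, [.p, .k, .y, .z], [.y, .y]),
  (.ofNat 834864480, [.p, .k, .y, .z], [.z, .z]),
  (.negSucc 282496319, [.p, .k, .y, .z, .p], [.p]),
  (.ofNat 955656000, [.p, .k, .y, .z, .p, .p], []),
  (.ofNat 455846400, [.p, .k, .y, .z, .y], [.y]),
  (.negSucc 955655999, [.p, .k, .y, .z, .y, .y], []),
  (.negSucc 385638479, [.p, .k, .y, .z, .z], [.z]),
  (.ofNat 475135200, [.p, .k, .y, .z, .z, .z], []),
  (.ofNat 6564876048, [.p, .p], []),
  (.negSucc 1215506879, [.p, .p], [.p, .p]),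
  (.ofNat 248961600, [.p, .p], [.p, .y, .p, .y]),
  (.negSucc 1025733599, [.p, .p], [.p, .y, .y, .p]),
  (.negSucc 1934075519, [.p, .p], [.p, .y, .z]),
  (.negSucc 807507359, [.p, .p], [.y, .p, .p, .y]),
  (.ofNat 981843840, [.p, .p], [.y, .p, .z]),
  (.ofNat 1596286080, [.p, .p], [.y, .y]),
  (.ofNat 393912000, [.p, .p], [.y, .z, .y, .z]),
  (.negSucc 437941439, [.p, .p], [.y, .z, .z, .y]),
  (.negSucc 9979199, [.p, .p, .k, .p, .y], [.z]),
  (.ofNat 9979200, [.p, .p, .k, .y, .p], [.z]),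
  (.negSucc 108682559, [.p, .p, .k, .y, .z], [.p]),
  (.ofNat 3961183680, [.p, .p, .p], [.p]),
  (.negSucc 1367639999, [.p, .p, .p], [.p, .p, .p]),
  (.ofNat 411451200, [.p, .p, .p], [.p, .y, .y]),
  (.negSucc 293731199, [.p, .p, .p], [.y, .p, .y]),
  (.ofNat 755490240, [.p, .p, .p], [.y, .z]),
  (.ofNat 62726400, [.p, .p, .p, .k, .y, .z], []),
  (.negSucc 4196199239, [.p, .p, .p, .p], []),
  (.ofNat 2240601120, [.p, .p, .p, .p], [.p, .p]),
  (.negSucc 1149783839, [.p, .p, .p, .p], [.y, .y]),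
  (.negSucc 1620456479, [.p, .p, .p, .p, .p], [.p]),
  (.ofNat 1204142220, [.p, .p, .p, .p, .p, .p], []),
  (.negSucc 95731199, [.p, .p, .p, .p, .y], [.y]),
  (.negSucc 211978799, [.p, .p, .p, .p, .y, .y], []),
  (.ofNat 319495680, [.p, .p, .p, .y], [.p, .y]),
  (.ofNat 607608000, [.p, .p, .p, .y], [.y, .p]),
  (.negSucc 594394559, [.p, .p, .p, .y], [.z]),
  (.ofNat 294667200, [.p, .p, .p, .y, .p], [.y]),
  (.ofNat 31248000, [.p, .p, .p, .y, .p, .y], []),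
  (.negSucc 403024319, [.p, .p, .p, .y, .y], [.p]),
  (.negSucc 484917119, [.p, .p, .p, .y, .y, .p], []),
  (.negSucc 461629439, [.p, .p, .p, .y, .z], []),
  (.ofNat 594066240, [.p, .p, .y], [.p, .p, .y]),
  (.ofNat 1192245120, [.p, .p, .y], [.p, .y, .p]),
  (.negSucc 805717439, [.p, .p, .y], [.p, .z]),
  (.ofNat 4680884160, [.p, .p, .y], [.y]),
  (.ofNat 1068865920, [.p, .p, .y], [.y, .p, .p]),
  (.ofNat 1099854720, [.p, .p, .y], [.y, .z, .z]),
  (.ofNat 1463823360, [.p, .p, .y], [.z, .p]),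
  (.ofNat 55434240, [.p, .p, .y], [.z, .y, .z]),
  (.ofNat 374794560, [.p, .p, .y], [.z, .z, .y]),
  (.negSucc 409651919, [.p, .p, .y, .k, .p, .z], []),
  (.ofNat 409651920, [.p, .p, .y, .k, .z, .p], []),
  (.negSucc 197418239, [.p, .p, .y, .p], [.p, .y]),
  (.negSucc 1053616319, [.p, .p, .y, .p], [.y, .p]),
  (.negSucc 1156996799, [.p, .p, .y, .p], [.z]),
  (.negSucc 7482239, [.p, .p, .y, .p, .p], [.y]),
  (.negSucc 11704319, [.p, .p, .y, .p, .p, .y], []),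
  (.negSucc 154244159, [.p, .p, .y, .p, .y], [.p]),
  (.negSucc 17628479, [.p, .p, .y, .p, .y, .p], []),
  (.ofNat 1064093760, [.p, .p, .y, .p, .z], []),
  (.ofNat 318697200, [.p, .p, .y, .y], []),
  (.negSucc 339272639, [.p, .p, .y, .y], [.p, .p]),
  (.negSucc 1323470879, [.p, .p, .y, .y], [.z, .z]),
  (.ofNat 1472581440, [.p, .p, .y, .y, .p], [.p]),
  (.negSucc 736060319, [.p, .p, .y, .y, .p, .p], []),
  (.ofNat 1785381120, [.p, .p, .y, .y, .z], [.z]),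
  (.negSucc 736060319, [.p, .p, .y, .y, .z, .z], []),
  (.ofNat 613016640, [.p, .p, .y, .z], [.p]),
  (.ofNat 241041600, [.p, .p, .y, .z], [.y, .z]),
  (.negSucc 162895679, [.p, .p, .y, .z], [.z, .y]),
  (.negSucc 1064093759, [.p, .p, .y, .z, .p], []),
  (.negSucc 17524799, [.p, .p, .y, .z, .y], [.z]),
  (.negSucc 17628479, [.p, .p, .y, .z, .y, .z], []),
  (.negSucc 7482239, [.p, .p, .y, .z, .z], [.y]),
  (.negSucc 11704319, [.p, .p, .y, .z, .z, .y], []),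
  (.ofNat 409625280, [.p, .y], [.p, .y]),
  (.negSucc 2937677759, [.p, .y], [.y, .p]),
  (.negSucc 935038079, [.p, .y], [.z]),
  (.ofNat 400548960, [.p, .y, .k, .k, .p, .y], []),
  (.negSucc 400548959, [.p, .y, .k, .k, .y, .p], []),
  (.ofNat 200673000, [.p, .y, .k, .p, .p, .z], []),
  (.negSucc 449315279, [.p, .y, .k, .p, .y], []),
  (.ofNat 1138248720, [.p, .y, .k, .p, .z], [.p]),
  (.negSucc 119696039, [.p, .y, .k, .p, .z, .p], []),
  (.ofNat 449315280, [.p, .y, .k, .y, .p], []),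
  (.negSucc 200672999, [.p, .y, .k, .y, .y, .z], []),
  (.negSucc 289347839, [.p, .y, .k, .y, .z], [.y]),
  (.ofNat 119696040, [.p, .y, .k, .y, .z, .y], []),
  (.negSucc 848900879, [.p, .y, .k, .z, .p], [.p]),
  (.ofNat 249747840, [.p, .y, .p], [.p, .y, .p]),
  (.negSucc 1962256319, [.p, .y, .p], [.p, .z]),
  (.negSucc 614980799, [.p, .y, .p], [.y]),
  (.negSucc 22204799, [.p, .y, .p], [.z, .y, .z]),
  (.negSucc 162823679, [.p, .y, .p, .p, .p, .y], []),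
  (.negSucc 64828799, [.p, .y, .p, .p, .y], [.p]),
  (.negSucc 233220959, [.p, .y, .p, .p, .y, .p], []),
  (.negSucc 117535679, [.p, .y, .p, .p, .z], []),
  (.ofNat 493372800, [.p, .y, .p, .y], []),
  (.negSucc 125971199, [.p, .y, .p, .y, .p], [.p]),
  (.negSucc 125971199, [.p, .y, .p, .y, .z], [.z]),
  (.negSucc 1767116159, [.p, .y, .p, .z], [.p]),
  (.negSucc 34522559, [.p, .y, .p, .z], [.y, .z]),
  (.negSucc 323904959, [.p, .y, .p, .z], [.z, .y]),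
  (.ofNat 258347520, [.p, .y, .p, .z, .p], []),
  (.ofNat 255574080, [.p, .y, .p, .z, .y], [.z]),
  (.negSucc 233220959, [.p, .y, .p, .z, .y, .z], []),
  (.negSucc 162823679, [.p, .y, .p, .z, .z, .y], []),
  (.ofNat 1519773120, [.p, .y, .y, .p], []),
  (.negSucc 320402879, [.p, .y, .y, .p, .z], [.z]),
  (.ofNat 98533440, [.p, .y, .y, .y, .p], [.y]),
  (.ofNat 344926080, [.p, .y, .y, .y, .y, .p], []),
  (.negSucc 140811839, [.p, .y, .y, .y, .z], []),
  (.ofNat 109537920, [.p, .y, .y, .z], [.p, .z]),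
  (.negSucc 289451519, [.p, .y, .y, .z], [.y]),
  (.negSucc 1603841759, [.p, .y, .y, .z], [.z, .p]),
  (.negSucc 98533439, [.p, .y, .y, .z, .p], [.z]),
  (.negSucc 344926079, [.p, .y, .y, .z, .z, .p], []),
  (.ofNat 224910720, [.p, .y, .z], []),
  (.ofNat 219271680, [.p, .y, .z], [.p, .z, .y]),
  (.negSucc 50460479, [.p, .y, .z], [.y, .z, .p]),
  (.ofNat 271952640, [.p, .y, .z], [.z, .y, .p]),
  (.ofNat 1221137280, [.p, .y, .z, .p], [.p]),
  (.negSucc 369565919, [.p, .y, .z, .p], [.z, .y])]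

set_option maxRecDepth 100000 in
theorem cA2 : blkOK smulL e2 gA2 wA2 = true := by decide +kernel

end Pool.Agent.H14Z
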