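import Pool.Agent.Lib.H14Z.E3
import Pool.Agent.Lib.H2AF.A3

/-! # Certificate A, block 3 (P1_B1, sq, size 27): the word form of the block -/

namespace Pool.Agent.H14Z

open Pool.Agent.H2AF

/-- The value of the block, one word pair per class. -/
def wA3 : E :=
 [(.ofNat 529102080, [.k], [.p, .k, .p, .p, .p]),
  (.ofNat 529102080, [.k], [.p, .k, .p, .y, .y]),
  (.ofNat 336918240, [.k], [.p, .p, .k, .p, .p]),
  (.ofNat 336918240, [.k], [.p, .p, .k, .y, .y]),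
  (.negSucc 257604479, [.k], [.p, .p, .p, .p]),
  (.ofNat 135331200, [.k], [.p, .p, .p, .y, .z]),
  (.negSucc 111669839, [.k], [.p, .p, .y, .p, .z]),
  (.negSucc 257604479, [.k], [.p, .p, .y, .y]),
  (.negSucc 247001039, [.k], [.p, .p, .y, .z, .p]),
  (.ofNat 1856030040, [.k, .k], [.p, .p, .p, .p]),
  (.ofNat 1856030040, [.k, .k], [.p, .p, .y, .y]),
  (.negSucc 214260479, [.k, .k, .p], [.p, .p, .p]),
  (.negSucc 214260479, [.k, .k, .p], [.p, .y, .y]),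
  (.ofNat 1324010880, [.k, .k, .p, .p], [.p, .p]),
  (.ofNat 1324010880, [.k, .k, .p, .p], [.y, .y]),
  (.negSucc 1581243119, [.k, .p], [.p, .k, .p, .p]),
  (.negSucc 947013119, [.k, .p], [.p, .k, .y, .y]),
  (.negSucc 741231359, [.k, .p], [.p, .p, .k, .p]),
  (.negSucc 564059519, [.k, .p], [.p, .p, .p]),
  (.negSucc 53527679, [.k, .p], [.p, .p, .y, .z]),
  (.negSucc 322427519, [.k, .p], [.p, .y, .k, .y]),
  (.ofNat 830214720, [.k, .p], [.p, .y, .p, .z]),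
  (.negSucc 380286719, [.k, .p], [.p, .y, .y]),
  (.ofNat 1036240560, [.k, .p], [.p, .y, .z, .p]),
  (.negSucc 634229999, [.k, .p], [.y, .k, .y, .p]),
  (.ofNat 429830640, [.k, .p], [.y, .p, .z, .p]),
  (.negSucc 418803839, [.k, .p], [.y, .y, .k, .p]),
  (.negSucc 183772799, [.k, .p], [.y, .y, .p]),
  (.ofNat 311626800, [.k, .p], [.y, .z, .p, .p]),
  (.ofNat 447199920, [.k, .p], [.y, .z, .y, .y]),
  (.ofNat 412905600, [.k, .p], [.y, .z, .z, .z]),
  (.negSucc 1458472319, [.k, .p, .k], [.p, .p, .p]),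
  (.negSucc 1458472319, [.k, .p, .k], [.p, .y, .y]),
  (.ofNat 3005660160, [.k, .p, .k, .p], [.p, .p]),
  (.ofNat 1538023680, [.k, .p, .k, .p], [.y, .y]),
  (.negSucc 905091839, [.k, .p, .k, .p, .p], [.p]),
  (.ofNat 1467636480, [.k, .p, .k, .y], [.y, .p]),
  (.negSucc 905091839, [.k, .p, .k, .y, .y], [.p]),
  (.negSucc 2570440319, [.k, .p, .p], [.k, .p, .p]),
  (.negSucc 1781850239, [.k, .p, .p], [.k, .y, .y]),
  (.negSucc 517524479, [.k, .p, .p], [.p, .k, .p]),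
  (.negSucc 289658879, [.k, .p, .p], [.p, .p]),
  (.negSucc 1168813439, [.k, .p, .p], [.p, .p, .k]),
  (.negSucc 903559679, [.k, .p, .p], [.p, .y, .z]),
  (.negSucc 329506559, [.k, .p, .p], [.y, .k, .y]),
  (.ofNat 352789920, [.k, .p, .p], [.y, .p, .z]),
  (.negSucc 64033919, [.k, .p, .p], [.y, .y]),
  (.negSucc 1168813439, [.k, .p, .p], [.y, .y, .k]),
  (.ofNat 1040061600, [.k, .p, .p], [.y, .z, .p]),
  (.ofNat 3255349680, [.k, .p, .p, .k], [.p, .p]),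
  (.ofNat 1832941440, [.k, .p, .p, .k], [.y, .y]),
  (.negSucc 864375119, [.k, .p, .p, .k, .p], [.p]),
  (.ofNat 331819200, [.k, .p, .p, .k, .p, .p], []),
  (.ofNat 39242160, [.k, .p, .p, .k, .y], [.y]),
  (.ofNat 331819200, [.k, .p, .p, .k, .y, .y], []),
  (.ofNat 276606720, [.k, .p, .p, .p], [.k, .p]),
  (.negSucc 28748159, [.k, .p, .p, .p], [.p]),
  (.ofNat 934986240, [.k, .p, .p, .p], [.p, .k]),
  (.ofNat 890056080, [.k, .p, .p, .p], [.y, .z]),
  (.ofNat 269349120, [.k, .p, .p, .p, .k], [.p]),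
  (.ofNat 390557280, [.k, .p, .p, .p, .k, .p], []),
  (.ofNat 93479040, [.k, .p, .p, .p, .p], []),
  (.negSucc 2825435519, [.k, .p, .p, .p, .p], [.k]),
  (.ofNat 1674544080, [.k, .p, .p, .p, .p, .k], []),
  (.negSucc 95481359, [.k, .p, .p, .p, .y], [.z]),
  (.ofNat 86391360, [.k, .p, .p, .p, .y, .z], []),
  (.ofNat 523520640, [.k, .p, .p, .y], [.k, .y]),
  (.ofNat 127674000, [.k, .p, .p, .y], [.p, .z]),
  (.negSucc 240065279, [.k, .p, .p, .y], [.y]),
  (.ofNat 934986240, [.k, .p, .p, .y], [.y, .k]),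
  (.negSucc 512726399, [.k, .p, .p, .y], [.z, .p]),
  (.ofNat 269349120, [.k, .p, .p, .y, .k], [.y]),
  (.ofNat 390557280, [.k, .p, .p, .y, .k, .y], []),
  (.negSucc 287659439, [.k, .p, .p, .y, .p], [.z]),
  (.ofNat 445439520, [.k, .p, .p, .y, .p, .z], []),
  (.ofNat 93479040, [.k, .p, .p, .y, .y], []),
  (.negSucc 2825435519, [.k, .p, .p, .y, .y], [.k]),
  (.ofNat 1674544080, [.k, .p, .p, .y, .y, .k], []),
  (.negSucc 58146479, [.k, .p, .p, .y, .z], [.p]),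
  (.ofNat 359048160, [.k, .p, .p, .y, .z, .p], []),
  (.negSucc 788590079, [.k, .p, .y], [.k, .y, .p]),
  (.negSucc 743644799, [.k, .p, .y], [.p, .z, .p]),
  (.negSucc 188017919, [.k, .p, .y], [.y, .k, .p]),
  (.negSucc 225624959, [.k, .p, .y], [.y, .p]),
  (.negSucc 832150799, [.k, .p, .y], [.z, .p, .p]),
  (.negSucc 471037679, [.k, .p, .y], [.z, .y, .y]),
  (.negSucc 166243679, [.k, .p, .y], [.z, .z, .z]),
  (.ofNat 1422408240, [.k, .p, .y, .k], [.y, .p]),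
  (.negSucc 903617279, [.k, .p, .y, .k, .y], [.p]),
  (.ofNat 718331760, [.k, .p, .y, .p], [.z, .p]),
  (.negSucc 212487119, [.k, .p, .y, .p, .z], [.p]),
  (.negSucc 246913919, [.k, .p, .y, .y], [.k, .p]),
  (.ofNat 211317120, [.k, .p, .y, .y], [.p]),
  (.negSucc 19697039, [.k, .p, .y, .z], [.p, .p]),
  (.negSucc 268914239, [.k, .p, .y, .z], [.y, .y]),
  (.ofNat 219458880, [.k, .p, .y, .z], [.z, .z]),
  (.negSucc 346518719, [.k, .p, .y, .z, .p], [.p]),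
  (.ofNat 2614474800, [.p, .k, .k, .p], [.p, .p]),
  (.negSucc 1879666559, [.p, .k, .k, .p, .p], [.p]),
  (.ofNat 2614474800, [.p, .k, .k, .y], [.y, .p]),
  (.negSucc 1879666559, [.p, .k, .k, .y, .y], [.p]),
  (.negSucc 1478560319, [.p, .k, .p], [.p, .k, .p]),
  (.negSucc 280771199, [.p, .k, .p], [.p, .p]),
  (.negSucc 1264043519, [.p, .k, .p], [.p, .y, .z]),
  (.ofNat 463590720, [.p, .k, .p], [.y, .k, .y]),
  (.ofNat 97464960, [.p, .k, .p], [.y, .p, .z]),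
  (.negSucc 43678079, [.p, .k, .p], [.y, .y]),
  (.negSucc 1115400959, [.p, .k, .p, .k, .p], [.p]),
  (.ofNat 1157574960, [.p, .k, .p, .k, .p, .p], []),
  (.negSucc 1115400959, [.p, .k, .p, .k, .y], [.y]),
  (.ofNat 1157574960, [.p, .k, .p, .k, .y, .y], []),
  (.ofNat 1187850240, [.p, .k, .p, .p], [.p]),
  (.ofNat 82170720, [.p, .k, .p, .p], [.y, .z]),
  (.ofNat 640540560, [.p, .k, .p, .p, .k, .p], []),
  (.negSucc 9671039, [.p, .k, .p, .p, .p], []),
  (.ofNat 170082720, [.p, .k, .p, .p, .y], [.z]),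
  (.negSucc 126897839, [.p, .k, .p, .p, .y, .z], []),
  (.ofNat 30075120, [.p, .k, .p, .y], [.p, .z]),
  (.ofNat 240122880, [.p, .k, .p, .y], [.y]),
  (.negSucc 1967070959, [.p, .k, .p, .y], [.z, .p]),
  (.ofNat 640540560, [.p, .k, .p, .y, .k, .y], []),
  (.negSucc 56549519, [.p, .k, .p, .y, .p], [.z]),
  (.ofNat 171921600, [.p, .k, .p, .y, .p, .z], []),
  (.negSucc 9671039, [.p, .k, .p, .y, .y], []),
  (.ofNat 399497760, [.p, .k, .p, .y, .z], [.p]),
  (.ofNat 298819440, [.p, .k, .p, .y, .z, .p], []),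
  (.ofNat 137257920, [.p, .k, .y], [.p, .z, .p]),
  (.negSucc 1942151039, [.p, .k, .y], [.y, .k, .p]),
  (.negSucc 237093119, [.p, .k, .y], [.y, .p]),
  (.negSucc 1498766399, [.p, .k, .y], [.y, .y, .z]),
  (.negSucc 178685999, [.p, .k, .y, .p], [.z, .p]),
  (.negSucc 410894639, [.p, .k, .y, .p, .z], [.p]),
  (.ofNat 947727360, [.p, .k, .y, .y], [.p]),
  (.negSucc 21626639, [.p, .k, .y, .y], [.y, .z]),
  (.ofNat 35702640, [.p, .k, .y, .y], [.z, .y]),
  (.ofNat 1678960080, [.p, .k, .y, .z], [.p, .p]),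
  (.negSucc 1037024639, [.p, .k, .y, .z, .p], [.p]),
  (.negSucc 130367627, [.p, .p], [.p, .p]),
  (.negSucc 43591679, [.p, .p], [.p, .y, .z]),
  (.ofNat 134874720, [.p, .p], [.y, .p, .z]),
  (.negSucc 165673439, [.p, .p], [.y, .y]),
  (.ofNat 33318000, [.p, .p], [.y, .z, .y, .z]),
  (.negSucc 518588999, [.p, .p], [.y, .z, .z, .y]),
  (.ofNat 903453120, [.p, .p, .k, .k, .p, .p], []),
  (.ofNat 903453120, [.p, .p, .k, .k, .y, .y], []),
  (.ofNat 172106640, [.p, .p, .k, .p, .p], []),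
  (.ofNat 571750560, [.p, .p, .k, .p, .y], [.z]),
  (.negSucc 388200959, [.p, .p, .k, .p, .y, .z], []),
  (.ofNat 128633760, [.p, .p, .k, .y, .p], [.z]),
  (.ofNat 57238560, [.p, .p, .k, .y, .p, .z], []),
  (.ofNat 172106640, [.p, .p, .k, .y, .y], []),
  (.negSucc 443116799, [.p, .p, .k, .y, .z], [.p]),
  (.ofNat 445439520, [.p, .p, .k, .y, .z, .p], []),
  (.negSucc 23833439, [.p, .p, .p], [.p]),
  (.negSucc 361119599, [.p, .p, .p], [.y, .z]),
  (.ofNat 177766200, [.p, .p, .p, .p], []),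
  (.negSucc 399851279, [.p, .p, .p, .y], [.z]),
  (.ofNat 133963200, [.p, .p, .p, .y, .z], []),
  (.negSucc 71647199, [.p, .p, .y], [.p, .z]),
  (.negSucc 23833439, [.p, .p, .y], [.y]),
  (.ofNat 509091840, [.p, .p, .y], [.z, .p]),
  (.ofNat 225547920, [.p, .p, .y], [.z, .y, .z]),
  (.negSucc 13386239, [.p, .p, .y], [.z, .z, .y]),
  (.ofNat 48214800, [.p, .p, .y, .p], [.z]),
  (.negSucc 194048639, [.p, .p, .y, .p, .z], []),
  (.ofNat 177766200, [.p, .p, .y, .y], []),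
  (.ofNat 213766560, [.p, .p, .y, .z], [.p]),
  (.ofNat 86341680, [.p, .p, .y, .z], [.y, .z]),
  (.negSucc 114880319, [.p, .p, .y, .z], [.z, .y]),
  (.negSucc 328011839, [.p, .p, .y, .z, .p], []),
  (.ofNat 35305812, [.p, .y], [.y, .p]),
  (.negSucc 41153039, [.p, .y, .p], [.p, .z]),
  (.ofNat 38402640, [.p, .y, .p], [.z, .y, .z]),
  (.negSucc 221896799, [.p, .y, .p, .y, .z], [.z]),
  (.negSucc 57059279, [.p, .y, .p, .z], [.p]),
  (.ofNat 690573600, [.p, .y, .p, .z], [.y, .z]),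
  (.negSucc 135015119, [.p, .y, .p, .z], [.z, .y]),
  (.negSucc 339168239, [.p, .y, .p, .z, .y], [.z]),
  (.ofNat 625680720, [.p, .y, .y, .p, .z], [.z]),
  (.ofNat 237722760, [.p, .y, .y, .z], [.p, .z]),
  (.negSucc 190352159, [.p, .y, .y, .z, .p], [.z]),
  (.ofNat 19941840, [.p, .y, .z], [.p, .y, .z]),
  (.ofNat 89763840, [.p, .y, .z], [.p, .z, .y]),
  (.negSucc 125918639, [.p, .y, .z], [.y, .z, .p]),
  (.ofNat 4790880, [.p, .y, .z], [.z, .y, .p]),
  (.ofNat 177240240, [.p, .y, .z, .p], [.p]),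
  (.negSucc 412776719, [.p, .y, .z, .p], [.y, .z]),
  (.negSucc 247513679, [.p, .y, .z, .p], [.z, .y]),
  (.ofNat 531475200, [.p, .y, .z, .p, .y], [.z]),
  (.negSucc 93446639, [.p, .y, .z, .p, .y, .z], []),
  (.ofNat 337078440, [.p, .y, .z, .p, .z, .y], []),
  (.negSucc 167286239, [.p, .y, .z, .y, .p], [.z]),
  (.ofNat 20272680, [.p, .y, .z, .y, .z, .p], []),
  (.ofNat 11543040, [.p, .y, .z, .z, .p, .y], []),
  (.negSucc 398709359, [.p, .y, .z, .z, .y, .p], [])]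

set_option maxRecDepth 100000 in
theorem cA3 : blkOK smulL e3 gA3 wA3 = true := by decide +kernel

end Pool.Agent.H14Z
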