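import Pool.Agent.Lib.H14Z.E4
import Pool.Agent.Lib.H2AF.A4

/-! # Certificate A, block 4 (P1_T2, sq, size 27): the word form of the block -/

namespace Pool.Agent.H14Z

open Pool.Agent.H2AF

/-- The value of the block, one word pair per class. -/
def wA4 : E :=
 [(.negSucc 1144575359, [.k], [.p, .k, .y, .p, .y]),
  (.negSucc 1144575359, [.k], [.p, .k, .y, .y, .p]),
  (.ofNat 190085760, [.k], [.p, .p, .y, .p, .z]),
  (.ofNat 190085760, [.k], [.p, .p, .y, .z, .p]),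
  (.ofNat 429467760, [.k], [.p, .y, .k, .p, .y]),
  (.ofNat 429467760, [.k], [.p, .y, .k, .y, .p]),
  (.ofNat 345577680, [.k], [.p, .y, .p, .p, .z]),
  (.ofNat 502110720, [.k], [.p, .y, .p, .y]),
  (.ofNat 176569200, [.k], [.p, .y, .p, .z, .p]),
  (.ofNat 502110720, [.k], [.p, .y, .y, .p]),
  (.ofNat 169008480, [.k], [.p, .y, .y, .y, .z]),
  (.negSucc 1626547499, [.k, .k], [.p, .y, .p, .y]),
  (.negSucc 1626547499, [.k, .k], [.p, .y, .y, .p]),
  (.ofNat 544066560, [.k, .k, .p], [.y, .p, .y]),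
  (.ofNat 544066560, [.k, .k, .p], [.y, .y, .p]),
  (.negSucc 749450879, [.k, .k, .p, .y], [.p, .y]),
  (.negSucc 749450879, [.k, .k, .p, .y], [.y, .p]),
  (.ofNat 661415040, [.k, .p], [.p, .k, .y, .y]),
  (.negSucc 102668399, [.k, .p], [.p, .p, .y, .z]),
  (.negSucc 230463359, [.k, .p], [.p, .y, .k, .y]),
  (.negSucc 137473919, [.k, .p], [.p, .y, .p, .z]),
  (.negSucc 586379519, [.k, .p], [.p, .y, .y]),
  (.negSucc 477463679, [.k, .p], [.p, .y, .z, .p]),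
  (.ofNat 2001260160, [.k, .p], [.y, .k, .p, .y]),
  (.ofNat 1339845120, [.k, .p], [.y, .k, .y, .p]),
  (.ofNat 644682240, [.k, .p], [.y, .p, .k, .y]),
  (.ofNat 93167280, [.k, .p], [.y, .p, .p, .z]),
  (.negSucc 1793928959, [.k, .p], [.y, .p, .y]),
  (.negSucc 403608959, [.k, .p], [.y, .p, .z, .p]),
  (.ofNat 875145600, [.k, .p], [.y, .y, .k, .p]),
  (.negSucc 1207549439, [.k, .p], [.y, .y, .p]),
  (.negSucc 60457679, [.k, .p], [.y, .y, .y, .z]),
  (.negSucc 33048719, [.k, .p], [.y, .y, .z, .y]),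
  (.ofNat 55774080, [.k, .p], [.y, .z, .p, .p]),
  (.negSucc 284215679, [.k, .p], [.y, .z, .y, .y]),
  (.negSucc 421516799, [.k, .p], [.y, .z, .z, .z]),
  (.ofNat 2522903040, [.k, .p, .k], [.p, .y, .y]),
  (.ofNat 2522903040, [.k, .p, .k], [.y, .p, .y]),
  (.ofNat 150906240, [.k, .p, .k, .p], [.y, .y]),
  (.ofNat 1194353280, [.k, .p, .k, .p, .y], [.y]),
  (.negSucc 1371876479, [.k, .p, .k, .y], [.p, .y]),
  (.negSucc 1522782719, [.k, .p, .k, .y], [.y, .p]),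
  (.ofNat 1194353280, [.k, .p, .k, .y, .p], [.y]),
  (.ofNat 511542720, [.k, .p, .p], [.k, .y, .y]),
  (.ofNat 319138560, [.k, .p, .p], [.p, .y, .z]),
  (.negSucc 1083853439, [.k, .p, .p], [.y, .k, .y]),
  (.negSucc 57317759, [.k, .p, .p], [.y, .p, .z]),
  (.ofNat 1261123200, [.k, .p, .p], [.y, .y]),
  (.negSucc 144316799, [.k, .p, .p], [.y, .z, .p]),
  (.negSucc 1619722619, [.k, .p, .p, .k], [.y, .y]),
  (.ofNat 1852542720, [.k, .p, .p, .k, .y], [.y]),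
  (.ofNat 302722560, [.k, .p, .p, .p], [.y, .z]),
  (.ofNat 36195840, [.k, .p, .p, .p, .y], [.z]),
  (.negSucc 83519999, [.k, .p, .p, .y], [.k, .y]),
  (.negSucc 492946559, [.k, .p, .p, .y], [.p, .z]),
  (.negSucc 358986239, [.k, .p, .p, .y], [.y]),
  (.negSucc 100241279, [.k, .p, .p, .y], [.z, .p]),
  (.ofNat 854081640, [.k, .p, .p, .y, .k], [.y]),
  (.ofNat 291432960, [.k, .p, .p, .y, .p], [.z]),
  (.negSucc 37039679, [.k, .p, .y], [.k, .p, .y]),
  (.negSucc 548582399, [.k, .p, .y], [.k, .y, .p]),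
  (.negSucc 1097366399, [.k, .p, .y], [.p, .k, .y]),
  (.negSucc 199262879, [.k, .p, .y], [.p, .p, .z]),
  (.ofNat 1867345920, [.k, .p, .y], [.p, .y]),
  (.negSucc 510963839, [.k, .p, .y], [.p, .y, .k]),
  (.ofNat 670957920, [.k, .p, .y], [.p, .z, .p]),
  (.negSucc 13512959, [.k, .p, .y], [.y, .k, .p]),
  (.ofNat 606222720, [.k, .p, .y], [.y, .p]),
  (.negSucc 510963839, [.k, .p, .y], [.y, .p, .k]),
  (.ofNat 741316320, [.k, .p, .y], [.y, .y, .z]),
  (.ofNat 524043360, [.k, .p, .y], [.y, .z, .y]),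
  (.ofNat 340104960, [.k, .p, .y], [.z, .p, .p]),
  (.ofNat 253105920, [.k, .p, .y], [.z, .y, .y]),
  (.ofNat 768355200, [.k, .p, .y], [.z, .z, .z]),
  (.negSucc 1512275579, [.k, .p, .y, .k], [.p, .y]),
  (.ofNat 107447040, [.k, .p, .y, .k], [.y, .p]),
  (.ofNat 1400872320, [.k, .p, .y, .k, .p], [.y]),
  (.negSucc 620072639, [.k, .p, .y, .k, .p, .y], []),
  (.negSucc 451670399, [.k, .p, .y, .k, .y], [.p]),
  (.negSucc 620072639, [.k, .p, .y, .k, .y, .p], []),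
  (.negSucc 848004479, [.k, .p, .y, .p], [.k, .y]),
  (.negSucc 533103119, [.k, .p, .y, .p], [.p, .z]),
  (.negSucc 233101439, [.k, .p, .y, .p], [.y]),
  (.ofNat 710386560, [.k, .p, .y, .p], [.y, .k]),
  (.negSucc 148139999, [.k, .p, .y, .p], [.z, .p]),
  (.ofNat 854081640, [.k, .p, .y, .p, .k], [.y]),
  (.negSucc 502242119, [.k, .p, .y, .p, .k, .y], []),
  (.ofNat 721498320, [.k, .p, .y, .p, .p], [.z]),
  (.negSucc 186531839, [.k, .p, .y, .p, .p, .z], []),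
  (.ofNat 37261440, [.k, .p, .y, .p, .y], []),
  (.ofNat 1177499520, [.k, .p, .y, .p, .y], [.k]),
  (.negSucc 821722859, [.k, .p, .y, .p, .y, .k], []),
  (.negSucc 311299919, [.k, .p, .y, .p, .z], [.p]),
  (.ofNat 48820320, [.k, .p, .y, .p, .z, .p], []),
  (.negSucc 764484479, [.k, .p, .y, .y], [.k, .p]),
  (.ofNat 125884800, [.k, .p, .y, .y], [.p]),
  (.ofNat 710386560, [.k, .p, .y, .y], [.p, .k]),
  (.negSucc 1030916879, [.k, .p, .y, .y], [.y, .z]),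
  (.negSucc 775905119, [.k, .p, .y, .y], [.z, .y]),
  (.negSucc 502242119, [.k, .p, .y, .y, .k, .p], []),
  (.ofNat 37261440, [.k, .p, .y, .y, .p], []),
  (.ofNat 1177499520, [.k, .p, .y, .y, .p], [.k]),
  (.negSucc 821722859, [.k, .p, .y, .y, .p, .k], []),
  (.ofNat 111635280, [.k, .p, .y, .y, .y], [.z]),
  (.negSucc 186531839, [.k, .p, .y, .y, .y, .z], []),
  (.negSucc 347495759, [.k, .p, .y, .y, .z], [.y]),
  (.ofNat 48820320, [.k, .p, .y, .y, .z, .y], []),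
  (.negSucc 558858239, [.k, .p, .y, .z], [.p, .p]),
  (.negSucc 166152959, [.k, .p, .y, .z], [.y, .y]),
  (.negSucc 172771199, [.k, .p, .y, .z], [.z, .z]),
  (.ofNat 533867040, [.k, .p, .y, .z, .p], [.p]),
  (.ofNat 72698400, [.k, .p, .y, .z, .p, .p], []),
  (.ofNat 242434080, [.k, .p, .y, .z, .y], [.y]),
  (.ofNat 72698400, [.k, .p, .y, .z, .y, .y], []),
  (.negSucc 609863039, [.k, .p, .y, .z, .z], [.z]),
  (.negSucc 801732959, [.p, .k, .k, .p], [.y, .y]),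
  (.ofNat 423089280, [.p, .k, .k, .p, .y], [.y]),
  (.negSucc 801732959, [.p, .k, .k, .y], [.p, .y]),
  (.ofNat 423089280, [.p, .k, .k, .y, .p], [.y]),
  (.negSucc 117371519, [.p, .k, .p], [.p, .y, .z]),
  (.negSucc 146208959, [.p, .k, .p], [.y, .k, .y]),
  (.ofNat 339269760, [.p, .k, .p], [.y, .p, .z]),
  (.negSucc 212878079, [.p, .k, .p], [.y, .y]),
  (.negSucc 147715199, [.p, .k, .p, .k, .y], [.y]),
  (.ofNat 327288960, [.p, .k, .p, .p], [.y, .z]),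
  (.negSucc 80190719, [.p, .k, .p, .p, .y], [.z]),
  (.negSucc 378777599, [.p, .k, .p, .y], [.p, .z]),
  (.negSucc 300522239, [.p, .k, .p, .y], [.y]),
  (.ofNat 231361920, [.p, .k, .p, .y], [.z, .p]),
  (.ofNat 138643200, [.p, .k, .p, .y, .p], [.z]),
  (.negSucc 668252159, [.p, .k, .y], [.p, .k, .y]),
  (.negSucc 46915199, [.p, .k, .y], [.p, .p, .z]),
  (.ofNat 370224000, [.p, .k, .y], [.p, .y]),
  (.negSucc 117371519, [.p, .k, .y], [.p, .z, .p]),
  (.negSucc 522043199, [.p, .k, .y], [.y, .k, .p]),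
  (.ofNat 583102080, [.p, .k, .y], [.y, .p]),
  (.negSucc 761604479, [.p, .k, .y], [.y, .y, .z]),
  (.negSucc 375419519, [.p, .k, .y], [.z, .z, .z]),
  (.negSucc 147715199, [.p, .k, .y, .k, .p], [.y]),
  (.negSucc 520488719, [.p, .k, .y, .k, .p, .y], []),
  (.negSucc 520488719, [.p, .k, .y, .k, .y, .p], []),
  (.negSucc 127028159, [.p, .k, .y, .p], [.p, .z]),
  (.negSucc 1890691199, [.p, .k, .y, .p], [.y]),
  (.ofNat 379618560, [.p, .k, .y, .p], [.z, .p]),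
  (.negSucc 948671639, [.p, .k, .y, .p, .k, .y], []),
  (.negSucc 7993439, [.p, .k, .y, .p, .p], [.z]),
  (.negSucc 117746639, [.p, .k, .y, .p, .p, .z], []),
  (.ofNat 585797760, [.p, .k, .y, .p, .y], []),
  (.negSucc 294016319, [.p, .k, .y, .p, .z], [.p]),
  (.ofNat 63090000, [.p, .k, .y, .p, .z, .p], []),
  (.negSucc 1590168959, [.p, .k, .y, .y], [.p]),
  (.ofNat 165090240, [.p, .k, .y, .y], [.y, .z]),
  (.negSucc 179032319, [.p, .k, .y, .y], [.z, .y]),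
  (.negSucc 948671639, [.p, .k, .y, .y, .k, .p], []),
  (.ofNat 585797760, [.p, .k, .y, .y, .p], []),
  (.ofNat 430791840, [.p, .k, .y, .y, .y], [.z]),
  (.negSucc 117746639, [.p, .k, .y, .y, .y, .z], []),
  (.negSucc 213825599, [.p, .k, .y, .y, .z], [.y]),
  (.ofNat 63090000, [.p, .k, .y, .y, .z, .y], []),
  (.negSucc 920141999, [.p, .k, .y, .z], [.p, .p]),
  (.negSucc 1140836399, [.p, .k, .y, .z], [.y, .y]),
  (.negSucc 307353599, [.p, .k, .y, .z], [.z, .z]),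
  (.negSucc 1375919, [.p, .k, .y, .z, .p], [.p]),
  (.ofNat 655851600, [.p, .k, .y, .z, .p, .p], []),
  (.negSucc 140019119, [.p, .k, .y, .z, .y], [.y]),
  (.ofNat 655851600, [.p, .k, .y, .z, .y, .y], []),
  (.ofNat 438785280, [.p, .k, .y, .z, .z], [.z]),
  (.negSucc 296128799, [.p, .p], [.p, .y, .p, .y]),
  (.negSucc 268504199, [.p, .p], [.p, .y, .y, .p]),
  (.ofNat 67242240, [.p, .p], [.p, .y, .z]),
  (.negSucc 410464079, [.p, .p], [.y, .p, .p, .y]),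
  (.ofNat 106554240, [.p, .p], [.y, .p, .z]),
  (.negSucc 553258439, [.p, .p], [.y, .y]),
  (.ofNat 234508320, [.p, .p], [.y, .z, .y, .z]),
  (.ofNat 240773760, [.p, .p], [.y, .z, .z, .y]),
  (.negSucc 309709439, [.p, .p, .k, .p, .y], [.z]),
  (.negSucc 309709439, [.p, .p, .k, .y, .p], [.z]),
  (.ofNat 219842640, [.p, .p, .p], [.p, .y, .y]),
  (.negSucc 144118799, [.p, .p, .p], [.y, .p, .y]),
  (.negSucc 800858879, [.p, .p, .p], [.y, .z]),
  (.negSucc 397340999, [.p, .p, .p, .p], [.y, .y]),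
  (.ofNat 469124640, [.p, .p, .p, .p, .y], [.y]),
  (.negSucc 82795679, [.p, .p, .p, .y], [.p, .y]),
  (.negSucc 344319119, [.p, .p, .p, .y], [.y, .p]),
  (.ofNat 682536960, [.p, .p, .p, .y], [.z]),
  (.ofNat 172388160, [.p, .p, .p, .y, .p], [.y]),
  (.ofNat 416970000, [.p, .p, .y], [.p, .p, .y]),
  (.negSucc 118758959, [.p, .p, .y], [.p, .y, .p]),
  (.negSucc 907741439, [.p, .p, .y], [.p, .z]),
  (.ofNat 769942080, [.p, .p, .y], [.y]),
  (.negSucc 94712399, [.p, .p, .y], [.y, .p, .p]),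
  (.negSucc 125130239, [.p, .p, .y], [.y, .z, .z]),
  (.negSucc 372257279, [.p, .p, .y], [.z, .p]),
  (.ofNat 185855040, [.p, .p, .y], [.z, .y, .z]),
  (.negSucc 328530959, [.p, .p, .y], [.z, .z, .y]),
  (.ofNat 72359280, [.p, .p, .y, .k, .p, .z], []),
  (.ofNat 72359280, [.p, .p, .y, .k, .z, .p], []),
  (.negSucc 363893039, [.p, .p, .y, .p], [.p, .y]),
  (.negSucc 151693199, [.p, .p, .y, .p], [.y, .p]),
  (.ofNat 1436198400, [.p, .p, .y, .p], [.z]),
  (.negSucc 141487919, [.p, .p, .y, .p, .p], [.y]),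
  (.ofNat 79356960, [.p, .p, .y, .p, .p, .y], []),
  (.ofNat 129395520, [.p, .p, .y, .p, .y], [.p]),
  (.ofNat 70182720, [.p, .p, .y, .p, .y, .p], []),
  (.negSucc 294629759, [.p, .p, .y, .p, .z], []),
  (.ofNat 327791880, [.p, .p, .y, .y], [.p, .p]),
  (.ofNat 69549120, [.p, .p, .y, .y], [.z, .z]),
  (.ofNat 219736800, [.p, .p, .y, .y, .p], [.p]),
  (.negSucc 258766919, [.p, .p, .y, .y, .p, .p], []),
  (.negSucc 688861439, [.p, .p, .y, .y, .z], [.z]),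
  (.ofNat 258766920, [.p, .p, .y, .y, .z, .z], []),
  (.ofNat 832521600, [.p, .p, .y, .z], [.p]),
  (.negSucc 38553839, [.p, .p, .y, .z], [.y, .z]),
  (.ofNat 253283760, [.p, .p, .y, .z], [.z, .y]),
  (.negSucc 294629759, [.p, .p, .y, .z, .p], []),
  (.negSucc 301783679, [.p, .p, .y, .z, .y], [.z]),
  (.negSucc 70182719, [.p, .p, .y, .z, .y, .z], []),
  (.ofNat 141487920, [.p, .p, .y, .z, .z], [.y]),
  (.negSucc 79356959, [.p, .p, .y, .z, .z, .y], []),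
  (.negSucc 678860999, [.p, .y], [.p, .y]),
  (.negSucc 125602559, [.p, .y], [.y, .p]),
  (.negSucc 529376039, [.p, .y, .k, .k, .p, .y], []),
  (.negSucc 529376039, [.p, .y, .k, .k, .y, .p], []),
  (.negSucc 155511719, [.p, .y, .k, .p, .p, .z], []),
  (.ofNat 105431040, [.p, .y, .k, .p, .y], []),
  (.negSucc 145619999, [.p, .y, .k, .p, .z], [.p]),
  (.negSucc 13065479, [.p, .y, .k, .p, .z, .p], []),
  (.ofNat 105431040, [.p, .y, .k, .y, .p], []),
  (.negSucc 155511719, [.p, .y, .k, .y, .y, .z], []),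
  (.negSucc 409260959, [.p, .y, .k, .y, .z], [.y]),
  (.negSucc 13065479, [.p, .y, .k, .y, .z, .y], []),
  (.ofNat 263640960, [.p, .y, .k, .z, .p], [.p]),
  (.ofNat 69783840, [.p, .y, .p], [.p, .y, .p]),
  (.ofNat 304686720, [.p, .y, .p], [.p, .z]),
  (.ofNat 769942080, [.p, .y, .p], [.y]),
  (.ofNat 23251680, [.p, .y, .p], [.z, .y, .z]),
  (.negSucc 264527639, [.p, .y, .p, .p, .p, .y], []),
  (.ofNat 155089440, [.p, .y, .p, .p, .y], [.p]),
  (.negSucc 187230239, [.p, .y, .p, .p, .y, .p], []),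
  (.ofNat 233696160, [.p, .y, .p, .p, .z], []),
  (.negSucc 152291879, [.p, .y, .p, .y], []),
  (.ofNat 9936000, [.p, .y, .p, .y, .p], [.p]),
  (.negSucc 9935999, [.p, .y, .p, .y, .z], [.z]),
  (.negSucc 112683599, [.p, .y, .p, .z], [.p]),
  (.ofNat 110609280, [.p, .y, .p, .z], [.y, .z]),
  (.ofNat 266417280, [.p, .y, .p, .z], [.z, .y]),
  (.ofNat 73596240, [.p, .y, .p, .z, .p], []),
  (.negSucc 38316959, [.p, .y, .p, .z, .y], [.z]),
  (.ofNat 187230240, [.p, .y, .p, .z, .y, .z], []),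
  (.ofNat 264527640, [.p, .y, .p, .z, .z, .y], []),
  (.negSucc 152291879, [.p, .y, .y, .p], []),
  (.negSucc 116772479, [.p, .y, .y, .p, .z], [.z]),
  (.negSucc 41032799, [.p, .y, .y, .y, .p], [.y]),
  (.ofNat 216429480, [.p, .y, .y, .y, .y, .p], []),
  (.ofNat 160099920, [.p, .y, .y, .y, .z], []),
  (.ofNat 68245920, [.p, .y, .y, .z], [.p, .z]),
  (.negSucc 261971279, [.p, .y, .y, .z], [.y]),
  (.ofNat 612823320, [.p, .y, .y, .z], [.z, .p]),
  (.negSucc 41032799, [.p, .y, .y, .z, .p], [.z]),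
  (.ofNat 216429480, [.p, .y, .y, .z, .z, .p], []),
  (.negSucc 88439039, [.p, .y, .z], [.p, .z, .y]),
  (.ofNat 77022720, [.p, .y, .z], [.y, .z, .p]),
  (.negSucc 93035519, [.p, .y, .z], [.z, .y, .p]),
  (.ofNat 70427520, [.p, .y, .z, .p], [.p]),
  (.ofNat 169690320, [.p, .y, .z, .p], [.z, .y])]

set_option maxRecDepth 100000 in
theorem cA4 : blkOK smulL e4 gA4 wA4 = true := by decide +kernel

end Pool.Agent.H14Z
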