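import Pool.Agent.Lib.H14Z.E5
import Pool.Agent.Lib.H2AF.A5

/-! # Certificate A, block 5 (P4_T1, xx, size 13): the word form of the block -/

namespace Pool.Agent.H14Z

open Pool.Agent.H2AF

/-- The value of the block, one word pair per class. -/
def wA5 : E :=
 [(.ofNat 747043200, [.k, .k, .p], [.k, .k, .p]),
  (.ofNat 1305682560, [.k, .k, .p], [.k, .p]),
  (.ofNat 4534761600, [.k, .k, .p], [.k, .p, .k]),
  (.negSucc 708531839, [.k, .k, .p], [.k, .y, .z]),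
  (.negSucc 1676891519, [.k, .k, .p], [.p]),
  (.ofNat 91549440, [.k, .k, .p], [.p, .k]),
  (.ofNat 1898467920, [.k, .k, .p], [.p, .k, .k]),
  (.ofNat 4165585920, [.k, .k, .p], [.p, .p, .p]),
  (.ofNat 449216640, [.k, .k, .p], [.p, .y, .y]),
  (.ofNat 59063040, [.k, .k, .p], [.y, .k, .z]),
  (.negSucc 657342719, [.k, .k, .p], [.y, .p, .y]),
  (.ofNat 732810240, [.k, .k, .p], [.y, .y, .p]),
  (.negSucc 649324799, [.k, .k, .p], [.y, .z]),
  (.ofNat 1597121280, [.k, .k, .p], [.y, .z, .k]),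
  (.ofNat 4798853280, [.k, .p], [.k, .p]),
  (.negSucc 8544257279, [.k, .p], [.p]),
  (.ofNat 5120329392, [.k, .p], [.p, .k]),
  (.ofNat 2315352960, [.k, .p], [.p, .p, .p]),
  (.ofNat 6608897280, [.k, .p], [.p, .y, .y]),
  (.negSucc 4897267199, [.k, .p], [.y, .k, .z]),
  (.ofNat 2110694400, [.k, .p], [.y, .p, .y]),
  (.ofNat 6459235200, [.k, .p], [.y, .y, .p]),
  (.ofNat 17186342400, [.k, .p], [.y, .z]),
  (.negSucc 6852571199, [.k, .p, .k], [.k, .p]),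
  (.ofNat 3884209920, [.k, .p, .k], [.k, .p, .k]),
  (.ofNat 8675470080, [.k, .p, .k], [.k, .y, .z]),
  (.ofNat 2086964640, [.k, .p, .k], [.p]),
  (.ofNat 3543363360, [.k, .p, .k], [.p, .p, .p]),
  (.negSucc 4388371199, [.k, .p, .k], [.p, .y, .y]),
  (.ofNat 2202624000, [.k, .p, .k], [.y, .k, .z]),
  (.negSucc 2150887679, [.k, .p, .k], [.y, .p, .y]),
  (.negSucc 7867811519, [.k, .p, .k], [.y, .z]),
  (.ofNat 1941033600, [.k, .p, .y], [.k, .p, .y]),
  (.negSucc 1941033599, [.k, .p, .y], [.k, .y, .p]),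
  (.negSucc 8518440959, [.k, .p, .y], [.k, .z]),
  (.ofNat 2367437760, [.k, .p, .y], [.p, .k, .y]),
  (.ofNat 2923505280, [.k, .p, .y], [.p, .p, .z]),
  (.negSucc 8329530239, [.k, .p, .y], [.p, .y]),
  (.ofNat 2520915120, [.k, .p, .y], [.p, .y, .k]),
  (.ofNat 1296708480, [.k, .p, .y], [.p, .z, .p]),
  (.negSucc 2367437759, [.k, .p, .y], [.y, .k, .p]),
  (.ofNat 8329530240, [.k, .p, .y], [.y, .p]),
  (.negSucc 2520915119, [.k, .p, .y], [.y, .p, .k]),
  (.negSucc 2923505279, [.k, .p, .y], [.y, .y, .z]),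
  (.negSucc 1296708479, [.k, .p, .y], [.y, .z, .y]),
  (.ofNat 7497250560, [.k, .p, .y], [.z]),
  (.negSucc 9735235199, [.k, .p, .y], [.z, .k]),
  (.ofNat 3065604480, [.k, .p, .y], [.z, .p, .p]),
  (.negSucc 3065604479, [.k, .p, .y], [.z, .y, .y]),
  (.negSucc 222992639, [.k, .p, .y], [.z, .z, .z]),
  (.ofNat 1988544960, [.p], [.p]),
  (.ofNat 317978640, [.p, .k, .y], [.p, .k, .y]),
  (.ofNat 1617217920, [.p, .k, .y], [.p, .p, .z]),
  (.negSucc 2208461759, [.p, .k, .y], [.p, .y]),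
  (.ofNat 725270400, [.p, .k, .y], [.p, .z, .p]),
  (.negSucc 317978639, [.p, .k, .y], [.y, .k, .p]),
  (.ofNat 2208461760, [.p, .k, .y], [.y, .p]),
  (.negSucc 1617217919, [.p, .k, .y], [.y, .y, .z]),
  (.ofNat 2063986560, [.p, .k, .y], [.z]),
  (.negSucc 156228479, [.p, .k, .y], [.z, .z, .z]),
  (.negSucc 1676940479, [.p, .p, .p], [.p]),
  (.ofNat 1883344320, [.p, .p, .p], [.p, .p, .p]),
  (.ofNat 1617649920, [.p, .p, .p], [.p, .y, .y]),
  (.negSucc 929471039, [.p, .p, .p], [.y, .p, .y]),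
  (.ofNat 457372800, [.p, .p, .p], [.y, .z]),
  (.negSucc 1077197759, [.p, .p, .y], [.p, .p, .y]),
  (.negSucc 749485439, [.p, .p, .y], [.p, .y, .p]),
  (.ofNat 5629674240, [.p, .p, .y], [.p, .z]),
  (.negSucc 5714611199, [.p, .p, .y], [.y]),
  (.negSucc 1088141759, [.p, .p, .y], [.y, .p, .p]),
  (.negSucc 1088141759, [.p, .p, .y], [.y, .z, .z]),
  (.negSucc 5629674239, [.p, .p, .y], [.z, .p]),
  (.negSucc 749485439, [.p, .p, .y], [.z, .y, .z]),
  (.negSucc 1077197759, [.p, .p, .y], [.z, .z, .y]),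
  (.ofNat 3898355040, [.p, .y], [.p, .y]),
  (.negSucc 3898355039, [.p, .y], [.y, .p]),
  (.negSucc 7064167679, [.p, .y], [.z]),
  (.negSucc 276577919, [.p, .y, .p], [.p, .y, .p]),
  (.ofNat 2272723200, [.p, .y, .p], [.p, .z]),
  (.negSucc 950592959, [.p, .y, .p], [.y]),
  (.negSucc 276577919, [.p, .y, .p], [.z, .y, .z])]

set_option maxRecDepth 100000 in
theorem cA5 : blkOK tensL e5 gA5 wA5 = true := by decide +kernel

end Pool.Agent.H14Z
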