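import Pool.Agent.Lib.H14Z.E6
import Pool.Agent.Lib.H2AF.A6

/-! # Certificate A, block 6 (T2_m3, loc, size 17): the word form of the block -/

namespace Pool.Agent.H14Z

open Pool.Agent.H2AF

/-- The value of the block, one word pair per class. -/
def wA6 : E :=
 [(.negSucc 343687679, [.k], [.p, .k, .k, .k, .p]),
  (.negSucc 191885759, [.k], [.p, .k, .k, .p]),
  (.ofNat 230817600, [.k], [.p, .k, .k, .y, .z]),
  (.ofNat 9141261120, [.k], [.p, .k, .p]),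
  (.ofNat 49599360, [.k], [.p, .k, .p, .p, .p]),
  (.ofNat 49599360, [.k], [.p, .k, .p, .y, .y]),
  (.ofNat 343687680, [.k], [.p, .k, .y, .k, .z]),
  (.negSucc 140509439, [.k], [.p, .k, .y, .p, .y]),
  (.ofNat 90308160, [.k], [.p, .k, .y, .y, .p]),
  (.ofNat 383771520, [.k], [.p, .k, .y, .z]),
  (.ofNat 1028485440, [.k], [.p, .p]),
  (.ofNat 99288000, [.k], [.p, .p, .p, .p]),
  (.negSucc 49599359, [.k], [.p, .p, .p, .y, .z]),
  (.ofNat 99288000, [.k], [.p, .p, .y, .y]),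
  (.ofNat 49599360, [.k], [.p, .p, .y, .z, .p]),
  (.negSucc 90910079, [.k], [.p, .y, .k, .p, .y]),
  (.negSucc 203780159, [.k], [.p, .y, .k, .y, .p]),
  (.ofNat 41310720, [.k], [.p, .y, .p, .p, .z]),
  (.negSucc 99287999, [.k], [.p, .y, .p, .y]),
  (.negSucc 49599359, [.k], [.p, .y, .p, .z, .p]),
  (.ofNat 92597760, [.k], [.p, .y, .y, .p]),
  (.ofNat 203780160, [.k], [.p, .y, .y, .y, .z]),
  (.ofNat 3049588800, [.k], [.p, .y, .z]),
  (.negSucc 1276315199, [.k, .k], [.k, .p, .k, .p]),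
  (.negSucc 96523199, [.k, .k], [.k, .p, .p]),
  (.negSucc 217992959, [.k, .k], [.k, .p, .p, .k]),
  (.negSucc 120012479, [.k, .k], [.k, .p, .y, .z]),
  (.negSucc 5136073919, [.k, .k], [.p, .k, .k, .p]),
  (.negSucc 868832639, [.k, .k], [.p, .k, .p]),
  (.negSucc 2128864319, [.k, .k], [.p, .k, .y, .z]),
  (.ofNat 4639083840, [.k, .k], [.p, .p]),
  (.ofNat 440354880, [.k, .k], [.p, .y, .p, .y]),
  (.ofNat 1382467680, [.k, .k], [.p, .y, .y, .p]),
  (.negSucc 269622719, [.k, .k], [.p, .y, .z]),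
  (.negSucc 644584319, [.k, .k, .k], [.k, .p, .p]),
  (.negSucc 8797573439, [.k, .k, .k], [.p, .k, .p]),
  (.negSucc 836599679, [.k, .k, .k], [.p, .p]),
  (.negSucc 2936718719, [.k, .k, .k], [.p, .y, .z]),
  (.negSucc 4478843519, [.k, .k, .k, .k], [.p, .p]),
  (.ofNat 3895142400, [.k, .k, .k, .k, .p], [.p]),
  (.ofNat 4342492800, [.k, .k, .k, .p], [.k, .p]),
  (.ofNat 2579374080, [.k, .k, .k, .p], [.p]),
  (.ofNat 112204800, [.k, .k, .k, .p], [.p, .k]),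
  (.ofNat 1414428480, [.k, .k, .k, .p], [.y, .z]),
  (.ofNat 2101780800, [.k, .k, .k, .p, .k], [.p]),
  (.ofNat 850944960, [.k, .k, .k, .p, .y], [.z]),
  (.ofNat 960143040, [.k, .k, .p], [.k, .k, .p]),
  (.ofNat 2066970240, [.k, .k, .p], [.k, .p]),
  (.ofNat 56592000, [.k, .k, .p], [.k, .p, .k]),
  (.negSucc 165006719, [.k, .k, .p], [.k, .y, .z]),
  (.negSucc 4654117439, [.k, .k, .p], [.p]),
  (.ofNat 105788160, [.k, .k, .p], [.p, .k]),
  (.ofNat 1105234560, [.k, .k, .p], [.p, .p, .p]),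
  (.negSucc 4479338879, [.k, .k, .p], [.p, .y, .y]),
  (.ofNat 7391626560, [.k, .k, .p], [.y, .k, .z]),
  (.negSucc 1449990719, [.k, .k, .p], [.y, .p, .y]),
  (.negSucc 138758399, [.k, .k, .p], [.y, .y, .p]),
  (.ofNat 1847672640, [.k, .k, .p], [.y, .z]),
  (.negSucc 247829759, [.k, .k, .p], [.y, .z, .k]),
  (.ofNat 1787368320, [.k, .k, .p, .k], [.k, .p]),
  (.ofNat 202389120, [.k, .k, .p, .k], [.p]),
  (.ofNat 63152640, [.k, .k, .p, .k], [.p, .k]),
  (.ofNat 9784540800, [.k, .k, .p, .k], [.y, .z]),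
  (.negSucc 3895142399, [.k, .k, .p, .k, .y], [.z]),
  (.ofNat 2134506240, [.k, .k, .p, .p], [.p, .p]),
  (.negSucc 1401442559, [.k, .k, .p, .p], [.y, .y]),
  (.negSucc 587793599, [.k, .k, .p, .p, .p], [.p]),
  (.negSucc 758404799, [.k, .k, .p, .p, .y], [.y]),
  (.ofNat 402399360, [.k, .k, .p, .y], [.k, .z]),
  (.negSucc 540875519, [.k, .k, .p, .y], [.p, .y]),
  (.ofNat 2921256000, [.k, .k, .p, .y], [.y, .p]),
  (.negSucc 2136461759, [.k, .k, .p, .y], [.z]),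
  (.ofNat 255116160, [.k, .k, .p, .y], [.z, .k]),
  (.negSucc 2101780799, [.k, .k, .p, .y, .k], [.z]),
  (.negSucc 1609349759, [.k, .k, .p, .y, .p], [.y]),
  (.negSucc 587793599, [.k, .k, .p, .y, .y], [.p]),
  (.negSucc 4405645439, [.k, .p], [.k, .p]),
  (.negSucc 4954521599, [.k, .p], [.p]),
  (.negSucc 1899573119, [.k, .p], [.p, .k]),
  (.negSucc 112204799, [.k, .p], [.p, .k, .y, .y]),
  (.ofNat 993438720, [.k, .p], [.p, .p, .k, .p]),
  (.negSucc 71752319, [.k, .p], [.p, .p, .p]),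
  (.ofNat 638256960, [.k, .p], [.p, .p, .y, .z]),
  (.negSucc 4761115199, [.k, .p], [.p, .y, .k, .y]),
  (.negSucc 126403199, [.k, .p], [.p, .y, .p, .z]),
  (.ofNat 1639837440, [.k, .p], [.p, .y, .y]),
  (.ofNat 1430562240, [.k, .p], [.p, .y, .z, .p]),
  (.ofNat 6337416960, [.k, .p], [.y, .k, .k, .z]),
  (.negSucc 2856637439, [.k, .p], [.y, .k, .p, .y]),
  (.negSucc 4063135679, [.k, .p], [.y, .k, .y, .p]),
  (.negSucc 435093119, [.k, .p], [.y, .k, .z]),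
  (.negSucc 2064870719, [.k, .p], [.y, .p, .k, .y]),
  (.ofNat 303425280, [.k, .p], [.y, .p, .p, .z]),
  (.negSucc 105765119, [.k, .p], [.y, .p, .y]),
  (.ofNat 798661440, [.k, .p], [.y, .p, .z, .p]),
  (.negSucc 2006591039, [.k, .p], [.y, .y, .k, .p]),
  (.negSucc 4529358719, [.k, .p], [.y, .y, .p]),
  (.ofNat 1077750720, [.k, .p], [.y, .y, .y, .z]),
  (.ofNat 2184356160, [.k, .p], [.y, .y, .z, .y]),
  (.negSucc 3739245119, [.k, .p], [.y, .z]),
  (.negSucc 286807679, [.k, .p], [.y, .z, .p, .p]),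
  (.negSucc 139737599, [.k, .p], [.y, .z, .y, .y]),
  (.ofNat 402186240, [.k, .p], [.y, .z, .z, .z]),
  (.ofNat 587992320, [.k, .p, .k], [.k, .y, .z]),
  (.negSucc 2158372799, [.k, .p, .k], [.p]),
  (.negSucc 3430696319, [.k, .p, .k], [.p, .y, .y]),
  (.ofNat 8740981440, [.k, .p, .k], [.y, .k, .z]),
  (.negSucc 437385599, [.k, .p, .k], [.y, .p, .y]),
  (.ofNat 836599680, [.k, .p, .k], [.y, .z]),
  (.negSucc 944153279, [.k, .p, .k, .k, .k, .p], []),
  (.negSucc 569528639, [.k, .p, .k, .k, .p], []),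
  (.ofNat 15577920, [.k, .p, .k, .k, .p], [.k]),
  (.negSucc 319596479, [.k, .p, .k, .k, .p, .k], []),
  (.negSucc 4107908159, [.k, .p, .k, .k, .y], [.z]),
  (.negSucc 132315839, [.k, .p, .k, .k, .y, .z], []),
  (.ofNat 2220468480, [.k, .p, .k, .p], []),
  (.negSucc 260870399, [.k, .p, .k, .p], [.p, .p]),
  (.ofNat 1748508480, [.k, .p, .k, .p], [.y, .y]),
  (.negSucc 497759039, [.k, .p, .k, .p, .p], [.p]),
  (.ofNat 195940800, [.k, .p, .k, .p, .p, .p], []),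
  (.negSucc 1843957439, [.k, .p, .k, .p, .y], [.y]),
  (.ofNat 195940800, [.k, .p, .k, .p, .y, .y], []),
  (.negSucc 3129330239, [.k, .p, .k, .y], [.k, .z]),
  (.ofNat 998421120, [.k, .p, .k, .y], [.p, .y]),
  (.ofNat 2506639680, [.k, .p, .k, .y], [.y, .p]),
  (.negSucc 2781763199, [.k, .p, .k, .y], [.z]),
  (.negSucc 623257919, [.k, .p, .k, .y], [.z, .k]),
  (.negSucc 2101780799, [.k, .p, .k, .y, .k], [.z]),
  (.ofNat 944153280, [.k, .p, .k, .y, .k, .z], []),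
  (.negSucc 1952807039, [.k, .p, .k, .y, .p], [.y]),
  (.ofNat 506252160, [.k, .p, .k, .y, .p, .y], []),
  (.ofNat 31570560, [.k, .p, .k, .y, .y], [.p]),
  (.ofNat 373936320, [.k, .p, .k, .y, .y, .p], []),
  (.ofNat 569528640, [.k, .p, .k, .y, .z], []),
  (.negSucc 15577919, [.k, .p, .k, .y, .z], [.k]),
  (.ofNat 639192960, [.k, .p, .k, .y, .z, .k], []),
  (.ofNat 666051840, [.k, .p, .p], []),
  (.ofNat 629006400, [.k, .p, .p], [.k]),
  (.ofNat 644584320, [.k, .p, .p], [.k, .y, .y]),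
  (.ofNat 2153116800, [.k, .p, .p], [.p, .k, .p]),
  (.negSucc 1970015039, [.k, .p, .p], [.p, .p]),
  (.ofNat 252239040, [.k, .p, .p], [.p, .p, .k]),
  (.negSucc 2301071039, [.k, .p, .p], [.p, .y, .z]),
  (.ofNat 6027474240, [.k, .p, .p], [.y, .k, .y]),
  (.negSucc 1217367359, [.k, .p, .p], [.y, .p, .z]),
  (.ofNat 3370985280, [.k, .p, .p], [.y, .y]),
  (.negSucc 565081919, [.k, .p, .p], [.y, .y, .k]),
  (.negSucc 583332479, [.k, .p, .p], [.y, .z, .p]),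
  (.ofNat 537589440, [.k, .p, .p, .k], []),
  (.ofNat 4696836480, [.k, .p, .p, .k], [.y, .y]),
  (.negSucc 3895142399, [.k, .p, .p, .k, .y], [.y]),
  (.negSucc 286807679, [.k, .p, .p, .p], [.k, .p]),
  (.ofNat 910385280, [.k, .p, .p, .p], [.p]),
  (.ofNat 226909440, [.k, .p, .p, .p], [.p, .k]),
  (.ofNat 422507520, [.k, .p, .p, .p], [.y, .z]),
  (.negSucc 195940799, [.k, .p, .p, .p, .p], []),
  (.negSucc 1346198399, [.k, .p, .p, .p, .y], [.z]),
  (.negSucc 1736421119, [.k, .p, .p, .y], [.k, .y]),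
  (.ofNat 573736320, [.k, .p, .p, .y], [.p, .z]),
  (.negSucc 2274779519, [.k, .p, .p, .y], [.y]),
  (.negSucc 612215999, [.k, .p, .p, .y], [.y, .k]),
  (.ofNat 402125760, [.k, .p, .p, .y], [.z, .p]),
  (.negSucc 2101780799, [.k, .p, .p, .y, .k], [.y]),
  (.negSucc 2197143359, [.k, .p, .p, .y, .p], [.z]),
  (.negSucc 195940799, [.k, .p, .p, .y, .y], []),
  (.negSucc 125081279, [.k, .p, .y], [.k, .p, .y]),
  (.ofNat 25470720, [.k, .p, .y], [.k, .y, .p]),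
  (.negSucc 1970447039, [.k, .p, .y], [.k, .z]),
  (.negSucc 2046343679, [.k, .p, .y], [.p, .k, .y]),
  (.negSucc 965384639, [.k, .p, .y], [.p, .p, .z]),
  (.ofNat 1887482880, [.k, .p, .y], [.p, .y]),
  (.negSucc 317252159, [.k, .p, .y], [.p, .y, .k]),
  (.negSucc 362134079, [.k, .p, .y], [.p, .z, .p]),
  (.ofNat 2333790720, [.k, .p, .y], [.y, .k, .p]),
  (.negSucc 1509321599, [.k, .p, .y], [.y, .p]),
  (.ofNat 252239040, [.k, .p, .y], [.y, .p, .k]),
  (.ofNat 2233653120, [.k, .p, .y], [.y, .y, .z]),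
  (.negSucc 869175359, [.k, .p, .y], [.y, .z, .y]),
  (.negSucc 742069439, [.k, .p, .y], [.z]),
  (.negSucc 9264959, [.k, .p, .y], [.z, .k]),
  (.negSucc 1170247679, [.k, .p, .y], [.z, .y, .y]),
  (.ofNat 792391680, [.k, .p, .y], [.z, .z, .z]),
  (.negSucc 1414535039, [.k, .p, .y, .k], [.k, .z]),
  (.ofNat 78865920, [.k, .p, .y, .k], [.p, .y]),
  (.ofNat 905719680, [.k, .p, .y, .k], [.y, .p]),
  (.negSucc 202389119, [.k, .p, .y, .k], [.z]),
  (.ofNat 944153280, [.k, .p, .y, .k, .k, .z], []),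
  (.negSucc 253422719, [.k, .p, .y, .k, .p], [.y]),
  (.ofNat 702192960, [.k, .p, .y, .k, .p, .y], []),
  (.negSucc 466188479, [.k, .p, .y, .k, .y], [.p]),
  (.ofNat 569877120, [.k, .p, .y, .k, .y, .p], []),
  (.ofNat 569528640, [.k, .p, .y, .k, .z], []),
  (.negSucc 15577919, [.k, .p, .y, .k, .z], [.k]),
  (.negSucc 2018807999, [.k, .p, .y, .p], [.k, .y]),
  (.ofNat 445576320, [.k, .p, .y, .p], [.p, .z]),
  (.negSucc 1133835839, [.k, .p, .y, .p], [.y]),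
  (.negSucc 747319679, [.k, .p, .y, .p], [.y, .k]),
  (.ofNat 1080846720, [.k, .p, .y, .p], [.z, .p]),
  (.ofNat 497759040, [.k, .p, .y, .p, .p], [.z]),
  (.negSucc 195940799, [.k, .p, .y, .p, .p, .z], []),
  (.ofNat 195940800, [.k, .p, .y, .p, .y], []),
  (.ofNat 497759040, [.k, .p, .y, .p, .z], [.p]),
  (.negSucc 195940799, [.k, .p, .y, .p, .z, .p], []),
  (.negSucc 349960319, [.k, .p, .y, .y], [.k, .p]),
  (.negSucc 287521919, [.k, .p, .y, .y], [.p]),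
  (.negSucc 1560458879, [.k, .p, .y, .y], [.p, .k]),
  (.ofNat 1173467520, [.k, .p, .y, .y], [.y, .z]),
  (.negSucc 1958135039, [.k, .p, .y, .y], [.z, .y]),
  (.ofNat 944153280, [.k, .p, .y, .y, .k, .p], []),
  (.ofNat 765469440, [.k, .p, .y, .y, .p], []),
  (.negSucc 15577919, [.k, .p, .y, .y, .p], [.k]),
  (.ofNat 319596480, [.k, .p, .y, .y, .p, .k], []),
  (.negSucc 121605119, [.k, .p, .y, .y, .y], [.z]),
  (.negSucc 569877119, [.k, .p, .y, .y, .y, .z], []),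
  (.ofNat 841216320, [.k, .p, .y, .y, .z], [.y]),
  (.negSucc 702192959, [.k, .p, .y, .y, .z, .y], []),
  (.ofNat 252328320, [.k, .p, .y, .z], []),
  (.negSucc 260870399, [.k, .p, .y, .z], [.p, .p]),
  (.negSucc 2515178879, [.k, .p, .y, .z], [.y, .y]),
  (.ofNat 1894691520, [.k, .p, .y, .z], [.z, .z]),
  (.negSucc 497759039, [.k, .p, .y, .z, .p], [.p]),
  (.ofNat 195940800, [.k, .p, .y, .z, .p, .p], []),
  (.ofNat 587793600, [.k, .p, .y, .z, .y], [.y]),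
  (.negSucc 90034559, [.k, .p, .y, .z, .z], [.z]),
  (.negSucc 195940799, [.k, .p, .y, .z, .z, .z], []),
  (.negSucc 201167999, [.p], [.p]),
  (.negSucc 886972319, [.p, .k, .k, .k, .k, .p], []),
  (.negSucc 968302079, [.p, .k, .k, .k, .p], []),
  (.negSucc 150877439, [.p, .k, .k, .k, .y], [.z]),
  (.negSucc 286810559, [.p, .k, .k, .k, .y, .z], []),
  (.ofNat 5459119200, [.p, .k, .k, .p], []),
  (.negSucc 454020479, [.p, .k, .k, .p], [.p, .p]),
  (.ofNat 4983804000, [.p, .k, .k, .p], [.y, .y]),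
  (.negSucc 879390719, [.p, .k, .k, .p, .p], [.p]),
  (.ofNat 292622400, [.p, .k, .k, .p, .p, .p], []),
  (.negSucc 1851779519, [.p, .k, .k, .p, .y], [.y]),
  (.ofNat 292622400, [.p, .k, .k, .p, .y, .y], []),
  (.ofNat 848220480, [.p, .k, .k, .y], [.p, .y]),
  (.ofNat 1794070080, [.p, .k, .k, .y], [.y, .p]),
  (.negSucc 549227519, [.p, .k, .k, .y], [.z]),
  (.ofNat 1773944640, [.p, .k, .k, .y, .k, .z], []),
  (.negSucc 250012799, [.p, .k, .k, .y, .p], [.y]),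
  (.ofNat 653803200, [.p, .k, .k, .y, .p, .y], []),
  (.ofNat 435562560, [.p, .k, .k, .y, .y], [.p]),
  (.ofNat 366992640, [.p, .k, .k, .y, .y, .p], []),
  (.ofNat 786343680, [.p, .k, .k, .y, .z], []),
  (.ofNat 1837134720, [.p, .k, .p], []),
  (.negSucc 1513958399, [.p, .k, .p], [.p, .p]),
  (.ofNat 1953115200, [.p, .k, .p], [.p, .y, .z]),
  (.negSucc 148936319, [.p, .k, .p], [.y, .k, .y]),
  (.negSucc 1787140799, [.p, .k, .p], [.y, .p, .z]),
  (.ofNat 2779548480, [.p, .k, .p], [.y, .y]),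
  (.negSucc 443828159, [.p, .k, .p, .k, .y], [.y]),
  (.negSucc 1102616639, [.p, .k, .p, .p], [.p]),
  (.ofNat 2159447040, [.p, .k, .p, .p], [.y, .z]),
  (.ofNat 1592640, [.p, .k, .p, .p, .p], []),
  (.negSucc 800544959, [.p, .k, .p, .p, .y], [.z]),
  (.negSucc 1064056319, [.p, .k, .p, .y], [.p, .z]),
  (.ofNat 1213626240, [.p, .k, .p, .y], [.y]),
  (.ofNat 365820480, [.p, .k, .p, .y], [.z, .p]),
  (.negSucc 650459519, [.p, .k, .p, .y, .p], [.z]),
  (.ofNat 1592640, [.p, .k, .p, .y, .y], []),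
  (.ofNat 296867520, [.p, .k, .y], [.p, .k, .y]),
  (.negSucc 2462247359, [.p, .k, .y], [.p, .p, .z]),
  (.ofNat 1431426240, [.p, .k, .y], [.p, .y]),
  (.negSucc 209692799, [.p, .k, .y], [.p, .z, .p]),
  (.negSucc 982175039, [.p, .k, .y], [.y, .p]),
  (.ofNat 2232633600, [.p, .k, .y], [.y, .y, .z]),
  (.ofNat 395513280, [.p, .k, .y], [.z]),
  (.negSucc 77351039, [.p, .k, .y], [.z, .z, .z]),
  (.negSucc 292950719, [.p, .k, .y, .k, .p], [.y]),
  (.ofNat 946425600, [.p, .k, .y, .k, .p, .y], []),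
  (.ofNat 659615040, [.p, .k, .y, .k, .y, .p], []),
  (.ofNat 968302080, [.p, .k, .y, .k, .z], []),
  (.negSucc 869218559, [.p, .k, .y, .p], [.p, .z]),
  (.ofNat 455742720, [.p, .k, .y, .p], [.y]),
  (.ofNat 1367951040, [.p, .k, .y, .p], [.z, .p]),
  (.ofNat 996246720, [.p, .k, .y, .p, .p], [.z]),
  (.negSucc 292622399, [.p, .k, .y, .p, .p, .z], []),
  (.ofNat 627937920, [.p, .k, .y, .p, .y], []),
  (.ofNat 879390720, [.p, .k, .y, .p, .z], [.p]),
  (.negSucc 292622399, [.p, .k, .y, .p, .z, .p], []),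
  (.negSucc 2516042879, [.p, .k, .y, .y], [.p]),
  (.negSucc 174225599, [.p, .k, .y, .y], [.y, .z]),
  (.negSucc 533577599, [.p, .k, .y, .y], [.z, .y]),
  (.ofNat 886972320, [.p, .k, .y, .y, .k, .p], []),
  (.ofNat 1414281600, [.p, .k, .y, .y, .p], []),
  (.ofNat 238432320, [.p, .k, .y, .y, .y], [.z]),
  (.negSucc 659615039, [.p, .k, .y, .y, .y, .z], []),
  (.ofNat 918051840, [.p, .k, .y, .y, .z], [.y]),
  (.negSucc 946425599, [.p, .k, .y, .y, .z, .y], []),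
  (.ofNat 3543528960, [.p, .k, .y, .z], []),
  (.negSucc 584279999, [.p, .k, .y, .z], [.p, .p]),
  (.negSucc 1589595839, [.p, .k, .y, .z], [.y, .y]),
  (.negSucc 3120027839, [.p, .k, .y, .z], [.z, .z]),
  (.negSucc 879390719, [.p, .k, .y, .z, .p], [.p]),
  (.ofNat 292622400, [.p, .k, .y, .z, .p, .p], []),
  (.ofNat 610951680, [.p, .k, .y, .z, .y], [.y]),
  (.ofNat 557138880, [.p, .k, .y, .z, .z], [.z]),
  (.negSucc 292622399, [.p, .k, .y, .z, .z, .z], []),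
  (.ofNat 403686720, [.p, .p], []),
  (.ofNat 486668160, [.p, .p], [.p, .p]),
  (.ofNat 335554560, [.p, .p], [.p, .y, .p, .y]),
  (.ofNat 1287630720, [.p, .p], [.p, .y, .y, .p]),
  (.ofNat 308096640, [.p, .p], [.p, .y, .z]),
  (.ofNat 817935840, [.p, .p], [.y, .p, .p, .y]),
  (.ofNat 833088960, [.p, .p], [.y, .p, .z]),
  (.negSucc 646472159, [.p, .p], [.y, .y]),
  (.negSucc 291542399, [.p, .p], [.y, .z, .y, .z]),
  (.negSucc 161282879, [.p, .p], [.y, .z, .z, .y]),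
  (.ofNat 193896000, [.p, .p, .k, .p, .p], []),
  (.negSucc 1237299839, [.p, .p, .k, .p, .y], [.z]),
  (.negSucc 837887039, [.p, .p, .k, .y, .p], [.z]),
  (.ofNat 193896000, [.p, .p, .k, .y, .y], []),
  (.negSucc 249327359, [.p, .p, .k, .y, .z], [.p]),
  (.ofNat 777948480, [.p, .p, .p], [.p]),
  (.negSucc 281931839, [.p, .p, .p], [.p, .p, .p]),
  (.ofNat 145005120, [.p, .p, .p], [.p, .y, .y]),
  (.ofNat 373907520, [.p, .p, .p], [.y, .p, .y]),
  (.ofNat 968348160, [.p, .p, .p], [.y, .z]),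
  (.negSucc 13602239, [.p, .p, .p, .k, .y, .z], []),
  (.ofNat 48568320, [.p, .p, .p, .p], []),
  (.negSucc 281360159, [.p, .p, .p, .p], [.p, .p]),
  (.ofNat 846809280, [.p, .p, .p, .p], [.y, .y]),
  (.ofNat 134982720, [.p, .p, .p, .p, .p], [.p]),
  (.negSucc 96947999, [.p, .p, .p, .p, .p, .p], []),
  (.negSucc 683688959, [.p, .p, .p, .p, .y], [.y]),
  (.negSucc 193895999, [.p, .p, .p, .p, .y, .y], []),
  (.ofNat 774115200, [.p, .p, .p, .y], [.p, .y]),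
  (.ofNat 414152640, [.p, .p, .p, .y], [.y, .p]),
  (.ofNat 736384320, [.p, .p, .p, .y], [.z]),
  (.negSucc 686712959, [.p, .p, .p, .y, .p], [.y]),
  (.negSucc 22086719, [.p, .p, .p, .y, .p, .y], []),
  (.ofNat 322251840, [.p, .p, .p, .y, .y], [.p]),
  (.negSucc 35688959, [.p, .p, .p, .y, .y, .p], []),
  (.negSucc 280612799, [.p, .p, .p, .y, .z], []),
  (.ofNat 63423360, [.p, .p, .y], [.p, .p, .y]),
  (.ofNat 371373120, [.p, .p, .y], [.p, .y, .p]),
  (.negSucc 364775039, [.p, .p, .y], [.p, .z]),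
  (.ofNat 1055070720, [.p, .p, .y], [.y]),
  (.ofNat 901650240, [.p, .p, .y], [.y, .p, .p]),
  (.ofNat 830064960, [.p, .p, .y], [.y, .z, .z]),
  (.ofNat 2255345280, [.p, .p, .y], [.z, .p]),
  (.ofNat 156542400, [.p, .p, .y], [.z, .y, .z]),
  (.ofNat 71585280, [.p, .p, .y], [.z, .z, .y]),
  (.ofNat 215982720, [.p, .p, .y, .k, .p, .z], []),
  (.ofNat 229584960, [.p, .p, .y, .k, .z, .p], []),
  (.negSucc 564730559, [.p, .p, .y, .p], [.p, .y]),
  (.ofNat 1730839680, [.p, .p, .y, .p], [.y, .p]),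
  (.negSucc 116835839, [.p, .p, .y, .p], [.z]),
  (.ofNat 134982720, [.p, .p, .y, .p, .p], [.y]),
  (.negSucc 193895999, [.p, .p, .y, .p, .p, .y], []),
  (.ofNat 553610880, [.p, .p, .y, .p, .y], [.p]),
  (.negSucc 193895999, [.p, .p, .y, .p, .y, .p], []),
  (.ofNat 171809280, [.p, .p, .y, .p, .z], []),
  (.ofNat 48568320, [.p, .p, .y, .y], []),
  (.ofNat 256965120, [.p, .p, .y, .y], [.p, .p]),
  (.negSucc 139377599, [.p, .p, .y, .y], [.z, .z]),
  (.ofNat 34318080, [.p, .p, .y, .y, .p], [.p]),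
  (.ofNat 96948000, [.p, .p, .y, .y, .p, .p], []),
  (.ofNat 626535360, [.p, .p, .y, .y, .z], [.z]),
  (.ofNat 433702080, [.p, .p, .y, .z], [.p]),
  (.negSucc 621020159, [.p, .p, .y, .z], [.y, .z]),
  (.negSucc 145151999, [.p, .p, .y, .z], [.z, .y]),
  (.ofNat 452422080, [.p, .p, .y, .z, .p], []),
  (.ofNat 759006720, [.p, .p, .y, .z, .y], [.z]),
  (.ofNat 215982720, [.p, .p, .y, .z, .y, .z], []),
  (.negSucc 322251839, [.p, .p, .y, .z, .z], [.y]),
  (.ofNat 229584960, [.p, .p, .y, .z, .z, .y], []),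
  (.negSucc 1815814079, [.p, .y], [.p, .y]),
  (.negSucc 602268479, [.p, .y], [.y, .p]),
  (.negSucc 904757759, [.p, .y], [.z]),
  (.ofNat 649414080, [.p, .y, .k, .k, .p, .y], []),
  (.ofNat 742780800, [.p, .y, .k, .k, .y, .p], []),
  (.negSucc 878999039, [.p, .y, .k, .p, .p, .z], []),
  (.ofNat 435634560, [.p, .y, .k, .p, .y], []),
  (.ofNat 39372480, [.p, .y, .k, .p, .z], [.p]),
  (.negSucc 1047173759, [.p, .y, .k, .p, .z, .p], []),
  (.ofNat 253676160, [.p, .y, .k, .y, .p], []),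
  (.negSucc 883955519, [.p, .y, .k, .y, .y, .z], []),
  (.ofNat 856460160, [.p, .y, .k, .y, .z], [.y]),
  (.negSucc 865396799, [.p, .y, .k, .y, .z, .y], []),
  (.negSucc 304283519, [.p, .y, .k, .z, .p], [.p]),
  (.negSucc 281931839, [.p, .y, .p], [.p, .y, .p]),
  (.negSucc 2322025919, [.p, .y, .p], [.p, .z]),
  (.negSucc 34125119, [.p, .y, .p], [.y]),
  (.ofNat 843310080, [.p, .y, .p, .p, .p, .y], []),
  (.negSucc 288699839, [.p, .y, .p, .p, .y], [.p]),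
  (.ofNat 505742400, [.p, .y, .p, .p, .y, .p], []),
  (.negSucc 478177919, [.p, .y, .p, .p, .z], []),
  (.negSucc 1138337279, [.p, .y, .p, .y], []),
  (.ofNat 134982720, [.p, .y, .p, .y, .p], [.p]),
  (.negSucc 553610879, [.p, .y, .p, .y, .z], [.z]),
  (.ofNat 819230400, [.p, .y, .p, .z], [.p]),
  (.ofNat 546779520, [.p, .y, .p, .z], [.y, .z]),
  (.ofNat 802477440, [.p, .y, .p, .z], [.z, .y]),
  (.negSucc 64630079, [.p, .y, .p, .z, .p], []),
  (.ofNat 670466880, [.p, .y, .p, .z, .y], [.z]),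
  (.negSucc 215982719, [.p, .y, .p, .z, .y, .z], []),
  (.negSucc 445567679, [.p, .y, .p, .z, .z, .y], []),
  (.negSucc 1609889759, [.p, .y, .y, .p], []),
  (.negSucc 304283519, [.p, .y, .y, .p, .z], [.z]),
  (.ofNat 437832000, [.p, .y, .y, .y, .p], [.y]),
  (.negSucc 430934399, [.p, .y, .y, .y, .y, .p], []),
  (.negSucc 231589439, [.p, .y, .y, .y, .z], []),
  (.ofNat 416520000, [.p, .y, .y, .z], [.p, .z]),
  (.negSucc 149135039, [.p, .y, .y, .z], [.y]),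
  (.ofNat 445812480, [.p, .y, .y, .z], [.z, .p]),
  (.ofNat 421139520, [.p, .y, .y, .z, .p], [.z]),
  (.negSucc 229584959, [.p, .y, .y, .z, .z, .p], []),
  (.ofNat 451581120, [.p, .y, .z], []),
  (.ofNat 88787520, [.p, .y, .z], [.p, .z, .y]),
  (.ofNat 673522560, [.p, .y, .z], [.y, .z, .p]),
  (.negSucc 901650239, [.p, .y, .z], [.z, .y, .p]),
  (.negSucc 424871999, [.p, .y, .z, .p], [.p]),
  (.negSucc 38491199, [.p, .y, .z, .p], [.z, .y])]

set_option maxRecDepth 100000 in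
theorem cA6 : blkOK locL e6 gA6 wA6 = true := by decide +kernel

end Pool.Agent.H14Z
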