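import Pool.Agent.Lib.H14Z.E7
import Pool.Agent.Lib.H2AF.A7

/-! # Certificate A, block 7 (T2_m1, loc, size 37): the word form of the block -/

namespace Pool.Agent.H14Z

open Pool.Agent.H2AF

/-- The value of the block, one word pair per class. -/
def wA7 : E :=
 [(.ofNat 17176929696, [], []),
  (.ofNat 14879485152, [.k], []),
  (.negSucc 14709861759, [.k], [.k]),
  (.negSucc 5520607199, [.k], [.p, .k, .k, .k, .p]),
  (.ofNat 1459467360, [.k], [.p, .k, .k, .p]),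
  (.negSucc 6800641919, [.k], [.p, .k, .k, .y, .z]),
  (.ofNat 2840474880, [.k], [.p, .k, .p]),
  (.negSucc 8134100639, [.k], [.p, .k, .p, .p, .p]),
  (.ofNat 2496830400, [.k], [.p, .k, .p, .y, .y]),
  (.ofNat 793696320, [.k], [.p, .k, .y, .k, .z]),
  (.negSucc 49740479, [.k], [.p, .k, .y, .p, .y]),
  (.ofNat 1244471040, [.k], [.p, .k, .y, .y, .p]),
  (.ofNat 6155064000, [.k], [.p, .k, .y, .z]),
  (.ofNat 7628757408, [.k], [.p, .p]),
  (.negSucc 1672824959, [.k], [.p, .p, .k, .p, .p]),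
  (.negSucc 1223320319, [.k], [.p, .p, .k, .y, .y]),
  (.negSucc 1659995999, [.k], [.p, .p, .p, .p]),
  (.negSucc 4907718719, [.k], [.p, .p, .p, .y, .z]),
  (.ofNat 727508160, [.k], [.p, .p, .y, .p, .z]),
  (.ofNat 1732279680, [.k], [.p, .p, .y, .y]),
  (.ofNat 1006300800, [.k], [.p, .p, .y, .z, .p]),
  (.ofNat 685961280, [.k], [.p, .y, .k, .p, .y]),
  (.negSucc 685961279, [.k], [.p, .y, .k, .y, .p]),
  (.negSucc 1680255359, [.k], [.p, .y, .p, .p, .z]),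
  (.ofNat 2105645760, [.k], [.p, .y, .p, .y]),
  (.negSucc 624142079, [.k], [.p, .y, .p, .z, .p]),
  (.ofNat 199808640, [.k], [.p, .y, .y, .p]),
  (.ofNat 2304397440, [.k], [.p, .y, .y, .y, .z]),
  (.negSucc 6306376319, [.k], [.p, .y, .z]),
  (.negSucc 9375978383, [.k, .k], []),
  (.ofNat 3311248608, [.k, .k], [.k]),
  (.ofNat 23573025648, [.k, .k], [.k, .k]),
  (.negSucc 18900290879, [.k, .k], [.k, .p, .k, .p]),
  (.ofNat 14319756000, [.k, .k], [.k, .p, .p]),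
  (.negSucc 36618354719, [.k, .k], [.k, .p, .p, .k]),
  (.negSucc 4703581439, [.k, .k], [.k, .p, .y, .z]),
  (.negSucc 18498034799, [.k, .k], [.p, .k, .k, .p]),
  (.ofNat 19925930880, [.k, .k], [.p, .k, .p]),
  (.negSucc 10629480959, [.k, .k], [.p, .k, .y, .z]),
  (.ofNat 24456226608, [.k, .k], [.p, .p]),
  (.negSucc 17228616479, [.k, .k], [.p, .p, .p, .p]),
  (.ofNat 10900329120, [.k, .k], [.p, .p, .y, .y]),
  (.negSucc 9024311519, [.k, .k], [.p, .y, .p, .y]),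
  (.ofNat 2966214240, [.k, .k], [.p, .y, .y, .p]),
  (.ofNat 20169872640, [.k, .k], [.p, .y, .z]),
  (.negSucc 16698664799, [.k, .k, .k], []),
  (.negSucc 14969307519, [.k, .k, .k], [.k]),
  (.ofNat 5472364320, [.k, .k, .k], [.k, .k]),
  (.ofNat 13101998720, [.k, .k, .k], [.k, .k, .k]),
  (.ofNat 24372325760, [.k, .k, .k], [.k, .p, .p]),
  (.ofNat 1135249920, [.k, .k, .k], [.p, .k, .p]),
  (.ofNat 8806888800, [.k, .k, .k], [.p, .p]),
  (.ofNat 5550960960, [.k, .k, .k], [.p, .y, .z]),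
  (.ofNat 4884506640, [.k, .k, .k, .k], []),
  (.negSucc 6631547039, [.k, .k, .k, .k], [.k]),
  (.negSucc 27216838079, [.k, .k, .k, .k], [.k, .k]),
  (.negSucc 7474862159, [.k, .k, .k, .k], [.p, .p]),
  (.negSucc 332886239, [.k, .k, .k, .k, .k], []),
  (.ofNat 16577170560, [.k, .k, .k, .k, .k], [.k]),
  (.negSucc 9041645519, [.k, .k, .k, .k, .k, .k], []),
  (.ofNat 206988480, [.k, .k, .k, .k, .p], [.p]),
  (.negSucc 1524932639, [.k, .k, .k, .k, .p, .p], []),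
  (.ofNat 10737783360, [.k, .k, .k, .p], [.k, .p]),
  (.negSucc 9146872799, [.k, .k, .k, .p], [.p]),
  (.ofNat 4608960480, [.k, .k, .k, .p], [.p, .k]),
  (.negSucc 8341306559, [.k, .k, .k, .p], [.y, .z]),
  (.negSucc 10591689599, [.k, .k, .k, .p, .k], [.p]),
  (.ofNat 1765324800, [.k, .k, .k, .p, .k, .p], []),
  (.negSucc 2059251839, [.k, .k, .k, .p, .p], []),
  (.ofNat 11497783680, [.k, .k, .k, .p, .p], [.k]),
  (.negSucc 16620024959, [.k, .k, .k, .p, .p, .k], []),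
  (.ofNat 5188432320, [.k, .k, .k, .p, .y], [.z]),
  (.negSucc 2204686079, [.k, .k, .k, .p, .y, .z], []),
  (.negSucc 7302264479, [.k, .k, .p], [.k, .k, .p]),
  (.negSucc 14831218079, [.k, .k, .p], [.k, .p]),
  (.negSucc 14814007199, [.k, .k, .p], [.k, .p, .k]),
  (.negSucc 4341640319, [.k, .k, .p], [.k, .y, .z]),
  (.ofNat 24534839520, [.k, .k, .p], [.p]),
  (.ofNat 642584160, [.k, .k, .p], [.p, .k]),
  (.negSucc 5965853759, [.k, .k, .p], [.p, .k, .k]),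
  (.negSucc 14220622079, [.k, .k, .p], [.p, .p, .p]),
  (.negSucc 3898022399, [.k, .k, .p], [.p, .y, .y]),
  (.negSucc 3953217599, [.k, .k, .p], [.y, .k, .z]),
  (.ofNat 1704280320, [.k, .k, .p], [.y, .p, .y]),
  (.negSucc 4992344639, [.k, .k, .p], [.y, .y, .p]),
  (.ofNat 527857920, [.k, .k, .p], [.y, .z]),
  (.ofNat 10274126400, [.k, .k, .p], [.y, .z, .k]),
  (.ofNat 5664680640, [.k, .k, .p, .k], [.k, .p]),
  (.negSucc 27732674879, [.k, .k, .p, .k], [.p]),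
  (.ofNat 12152422080, [.k, .k, .p, .k], [.p, .k]),
  (.negSucc 5072466239, [.k, .k, .p, .k], [.y, .z]),
  (.negSucc 7557851519, [.k, .k, .p, .k, .k], [.p]),
  (.ofNat 2605855680, [.k, .k, .p, .k, .k, .p], []),
  (.negSucc 3162287519, [.k, .k, .p, .k, .p], []),
  (.ofNat 12068490240, [.k, .k, .p, .k, .p], [.k]),
  (.negSucc 13676483519, [.k, .k, .p, .k, .p, .k], []),
  (.ofNat 2794610880, [.k, .k, .p, .k, .y], [.z]),
  (.negSucc 1581569279, [.k, .k, .p, .k, .y, .z], []),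
  (.negSucc 2264235839, [.k, .k, .p, .p], []),
  (.negSucc 26049157919, [.k, .k, .p, .p], [.k]),
  (.negSucc 19515062879, [.k, .k, .p, .p], [.k, .k]),
  (.negSucc 5579855999, [.k, .k, .p, .p], [.p, .p]),
  (.negSucc 3294647999, [.k, .k, .p, .p], [.y, .y]),
  (.negSucc 300431519, [.k, .k, .p, .p, .k], []),
  (.ofNat 34224507360, [.k, .k, .p, .p, .k], [.k]),
  (.negSucc 9041645519, [.k, .k, .p, .p, .k, .k], []),
  (.negSucc 3575345759, [.k, .k, .p, .p, .p], [.p]),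
  (.ofNat 1882308960, [.k, .k, .p, .p, .p, .p], []),
  (.negSucc 792002879, [.k, .k, .p, .p, .y], [.y]),
  (.ofNat 3407241600, [.k, .k, .p, .p, .y, .y], []),
  (.ofNat 644587200, [.k, .k, .p, .y], [.k, .z]),
  (.ofNat 3342807360, [.k, .k, .p, .y], [.p, .y]),
  (.negSucc 5340303359, [.k, .k, .p, .y], [.y, .p]),
  (.negSucc 9124891199, [.k, .k, .p, .y], [.z]),
  (.negSucc 20657096639, [.k, .k, .p, .y], [.z, .k]),
  (.negSucc 683792639, [.k, .k, .p, .y, .k], [.z]),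
  (.negSucc 840530879, [.k, .k, .p, .y, .k, .z], []),
  (.ofNat 793157760, [.k, .k, .p, .y, .p], [.y]),
  (.negSucc 128560319, [.k, .k, .p, .y, .p, .y], []),
  (.ofNat 2930218560, [.k, .k, .p, .y, .y], [.p]),
  (.ofNat 494556480, [.k, .k, .p, .y, .y, .p], []),
  (.negSucc 3351455999, [.k, .k, .p, .y, .z], []),
  (.ofNat 5355345600, [.k, .k, .p, .y, .z], [.k]),
  (.negSucc 2943541439, [.k, .k, .p, .y, .z, .k], []),
  (.negSucc 24130313279, [.k, .p], [.k, .p]),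
  (.negSucc 3305289743, [.k, .p], [.p]),
  (.negSucc 41246373599, [.k, .p], [.p, .k]),
  (.ofNat 4839347520, [.k, .p], [.p, .k, .p, .p]),
  (.ofNat 3592771200, [.k, .p], [.p, .k, .y, .y]),
  (.ofNat 9106312320, [.k, .p], [.p, .p, .k, .p]),
  (.negSucc 1917273599, [.k, .p], [.p, .p, .p]),
  (.ofNat 1986707520, [.k, .p], [.p, .p, .y, .z]),
  (.ofNat 2192952960, [.k, .p], [.p, .y, .k, .y]),
  (.negSucc 2936260799, [.k, .p], [.p, .y, .p, .z]),
  (.negSucc 9936817919, [.k, .p], [.p, .y, .y]),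
  (.negSucc 5652901439, [.k, .p], [.p, .y, .z, .p]),
  (.negSucc 4856045759, [.k, .p], [.y, .k, .k, .z]),
  (.ofNat 530752320, [.k, .p], [.y, .k, .p, .y]),
  (.ofNat 1124484480, [.k, .p], [.y, .k, .y, .p]),
  (.ofNat 9559552320, [.k, .p], [.y, .k, .z]),
  (.negSucc 162959039, [.k, .p], [.y, .p, .k, .y]),
  (.negSucc 1004895359, [.k, .p], [.y, .p, .p, .z]),
  (.negSucc 8966488319, [.k, .p], [.y, .p, .y]),
  (.negSucc 1414396799, [.k, .p], [.y, .p, .z, .p]),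
  (.negSucc 795597119, [.k, .p], [.y, .y, .k, .p]),
  (.negSucc 9880911359, [.k, .p], [.y, .y, .p]),
  (.ofNat 3322630080, [.k, .p], [.y, .y, .y, .z]),
  (.ofNat 3011932800, [.k, .p], [.y, .y, .z, .y]),
  (.negSucc 12370795919, [.k, .p], [.y, .z]),
  (.negSucc 1916472959, [.k, .p], [.y, .z, .p, .p]),
  (.negSucc 265852799, [.k, .p], [.y, .z, .y, .y]),
  (.negSucc 5491805759, [.k, .p], [.y, .z, .z, .z]),
  (.ofNat 30562943040, [.k, .p, .k], [.k, .p]),
  (.ofNat 9631137600, [.k, .p, .k], [.k, .p, .k]),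
  (.negSucc 27751561919, [.k, .p, .k], [.k, .y, .z]),
  (.ofNat 10797213600, [.k, .p, .k], [.p]),
  (.negSucc 9242504639, [.k, .p, .k], [.p, .p, .p]),
  (.ofNat 6078404160, [.k, .p, .k], [.p, .y, .y]),
  (.negSucc 8171058239, [.k, .p, .k], [.y, .k, .z]),
  (.negSucc 739753919, [.k, .p, .k], [.y, .p, .y]),
  (.ofNat 25087141440, [.k, .p, .k], [.y, .z]),
  (.negSucc 2633764319, [.k, .p, .k, .k, .k, .p], []),
  (.negSucc 6351227999, [.k, .p, .k, .k, .p], []),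
  (.ofNat 6985625760, [.k, .p, .k, .k, .p], [.k]),
  (.negSucc 10318307039, [.k, .p, .k, .k, .p, .k], []),
  (.ofNat 1204963200, [.k, .p, .k, .k, .y], [.z]),
  (.negSucc 2405669759, [.k, .p, .k, .k, .y, .z], []),
  (.negSucc 15694243199, [.k, .p, .k, .p], []),
  (.negSucc 20876932799, [.k, .p, .k, .p], [.k]),
  (.negSucc 11891529359, [.k, .p, .k, .p], [.p, .p]),
  (.negSucc 4493623679, [.k, .p, .k, .p], [.y, .y]),
  (.negSucc 2563715519, [.k, .p, .k, .p, .k], []),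
  (.ofNat 13286458080, [.k, .p, .k, .p, .k], [.k]),
  (.ofNat 5281028640, [.k, .p, .k, .p, .p], [.p]),
  (.negSucc 1983332159, [.k, .p, .k, .p, .p, .p], []),
  (.negSucc 3146454719, [.k, .p, .k, .p, .y], [.y]),
  (.ofNat 3729185280, [.k, .p, .k, .p, .y, .y], []),
  (.ofNat 3047348160, [.k, .p, .k, .y], [.k, .z]),
  (.negSucc 1340081279, [.k, .p, .k, .y], [.p, .y]),
  (.ofNat 4197729600, [.k, .p, .k, .y], [.y, .p]),
  (.negSucc 12917923199, [.k, .p, .k, .y], [.z]),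
  (.negSucc 12844422719, [.k, .p, .k, .y], [.z, .k]),
  (.ofNat 4227589440, [.k, .p, .k, .y, .k], [.z]),
  (.negSucc 2297568959, [.k, .p, .k, .y, .k, .z], []),
  (.ofNat 2053604160, [.k, .p, .k, .y, .p], [.y]),
  (.ofNat 123753600, [.k, .p, .k, .y, .p, .y], []),
  (.negSucc 2762691839, [.k, .p, .k, .y, .y], [.p]),
  (.ofNat 1953636480, [.k, .p, .k, .y, .y, .p], []),
  (.ofNat 1135926720, [.k, .p, .k, .y, .z], []),
  (.ofNat 3713083200, [.k, .p, .k, .y, .z], [.k]),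
  (.negSucc 2465487359, [.k, .p, .k, .y, .z, .k], []),
  (.negSucc 22672457279, [.k, .p, .p], []),
  (.negSucc 15429646399, [.k, .p, .p], [.k]),
  (.ofNat 14131377280, [.k, .p, .p], [.k, .p, .p]),
  (.ofNat 138392640, [.k, .p, .p], [.k, .y, .y]),
  (.ofNat 1047906240, [.k, .p, .p], [.p, .k, .p]),
  (.ofNat 6539686560, [.k, .p, .p], [.p, .p]),
  (.negSucc 9740257919, [.k, .p, .p], [.p, .p, .k]),
  (.ofNat 4572840960, [.k, .p, .p], [.p, .y, .z]),
  (.ofNat 5725992960, [.k, .p, .p], [.y, .k, .y]),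
  (.negSucc 4131167039, [.k, .p, .p], [.y, .p, .z]),
  (.negSucc 19326885119, [.k, .p, .p], [.y, .y]),
  (.ofNat 4057827840, [.k, .p, .p], [.y, .y, .k]),
  (.negSucc 2404895039, [.k, .p, .p], [.y, .z, .p]),
  (.ofNat 12763622880, [.k, .p, .p, .k], []),
  (.negSucc 8311103999, [.k, .p, .p, .k], [.k]),
  (.negSucc 26475539039, [.k, .p, .p, .k], [.p, .p]),
  (.ofNat 4382419680, [.k, .p, .p, .k], [.y, .y]),
  (.ofNat 6555476160, [.k, .p, .p, .k, .p], [.p]),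
  (.negSucc 2836385279, [.k, .p, .p, .k, .p, .p], []),
  (.negSucc 5308165439, [.k, .p, .p, .k, .y], [.y]),
  (.ofNat 3051550080, [.k, .p, .p, .k, .y, .y], []),
  (.ofNat 13236759360, [.k, .p, .p, .p], [.k, .p]),
  (.negSucc 6220297439, [.k, .p, .p, .p], [.p]),
  (.ofNat 20636552160, [.k, .p, .p, .p], [.p, .k]),
  (.negSucc 6086416319, [.k, .p, .p, .p], [.y, .z]),
  (.negSucc 4082348159, [.k, .p, .p, .p, .k], [.p]),
  (.negSucc 2831038559, [.k, .p, .p, .p, .k, .p], []),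
  (.negSucc 3675720959, [.k, .p, .p, .p, .p], []),
  (.ofNat 2030677920, [.k, .p, .p, .p, .p], [.k]),
  (.negSucc 10884438719, [.k, .p, .p, .p, .p, .k], []),
  (.ofNat 724521600, [.k, .p, .p, .p, .y], [.z]),
  (.negSucc 2236291199, [.k, .p, .p, .p, .y, .z], []),
  (.negSucc 5470197119, [.k, .p, .p, .y], [.k, .y]),
  (.ofNat 2072468160, [.k, .p, .p, .y], [.p, .z]),
  (.ofNat 17350056000, [.k, .p, .p, .y], [.y]),
  (.ofNat 11688456960, [.k, .p, .p, .y], [.y, .k]),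
  (.ofNat 2119170240, [.k, .p, .p, .y], [.z, .p]),
  (.negSucc 3243349439, [.k, .p, .p, .y, .k], [.y]),
  (.ofNat 1635399360, [.k, .p, .p, .y, .k, .y], []),
  (.negSucc 3310536959, [.k, .p, .p, .y, .p], [.z]),
  (.ofNat 543185280, [.k, .p, .p, .y, .p, .z], []),
  (.negSucc 3811141439, [.k, .p, .p, .y, .y], []),
  (.negSucc 6545145599, [.k, .p, .p, .y, .y], [.k]),
  (.ofNat 3031619040, [.k, .p, .p, .y, .y, .k], []),
  (.ofNat 3940922880, [.k, .p, .p, .y, .z], [.p]),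
  (.negSucc 2861959679, [.k, .p, .p, .y, .z, .p], []),
  (.negSucc 5712099839, [.k, .p, .y], [.k, .p, .y]),
  (.ofNat 6576629760, [.k, .p, .y], [.k, .y, .p]),
  (.ofNat 2519328960, [.k, .p, .y], [.k, .z]),
  (.negSucc 1087626239, [.k, .p, .y], [.p, .k, .y]),
  (.ofNat 522066240, [.k, .p, .y], [.p, .p, .z]),
  (.ofNat 17376707520, [.k, .p, .y], [.p, .y]),
  (.negSucc 319343039, [.k, .p, .y], [.p, .y, .k]),
  (.ofNat 1716638400, [.k, .p, .y], [.p, .z, .p]),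
  (.ofNat 19513854720, [.k, .p, .y], [.y, .k, .p]),
  (.negSucc 31514008319, [.k, .p, .y], [.y, .p]),
  (.ofNat 3642488640, [.k, .p, .y], [.y, .p, .k]),
  (.ofNat 186410880, [.k, .p, .y], [.y, .y, .z]),
  (.negSucc 3830325119, [.k, .p, .y], [.y, .z, .y]),
  (.ofNat 7814848320, [.k, .p, .y], [.z]),
  (.ofNat 35591880960, [.k, .p, .y], [.z, .k]),
  (.negSucc 6466559039, [.k, .p, .y], [.z, .p, .p]),
  (.ofNat 7739853120, [.k, .p, .y], [.z, .y, .y]),
  (.ofNat 964612800, [.k, .p, .y], [.z, .z, .z]),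
  (.negSucc 8516747519, [.k, .p, .y, .k], [.k, .z]),
  (.negSucc 6885004319, [.k, .p, .y, .k], [.p, .y]),
  (.ofNat 12608390880, [.k, .p, .y, .k], [.y, .p]),
  (.negSucc 225518399, [.k, .p, .y, .k], [.z]),
  (.ofNat 859443840, [.k, .p, .y, .k, .k, .z], []),
  (.ofNat 1426844160, [.k, .p, .y, .k, .p], [.y]),
  (.negSucc 872320319, [.k, .p, .y, .k, .p, .y], []),
  (.negSucc 480862079, [.k, .p, .y, .k, .y], [.p]),
  (.ofNat 872320320, [.k, .p, .y, .k, .y, .p], []),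
  (.ofNat 2780925120, [.k, .p, .y, .k, .z], []),
  (.ofNat 2573251200, [.k, .p, .y, .k, .z], [.k]),
  (.ofNat 4053090240, [.k, .p, .y, .p], [.k, .y]),
  (.negSucc 3154098239, [.k, .p, .y, .p], [.p, .z]),
  (.negSucc 5249183039, [.k, .p, .y, .p], [.y]),
  (.negSucc 4782202559, [.k, .p, .y, .p], [.y, .k]),
  (.negSucc 730316159, [.k, .p, .y, .p], [.z, .p]),
  (.ofNat 748062720, [.k, .p, .y, .p, .k], [.y]),
  (.negSucc 197274239, [.k, .p, .y, .p, .k, .y], []),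
  (.ofNat 2016354240, [.k, .p, .y, .p, .p], [.z]),
  (.ofNat 205381440, [.k, .p, .y, .p, .p, .z], []),
  (.ofNat 2681677440, [.k, .p, .y, .p, .y], []),
  (.ofNat 4227606720, [.k, .p, .y, .p, .y], [.k]),
  (.negSucc 566131679, [.k, .p, .y, .p, .y, .k], []),
  (.ofNat 101047680, [.k, .p, .y, .p, .z], [.p]),
  (.ofNat 36002880, [.k, .p, .y, .p, .z, .p], []),
  (.negSucc 2467892159, [.k, .p, .y, .y], [.k, .p]),
  (.ofNat 14856963840, [.k, .p, .y, .y], [.p]),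
  (.negSucc 1931918399, [.k, .p, .y, .y], [.p, .k]),
  (.ofNat 4026948480, [.k, .p, .y, .y], [.y, .z]),
  (.ofNat 2640216960, [.k, .p, .y, .y], [.z, .y]),
  (.ofNat 197274240, [.k, .p, .y, .y, .k, .p], []),
  (.ofNat 1081206720, [.k, .p, .y, .y, .p], []),
  (.ofNat 2997691200, [.k, .p, .y, .y, .p], [.k]),
  (.ofNat 566131680, [.k, .p, .y, .y, .p, .k], []),
  (.negSucc 1872175679, [.k, .p, .y, .y, .y], [.z]),
  (.negSucc 205381439, [.k, .p, .y, .y, .y, .z], []),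
  (.negSucc 806417279, [.k, .p, .y, .y, .z], [.y]),
  (.negSucc 36002879, [.k, .p, .y, .y, .z, .y], []),
  (.negSucc 4177601279, [.k, .p, .y, .z], []),
  (.negSucc 10020176639, [.k, .p, .y, .z], [.k]),
  (.negSucc 472913279, [.k, .p, .y, .z], [.p, .p]),
  (.ofNat 3379973760, [.k, .p, .y, .z], [.y, .y]),
  (.negSucc 3774242879, [.k, .p, .y, .z], [.z, .z]),
  (.ofNat 4382642880, [.k, .p, .y, .z, .k], []),
  (.ofNat 4360878720, [.k, .p, .y, .z, .k], [.k]),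
  (.negSucc 140016959, [.k, .p, .y, .z, .p], [.p]),
  (.negSucc 853053119, [.k, .p, .y, .z, .p, .p], []),
  (.negSucc 1933436159, [.k, .p, .y, .z, .y], [.y]),
  (.ofNat 853053120, [.k, .p, .y, .z, .y, .y], []),
  (.ofNat 1804141440, [.k, .p, .y, .z, .z], [.z]),
  (.ofNat 1530688320, [.k, .p, .y, .z, .z, .z], []),
  (.negSucc 1958684975, [.p], [.p]),
  (.negSucc 4037327999, [.p, .k, .k, .k, .k, .p], []),
  (.negSucc 1591266239, [.p, .k, .k, .k, .p], []),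
  (.negSucc 978635519, [.p, .k, .k, .k, .y], [.z]),
  (.negSucc 166982399, [.p, .k, .k, .k, .y, .z], []),
  (.ofNat 2556459360, [.p, .k, .k, .p], []),
  (.negSucc 17558287919, [.p, .k, .k, .p], [.p, .p]),
  (.ofNat 30153600, [.p, .k, .k, .p], [.y, .y]),
  (.ofNat 15832944000, [.p, .k, .k, .p, .p], [.p]),
  (.negSucc 6029936639, [.p, .k, .k, .p, .p, .p], []),
  (.ofNat 1762361280, [.p, .k, .k, .p, .y], [.y]),
  (.negSucc 1140871679, [.p, .k, .k, .p, .y, .y], []),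
  (.negSucc 2870369279, [.p, .k, .k, .y], [.p, .y]),
  (.negSucc 2578495679, [.p, .k, .k, .y], [.y, .p]),
  (.negSucc 3544001279, [.p, .k, .k, .y], [.z]),
  (.negSucc 1062843839, [.p, .k, .k, .y, .k, .z], []),
  (.ofNat 568460160, [.p, .k, .k, .y, .p], [.y]),
  (.negSucc 36688319, [.p, .k, .k, .y, .p, .y], []),
  (.negSucc 929099519, [.p, .k, .k, .y, .y], [.p]),
  (.ofNat 1477149120, [.p, .k, .k, .y, .y, .p], []),
  (.ofNat 1660032000, [.p, .k, .k, .y, .z], []),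
  (.negSucc 7960403519, [.p, .k, .p], []),
  (.ofNat 5474431040, [.p, .k, .p], [.p, .k, .p]),
  (.ofNat 5130806400, [.p, .k, .p], [.p, .p]),
  (.ofNat 3661819200, [.p, .k, .p], [.p, .y, .z]),
  (.negSucc 321393599, [.p, .k, .p], [.y, .k, .y]),
  (.ofNat 431671680, [.p, .k, .p], [.y, .p, .z]),
  (.negSucc 5199338879, [.p, .k, .p], [.y, .y]),
  (.ofNat 6980353920, [.p, .k, .p, .k, .p], [.p]),
  (.negSucc 7238234879, [.p, .k, .p, .k, .p, .p], []),
  (.ofNat 1274212800, [.p, .k, .p, .k, .y], [.y]),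
  (.ofNat 746161920, [.p, .k, .p, .k, .y, .y], []),
  (.ofNat 9599040, [.p, .k, .p, .p], [.p]),
  (.negSucc 2389668479, [.p, .k, .p, .p], [.y, .z]),
  (.negSucc 4497397919, [.p, .k, .p, .p, .k, .p], []),
  (.negSucc 5310872639, [.p, .k, .p, .p, .p], []),
  (.negSucc 1367150399, [.p, .k, .p, .p, .y], [.z]),
  (.negSucc 350913599, [.p, .k, .p, .p, .y, .z], []),
  (.ofNat 1403510400, [.p, .k, .p, .y], [.p, .z]),
  (.ofNat 3153456000, [.p, .k, .p, .y], [.y]),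
  (.ofNat 3474737280, [.p, .k, .p, .y], [.z, .p]),
  (.ofNat 1522913760, [.p, .k, .p, .y, .k, .y], []),
  (.negSucc 1032298559, [.p, .k, .p, .y, .p], [.z]),
  (.ofNat 83246400, [.p, .k, .p, .y, .p, .z], []),
  (.ofNat 837961920, [.p, .k, .p, .y, .y], []),
  (.ofNat 887328000, [.p, .k, .p, .y, .z], [.p]),
  (.negSucc 1770284159, [.p, .k, .p, .y, .z, .p], []),
  (.ofNat 321393600, [.p, .k, .y], [.p, .k, .y]),
  (.negSucc 200090879, [.p, .k, .y], [.p, .p, .z]),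
  (.ofNat 1461358080, [.p, .k, .y], [.p, .y]),
  (.ofNat 1810218240, [.p, .k, .y], [.p, .z, .p]),
  (.ofNat 7134635520, [.p, .k, .y], [.y, .k, .p]),
  (.negSucc 15865732799, [.p, .k, .y], [.y, .p]),
  (.ofNat 10327714560, [.p, .k, .y], [.y, .y, .z]),
  (.ofNat 8900101440, [.p, .k, .y], [.z]),
  (.ofNat 231580800, [.p, .k, .y], [.z, .z, .z]),
  (.ofNat 362465280, [.p, .k, .y, .k, .p], [.y]),
  (.negSucc 77880959, [.p, .k, .y, .k, .p, .y], []),
  (.ofNat 77880960, [.p, .k, .y, .k, .y, .p], []),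
  (.ofNat 265037760, [.p, .k, .y, .k, .z], []),
  (.negSucc 2094079679, [.p, .k, .y, .p], [.p, .z]),
  (.negSucc 2573913599, [.p, .k, .y, .p], [.y]),
  (.ofNat 6003861120, [.p, .k, .y, .p], [.z, .p]),
  (.negSucc 460069919, [.p, .k, .y, .p, .k, .y], []),
  (.ofNat 1938021120, [.p, .k, .y, .p, .p], [.z]),
  (.ofNat 31322880, [.p, .k, .y, .p, .p, .z], []),
  (.ofNat 938381760, [.p, .k, .y, .p, .y], []),
  (.negSucc 2434017599, [.p, .k, .y, .p, .z], [.p]),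
  (.ofNat 215254080, [.p, .k, .y, .p, .z, .p], []),
  (.ofNat 7579068480, [.p, .k, .y, .y], [.p]),
  (.negSucc 2998840319, [.p, .k, .y, .y], [.y, .z]),
  (.ofNat 2160178560, [.p, .k, .y, .y], [.z, .y]),
  (.ofNat 460069920, [.p, .k, .y, .y, .k, .p], []),
  (.negSucc 1676779199, [.p, .k, .y, .y, .p], []),
  (.ofNat 941250240, [.p, .k, .y, .y, .y], [.z]),
  (.negSucc 31322879, [.p, .k, .y, .y, .y, .z], []),
  (.negSucc 930706559, [.p, .k, .y, .y, .z], [.y]),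
  (.negSucc 215254079, [.p, .k, .y, .y, .z, .y], []),
  (.ofNat 1382351040, [.p, .k, .y, .z], []),
  (.negSucc 11603699999, [.p, .k, .y, .z], [.p, .p]),
  (.ofNat 1337739840, [.p, .k, .y, .z], [.y, .y]),
  (.negSucc 3892112639, [.p, .k, .y, .z], [.z, .z]),
  (.ofNat 3263448960, [.p, .k, .y, .z, .p], [.p]),
  (.negSucc 1208298239, [.p, .k, .y, .z, .p, .p], []),
  (.negSucc 1950315839, [.p, .k, .y, .z, .y], [.y]),
  (.ofNat 1208298240, [.p, .k, .y, .z, .y, .y], []),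
  (.ofNat 1212958080, [.p, .k, .y, .z, .z], [.z]),
  (.negSucc 678735359, [.p, .k, .y, .z, .z, .z], []),
  (.negSucc 14682635135, [.p, .p], []),
  (.ofNat 3734244720, [.p, .p], [.p, .p]),
  (.negSucc 1741731839, [.p, .p], [.p, .y, .p, .y]),
  (.ofNat 3390753600, [.p, .p], [.p, .y, .y, .p]),
  (.ofNat 17129829600, [.p, .p], [.p, .y, .z]),
  (.negSucc 997620479, [.p, .p], [.y, .p, .p, .y]),
  (.negSucc 2726331839, [.p, .p], [.y, .p, .z]),
  (.negSucc 2963792159, [.p, .p], [.y, .y]),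
  (.negSucc 3845579039, [.p, .p], [.y, .z, .y, .z]),
  (.ofNat 5381272800, [.p, .p], [.y, .z, .z, .y]),
  (.negSucc 5923312559, [.p, .p, .k, .k, .p, .p], []),
  (.ofNat 1406312640, [.p, .p, .k, .k, .y, .y], []),
  (.negSucc 3465768959, [.p, .p, .k, .p, .p], []),
  (.negSucc 731669759, [.p, .p, .k, .p, .y], [.z]),
  (.ofNat 813409920, [.p, .p, .k, .p, .y, .z], []),
  (.ofNat 474782400, [.p, .p, .k, .y, .p], [.z]),
  (.ofNat 857364480, [.p, .p, .k, .y, .p, .z], []),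
  (.ofNat 499305600, [.p, .p, .k, .y, .y], []),
  (.ofNat 2592766080, [.p, .p, .k, .y, .z], [.p]),
  (.negSucc 2396568959, [.p, .p, .k, .y, .z, .p], []),
  (.ofNat 213261120, [.p, .p, .p], [.p]),
  (.negSucc 1227876479, [.p, .p, .p], [.p, .p, .p]),
  (.negSucc 10761076799, [.p, .p, .p], [.p, .y, .y]),
  (.ofNat 1975527360, [.p, .p, .p], [.y, .p, .y]),
  (.negSucc 3883308479, [.p, .p, .p], [.y, .z]),
  (.ofNat 676146240, [.p, .p, .p, .k, .y, .z], []),
  (.ofNat 6355968480, [.p, .p, .p, .p], []),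
  (.negSucc 8751172319, [.p, .p, .p, .p], [.p, .p]),
  (.ofNat 2484761760, [.p, .p, .p, .p], [.y, .y]),
  (.ofNat 5919963840, [.p, .p, .p, .p, .p], [.p]),
  (.negSucc 4359057839, [.p, .p, .p, .p, .p, .p], []),
  (.ofNat 1134146880, [.p, .p, .p, .p, .y], [.y]),
  (.negSucc 157942079, [.p, .p, .p, .p, .y, .y], []),
  (.ofNat 304983360, [.p, .p, .p, .y], [.p, .y]),
  (.negSucc 2243773439, [.p, .p, .p, .y], [.y, .p]),
  (.ofNat 817367040, [.p, .p, .p, .y], [.z]),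
  (.negSucc 1616814719, [.p, .p, .p, .y, .p], [.y]),
  (.ofNat 55293120, [.p, .p, .p, .y, .p, .y], []),
  (.ofNat 2196400320, [.p, .p, .p, .y, .y], [.p]),
  (.ofNat 1047404160, [.p, .p, .p, .y, .y, .p], []),
  (.ofNat 1192394880, [.p, .p, .p, .y, .z], []),
  (.ofNat 1322006400, [.p, .p, .y], [.p, .p, .y]),
  (.negSucc 1613747519, [.p, .p, .y], [.p, .y, .p]),
  (.negSucc 4407750719, [.p, .p, .y], [.p, .z]),
  (.negSucc 8485545599, [.p, .p, .y], [.y]),
  (.negSucc 1371032639, [.p, .p, .y], [.y, .p, .p]),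
  (.negSucc 739042559, [.p, .p, .y], [.y, .z, .z]),
  (.ofNat 12683759040, [.p, .p, .y], [.z, .p]),
  (.ofNat 1785136320, [.p, .p, .y], [.z, .y, .z]),
  (.ofNat 2330668800, [.p, .p, .y], [.z, .z, .y]),
  (.ofNat 1199543040, [.p, .p, .y, .k, .p, .z], []),
  (.negSucc 1199543039, [.p, .p, .y, .k, .z, .p], []),
  (.ofNat 305389440, [.p, .p, .y, .p], [.p, .y]),
  (.ofNat 617771520, [.p, .p, .y, .p], [.y, .p]),
  (.ofNat 3977064000, [.p, .p, .y, .p], [.z]),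
  (.negSucc 356054399, [.p, .p, .y, .p, .p], [.y]),
  (.negSucc 286885439, [.p, .p, .y, .p, .p, .y], []),
  (.ofNat 1807176960, [.p, .p, .y, .p, .y], [.p]),
  (.negSucc 149621759, [.p, .p, .y, .p, .y, .p], []),
  (.negSucc 1613715839, [.p, .p, .y, .p, .z], []),
  (.negSucc 557907839, [.p, .p, .y, .y], []),
  (.ofNat 1248320160, [.p, .p, .y, .y], [.p, .p]),
  (.ofNat 5407526880, [.p, .p, .y, .y], [.z, .z]),
  (.negSucc 3541170239, [.p, .p, .y, .y, .p], [.p]),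
  (.ofNat 1564254720, [.p, .p, .y, .y, .p, .p], []),
  (.negSucc 4829973119, [.p, .p, .y, .y, .z], [.z]),
  (.ofNat 1564254720, [.p, .p, .y, .y, .z, .z], []),
  (.negSucc 6705213119, [.p, .p, .y, .z], [.p]),
  (.ofNat 1078320960, [.p, .p, .y, .z], [.y, .z]),
  (.ofNat 555151680, [.p, .p, .y, .z], [.z, .y]),
  (.ofNat 2058485760, [.p, .p, .y, .z, .p], []),
  (.ofNat 1005569280, [.p, .p, .y, .z, .y], [.z]),
  (.negSucc 149621759, [.p, .p, .y, .z, .y, .z], []),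
  (.negSucc 356054399, [.p, .p, .y, .z, .z], [.y]),
  (.negSucc 286885439, [.p, .p, .y, .z, .z, .y], []),
  (.negSucc 10298835359, [.p, .y], [.p, .y]),
  (.ofNat 4647103920, [.p, .y], [.y, .p]),
  (.negSucc 20850004223, [.p, .y], [.z]),
  (.negSucc 904763519, [.p, .y, .k, .k, .p, .y], []),
  (.ofNat 904763520, [.p, .y, .k, .k, .y, .p], []),
  (.ofNat 215870400, [.p, .y, .k, .p, .p, .z], []),
  (.negSucc 374964479, [.p, .y, .k, .p, .y], []),
  (.negSucc 3020327999, [.p, .y, .k, .p, .z], [.p]),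
  (.negSucc 148988159, [.p, .y, .k, .p, .z, .p], []),
  (.negSucc 2088552959, [.p, .y, .k, .y, .p], []),
  (.negSucc 215870399, [.p, .y, .k, .y, .y, .z], []),
  (.ofNat 781079040, [.p, .y, .k, .y, .z], [.y]),
  (.ofNat 148988160, [.p, .y, .k, .y, .z, .y], []),
  (.ofNat 2239248960, [.p, .y, .k, .z, .p], [.p]),
  (.ofNat 359066880, [.p, .y, .p], [.p, .y, .p]),
  (.ofNat 6449241600, [.p, .y, .p], [.p, .z]),
  (.ofNat 8000778240, [.p, .y, .p], [.y]),
  (.negSucc 113935679, [.p, .y, .p], [.z, .y, .z]),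
  (.ofNat 458462880, [.p, .y, .p, .p, .p, .y], []),
  (.ofNat 1043196480, [.p, .y, .p, .p, .y], [.p]),
  (.ofNat 187109280, [.p, .y, .p, .p, .y, .p], []),
  (.negSucc 1210043519, [.p, .y, .p, .p, .z], []),
  (.ofNat 1900753920, [.p, .y, .p, .y], []),
  (.ofNat 415656000, [.p, .y, .p, .y, .p], [.p]),
  (.ofNat 2344708800, [.p, .y, .p, .y, .z], [.z]),
  (.ofNat 7599960000, [.p, .y, .p, .z], [.p]),
  (.negSucc 1317162239, [.p, .y, .p, .z], [.y, .z]),
  (.negSucc 787616639, [.p, .y, .p, .z], [.z, .y]),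
  (.negSucc 1109646719, [.p, .y, .p, .z, .p], []),
  (.ofNat 349479360, [.p, .y, .p, .z, .y], [.z]),
  (.ofNat 187109280, [.p, .y, .p, .z, .y, .z], []),
  (.ofNat 458462880, [.p, .y, .p, .z, .z, .y], []),
  (.negSucc 2237996159, [.p, .y, .y, .p], []),
  (.negSucc 545595839, [.p, .y, .y, .p, .z], [.z]),
  (.ofNat 173442240, [.p, .y, .y, .y, .p], [.y]),
  (.negSucc 586186559, [.p, .y, .y, .y, .y, .p], []),
  (.negSucc 143827199, [.p, .y, .y, .y, .z], []),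
  (.negSucc 3344944319, [.p, .y, .y, .z], [.p, .z]),
  (.ofNat 2123046720, [.p, .y, .y, .z], [.y]),
  (.ofNat 4297550400, [.p, .y, .y, .z], [.z, .p]),
  (.ofNat 812658240, [.p, .y, .y, .z, .p], [.z]),
  (.ofNat 586186560, [.p, .y, .y, .z, .z, .p], []),
  (.negSucc 4691885759, [.p, .y, .z], []),
  (.ofNat 919411200, [.p, .y, .z], [.p, .y, .z]),
  (.negSucc 1623746879, [.p, .y, .z], [.p, .z, .y]),
  (.negSucc 861503039, [.p, .y, .z], [.y, .z, .p]),
  (.ofNat 359066880, [.p, .y, .z], [.z, .y, .p]),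
  (.negSucc 2366735039, [.p, .y, .z, .p], [.p]),
  (.ofNat 391443840, [.p, .y, .z, .p], [.y, .z]),
  (.ofNat 1065150720, [.p, .y, .z, .p], [.z, .y]),
  (.negSucc 1740409919, [.p, .y, .z, .p, .y], [.z]),
  (.ofNat 28761120, [.p, .y, .z, .p, .y, .z], []),
  (.negSucc 823321439, [.p, .y, .z, .p, .z, .y], []),
  (.ofNat 64569600, [.p, .y, .z, .y, .p], [.z]),
  (.negSucc 437198399, [.p, .y, .z, .y, .z, .p], []),
  (.negSucc 446300639, [.p, .y, .z, .z, .p, .y], []),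
  (.ofNat 1678059360, [.p, .y, .z, .z, .y, .p], [])]

set_option maxRecDepth 100000 in
theorem cA7 : blkOK locL e7 gA7 wA7 = true := by decide +kernel

end Pool.Agent.H14Z
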