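import Pool.Agent.Lib.H14Z.E8
import Pool.Agent.Lib.H2AF.A8

/-! # Certificate A, block 8 (T2_1, loc, size 36): the word form of the block -/

namespace Pool.Agent.H14Z

open Pool.Agent.H2AF

/-- The value of the block, one word pair per class. -/
def wA8 : E :=
 [(.ofNat 1776048480, [], []),
  (.ofNat 1736468640, [.k], []),
  (.negSucc 5207132159, [.k], [.k]),
  (.negSucc 999656639, [.k], [.p, .k, .k, .k, .p]),
  (.ofNat 12292822080, [.k], [.p, .k, .k, .p]),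
  (.ofNat 1329367680, [.k], [.p, .k, .k, .y, .z]),
  (.ofNat 1523424960, [.k], [.p, .k, .p]),
  (.ofNat 134709120, [.k], [.p, .k, .p, .p, .p]),
  (.ofNat 54345600, [.k], [.p, .k, .p, .y, .y]),
  (.negSucc 376018559, [.k], [.p, .k, .y, .k, .z]),
  (.ofNat 1735007040, [.k], [.p, .k, .y, .p, .y]),
  (.ofNat 3352461120, [.k], [.p, .k, .y, .y, .p]),
  (.ofNat 6384827520, [.k], [.p, .k, .y, .z]),
  (.negSucc 10903806719, [.k], [.p, .p]),
  (.ofNat 5892094080, [.k], [.p, .p, .p, .p]),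
  (.ofNat 92629440, [.k], [.p, .p, .p, .y, .z]),
  (.ofNat 231134400, [.k], [.p, .p, .y, .p, .z]),
  (.negSucc 2985454079, [.k], [.p, .p, .y, .y]),
  (.negSucc 2886661439, [.k], [.p, .p, .y, .z, .p]),
  (.negSucc 890320319, [.k], [.p, .y, .k, .p, .y]),
  (.negSucc 1900097279, [.k], [.p, .y, .k, .y, .p]),
  (.negSucc 260807039, [.k], [.p, .y, .p, .p, .z]),
  (.ofNat 527538240, [.k], [.p, .y, .p, .y]),
  (.negSucc 682441919, [.k], [.p, .y, .p, .z, .p]),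
  (.negSucc 5983266239, [.k], [.p, .y, .y, .p]),
  (.negSucc 1847168639, [.k], [.p, .y, .y, .y, .z]),
  (.negSucc 2152704959, [.k], [.p, .y, .z]),
  (.ofNat 1719135360, [.k, .k], []),
  (.negSucc 2109955679, [.k, .k], [.k]),
  (.negSucc 2153858399, [.k, .k], [.k, .k]),
  (.negSucc 1515162239, [.k, .k], [.k, .p, .k, .p]),
  (.negSucc 10539224639, [.k, .k], [.k, .p, .p]),
  (.negSucc 9012961439, [.k, .k], [.k, .p, .p, .k]),
  (.negSucc 4385701439, [.k, .k], [.k, .p, .y, .z]),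
  (.negSucc 7413832799, [.k, .k], [.p, .k, .k, .p]),
  (.ofNat 4758812640, [.k, .k], [.p, .k, .p]),
  (.negSucc 4306322879, [.k, .k], [.p, .k, .y, .z]),
  (.ofNat 4582172160, [.k, .k], [.p, .p]),
  (.ofNat 2261416320, [.k, .k], [.p, .p, .p, .p]),
  (.negSucc 7890454079, [.k, .k], [.p, .p, .y, .y]),
  (.ofNat 4355657280, [.k, .k], [.p, .y, .p, .y]),
  (.ofNat 10591286400, [.k, .k], [.p, .y, .y, .p]),
  (.negSucc 5358983039, [.k, .k], [.p, .y, .z]),
  (.negSucc 1427081759, [.k, .k, .k], []),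
  (.negSucc 1348410239, [.k, .k, .k], [.k]),
  (.negSucc 5392807199, [.k, .k, .k], [.k, .k]),
  (.ofNat 14922348480, [.k, .k, .k], [.k, .p, .p]),
  (.negSucc 4856111999, [.k, .k, .k], [.p, .k, .p]),
  (.negSucc 444182399, [.k, .k, .k], [.p, .p]),
  (.ofNat 705127680, [.k, .k, .k], [.p, .y, .z]),
  (.ofNat 5214216960, [.k, .k, .k, .k], []),
  (.ofNat 5453984160, [.k, .k, .k, .k], [.k]),
  (.negSucc 13856158079, [.k, .k, .k, .k], [.p, .p]),
  (.ofNat 1739391840, [.k, .k, .k, .k, .k], []),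
  (.ofNat 1064672640, [.k, .k, .k, .k, .p], [.p]),
  (.ofNat 134115840, [.k, .k, .k, .p], [.k, .p]),
  (.ofNat 2085310080, [.k, .k, .k, .p], [.p]),
  (.ofNat 42744960, [.k, .k, .k, .p], [.p, .k]),
  (.negSucc 13033451519, [.k, .k, .k, .p], [.y, .z]),
  (.negSucc 2242681919, [.k, .k, .k, .p, .k], [.p]),
  (.ofNat 715559040, [.k, .k, .k, .p, .p], []),
  (.ofNat 531181440, [.k, .k, .k, .p, .y], [.z]),
  (.negSucc 2699530559, [.k, .k, .p], [.k, .k, .p]),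
  (.ofNat 5503766400, [.k, .k, .p], [.k, .p]),
  (.negSucc 5743497599, [.k, .k, .p], [.k, .p, .k]),
  (.ofNat 4753681920, [.k, .k, .p], [.k, .y, .z]),
  (.negSucc 4322900159, [.k, .k, .p], [.p]),
  (.negSucc 643069439, [.k, .k, .p], [.p, .k]),
  (.negSucc 834986879, [.k, .k, .p], [.p, .p, .p]),
  (.ofNat 4574278080, [.k, .k, .p], [.p, .y, .y]),
  (.negSucc 6310854719, [.k, .k, .p], [.y, .k, .z]),
  (.ofNat 3524788800, [.k, .k, .p], [.y, .p, .y]),
  (.ofNat 2428433280, [.k, .k, .p], [.y, .y, .p]),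
  (.ofNat 9730560960, [.k, .k, .p], [.y, .z]),
  (.negSucc 2477191679, [.k, .k, .p], [.y, .z, .k]),
  (.negSucc 2187924479, [.k, .k, .p, .k], [.k, .p]),
  (.ofNat 5881625280, [.k, .k, .p, .k], [.p]),
  (.ofNat 6304579200, [.k, .k, .p, .k], [.p, .k]),
  (.negSucc 20248899839, [.k, .k, .p, .k], [.y, .z]),
  (.negSucc 1949299199, [.k, .k, .p, .k, .k], [.p]),
  (.ofNat 1065654720, [.k, .k, .p, .k, .k, .p], []),
  (.negSucc 2040157439, [.k, .k, .p, .k, .p], []),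
  (.ofNat 5729846400, [.k, .k, .p, .k, .p], [.k]),
  (.negSucc 2815090559, [.k, .k, .p, .k, .p, .k], []),
  (.negSucc 2518836479, [.k, .k, .p, .k, .y], [.z]),
  (.ofNat 660481920, [.k, .k, .p, .k, .y, .z], []),
  (.ofNat 12955034880, [.k, .k, .p, .p], []),
  (.ofNat 9062280000, [.k, .k, .p, .p], [.k]),
  (.ofNat 2639220480, [.k, .k, .p, .p], [.k, .k]),
  (.negSucc 3071975039, [.k, .k, .p, .p], [.p, .p]),
  (.ofNat 9399265920, [.k, .k, .p, .p], [.y, .y]),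
  (.ofNat 6855148800, [.k, .k, .p, .p, .k], []),
  (.ofNat 1746578880, [.k, .k, .p, .p, .k], [.k]),
  (.negSucc 1739391839, [.k, .k, .p, .p, .k, .k], []),
  (.negSucc 288167039, [.k, .k, .p, .p, .p], [.p]),
  (.ofNat 56180160, [.k, .k, .p, .p, .p, .p], []),
  (.negSucc 2062028159, [.k, .k, .p, .p, .y], [.y]),
  (.ofNat 771739200, [.k, .k, .p, .p, .y, .y], []),
  (.negSucc 54112319, [.k, .k, .p, .y], [.k, .z]),
  (.ofNat 3756646080, [.k, .k, .p, .y], [.p, .y]),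
  (.ofNat 357183360, [.k, .k, .p, .y], [.y, .p]),
  (.ofNat 1957337280, [.k, .k, .p, .y], [.z]),
  (.ofNat 6735790080, [.k, .k, .p, .y], [.z, .k]),
  (.negSucc 3843996479, [.k, .k, .p, .y, .k], [.z]),
  (.ofNat 149466240, [.k, .k, .p, .y, .k, .z], []),
  (.negSucc 757604159, [.k, .k, .p, .y, .p], [.y]),
  (.ofNat 950149440, [.k, .k, .p, .y, .p, .y], []),
  (.ofNat 5610798720, [.k, .k, .p, .y, .y], [.p]),
  (.ofNat 291504960, [.k, .k, .p, .y, .y, .p], []),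
  (.negSucc 2048615999, [.k, .k, .p, .y, .z], []),
  (.ofNat 3517848000, [.k, .k, .p, .y, .z], [.k]),
  (.negSucc 3129410879, [.k, .k, .p, .y, .z, .k], []),
  (.negSucc 10258050239, [.k, .p], [.k, .p]),
  (.negSucc 10732302719, [.k, .p], [.p]),
  (.ofNat 1022644800, [.k, .p], [.p, .k]),
  (.ofNat 933586560, [.k, .p], [.p, .k, .y, .y]),
  (.ofNat 1017601920, [.k, .p], [.p, .p, .k, .p]),
  (.negSucc 1389035519, [.k, .p], [.p, .p, .p]),
  (.ofNat 1702589760, [.k, .p], [.p, .p, .y, .z]),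
  (.negSucc 1863071999, [.k, .p], [.p, .y, .k, .y]),
  (.negSucc 138349439, [.k, .p], [.p, .y, .p, .z]),
  (.negSucc 3752282879, [.k, .p], [.p, .y, .y]),
  (.ofNat 1139040000, [.k, .p], [.p, .y, .z, .p]),
  (.negSucc 7751157119, [.k, .p], [.y, .k, .k, .z]),
  (.negSucc 4655407679, [.k, .p], [.y, .k, .p, .y]),
  (.negSucc 1247875199, [.k, .p], [.y, .k, .y, .p]),
  (.ofNat 8934589440, [.k, .p], [.y, .k, .z]),
  (.negSucc 4109264639, [.k, .p], [.y, .p, .k, .y]),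
  (.negSucc 8211228479, [.k, .p], [.y, .p, .p, .z]),
  (.ofNat 5454650880, [.k, .p], [.y, .p, .y]),
  (.ofNat 2504563200, [.k, .p], [.y, .p, .z, .p]),
  (.negSucc 3625896959, [.k, .p], [.y, .y, .k, .p]),
  (.negSucc 4218315839, [.k, .p], [.y, .y, .p]),
  (.negSucc 4468299839, [.k, .p], [.y, .y, .y, .z]),
  (.negSucc 1280413439, [.k, .p], [.y, .y, .z, .y]),
  (.ofNat 12196598400, [.k, .p], [.y, .z]),
  (.ofNat 1031725440, [.k, .p], [.y, .z, .p, .p]),
  (.negSucc 1297065599, [.k, .p], [.y, .z, .y, .y]),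
  (.negSucc 758059199, [.k, .p], [.y, .z, .z, .z]),
  (.negSucc 1796160959, [.k, .p, .k], [.k, .p]),
  (.ofNat 2214112320, [.k, .p, .k], [.k, .p, .k]),
  (.ofNat 10804639680, [.k, .p, .k], [.k, .y, .z]),
  (.ofNat 9444637440, [.k, .p, .k], [.p]),
  (.ofNat 6399060480, [.k, .p, .k], [.p, .y, .y]),
  (.negSucc 6843435839, [.k, .p, .k], [.y, .k, .z]),
  (.ofNat 476919360, [.k, .p, .k], [.y, .p, .y]),
  (.negSucc 2559337919, [.k, .p, .k], [.y, .z]),
  (.negSucc 856523519, [.k, .p, .k, .k, .k, .p], []),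
  (.ofNat 510701760, [.k, .p, .k, .k, .p], []),
  (.ofNat 3926635200, [.k, .p, .k, .k, .p], [.k]),
  (.negSucc 2478267359, [.k, .p, .k, .k, .p, .k], []),
  (.negSucc 1494959039, [.k, .p, .k, .k, .y], [.z]),
  (.negSucc 1289125439, [.k, .p, .k, .k, .y, .z], []),
  (.ofNat 10131955200, [.k, .p, .k, .p], []),
  (.ofNat 2939973120, [.k, .p, .k, .p], [.k]),
  (.ofNat 1209263040, [.k, .p, .k, .p], [.p, .p]),
  (.ofNat 6141804480, [.k, .p, .k, .p], [.y, .y]),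
  (.ofNat 4992721920, [.k, .p, .k, .p, .k], []),
  (.negSucc 1401975359, [.k, .p, .k, .p, .k], [.k]),
  (.negSucc 40890239, [.k, .p, .k, .p, .p], [.p]),
  (.negSucc 779569919, [.k, .p, .k, .p, .p, .p], []),
  (.negSucc 2744887679, [.k, .p, .k, .p, .y], [.y]),
  (.ofNat 3287016000, [.k, .p, .k, .p, .y, .y], []),
  (.ofNat 4360625280, [.k, .p, .k, .y], [.k, .z]),
  (.negSucc 1618251839, [.k, .p, .k, .y], [.p, .y]),
  (.negSucc 1737492479, [.k, .p, .k, .y], [.y, .p]),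
  (.ofNat 7358719680, [.k, .p, .k, .y], [.z]),
  (.ofNat 2391952320, [.k, .p, .k, .y], [.z, .k]),
  (.negSucc 401250239, [.k, .p, .k, .y, .k], [.z]),
  (.negSucc 3978452159, [.k, .p, .k, .y, .k, .z], []),
  (.negSucc 653811839, [.k, .p, .k, .y, .p], [.y]),
  (.ofNat 376179840, [.k, .p, .k, .y, .p, .y], []),
  (.ofNat 2047366080, [.k, .p, .k, .y, .y], [.p]),
  (.ofNat 1889369280, [.k, .p, .k, .y, .y, .p], []),
  (.negSucc 427760639, [.k, .p, .k, .y, .z], []),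
  (.ofNat 1190874240, [.k, .p, .k, .y, .z], [.k]),
  (.negSucc 4398560639, [.k, .p, .k, .y, .z, .k], []),
  (.negSucc 504126719, [.k, .p, .p], []),
  (.negSucc 8784959039, [.k, .p, .p], [.k]),
  (.negSucc 11985327359, [.k, .p, .p], [.k, .y, .y]),
  (.ofNat 797440320, [.k, .p, .p], [.p, .k, .p]),
  (.negSucc 5060419199, [.k, .p, .p], [.p, .p]),
  (.ofNat 1709282880, [.k, .p, .p], [.p, .p, .k]),
  (.ofNat 706766400, [.k, .p, .p], [.p, .y, .z]),
  (.ofNat 2444207040, [.k, .p, .p], [.y, .k, .y]),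
  (.ofNat 1497430080, [.k, .p, .p], [.y, .p, .z]),
  (.ofNat 625705920, [.k, .p, .p], [.y, .y]),
  (.negSucc 2497201919, [.k, .p, .p], [.y, .y, .k]),
  (.ofNat 3124903680, [.k, .p, .p], [.y, .z, .p]),
  (.ofNat 6637371840, [.k, .p, .p, .k], []),
  (.ofNat 183395520, [.k, .p, .p, .k], [.k]),
  (.ofNat 18303325920, [.k, .p, .p, .k], [.y, .y]),
  (.negSucc 5109886079, [.k, .p, .p, .k, .y], [.y]),
  (.negSucc 644736959, [.k, .p, .p, .p], [.k, .p]),
  (.negSucc 857364479, [.k, .p, .p, .p], [.p]),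
  (.ofNat 405924480, [.k, .p, .p, .p], [.p, .k]),
  (.negSucc 5378359679, [.k, .p, .p, .p], [.y, .z]),
  (.ofNat 264637440, [.k, .p, .p, .p, .p], []),
  (.negSucc 1159329599, [.k, .p, .p, .p, .p], [.k]),
  (.ofNat 2025069120, [.k, .p, .p, .p, .y], [.z]),
  (.negSucc 7666966079, [.k, .p, .p, .y], [.k, .y]),
  (.negSucc 2574319679, [.k, .p, .p, .y], [.p, .z]),
  (.ofNat 3034477440, [.k, .p, .p, .y], [.y]),
  (.negSucc 5146954559, [.k, .p, .p, .y], [.y, .k]),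
  (.negSucc 871312319, [.k, .p, .p, .y], [.z, .p]),
  (.ofNat 1358858880, [.k, .p, .p, .y, .k], [.y]),
  (.ofNat 1177093440, [.k, .p, .p, .y, .p], [.z]),
  (.ofNat 251421120, [.k, .p, .p, .y, .y], []),
  (.ofNat 5503913280, [.k, .p, .p, .y, .y], [.k]),
  (.ofNat 1345956480, [.k, .p, .y], [.k, .p, .y]),
  (.negSucc 2981370239, [.k, .p, .y], [.k, .y, .p]),
  (.ofNat 12085856640, [.k, .p, .y], [.k, .z]),
  (.negSucc 10211564159, [.k, .p, .y], [.p, .k, .y]),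
  (.negSucc 7413883199, [.k, .p, .y], [.p, .p, .z]),
  (.ofNat 11700506880, [.k, .p, .y], [.p, .y]),
  (.negSucc 3784867199, [.k, .p, .y], [.p, .y, .k]),
  (.negSucc 3584531519, [.k, .p, .y], [.p, .z, .p]),
  (.ofNat 314789760, [.k, .p, .y], [.y, .k, .p]),
  (.ofNat 7667280000, [.k, .p, .y], [.y, .p]),
  (.ofNat 2393081280, [.k, .p, .y], [.y, .p, .k]),
  (.ofNat 2786034240, [.k, .p, .y], [.y, .y, .z]),
  (.negSucc 1016890559, [.k, .p, .y], [.y, .z, .y]),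
  (.negSucc 7085577599, [.k, .p, .y], [.z]),
  (.negSucc 4477222079, [.k, .p, .y], [.z, .k]),
  (.ofNat 3787179840, [.k, .p, .y], [.z, .y, .y]),
  (.ofNat 150399360, [.k, .p, .y], [.z, .z, .z]),
  (.negSucc 2771735039, [.k, .p, .y, .k], [.k, .z]),
  (.negSucc 6121134719, [.k, .p, .y, .k], [.p, .y]),
  (.negSucc 1871444159, [.k, .p, .y, .k], [.y, .p]),
  (.ofNat 728504640, [.k, .p, .y, .k], [.z]),
  (.ofNat 1128902400, [.k, .p, .y, .k, .k, .z], []),
  (.negSucc 1880530559, [.k, .p, .y, .k, .p], [.y]),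
  (.ofNat 1519194240, [.k, .p, .y, .k, .p, .y], []),
  (.ofNat 1581629760, [.k, .p, .y, .k, .y], [.p]),
  (.ofNat 1262243520, [.k, .p, .y, .k, .y, .p], []),
  (.negSucc 1321522559, [.k, .p, .y, .k, .z], []),
  (.negSucc 77117759, [.k, .p, .y, .k, .z], [.k]),
  (.ofNat 644316480, [.k, .p, .y, .p], [.k, .y]),
  (.ofNat 1752773760, [.k, .p, .y, .p], [.p, .z]),
  (.negSucc 2762979839, [.k, .p, .y, .p], [.y]),
  (.ofNat 2055862080, [.k, .p, .y, .p], [.y, .k]),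
  (.negSucc 2616811199, [.k, .p, .y, .p], [.z, .p]),
  (.ofNat 1536287040, [.k, .p, .y, .p, .k], [.y]),
  (.negSucc 1136502719, [.k, .p, .y, .p, .k, .y], []),
  (.negSucc 2668590719, [.k, .p, .y, .p, .p], [.z]),
  (.ofNat 918950400, [.k, .p, .y, .p, .p, .z], []),
  (.negSucc 1715860799, [.k, .p, .y, .p, .y], []),
  (.negSucc 4092612479, [.k, .p, .y, .p, .y], [.k]),
  (.ofNat 557974080, [.k, .p, .y, .p, .y, .k], []),
  (.negSucc 334339199, [.k, .p, .y, .p, .z], [.p]),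
  (.negSucc 403061759, [.k, .p, .y, .p, .z, .p], []),
  (.negSucc 1734056639, [.k, .p, .y, .y], [.k, .p]),
  (.negSucc 9435772799, [.k, .p, .y, .y], [.p]),
  (.negSucc 5640834239, [.k, .p, .y, .y], [.p, .k]),
  (.ofNat 404775360, [.k, .p, .y, .y], [.y, .z]),
  (.negSucc 1281741119, [.k, .p, .y, .y], [.z, .y]),
  (.ofNat 3770280000, [.k, .p, .y, .y, .k, .p], []),
  (.negSucc 407669759, [.k, .p, .y, .y, .p], []),
  (.negSucc 5685796799, [.k, .p, .y, .y, .p], [.k]),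
  (.ofNat 4791365280, [.k, .p, .y, .y, .p, .k], []),
  (.ofNat 1999281600, [.k, .p, .y, .y, .y], [.z]),
  (.ofNat 1357266240, [.k, .p, .y, .y, .y, .z], []),
  (.ofNat 850979520, [.k, .p, .y, .y, .z], [.y]),
  (.ofNat 908282880, [.k, .p, .y, .y, .z, .y], []),
  (.ofNat 4223136960, [.k, .p, .y, .z], []),
  (.ofNat 429235200, [.k, .p, .y, .z], [.k]),
  (.ofNat 1321027200, [.k, .p, .y, .z], [.p, .p]),
  (.negSucc 22164479, [.k, .p, .y, .z], [.y, .y]),
  (.negSucc 1103705279, [.k, .p, .y, .z], [.z, .z]),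
  (.ofNat 4083909120, [.k, .p, .y, .z, .k], []),
  (.ofNat 290430720, [.k, .p, .y, .z, .k], [.k]),
  (.ofNat 390931200, [.k, .p, .y, .z, .p], [.p]),
  (.negSucc 854207999, [.k, .p, .y, .z, .p, .p], []),
  (.negSucc 205202879, [.k, .p, .y, .z, .y], [.y]),
  (.ofNat 983753280, [.k, .p, .y, .z, .y, .y], []),
  (.ofNat 549452160, [.k, .p, .y, .z, .z], [.z]),
  (.ofNat 744122880, [.k, .p, .y, .z, .z, .z], []),
  (.ofNat 2420570880, [.p], [.p]),
  (.negSucc 1750623839, [.p, .k, .k, .k, .k, .p], []),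
  (.ofNat 5115335040, [.p, .k, .k, .k, .p], []),
  (.ofNat 2138944320, [.p, .k, .k, .k, .y], [.z]),
  (.negSucc 2100752639, [.p, .k, .k, .k, .y, .z], []),
  (.ofNat 3069701280, [.p, .k, .k, .p], []),
  (.ofNat 1988835840, [.p, .k, .k, .p], [.p, .p]),
  (.ofNat 7749159840, [.p, .k, .k, .p], [.y, .y]),
  (.ofNat 826079040, [.p, .k, .k, .p, .p], [.p]),
  (.negSucc 1284681599, [.p, .k, .k, .p, .p, .p], []),
  (.negSucc 2574898559, [.p, .k, .k, .p, .y], [.y]),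
  (.ofNat 1684630080, [.p, .k, .k, .p, .y, .y], []),
  (.negSucc 4519730879, [.p, .k, .k, .y], [.p, .y]),
  (.ofNat 1114079040, [.p, .k, .k, .y], [.y, .p]),
  (.ofNat 3129937920, [.p, .k, .k, .y], [.z]),
  (.negSucc 2553952319, [.p, .k, .k, .y, .k, .z], []),
  (.ofNat 958965120, [.p, .k, .k, .y, .p], [.y]),
  (.ofNat 120162240, [.p, .k, .k, .y, .p, .y], []),
  (.negSucc 2413851839, [.p, .k, .k, .y, .y], [.p]),
  (.ofNat 2244738240, [.p, .k, .k, .y, .y, .p], []),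
  (.ofNat 1235854080, [.p, .k, .k, .y, .z], []),
  (.negSucc 6310697759, [.p, .k, .p], []),
  (.negSucc 3729476159, [.p, .k, .p], [.p, .p]),
  (.ofNat 661095360, [.p, .k, .p], [.p, .y, .z]),
  (.negSucc 1824439679, [.p, .k, .p], [.y, .k, .y]),
  (.negSucc 2862115199, [.p, .k, .p], [.y, .p, .z]),
  (.negSucc 2036750399, [.p, .k, .p], [.y, .y]),
  (.ofNat 319377600, [.p, .k, .p, .k, .y], [.y]),
  (.negSucc 5967547199, [.p, .k, .p, .p], [.p]),
  (.negSucc 6805998719, [.p, .k, .p, .p], [.y, .z]),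
  (.ofNat 6077471040, [.p, .k, .p, .p, .p], []),
  (.ofNat 1579734720, [.p, .k, .p, .p, .y], [.z]),
  (.ofNat 3364018560, [.p, .k, .p, .y], [.p, .z]),
  (.negSucc 583194239, [.p, .k, .p, .y], [.y]),
  (.negSucc 1186407359, [.p, .k, .p, .y], [.z, .p]),
  (.negSucc 923866559, [.p, .k, .p, .y, .p], [.z]),
  (.negSucc 2539327679, [.p, .k, .p, .y, .y], []),
  (.negSucc 475240319, [.p, .k, .y], [.p, .k, .y]),
  (.ofNat 1170512640, [.p, .k, .y], [.p, .p, .z]),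
  (.ofNat 9588188160, [.p, .k, .y], [.p, .y]),
  (.ofNat 618785280, [.p, .k, .y], [.p, .z, .p]),
  (.ofNat 4089314880, [.p, .k, .y], [.y, .p]),
  (.negSucc 1040451839, [.p, .k, .y], [.y, .y, .z]),
  (.negSucc 9468354239, [.p, .k, .y], [.z]),
  (.ofNat 1284062400, [.p, .k, .y], [.z, .z, .z]),
  (.negSucc 659139839, [.p, .k, .y, .k, .p], [.y]),
  (.ofNat 253448640, [.p, .k, .y, .k, .p, .y], []),
  (.ofNat 2197359360, [.p, .k, .y, .k, .y, .p], []),
  (.ofNat 309352320, [.p, .k, .y, .k, .z], []),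
  (.negSucc 819944639, [.p, .k, .y, .p], [.p, .z]),
  (.ofNat 5356586880, [.p, .k, .y, .p], [.y]),
  (.negSucc 4544910719, [.p, .k, .y, .p], [.z, .p]),
  (.ofNat 947295360, [.p, .k, .y, .p, .k, .y], []),
  (.negSucc 1372296959, [.p, .k, .y, .p, .p], [.z]),
  (.ofNat 109463040, [.p, .k, .y, .p, .p, .z], []),
  (.ofNat 772902720, [.p, .k, .y, .p, .y], []),
  (.ofNat 2427863040, [.p, .k, .y, .p, .z], [.p]),
  (.negSucc 23555519, [.p, .k, .y, .p, .z, .p], []),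
  (.negSucc 260634239, [.p, .k, .y, .y], [.p]),
  (.ofNat 3062761920, [.p, .k, .y, .y], [.y, .z]),
  (.negSucc 5539391999, [.p, .k, .y, .y], [.z, .y]),
  (.ofNat 5612035680, [.p, .k, .y, .y, .k, .p], []),
  (.negSucc 5525919359, [.p, .k, .y, .y, .p], []),
  (.negSucc 1748433599, [.p, .k, .y, .y, .y], [.z]),
  (.ofNat 1819572480, [.p, .k, .y, .y, .y, .z], []),
  (.negSucc 195168959, [.p, .k, .y, .y, .z], [.y]),
  (.ofNat 545328000, [.p, .k, .y, .y, .z, .y], []),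
  (.negSucc 80916479, [.p, .k, .y, .z], []),
  (.ofNat 5242402080, [.p, .k, .y, .z], [.p, .p]),
  (.ofNat 10369920960, [.p, .k, .y, .z], [.y, .y]),
  (.ofNat 4887020160, [.p, .k, .y, .z], [.z, .z]),
  (.ofNat 3814320960, [.p, .k, .y, .z, .p], [.p]),
  (.negSucc 5476823999, [.p, .k, .y, .z, .p, .p], []),
  (.negSucc 27806399, [.p, .k, .y, .z, .y], [.y]),
  (.ofNat 44449920, [.p, .k, .y, .z, .y, .y], []),
  (.negSucc 2207966399, [.p, .k, .y, .z, .z], [.z]),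
  (.negSucc 929183039, [.p, .k, .y, .z, .z, .z], []),
  (.ofNat 1623792960, [.p, .p], []),
  (.ofNat 958668480, [.p, .p], [.p, .p]),
  (.ofNat 1692944640, [.p, .p], [.p, .y, .p, .y]),
  (.ofNat 384494400, [.p, .p], [.p, .y, .y, .p]),
  (.negSucc 8649617759, [.p, .p], [.p, .y, .z]),
  (.ofNat 4973496480, [.p, .p], [.y, .p, .p, .y]),
  (.negSucc 3165462719, [.p, .p], [.y, .p, .z]),
  (.negSucc 251753759, [.p, .p], [.y, .y]),
  (.ofNat 83180160, [.p, .p], [.y, .z, .y, .z]),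
  (.negSucc 1457006399, [.p, .p], [.y, .z, .z, .y]),
  (.ofNat 2544960960, [.p, .p, .k, .p, .p], []),
  (.ofNat 1631203200, [.p, .p, .k, .p, .y], [.z]),
  (.negSucc 570121919, [.p, .p, .k, .y, .p], [.z]),
  (.negSucc 1678380479, [.p, .p, .k, .y, .y], []),
  (.ofNat 689486400, [.p, .p, .k, .y, .z], [.p]),
  (.ofNat 2012751360, [.p, .p, .p], [.p]),
  (.negSucc 553008959, [.p, .p, .p], [.p, .p, .p]),
  (.ofNat 1584561600, [.p, .p, .p], [.p, .y, .y]),
  (.ofNat 3025477440, [.p, .p, .p], [.y, .p, .y]),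
  (.ofNat 3182771520, [.p, .p, .p], [.y, .z]),
  (.negSucc 913449599, [.p, .p, .p, .k, .y, .z], []),
  (.ofNat 59693760, [.p, .p, .p, .p], []),
  (.ofNat 70128000, [.p, .p, .p, .p], [.p, .p]),
  (.ofNat 2743849440, [.p, .p, .p, .p], [.y, .y]),
  (.ofNat 426879360, [.p, .p, .p, .p, .p], [.p]),
  (.negSucc 360563039, [.p, .p, .p, .p, .p, .p], []),
  (.negSucc 1940071679, [.p, .p, .p, .p, .y], [.y]),
  (.ofNat 1199753280, [.p, .p, .p, .p, .y, .y], []),
  (.negSucc 2056432319, [.p, .p, .p, .y], [.p, .y]),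
  (.ofNat 771857280, [.p, .p, .p, .y], [.y, .p]),
  (.negSucc 1101427199, [.p, .p, .p, .y], [.z]),
  (.ofNat 387138240, [.p, .p, .p, .y, .p], [.y]),
  (.negSucc 158198399, [.p, .p, .p, .y, .p, .y], []),
  (.negSucc 906554879, [.p, .p, .p, .y, .y], [.p]),
  (.ofNat 927953280, [.p, .p, .p, .y, .y, .p], []),
  (.ofNat 820120320, [.p, .p, .p, .y, .z], []),
  (.negSucc 1097942399, [.p, .p, .y], [.p, .p, .y]),
  (.negSucc 42229439, [.p, .p, .y], [.p, .y, .p]),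
  (.negSucc 11653836479, [.p, .p, .y], [.p, .z]),
  (.ofNat 8094378240, [.p, .p, .y], [.y]),
  (.ofNat 925335360, [.p, .p, .y], [.y, .p, .p]),
  (.ofNat 398381760, [.p, .p, .y], [.y, .z, .z]),
  (.ofNat 2604484800, [.p, .p, .y], [.z, .p]),
  (.ofNat 950846400, [.p, .p, .y], [.z, .y, .z]),
  (.ofNat 715991040, [.p, .p, .y], [.z, .z, .y]),
  (.ofNat 201061440, [.p, .p, .y, .k, .p, .z], []),
  (.negSucc 690670079, [.p, .p, .y, .k, .z, .p], []),
  (.ofNat 2749979520, [.p, .p, .y, .p], [.p, .y]),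
  (.ofNat 2477376000, [.p, .p, .y, .p], [.y, .p]),
  (.negSucc 3285820799, [.p, .p, .y, .p], [.z]),
  (.ofNat 639757440, [.p, .p, .y, .p, .p], [.y]),
  (.ofNat 215565120, [.p, .p, .y, .p, .p, .y], []),
  (.negSucc 2248323839, [.p, .p, .y, .p, .y], [.p]),
  (.ofNat 64581120, [.p, .p, .y, .p, .y, .p], []),
  (.negSucc 1495736639, [.p, .p, .y, .p, .z], []),
  (.negSucc 290793599, [.p, .p, .y, .y], []),
  (.negSucc 1347258239, [.p, .p, .y, .y], [.p, .p]),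
  (.negSucc 251487359, [.p, .p, .y, .y], [.z, .z]),
  (.negSucc 3037138559, [.p, .p, .y, .y, .p], [.p]),
  (.ofNat 2184397920, [.p, .p, .y, .y, .p, .p], []),
  (.negSucc 411883199, [.p, .p, .y, .y, .z], [.z]),
  (.ofNat 478627200, [.p, .p, .y, .y, .z, .z], []),
  (.negSucc 1337627519, [.p, .p, .y, .z], [.p]),
  (.negSucc 1662096959, [.p, .p, .y, .z], [.y, .z]),
  (.negSucc 85561919, [.p, .p, .y, .z], [.z, .y]),
  (.ofNat 4368957120, [.p, .p, .y, .z, .p], []),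
  (.negSucc 452243519, [.p, .p, .y, .z, .y], [.z]),
  (.ofNat 353603520, [.p, .p, .y, .z, .y, .z], []),
  (.ofNat 319478400, [.p, .p, .y, .z, .z], [.y]),
  (.ofNat 416151360, [.p, .p, .y, .z, .z, .y], []),
  (.negSucc 2874928319, [.p, .y], [.p, .y]),
  (.negSucc 5858300159, [.p, .y], [.y, .p]),
  (.negSucc 9369817919, [.p, .y], [.z]),
  (.ofNat 636949440, [.p, .y, .k, .k, .p, .y], []),
  (.ofNat 1938447360, [.p, .y, .k, .k, .y, .p], []),
  (.ofNat 477089280, [.p, .y, .k, .p, .p, .z], []),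
  (.ofNat 1402456320, [.p, .y, .k, .p, .y], []),
  (.negSucc 1227911039, [.p, .y, .k, .p, .z], [.p]),
  (.ofNat 1795927680, [.p, .y, .k, .p, .z, .p], []),
  (.negSucc 123569279, [.p, .y, .k, .y, .p], []),
  (.ofNat 2519170560, [.p, .y, .k, .y, .y, .z], []),
  (.ofNat 1143826560, [.p, .y, .k, .y, .z], [.y]),
  (.ofNat 358606080, [.p, .y, .k, .y, .z, .y], []),
  (.ofNat 180792000, [.p, .y, .k, .z, .p], [.p]),
  (.negSucc 323893439, [.p, .y, .p], [.p, .y, .p]),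
  (.negSucc 4944038399, [.p, .y, .p], [.p, .z]),
  (.negSucc 4138401599, [.p, .y, .p], [.y]),
  (.ofNat 426124800, [.p, .y, .p, .p, .p, .y], []),
  (.negSucc 1023837119, [.p, .y, .p, .p, .y], [.p]),
  (.ofNat 923446080, [.p, .y, .p, .p, .y, .p], []),
  (.ofNat 1265325120, [.p, .y, .p, .p, .z], []),
  (.negSucc 2164291199, [.p, .y, .p, .y], []),
  (.negSucc 28324799, [.p, .y, .p, .y, .p], [.p]),
  (.ofNat 128131200, [.p, .y, .p, .y, .z], [.z]),
  (.negSucc 262828799, [.p, .y, .p, .z], [.p]),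
  (.ofNat 506298240, [.p, .y, .p, .z], [.y, .z]),
  (.ofNat 540011520, [.p, .y, .p, .z], [.z, .y]),
  (.negSucc 143807039, [.p, .y, .p, .z, .p], []),
  (.negSucc 1139186879, [.p, .y, .p, .z, .y], [.z]),
  (.ofNat 278343360, [.p, .y, .p, .z, .y, .z], []),
  (.negSucc 438203519, [.p, .y, .p, .z, .z, .y], []),
  (.negSucc 1600143839, [.p, .y, .y, .p], []),
  (.negSucc 45080639, [.p, .y, .y, .p, .z], [.z]),
  (.negSucc 826706879, [.p, .y, .y, .y, .p], [.y]),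
  (.negSucc 1225825919, [.p, .y, .y, .y, .y, .p], []),
  (.ofNat 157368960, [.p, .y, .y, .y, .z], []),
  (.negSucc 35616959, [.p, .y, .y, .z], [.p, .z]),
  (.ofNat 132137280, [.p, .y, .y, .z], [.y]),
  (.negSucc 660608639, [.p, .y, .y, .z], [.z, .p]),
  (.ofNat 733973760, [.p, .y, .y, .z, .p], [.z]),
  (.ofNat 159860160, [.p, .y, .y, .z, .z, .p], []),
  (.ofNat 2892349440, [.p, .y, .z], []),
  (.negSucc 415287359, [.p, .y, .z], [.p, .z, .y]),
  (.ofNat 890300160, [.p, .y, .z], [.y, .z, .p]),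
  (.negSucc 275451839, [.p, .y, .z], [.z, .y, .p]),
  (.negSucc 2963744639, [.p, .y, .z, .p], [.p]),
  (.ofNat 1067520960, [.p, .y, .z, .p], [.z, .y])]

set_option maxRecDepth 100000 in
theorem cA8 : blkOK locL e8 gA8 wA8 = true := by decide +kernel

end Pool.Agent.H14Z
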