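import Pool.Agent.Lib.H14Z.E9
import Pool.Agent.Lib.H2AF.A9

/-! # Certificate A, block 9 (T2_3, loc, size 17): the word form of the block -/

namespace Pool.Agent.H14Z

open Pool.Agent.H2AF

/-- The value of the block, one word pair per class. -/
def wA9 : E :=
 [(.negSucc 104725439, [.k], [.p, .k, .k, .p]),
  (.negSucc 456791039, [.k], [.p, .k, .p]),
  (.ofNat 197493120, [.k], [.p, .k, .p, .p, .p]),
  (.ofNat 197493120, [.k], [.p, .k, .p, .y, .y]),
  (.negSucc 197493119, [.k], [.p, .k, .y, .p, .y]),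
  (.negSucc 197493119, [.k], [.p, .k, .y, .y, .p]),
  (.ofNat 437783040, [.k], [.p, .k, .y, .z]),
  (.ofNat 602280000, [.k], [.p, .p]),
  (.ofNat 175317120, [.k], [.p, .p, .k, .p, .p]),
  (.ofNat 175317120, [.k], [.p, .p, .k, .y, .y]),
  (.negSucc 413703359, [.k], [.p, .p, .p, .p]),
  (.negSucc 123883199, [.k], [.p, .p, .p, .y, .z]),
  (.ofNat 331116480, [.k], [.p, .p, .y, .p, .z]),
  (.negSucc 413703359, [.k], [.p, .p, .y, .y]),
  (.ofNat 454999680, [.k], [.p, .p, .y, .z, .p]),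
  (.negSucc 175317119, [.k], [.p, .y, .k, .p, .y]),
  (.negSucc 175317119, [.k], [.p, .y, .k, .y, .p]),
  (.negSucc 84847679, [.k], [.p, .y, .p, .p, .z]),
  (.ofNat 377081280, [.k], [.p, .y, .p, .y]),
  (.negSucc 104365439, [.k], [.p, .y, .p, .z, .p]),
  (.ofNat 541077120, [.k], [.p, .y, .y, .p]),
  (.ofNat 19517760, [.k], [.p, .y, .y, .y, .z]),
  (.ofNat 42289920, [.k], [.p, .y, .z]),
  (.negSucc 311103359, [.k, .k], [.k, .p, .p]),
  (.negSucc 88346879, [.k, .k], [.p, .k, .p]),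
  (.ofNat 484191360, [.k, .k], [.p, .p]),
  (.negSucc 212927039, [.k, .k], [.p, .p, .p, .p]),
  (.negSucc 212927039, [.k, .k], [.p, .p, .y, .y]),
  (.ofNat 212927040, [.k, .k], [.p, .y, .p, .y]),
  (.ofNat 212927040, [.k, .k], [.p, .y, .y, .p]),
  (.negSucc 234201599, [.k, .k], [.p, .y, .z]),
  (.ofNat 167685120, [.k, .k, .k], [.p, .p]),
  (.negSucc 109658879, [.k, .k, .k, .p], [.p]),
  (.ofNat 215988480, [.k, .k, .p], [.k, .p]),
  (.ofNat 367960320, [.k, .k, .p], [.p]),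
  (.negSucc 144270719, [.k, .k, .p], [.p, .k]),
  (.negSucc 201611519, [.k, .k, .p], [.p, .p, .p]),
  (.negSucc 201611519, [.k, .k, .p], [.p, .y, .y]),
  (.ofNat 201611520, [.k, .k, .p], [.y, .p, .y]),
  (.ofNat 201611520, [.k, .k, .p], [.y, .y, .p]),
  (.negSucc 438456959, [.k, .k, .p], [.y, .z]),
  (.ofNat 396449280, [.k, .k, .p, .k], [.p]),
  (.ofNat 112104000, [.k, .k, .p, .p], [.p, .p]),
  (.ofNat 112104000, [.k, .k, .p, .p], [.y, .y]),
  (.negSucc 112103999, [.k, .k, .p, .y], [.p, .y]),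
  (.negSucc 112103999, [.k, .k, .p, .y], [.y, .p]),
  (.ofNat 282055680, [.k, .k, .p, .y], [.z]),
  (.negSucc 1204744319, [.k, .p], [.k, .p]),
  (.ofNat 566542080, [.k, .p], [.p]),
  (.negSucc 655994879, [.k, .p], [.p, .k]),
  (.ofNat 39807360, [.k, .p], [.p, .k, .p, .p]),
  (.negSucc 104463359, [.k, .p], [.p, .k, .y, .y]),
  (.ofNat 265150080, [.k, .p], [.p, .p, .k, .p]),
  (.negSucc 546324479, [.k, .p], [.p, .p, .p]),
  (.ofNat 399467520, [.k, .p], [.p, .p, .y, .z]),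
  (.negSucc 268295039, [.k, .p], [.p, .y, .k, .y]),
  (.ofNat 231445440, [.k, .p], [.p, .y, .p, .z]),
  (.ofNat 373921920, [.k, .p], [.p, .y, .y]),
  (.ofNat 261040320, [.k, .p], [.p, .y, .z, .p]),
  (.negSucc 39807359, [.k, .p], [.y, .k, .p, .y]),
  (.ofNat 104463360, [.k, .p], [.y, .k, .y, .p]),
  (.ofNat 1011997440, [.k, .p], [.y, .k, .z]),
  (.negSucc 265150079, [.k, .p], [.y, .p, .k, .y]),
  (.ofNat 132330240, [.k, .p], [.y, .p, .p, .z]),
  (.ofNat 127065600, [.k, .p], [.y, .p, .y]),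
  (.ofNat 537413760, [.k, .p], [.y, .p, .z, .p]),
  (.ofNat 268295040, [.k, .p], [.y, .y, .k, .p]),
  (.negSucc 991226879, [.k, .p], [.y, .y, .p]),
  (.ofNat 206386560, [.k, .p], [.y, .y, .y, .z]),
  (.ofNat 72408960, [.k, .p], [.y, .y, .z, .y]),
  (.negSucc 309340799, [.k, .p], [.y, .z]),
  (.ofNat 72676800, [.k, .p], [.y, .z, .p, .p]),
  (.negSucc 105762239, [.k, .p], [.y, .z, .y, .y]),
  (.negSucc 68440319, [.k, .p], [.y, .z, .z, .z]),
  (.negSucc 1347678719, [.k, .p, .k], [.k, .p]),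
  (.ofNat 1371755520, [.k, .p, .k], [.p]),
  (.negSucc 70548479, [.k, .p, .k], [.p, .p, .p]),
  (.ofNat 70548480, [.k, .p, .k], [.y, .p, .y]),
  (.negSucc 37031039, [.k, .p, .k], [.y, .z]),
  (.ofNat 440006400, [.k, .p, .k, .k, .p], []),
  (.ofNat 284152320, [.k, .p, .k, .p], []),
  (.negSucc 402693119, [.k, .p, .k, .p], [.k]),
  (.negSucc 179668799, [.k, .p, .k, .p], [.p, .p]),
  (.ofNat 54388800, [.k, .p, .k, .p], [.y, .y]),
  (.ofNat 904847040, [.k, .p, .k, .p, .k], []),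
  (.negSucc 167011199, [.k, .p, .k, .p, .p], [.p]),
  (.ofNat 167011200, [.k, .p, .k, .p, .y], [.y]),
  (.ofNat 179668800, [.k, .p, .k, .y], [.p, .y]),
  (.negSucc 54388799, [.k, .p, .k, .y], [.y, .p]),
  (.negSucc 855129599, [.k, .p, .k, .y], [.z]),
  (.ofNat 167011200, [.k, .p, .k, .y, .p], [.y]),
  (.negSucc 167011199, [.k, .p, .k, .y, .y], [.p]),
  (.negSucc 20494079, [.k, .p, .k, .y, .z], []),
  (.negSucc 921496319, [.k, .p, .p], []),
  (.negSucc 1479438719, [.k, .p, .p], [.k]),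
  (.ofNat 187741440, [.k, .p, .p], [.k, .p, .p]),
  (.negSucc 123361919, [.k, .p, .p], [.k, .y, .y]),
  (.negSucc 22250879, [.k, .p, .p], [.p, .k, .p]),
  (.ofNat 100601280, [.k, .p, .p], [.p, .p]),
  (.negSucc 295608959, [.k, .p, .p], [.p, .y, .z]),
  (.ofNat 22250880, [.k, .p, .p], [.y, .k, .y]),
  (.negSucc 69238079, [.k, .p, .p], [.y, .p, .z]),
  (.negSucc 476441279, [.k, .p, .p], [.y, .y]),
  (.negSucc 314999999, [.k, .p, .p], [.y, .z, .p]),
  (.ofNat 1177920000, [.k, .p, .p, .k], []),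
  (.ofNat 273072960, [.k, .p, .p, .k], [.k]),
  (.negSucc 112888799, [.k, .p, .p, .k], [.p, .p]),
  (.ofNat 327869280, [.k, .p, .p, .k], [.y, .y]),
  (.ofNat 440294400, [.k, .p, .p, .k, .p], [.p]),
  (.negSucc 453536639, [.k, .p, .p, .k, .p, .p], []),
  (.ofNat 330635520, [.k, .p, .p, .k, .y], [.y]),
  (.negSucc 453536639, [.k, .p, .p, .k, .y, .y], []),
  (.ofNat 373625280, [.k, .p, .p, .p], [.k, .p]),
  (.negSucc 412937279, [.k, .p, .p, .p], [.p]),
  (.ofNat 398761920, [.k, .p, .p, .p], [.p, .k]),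
  (.negSucc 252011519, [.k, .p, .p, .p], [.y, .z]),
  (.negSucc 198224639, [.k, .p, .p, .p, .k], [.p]),
  (.negSucc 220003199, [.k, .p, .p, .p, .k, .p], []),
  (.ofNat 790208640, [.k, .p, .p, .p, .p], []),
  (.ofNat 460091520, [.k, .p, .p, .p, .p], [.k]),
  (.negSucc 452423519, [.k, .p, .p, .p, .p, .k], []),
  (.ofNat 207671040, [.k, .p, .p, .p, .y], [.z]),
  (.ofNat 10247040, [.k, .p, .p, .p, .y, .z], []),
  (.ofNat 574896960, [.k, .p, .p, .y], [.k, .y]),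
  (.negSucc 39504959, [.k, .p, .p, .y], [.p, .z]),
  (.negSucc 778167359, [.k, .p, .p, .y], [.y]),
  (.ofNat 398761920, [.k, .p, .p, .y], [.y, .k]),
  (.ofNat 297426240, [.k, .p, .p, .y], [.z, .p]),
  (.negSucc 220003199, [.k, .p, .p, .y, .k, .y], []),
  (.ofNat 811120320, [.k, .p, .p, .y, .p], [.z]),
  (.negSucc 444464639, [.k, .p, .p, .y, .p, .z], []),
  (.ofNat 790208640, [.k, .p, .p, .y, .y], []),
  (.ofNat 460091520, [.k, .p, .p, .y, .y], [.k]),
  (.negSucc 452423519, [.k, .p, .p, .y, .y, .k], []),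
  (.ofNat 321393600, [.k, .p, .p, .y, .z], [.p]),
  (.negSucc 454711679, [.k, .p, .p, .y, .z, .p], []),
  (.negSucc 187741439, [.k, .p, .y], [.k, .p, .y]),
  (.ofNat 123361920, [.k, .p, .y], [.k, .y, .p]),
  (.ofNat 699863040, [.k, .p, .y], [.k, .z]),
  (.ofNat 22250880, [.k, .p, .y], [.p, .k, .y]),
  (.ofNat 234146880, [.k, .p, .y], [.p, .p, .z]),
  (.negSucc 361978559, [.k, .p, .y], [.p, .y]),
  (.negSucc 159906239, [.k, .p, .y], [.p, .z, .p]),
  (.negSucc 22250879, [.k, .p, .y], [.y, .k, .p]),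
  (.ofNat 464794560, [.k, .p, .y], [.y, .p]),
  (.ofNat 61338240, [.k, .p, .y], [.y, .y, .z]),
  (.ofNat 356947200, [.k, .p, .y], [.y, .z, .y]),
  (.negSucc 608279039, [.k, .p, .y], [.z]),
  (.ofNat 1041200640, [.k, .p, .y], [.z, .k]),
  (.negSucc 303384959, [.k, .p, .y], [.z, .p, .p]),
  (.negSucc 80729279, [.k, .p, .y], [.z, .y, .y]),
  (.ofNat 74364480, [.k, .p, .y], [.z, .z, .z]),
  (.ofNat 112888800, [.k, .p, .y, .k], [.p, .y]),
  (.negSucc 327869279, [.k, .p, .y, .k], [.y, .p]),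
  (.negSucc 669522239, [.k, .p, .y, .k], [.z]),
  (.negSucc 440294399, [.k, .p, .y, .k, .p], [.y]),
  (.ofNat 453536640, [.k, .p, .y, .k, .p, .y], []),
  (.negSucc 330635519, [.k, .p, .y, .k, .y], [.p]),
  (.ofNat 453536640, [.k, .p, .y, .k, .y, .p], []),
  (.negSucc 440006399, [.k, .p, .y, .k, .z], []),
  (.negSucc 373625279, [.k, .p, .y, .p], [.k, .y]),
  (.negSucc 204082559, [.k, .p, .y, .p], [.p, .z]),
  (.ofNat 1154168640, [.k, .p, .y, .p], [.y]),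
  (.negSucc 398761919, [.k, .p, .y, .p], [.y, .k]),
  (.negSucc 685439, [.k, .p, .y, .p], [.z, .p]),
  (.ofNat 198224640, [.k, .p, .y, .p, .k], [.y]),
  (.ofNat 220003200, [.k, .p, .y, .p, .k, .y], []),
  (.negSucc 133594559, [.k, .p, .y, .p, .p], [.z]),
  (.negSucc 9071999, [.k, .p, .y, .p, .p, .z], []),
  (.negSucc 772064639, [.k, .p, .y, .p, .y], []),
  (.negSucc 460091519, [.k, .p, .y, .p, .y], [.k]),
  (.ofNat 452423520, [.k, .p, .y, .p, .y, .k], []),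
  (.negSucc 259945919, [.k, .p, .y, .p, .z], [.p]),
  (.ofNat 1175040, [.k, .p, .y, .p, .z, .p], []),
  (.negSucc 574896959, [.k, .p, .y, .y], [.k, .p]),
  (.ofNat 1088844480, [.k, .p, .y, .y], [.p]),
  (.negSucc 398761919, [.k, .p, .y, .y], [.p, .k]),
  (.ofNat 19344960, [.k, .p, .y, .y], [.y, .z]),
  (.negSucc 257664959, [.k, .p, .y, .y], [.z, .y]),
  (.ofNat 220003200, [.k, .p, .y, .y, .k, .p], []),
  (.negSucc 792558719, [.k, .p, .y, .y, .p], []),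
  (.negSucc 460091519, [.k, .p, .y, .y, .p], [.k]),
  (.ofNat 452423520, [.k, .p, .y, .y, .p, .k], []),
  (.negSucc 300605759, [.k, .p, .y, .y, .y], [.z]),
  (.negSucc 9071999, [.k, .p, .y, .y, .y, .z], []),
  (.negSucc 60978239, [.k, .p, .y, .y, .z], [.y]),
  (.ofNat 1175040, [.k, .p, .y, .y, .z, .y], []),
  (.ofNat 387538560, [.k, .p, .y, .z], []),
  (.ofNat 654871680, [.k, .p, .y, .z], [.k]),
  (.ofNat 427475520, [.k, .p, .y, .z], [.p, .p]),
  (.ofNat 263969280, [.k, .p, .y, .z], [.y, .y]),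
  (.ofNat 231981120, [.k, .p, .y, .z], [.z, .z]),
  (.negSucc 904847039, [.k, .p, .y, .z, .k], []),
  (.ofNat 343503360, [.k, .p, .y, .z, .p], [.p]),
  (.negSucc 453536639, [.k, .p, .y, .z, .p, .p], []),
  (.ofNat 260415360, [.k, .p, .y, .z, .y], [.y]),
  (.negSucc 453536639, [.k, .p, .y, .z, .y, .y], []),
  (.negSucc 167011199, [.k, .p, .y, .z, .z], [.z]),
  (.negSucc 301605119, [.p], [.p]),
  (.ofNat 143069760, [.p, .k, .k, .k, .p], []),
  (.ofNat 132698880, [.p, .k, .k, .p], []),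
  (.negSucc 241914239, [.p, .k, .k, .p], [.p, .p]),
  (.ofNat 241914240, [.p, .k, .k, .p], [.y, .y]),
  (.ofNat 225282240, [.p, .k, .k, .p, .p], [.p]),
  (.negSucc 225282239, [.p, .k, .k, .p, .y], [.y]),
  (.ofNat 241914240, [.p, .k, .k, .y], [.p, .y]),
  (.negSucc 241914239, [.p, .k, .k, .y], [.y, .p]),
  (.negSucc 161161919, [.p, .k, .k, .y], [.z]),
  (.negSucc 225282239, [.p, .k, .k, .y, .p], [.y]),
  (.ofNat 225282240, [.p, .k, .k, .y, .y], [.p]),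
  (.negSucc 247380479, [.p, .k, .k, .y, .z], []),
  (.negSucc 249333119, [.p, .k, .p], []),
  (.negSucc 224982719, [.p, .k, .p], [.p, .k, .p]),
  (.ofNat 445230720, [.p, .k, .p], [.p, .p]),
  (.negSucc 213468479, [.p, .k, .p], [.p, .y, .z]),
  (.ofNat 224982720, [.p, .k, .p], [.y, .k, .y]),
  (.negSucc 86610239, [.p, .k, .p], [.y, .p, .z]),
  (.negSucc 409921919, [.p, .k, .p], [.y, .y]),
  (.ofNat 45688320, [.p, .k, .p, .k, .p], [.p]),
  (.negSucc 53530559, [.p, .k, .p, .k, .p, .p], []),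
  (.negSucc 53530559, [.p, .k, .p, .k, .y, .y], []),
  (.negSucc 238011839, [.p, .k, .p, .p], [.p]),
  (.negSucc 500411519, [.p, .k, .p, .p], [.y, .z]),
  (.negSucc 71534879, [.p, .k, .p, .p, .k, .p], []),
  (.ofNat 203846400, [.p, .k, .p, .p, .p], []),
  (.negSucc 59999039, [.p, .k, .p, .p, .y], [.z]),
  (.ofNat 123690240, [.p, .k, .p, .p, .y, .z], []),
  (.negSucc 7485119, [.p, .k, .p, .y], [.p, .z]),
  (.ofNat 84121920, [.p, .k, .p, .y], [.y]),
  (.negSucc 387316799, [.p, .k, .p, .y], [.z, .p]),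
  (.negSucc 71534879, [.p, .k, .p, .y, .k, .y], []),
  (.ofNat 20836800, [.p, .k, .p, .y, .p], [.z]),
  (.negSucc 36118079, [.p, .k, .p, .y, .p, .z], []),
  (.ofNat 203846400, [.p, .k, .p, .y, .y], []),
  (.ofNat 206282880, [.p, .k, .p, .y, .z], [.p]),
  (.negSucc 159808319, [.p, .k, .p, .y, .z, .p], []),
  (.ofNat 224982720, [.p, .k, .y], [.p, .k, .y]),
  (.ofNat 186540480, [.p, .k, .y], [.p, .p, .z]),
  (.negSucc 776286719, [.p, .k, .y], [.p, .y]),
  (.negSucc 573229439, [.p, .k, .y], [.p, .z, .p]),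
  (.negSucc 224982719, [.p, .k, .y], [.y, .k, .p]),
  (.ofNat 478131840, [.p, .k, .y], [.y, .p]),
  (.ofNat 359760960, [.p, .k, .y], [.y, .y, .z]),
  (.ofNat 455852160, [.p, .k, .y], [.z]),
  (.negSucc 273150719, [.p, .k, .y], [.z, .z, .z]),
  (.negSucc 45688319, [.p, .k, .y, .k, .p], [.y]),
  (.ofNat 53530560, [.p, .k, .y, .k, .p, .y], []),
  (.ofNat 53530560, [.p, .k, .y, .k, .y, .p], []),
  (.negSucc 143069759, [.p, .k, .y, .k, .z], []),
  (.ofNat 131460480, [.p, .k, .y, .p], [.p, .z]),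
  (.ofNat 372260160, [.p, .k, .y, .p], [.y]),
  (.negSucc 563005439, [.p, .k, .y, .p], [.z, .p]),
  (.ofNat 71534880, [.p, .k, .y, .p, .k, .y], []),
  (.negSucc 258603839, [.p, .k, .y, .p, .p], [.z]),
  (.negSucc 17412479, [.p, .k, .y, .p, .p, .z], []),
  (.negSucc 169021439, [.p, .k, .y, .p, .y], []),
  (.ofNat 131961600, [.p, .k, .y, .p, .z], [.p]),
  (.ofNat 106277760, [.p, .k, .y, .p, .z, .p], []),
  (.ofNat 300156480, [.p, .k, .y, .y], [.p]),
  (.negSucc 150379199, [.p, .k, .y, .y], [.y, .z]),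
  (.ofNat 195693120, [.p, .k, .y, .y], [.z, .y]),
  (.ofNat 71534880, [.p, .k, .y, .y, .k, .p], []),
  (.negSucc 416401919, [.p, .k, .y, .y, .p], []),
  (.negSucc 33321599, [.p, .k, .y, .y, .y], [.z]),
  (.negSucc 17412479, [.p, .k, .y, .y, .y, .z], []),
  (.negSucc 102421439, [.p, .k, .y, .y, .z], [.y]),
  (.ofNat 106277760, [.p, .k, .y, .y, .z, .y], []),
  (.ofNat 45555840, [.p, .k, .y, .z], []),
  (.negSucc 142787519, [.p, .k, .y, .z], [.p, .p]),
  (.ofNat 32584320, [.p, .k, .y, .z], [.y, .y]),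
  (.ofNat 15076800, [.p, .k, .y, .z], [.z, .z]),
  (.ofNat 212797440, [.p, .k, .y, .z, .p], [.p]),
  (.negSucc 53530559, [.p, .k, .y, .z, .p, .p], []),
  (.ofNat 103861440, [.p, .k, .y, .z, .y], [.y]),
  (.negSucc 53530559, [.p, .k, .y, .z, .y, .y], []),
  (.ofNat 225282240, [.p, .k, .y, .z, .z], [.z]),
  (.ofNat 310530240, [.p, .p], []),
  (.negSucc 202063679, [.p, .p], [.p, .p]),
  (.negSucc 98098559, [.p, .p], [.p, .y, .p, .y]),
  (.ofNat 114072480, [.p, .p], [.p, .y, .y, .p]),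
  (.negSucc 60767999, [.p, .p], [.p, .y, .z]),
  (.ofNat 78073920, [.p, .p], [.y, .p, .p, .y]),
  (.ofNat 212270400, [.p, .p], [.y, .p, .z]),
  (.negSucc 132828479, [.p, .p], [.y, .y]),
  (.ofNat 230634720, [.p, .p], [.y, .z, .y, .z]),
  (.ofNat 276396480, [.p, .p], [.y, .z, .z, .y]),
  (.negSucc 133708319, [.p, .p, .k, .k, .p, .p], []),
  (.negSucc 133708319, [.p, .p, .k, .k, .y, .y], []),
  (.ofNat 124574400, [.p, .p, .k, .p, .p], []),
  (.ofNat 367459200, [.p, .p, .k, .p, .y], [.z]),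
  (.negSucc 74113919, [.p, .p, .k, .p, .y, .z], []),
  (.ofNat 579672000, [.p, .p, .k, .y, .p], [.z]),
  (.negSucc 272810879, [.p, .p, .k, .y, .p, .z], []),
  (.ofNat 124574400, [.p, .p, .k, .y, .y], []),
  (.ofNat 212212800, [.p, .p, .k, .y, .z], [.p]),
  (.negSucc 198696959, [.p, .p, .k, .y, .z, .p], []),
  (.ofNat 257374080, [.p, .p, .p], [.p]),
  (.ofNat 35735040, [.p, .p, .p], [.p, .y, .y]),
  (.ofNat 94371840, [.p, .p, .p], [.y, .p, .y]),
  (.ofNat 280710720, [.p, .p, .p], [.y, .z]),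
  (.negSucc 28703519, [.p, .p, .p, .p], []),
  (.ofNat 113078880, [.p, .p, .p, .p], [.y, .y]),
  (.negSucc 3959999, [.p, .p, .p, .p, .y], [.y]),
  (.ofNat 30533760, [.p, .p, .p, .y], [.p, .y]),
  (.ofNat 4608000, [.p, .p, .p, .y], [.y, .p]),
  (.negSucc 269832959, [.p, .p, .p, .y], [.z]),
  (.ofNat 48168000, [.p, .p, .p, .y, .p], [.y]),
  (.negSucc 24523199, [.p, .p, .p, .y, .z], []),
  (.negSucc 22841279, [.p, .p, .y], [.p, .p, .y]),
  (.negSucc 11399039, [.p, .p, .y], [.p, .y, .p]),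
  (.ofNat 296029440, [.p, .p, .y], [.p, .z]),
  (.ofNat 39813120, [.p, .p, .y], [.y]),
  (.negSucc 35735039, [.p, .p, .y], [.y, .z, .z]),
  (.ofNat 503688960, [.p, .p, .y], [.z, .p]),
  (.ofNat 24336000, [.p, .p, .y], [.z, .y, .z]),
  (.ofNat 165902400, [.p, .p, .y], [.z, .z, .y]),
  (.negSucc 267416639, [.p, .p, .y, .k, .p, .z], []),
  (.negSucc 267416639, [.p, .p, .y, .k, .z, .p], []),
  (.negSucc 245393279, [.p, .p, .y, .p], [.p, .y]),
  (.negSucc 4749119, [.p, .p, .y, .p], [.y, .p]),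
  (.negSucc 819728639, [.p, .p, .y, .p], [.z]),
  (.ofNat 177194880, [.p, .p, .y, .p, .p], [.y]),
  (.negSucc 5394239, [.p, .p, .y, .p, .p, .y], []),
  (.negSucc 13069439, [.p, .p, .y, .p, .y], [.p]),
  (.ofNat 68719680, [.p, .p, .y, .p, .y, .p], []),
  (.ofNat 239267520, [.p, .p, .y, .p, .z], []),
  (.negSucc 28703519, [.p, .p, .y, .y], []),
  (.negSucc 112103999, [.p, .p, .y, .y], [.p, .p]),
  (.negSucc 974879, [.p, .p, .y, .y], [.z, .z]),
  (.negSucc 225282239, [.p, .p, .y, .y, .p], [.p]),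
  (.ofNat 133708320, [.p, .p, .y, .y, .p, .p], []),
  (.ofNat 229242240, [.p, .p, .y, .y, .z], [.z]),
  (.negSucc 133708319, [.p, .p, .y, .y, .z, .z], []),
  (.negSucc 293771519, [.p, .p, .y, .z], [.p]),
  (.negSucc 201150719, [.p, .p, .y, .z], [.y, .z]),
  (.ofNat 24160320, [.p, .p, .y, .z], [.z, .y]),
  (.ofNat 263790720, [.p, .p, .y, .z, .p], []),
  (.negSucc 35098559, [.p, .p, .y, .z, .y], [.z]),
  (.negSucc 68719679, [.p, .p, .y, .z, .y, .z], []),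
  (.negSucc 177194879, [.p, .p, .y, .z, .z], [.y]),
  (.ofNat 5394240, [.p, .p, .y, .z, .z, .y], []),
  (.ofNat 473100480, [.p, .y], [.p, .y]),
  (.ofNat 13204800, [.p, .y], [.y, .p]),
  (.negSucc 216596159, [.p, .y], [.z]),
  (.ofNat 133708320, [.p, .y, .k, .k, .p, .y], []),
  (.ofNat 133708320, [.p, .y, .k, .k, .y, .p], []),
  (.ofNat 5394240, [.p, .y, .k, .p, .p, .z], []),
  (.negSucc 87589439, [.p, .y, .k, .p, .y], []),
  (.ofNat 238351680, [.p, .y, .k, .p, .z], [.p]),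
  (.negSucc 68719679, [.p, .y, .k, .p, .z, .p], []),
  (.negSucc 260539199, [.p, .y, .k, .y, .p], []),
  (.ofNat 5394240, [.p, .y, .k, .y, .y, .z], []),
  (.ofNat 13069440, [.p, .y, .k, .y, .z], [.y]),
  (.negSucc 68719679, [.p, .y, .k, .y, .z, .y], []),
  (.ofNat 225282240, [.p, .y, .k, .z, .p], [.p]),
  (.ofNat 74943360, [.p, .y, .p], [.p, .y, .p]),
  (.negSucc 300026879, [.p, .y, .p], [.p, .z]),
  (.negSucc 645724799, [.p, .y, .p], [.y]),
  (.ofNat 169315200, [.p, .y, .p], [.z, .y, .z]),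
  (.negSucc 18492479, [.p, .y, .p, .p, .p, .y], []),
  (.negSucc 91702079, [.p, .y, .p, .p, .y], [.p]),
  (.ofNat 65507040, [.p, .y, .p, .p, .y, .p], []),
  (.negSucc 41745599, [.p, .y, .p, .p, .z], []),
  (.ofNat 37550880, [.p, .y, .p, .y], []),
  (.negSucc 58173119, [.p, .y, .p, .y, .p], [.p]),
  (.negSucc 17029439, [.p, .y, .p, .y, .z], [.z]),
  (.negSucc 207578879, [.p, .y, .p, .z], [.p]),
  (.negSucc 199221119, [.p, .y, .p, .z], [.y, .z]),
  (.negSucc 35490239, [.p, .y, .p, .z], [.z, .y]),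
  (.negSucc 9691199, [.p, .y, .p, .z, .p], []),
  (.ofNat 135901440, [.p, .y, .p, .z, .y], [.z]),
  (.negSucc 65507039, [.p, .y, .p, .z, .y, .z], []),
  (.ofNat 18492480, [.p, .y, .p, .z, .z, .y], []),
  (.negSucc 21895199, [.p, .y, .y, .p], []),
  (.negSucc 330045119, [.p, .y, .y, .p, .z], [.z]),
  (.negSucc 14569919, [.p, .y, .y, .y, .p], [.y]),
  (.negSucc 2475359, [.p, .y, .y, .y, .y, .p], []),
  (.ofNat 140895360, [.p, .y, .y, .y, .z], []),
  (.ofNat 125661600, [.p, .y, .y, .z], [.p, .z]),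
  (.ofNat 99642240, [.p, .y, .y, .z], [.y]),
  (.negSucc 118680479, [.p, .y, .y, .z], [.z, .p]),
  (.negSucc 177114239, [.p, .y, .y, .z, .p], [.z]),
  (.negSucc 2475359, [.p, .y, .y, .z, .z, .p], []),
  (.ofNat 201242880, [.p, .y, .z], []),
  (.ofNat 52102080, [.p, .y, .z], [.p, .y, .z]),
  (.negSucc 141566399, [.p, .y, .z], [.p, .z, .y]),
  (.ofNat 11399040, [.p, .y, .z], [.y, .z, .p]),
  (.negSucc 74943359, [.p, .y, .z], [.z, .y, .p]),
  (.negSucc 321215039, [.p, .y, .z, .p], [.p]),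
  (.negSucc 167319359, [.p, .y, .z, .p], [.y, .z]),
  (.negSucc 53994239, [.p, .y, .z, .p], [.z, .y]),
  (.ofNat 85492800, [.p, .y, .z, .p, .y], [.z]),
  (.ofNat 60112800, [.p, .y, .z, .p, .y, .z], []),
  (.ofNat 44832960, [.p, .y, .z, .p, .z, .y], []),
  (.ofNat 133591680, [.p, .y, .z, .y, .p], [.z]),
  (.ofNat 71195040, [.p, .y, .z, .y, .z, .p], []),
  (.ofNat 115215840, [.p, .y, .z, .z, .p, .y], []),
  (.ofNat 201690720, [.p, .y, .z, .z, .y, .p], [])]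

set_option maxRecDepth 100000 in
theorem cA9 : blkOK locL e9 gA9 wA9 = true := by decide +kernel

end Pool.Agent.H14Z
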