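import Pool.Agent.Lib.H14Z.C
import Pool.Agent.Lib.H75C.C8
import Pool.Agent.Lib.H2AF.PSD

/-! # Block sums -/

namespace Pool.Agent.H14Z

open Finset Pool.Agent.H2AF

/-! ### products of elements (kernel versions) -/

/-- The sign `(-1)^{#Y}`. -/
noncomputable def sgn (w : Wo) : Int :=
  List.rec (motive := fun _ => Int) (.ofNat 1)
    (fun l _ ih => Le.rec (motive := fun _ => Int) ih ih (Int.neg ih) ih l) w

/-- One row of a product. -/
noncomputable def pr (c : Int) (ur vr : Wo) (z : E) (r : E) : E :=
  List.rec (motive := fun _ => E) r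
    (fun t _ ih => (Int.mul c t.1, ap ur t.2.1, ap t.2.2 vr) :: ih) z

/-- The product `z^* z'`. -/
noncomputable def smulL (z z' : E) : E :=
  List.rec (motive := fun _ => E) []
    (fun t _ ih => pr (Int.mul (Int.mul (sgn t.2.1) (sgn t.2.2)) t.1) (rva t.2.1 []) (rva t.2.2 [])
      z' ih) z

/-- One row of a tensor product. -/
noncomputable def tr (c : Int) (u : Wo) (z : E) (r : E) : E :=
  List.rec (motive := fun _ => E) r
    (fun t _ ih => (Int.mul c (Int.mul (sgn t.2.1) t.1), u, rva t.2.1 []) :: ih) z

/-- The element `z ⊗ z'^*`. -/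
noncomputable def tensL (z z' : E) : E :=
  List.rec (motive := fun _ => E) [] (fun t _ ih => tr t.1 t.2.1 z' ih) z

/-- The product `z^* a z'` for a one sided word with coefficient `a`. -/
noncomputable def gm1 (a : Int × Wo) (z z' : E) (r : E) : E :=
  List.rec (motive := fun _ => E) r
    (fun t _ ih => pr (Int.mul a.1 (Int.mul (Int.mul (sgn t.2.1) (sgn t.2.2)) t.1))
      (ap (rva t.2.1 []) a.2) (rva t.2.2 []) z' ih) z

/-- The product `z^* G z'`. -/
noncomputable def gmulL (G : List (Int × Wo)) (z z' : E) (r : E) : E :=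
  List.rec (motive := fun _ => E) r (fun a _ ih => gm1 a z z' ih) G

/-- `4 (T_00 - T_00 T_00)`. -/
def g00 : List (Int × Wo) :=
  [(.ofNat 1, []), (.negSucc 0, [.k, .k]), (.negSucc 0, [.k, .z]), (.negSucc 0, [.z, .k]),
    (.negSucc 0, [.z, .z])]

/-- `4 (T_01 - T_00 T_01)`. -/
def g01 : List (Int × Wo) :=
  [(.ofNat 1, [.p]), (.negSucc 0, [.y]), (.negSucc 0, [.k, .p]), (.ofNat 1, [.k, .y]),
    (.negSucc 0, [.z, .p]), (.ofNat 1, [.z, .y])]

/-- `4 (T_10 - T_10 T_00)`. -/
def g10 : List (Int × Wo) :=
  [(.ofNat 1, [.p]), (.ofNat 1, [.y]), (.negSucc 0, [.p, .k]), (.negSucc 0, [.p, .z]),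
    (.negSucc 0, [.y, .k]), (.negSucc 0, [.y, .z])]

/-- `4 (T_11 - T_10 T_01)`. -/
def g11 : List (Int × Wo) :=
  [(.ofNat 2, []), (.ofNat 2, [.k]), (.negSucc 1, [.z]), (.negSucc 0, [.p, .p]),
    (.ofNat 1, [.p, .y]), (.negSucc 0, [.y, .p]), (.ofNat 1, [.y, .y])]

/-- The localizer product. -/
noncomputable def locL (z z' : E × E) : E :=
  gmulL g00 z.1 z'.1 (gmulL g01 z.1 z'.2 (gmulL g10 z.2 z'.1 (gmulL g11 z.2 z'.2 [])))

/-! ### the block sum as a trie -/

variable {α : Type}

/-- A row: `∑ 2 g_j q(z, z_j)`. -/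
noncomputable def row (q : α → α → E) (z : α) (g : List Int) : List α → T2 :=
  List.rec (motive := fun _ => List α → T2) (fun _ => .lf)
    (fun c _ ih zs => List.rec (motive := fun _ => T2) .lf
      (fun z' zs _ => mrg2 (insE (Int.add c c) (q z z') .lf) (ih zs)) zs) g

/-- Remove the first column. -/
noncomputable def tl (G : List (List Int)) : List (List Int) :=
  List.rec (motive := fun _ => List (List Int)) []
    (fun g _ ih => List.rec (motive := fun _ => List Int) [] (fun _ g _ => g) g :: ih) G

/-- The block sum. -/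
noncomputable def blk (q : α → α → E) (zs : List α) : List (List Int) → T2 :=
  List.rec (motive := fun _ => List (List Int) → T2) (fun _ => .lf)
    (fun z zs ih G => List.rec (motive := fun _ => T2) .lf
      (fun g G _ => List.rec (motive := fun _ => T2) (ih (tl G))
        (fun c g _ => mrg2 (insE c (q z z) .lf) (mrg2 (row q z g zs) (ih (tl G)))) g) G) zs

theorem v2_lf (F : Wo → Wo → ℝ) : v2 .lf F = 0 := rfl

theorem v2_row (F : Wo → Wo → ℝ) (q : α → α → E) (d z : α) (g : List Int) (zs : List α) :
    v2 (row q z g zs) F = ∑ j ∈ range zs.length,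
      2 * (g.getD j 0 : ℝ) * lin F (q z (zs.getD j d)) := by
  induction g generalizing zs with
  | nil =>
    change (0 : ℝ) = _
    simp
  | cons c g ih =>
    cases zs with
    | nil =>
      change (0 : ℝ) = _
      simp
    | cons z' zs =>
      change v2 (mrg2 (insE (Int.add c c) (q z z') .lf) (row q z g zs)) F = _
      rw [v2_mrg2, v2_insE, ih, List.length_cons, sum_range_succ', v2_lf, zero_add, add_comm]
      congr 1
      have h : ((Int.add c c : ℤ) : ℝ) = 2 * (c : ℝ) := by
        have : Int.add c c = c + c := rfl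
        rw [this]
        push_cast
        ring
      rw [h]
      simp

theorem ent_tl (G : List (List Int)) (i j : ℕ) : ent (tl G) i j = ent G i (j + 1) := by
  induction G generalizing i with
  | nil => simp [ent, tl]
  | cons g G ih =>
    cases i with
    | zero =>
      cases g with
      | nil => simp [ent, tl]
      | cons c g => simp [ent, tl]
    | succ i =>
      have h := ih i
      simpa [ent, tl] using h

theorem v2_blk (F : Wo → Wo → ℝ) (q : α → α → E) (d : α)
    (hs : ∀ x y, lin F (q x y) = lin F (q y x)) (zs : List α) (G : List (List Int))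
    (hG : ∀ i < zs.length, ∀ j < zs.length, ent G i j = ent G j i) :
    v2 (blk q zs G) F = ∑ i ∈ range zs.length, ∑ j ∈ range zs.length,
      (ent G i j : ℝ) * lin F (q (zs.getD i d) (zs.getD j d)) := by
  induction zs generalizing G with
  | nil => rfl
  | cons z zs ih =>
    have hG' : ∀ (G' : List (List Int)), (∀ i j, ent G' i j = ent G (i + 1) j) →
        v2 (blk q zs (tl G')) F = ∑ i ∈ range zs.length, ∑ j ∈ range zs.length,
          (ent G (i + 1) (j + 1) : ℝ) * lin F (q (zs.getD i d) (zs.getD j d)) := by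
      intro G' h
      rw [ih (tl G') (fun i hi j hj => by
        rw [ent_tl, ent_tl, h, h]
        exact hG (i + 1) (by simpa using hi) (j + 1) (by simpa using hj))]
      refine sum_congr rfl fun i _ => sum_congr rfl fun j _ => ?_
      rw [ent_tl, h]
    have hexp : ∑ i ∈ range (z :: zs).length, ∑ j ∈ range (z :: zs).length,
        (ent G i j : ℝ) * lin F (q ((z :: zs).getD i d) ((z :: zs).getD j d)) =
        (ent G 0 0 : ℝ) * lin F (q z z) +
        ∑ j ∈ range zs.length, 2 * (ent G 0 (j + 1) : ℝ) * lin F (q z (zs.getD j d)) +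
        ∑ i ∈ range zs.length, ∑ j ∈ range zs.length,
          (ent G (i + 1) (j + 1) : ℝ) * lin F (q (zs.getD i d) (zs.getD j d)) := by
      rw [List.length_cons, sum_range_succ']
      have e1 : ∀ i, ∑ j ∈ range (zs.length + 1),
          (ent G i j : ℝ) * lin F (q ((z :: zs).getD i d) ((z :: zs).getD j d)) =
          ∑ j ∈ range zs.length, (ent G i (j + 1) : ℝ) *
            lin F (q ((z :: zs).getD i d) (zs.getD j d)) +
          (ent G i 0 : ℝ) * lin F (q ((z :: zs).getD i d) z) := by
        intro i
        rw [sum_range_succ']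
        rfl
      rw [e1 0, sum_congr rfl fun i _ => e1 (i + 1), sum_add_distrib]
      have e2 : ∑ x ∈ range zs.length,
          (ent G (x + 1) 0 : ℝ) * lin F (q ((z :: zs).getD (x + 1) d) z) =
          ∑ j ∈ range zs.length, (ent G 0 (j + 1) : ℝ) * lin F (q z (zs.getD j d)) := by
        refine sum_congr rfl fun j hj => ?_
        rw [hG (j + 1) (by simpa using hj) 0 (by simp)]
        congr 1
        exact hs _ _
      rw [e2]
      have e3 : ∀ x : ℕ, (z :: zs).getD (x + 1) d = zs.getD x d := fun _ => rfl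
      simp only [e3]
      have e4 : ∑ j ∈ range zs.length, 2 * (ent G 0 (j + 1) : ℝ) * lin F (q z (zs.getD j d)) =
          2 * ∑ j ∈ range zs.length, (ent G 0 (j + 1) : ℝ) * lin F (q z (zs.getD j d)) := by
        rw [mul_sum]
        exact sum_congr rfl fun j _ => by ring
      rw [e4]
      change (∑ x ∈ range zs.length, ∑ x_1 ∈ range zs.length, _) + _ + (_ + _) = _
      have e5 : (z :: zs).getD 0 d = z := rfl
      rw [e5]
      ring
    rw [hexp]
    cases G with
    | nil =>
      change (0 : ℝ) = _
      simp [ent]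
    | cons g G =>
      have h1 := hG' G (fun i j => rfl)
      cases g with
      | nil =>
        change v2 (blk q zs (tl G)) F = _
        rw [h1]
        simp [ent]
      | cons c g =>
        change v2 (mrg2 (insE c (q z z) .lf) (mrg2 (row q z g zs) (blk q zs (tl G)))) F = _
        rw [v2_mrg2, v2_mrg2, v2_insE, v2_row F q d, h1, v2_lf, zero_add, ← add_assoc]
        rfl

/-- The check of a block. -/
noncomputable def blkOK (q : α → α → E) (zs : List α) (G : List (List Int)) (v : E) : Bool :=
  z2 (wk2 (mrg2 (blk q zs G) (insE (.negSucc 0) v .lf)) [])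

theorem blk_sound {F : Wo → Wo → ℝ} (hF : Sy F) {q : α → α → E} (d : α)
    (hs : ∀ x y, lin F (q x y) = lin F (q y x)) {zs : List α} {G : List (List Int)} {v : E}
    (hG : ∀ i < zs.length, ∀ j < zs.length, ent G i j = ent G j i)
    (h : blkOK q zs G v = true) :
    ∑ i ∈ range zs.length, ∑ j ∈ range zs.length,
      (ent G i j : ℝ) * lin F (q (zs.getD i d) (zs.getD j d)) = lin F v := by
  have h1 := v2_zero hF h
  rw [v2_mrg2, v2_insE, v2_blk F q d hs zs G hG, v2_lf] at h1
  have h2 : (((Int.negSucc 0 : ℤ)) : ℝ) = -1 := by norm_num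
  rw [h2] at h1
  linarith

end Pool.Agent.H14Z
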