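import Pool.Agent.Lib.H14Z.E1
import Pool.Agent.Lib.H2AF.B1

/-! # Certificate B, block 1 (P1_A1, sq, size 26): the word form of the block -/

namespace Pool.Agent.H14Z

open Pool.Agent.H2AF

/-- The value of the block, one word pair per class. -/
def wB1 : E :=
 [(.ofNat 3265920000, [], []),
  (.negSucc 192131999, [.k], []),
  (.negSucc 19393863839, [.k], [.k]),
  (.negSucc 10547128799, [.k], [.p, .k, .p]),
  (.ofNat 5811760800, [.k], [.p, .k, .p, .p, .p]),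
  (.negSucc 11623521599, [.k], [.p, .k, .p, .y, .y]),
  (.ofNat 4593650400, [.k], [.p, .p]),
  (.ofNat 6035558400, [.k], [.p, .p, .k, .p, .p]),
  (.negSucc 12071116799, [.k], [.p, .p, .k, .y, .y]),
  (.ofNat 9439200, [.k], [.p, .p, .p, .p]),
  (.ofNat 695304000, [.k], [.p, .p, .p, .y, .z]),
  (.negSucc 695303999, [.k], [.p, .p, .y, .p, .z]),
  (.negSucc 18878399, [.k], [.p, .p, .y, .y]),
  (.ofNat 695304000, [.k], [.p, .p, .y, .z, .p]),
  (.ofNat 1543536000, [.k], [.p, .y, .z]),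
  (.ofNat 22412814840, [.k, .k], []),
  (.negSucc 810177911, [.k, .k], [.k]),
  (.negSucc 47497149899, [.k, .k], [.k, .k]),
  (.negSucc 5884725599, [.k, .k], [.k, .p, .k, .p]),
  (.ofNat 7785720000, [.k, .k], [.k, .p, .p]),
  (.ofNat 37575684000, [.k, .k], [.k, .p, .p, .k]),
  (.negSucc 622555199, [.k, .k], [.k, .p, .y, .z]),
  (.negSucc 1841399999, [.k, .k], [.p, .k, .p]),
  (.negSucc 44627241599, [.k, .k], [.p, .p]),
  (.ofNat 9527932800, [.k, .k], [.p, .p, .p, .p]),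
  (.negSucc 19055865599, [.k, .k], [.p, .p, .y, .y]),
  (.ofNat 3978979200, [.k, .k], [.p, .y, .z]),
  (.ofNat 1194441912, [.k, .k, .k], []),
  (.ofNat 56850537600, [.k, .k, .k], [.k]),
  (.negSucc 2652429599, [.k, .k, .k], [.k, .k]),
  (.negSucc 38648512799, [.k, .k, .k], [.k, .k, .k]),
  (.negSucc 67105951199, [.k, .k, .k], [.k, .p, .p]),
  (.negSucc 1009389599, [.k, .k, .k], [.p, .k, .p]),
  (.negSucc 9523547999, [.k, .k, .k], [.p, .p]),
  (.negSucc 2563271999, [.k, .k, .k], [.p, .y, .z]),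
  (.negSucc 25189049699, [.k, .k, .k, .k], []),
  (.ofNat 2102774400, [.k, .k, .k, .k], [.k]),
  (.ofNat 65557328400, [.k, .k, .k, .k], [.k, .k]),
  (.ofNat 15253941600, [.k, .k, .k, .k], [.p, .p]),
  (.ofNat 357523200, [.k, .k, .k, .k, .k], []),
  (.negSucc 32849639999, [.k, .k, .k, .k, .k], [.k]),
  (.ofNat 15491615400, [.k, .k, .k, .k, .k, .k], []),
  (.negSucc 2318759999, [.k, .k, .k, .k, .p], [.p]),
  (.ofNat 6282504000, [.k, .k, .k, .k, .p, .p], []),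
  (.negSucc 12885004799, [.k, .k, .k, .p], [.k, .p]),
  (.ofNat 1749297600, [.k, .k, .k, .p], [.p]),
  (.ofNat 13585946400, [.k, .k, .k, .p], [.p, .k]),
  (.ofNat 13103510400, [.k, .k, .k, .p], [.y, .z]),
  (.ofNat 13945132800, [.k, .k, .k, .p, .k], [.p]),
  (.ofNat 1565265600, [.k, .k, .k, .p, .k, .p], []),
  (.ofNat 4264725600, [.k, .k, .k, .p, .p], []),
  (.negSucc 1703786399, [.k, .k, .k, .p, .p], [.k]),
  (.ofNat 29889950400, [.k, .k, .k, .p, .p, .k], []),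
  (.negSucc 11976076799, [.k, .k, .k, .p, .y], [.z]),
  (.ofNat 1667088000, [.k, .k, .k, .p, .y, .z], []),
  (.ofNat 1258783200, [.k, .k, .p], [.k, .p]),
  (.ofNat 15346065600, [.k, .k, .p], [.k, .p, .k]),
  (.negSucc 2105740799, [.k, .k, .p], [.p]),
  (.negSucc 10068818399, [.k, .k, .p], [.p, .k]),
  (.negSucc 419147999, [.k, .k, .p], [.p, .k, .k]),
  (.negSucc 1603929599, [.k, .k, .p], [.p, .p, .p]),
  (.ofNat 3207859200, [.k, .k, .p], [.p, .y, .y]),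
  (.negSucc 7293585599, [.k, .k, .p], [.y, .z]),
  (.negSucc 29635675199, [.k, .k, .p], [.y, .z, .k]),
  (.ofNat 19560571200, [.k, .k, .p, .k], [.p]),
  (.negSucc 19821671999, [.k, .k, .p, .k], [.p, .k]),
  (.negSucc 1318139999, [.k, .k, .p, .k, .p], []),
  (.ofNat 11974478400, [.k, .k, .p, .k, .p], [.k]),
  (.ofNat 9048700800, [.k, .k, .p, .p], []),
  (.ofNat 3741897600, [.k, .k, .p, .p], [.k]),
  (.ofNat 41776560000, [.k, .k, .p, .p], [.k, .k]),
  (.negSucc 4323002399, [.k, .k, .p, .p], [.p, .p]),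
  (.ofNat 8646004800, [.k, .k, .p, .p], [.y, .y]),
  (.ofNat 2261174400, [.k, .k, .p, .p, .k], []),
  (.negSucc 43095412799, [.k, .k, .p, .p, .k], [.k]),
  (.negSucc 1586347199, [.k, .k, .p, .y], [.z]),
  (.ofNat 36757108800, [.k, .k, .p, .y], [.z, .k]),
  (.ofNat 2480112000, [.k, .k, .p, .y, .z], []),
  (.negSucc 1421971199, [.k, .k, .p, .y, .z], [.k]),
  (.ofNat 18273967200, [.k, .p], [.k, .p]),
  (.ofNat 2104164000, [.k, .p], [.p]),
  (.negSucc 3720556799, [.k, .p], [.p, .k]),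
  (.ofNat 9844308000, [.k, .p], [.p, .k, .p, .p]),
  (.negSucc 19307203199, [.k, .p], [.p, .k, .y, .y]),
  (.negSucc 2904163199, [.k, .p], [.p, .p, .k, .p]),
  (.negSucc 4928515199, [.k, .p], [.p, .p, .p]),
  (.ofNat 1371297600, [.k, .p], [.p, .p, .y, .z]),
  (.ofNat 5130302400, [.k, .p], [.p, .y, .k, .y]),
  (.negSucc 1371297599, [.k, .p], [.p, .y, .p, .z]),
  (.ofNat 4532803200, [.k, .p], [.p, .y, .y]),
  (.ofNat 5217134400, [.k, .p], [.p, .y, .z, .p]),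
  (.negSucc 381412799, [.k, .p], [.y, .k, .y, .p]),
  (.negSucc 3845836799, [.k, .p], [.y, .p, .z, .p]),
  (.ofNat 678024000, [.k, .p], [.y, .y, .k, .p]),
  (.ofNat 5324227200, [.k, .p], [.y, .y, .p]),
  (.negSucc 16060550399, [.k, .p], [.y, .z]),
  (.ofNat 9616060800, [.k, .p], [.y, .z, .p, .p]),
  (.negSucc 5770223999, [.k, .p], [.y, .z, .y, .y]),
  (.ofNat 5770224000, [.k, .p], [.y, .z, .z, .z]),
  (.negSucc 14603997599, [.k, .p, .k], [.k, .p]),
  (.negSucc 14858488799, [.k, .p, .k], [.p]),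
  (.ofNat 1109916000, [.k, .p, .k], [.p, .p, .p]),
  (.negSucc 2219831999, [.k, .p, .k], [.p, .y, .y]),
  (.ofNat 3901500000, [.k, .p, .k, .p], []),
  (.ofNat 4635943200, [.k, .p, .k, .p], [.k]),
  (.negSucc 3842078399, [.k, .p, .k, .p], [.p, .p]),
  (.ofNat 11030601600, [.k, .p, .k, .p], [.y, .y]),
  (.negSucc 754595999, [.k, .p, .k, .p, .p], [.p]),
  (.negSucc 3346444799, [.k, .p, .k, .y], [.y, .p]),
  (.ofNat 1509192000, [.k, .p, .k, .y, .y], [.p]),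
  (.negSucc 11808849599, [.k, .p, .p], []),
  (.ofNat 56150863200, [.k, .p, .p], [.k]),
  (.negSucc 23105303999, [.k, .p, .p], [.k, .p, .p]),
  (.ofNat 29955139200, [.k, .p, .p], [.k, .y, .y]),
  (.ofNat 1305698400, [.k, .p, .p], [.p, .k, .p]),
  (.ofNat 3814927200, [.k, .p, .p], [.p, .p]),
  (.negSucc 946987199, [.k, .p, .p], [.p, .p, .k]),
  (.negSucc 3064521599, [.k, .p, .p], [.p, .y, .z]),
  (.ofNat 4753425600, [.k, .p, .p], [.y, .k, .y]),
  (.ofNat 3064521600, [.k, .p, .p], [.y, .p, .z]),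
  (.ofNat 752932800, [.k, .p, .p], [.y, .y]),
  (.ofNat 1893974400, [.k, .p, .p], [.y, .y, .k]),
  (.negSucc 5069174399, [.k, .p, .p], [.y, .z, .p]),
  (.negSucc 36682739999, [.k, .p, .p, .k], []),
  (.negSucc 1314770399, [.k, .p, .p, .k], [.k]),
  (.ofNat 22241833200, [.k, .p, .p, .k], [.p, .p]),
  (.negSucc 15468537599, [.k, .p, .p, .k], [.y, .y]),
  (.negSucc 6169175999, [.k, .p, .p, .k, .p], [.p]),
  (.ofNat 426362400, [.k, .p, .p, .k, .p, .p], []),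
  (.ofNat 3838233600, [.k, .p, .p, .k, .y], [.y]),
  (.negSucc 852724799, [.k, .p, .p, .k, .y, .y], []),
  (.negSucc 3969345599, [.k, .p, .p, .p], [.k, .p]),
  (.ofNat 4872679200, [.k, .p, .p, .p], [.p]),
  (.ofNat 596008800, [.k, .p, .p, .p], [.p, .k]),
  (.ofNat 5570856000, [.k, .p, .p, .p], [.y, .z]),
  (.ofNat 3497428800, [.k, .p, .p, .p, .k], [.p]),
  (.ofNat 1065231000, [.k, .p, .p, .p, .k, .p], []),
  (.ofNat 1292025600, [.k, .p, .p, .p, .p], []),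
  (.negSucc 12431966399, [.k, .p, .p, .p, .p], [.k]),
  (.ofNat 8317677000, [.k, .p, .p, .p, .p, .k], []),
  (.negSucc 6299337599, [.k, .p, .p, .p, .y], [.z]),
  (.negSucc 42638399, [.k, .p, .p, .p, .y, .z], []),
  (.ofNat 2964556800, [.k, .p, .p, .y], [.k, .y]),
  (.negSucc 5570855999, [.k, .p, .p, .y], [.p, .z]),
  (.negSucc 6473044799, [.k, .p, .p, .y], [.y]),
  (.negSucc 1192017599, [.k, .p, .p, .y], [.y, .k]),
  (.ofNat 1848571200, [.k, .p, .p, .y], [.z, .p]),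
  (.negSucc 6994857599, [.k, .p, .p, .y, .k], [.y]),
  (.negSucc 2130461999, [.k, .p, .p, .y, .k, .y], []),
  (.ofNat 6299337600, [.k, .p, .p, .y, .p], [.z]),
  (.ofNat 42638400, [.k, .p, .p, .y, .p, .z], []),
  (.negSucc 2584051199, [.k, .p, .p, .y, .y], []),
  (.ofNat 24863932800, [.k, .p, .p, .y, .y], [.k]),
  (.negSucc 16635353999, [.k, .p, .p, .y, .y, .k], []),
  (.negSucc 5511887999, [.k, .p, .p, .y, .z], [.p]),
  (.negSucc 42638399, [.k, .p, .p, .y, .z, .p], []),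
  (.ofNat 16255468800, [.k, .p, .y], [.k, .y, .p]),
  (.ofNat 2004652800, [.k, .p, .y], [.p, .z, .p]),
  (.negSucc 7364822399, [.k, .p, .y], [.y, .k, .p]),
  (.negSucc 8382787199, [.k, .p, .y], [.y, .p]),
  (.ofNat 7811683200, [.k, .p, .y], [.z]),
  (.ofNat 7242436800, [.k, .p, .y], [.z, .k]),
  (.negSucc 6258729599, [.k, .p, .y], [.z, .p, .p]),
  (.ofNat 4254076800, [.k, .p, .y], [.z, .y, .y]),
  (.negSucc 4254076799, [.k, .p, .y], [.z, .z, .z]),
  (.negSucc 29015128799, [.k, .p, .y, .k], [.y, .p]),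
  (.ofNat 8500118400, [.k, .p, .y, .k, .y], [.p]),
  (.ofNat 3722284800, [.k, .p, .y, .p], [.z, .p]),
  (.negSucc 787449599, [.k, .p, .y, .p, .z], [.p]),
  (.ofNat 4974134400, [.k, .p, .y, .y], [.k, .p]),
  (.negSucc 3272313599, [.k, .p, .y, .y], [.p]),
  (.ofNat 1397174400, [.k, .p, .y, .z], []),
  (.negSucc 6074567999, [.k, .p, .y, .z], [.k]),
  (.negSucc 3751660799, [.k, .p, .y, .z], [.p, .p]),
  (.ofNat 29376000, [.k, .p, .y, .z], [.y, .y]),
  (.negSucc 29375999, [.k, .p, .y, .z], [.z, .z]),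
  (.ofNat 787449600, [.k, .p, .y, .z, .p], [.p]),
  (.negSucc 5021740799, [.p], [.p]),
  (.ofNat 6358327200, [.p, .k, .k, .p], [.p, .p]),
  (.negSucc 3944224799, [.p, .k, .k, .p, .p], [.p]),
  (.negSucc 12716654399, [.p, .k, .k, .y], [.y, .p]),
  (.ofNat 7888449600, [.p, .k, .k, .y, .y], [.p]),
  (.negSucc 1476403199, [.p, .k, .p], []),
  (.negSucc 5084596799, [.p, .k, .p], [.p, .k, .p]),
  (.ofNat 338148000, [.p, .k, .p], [.p, .p]),
  (.negSucc 4582828799, [.p, .k, .p], [.p, .y, .z]),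
  (.ofNat 3188462400, [.p, .k, .p], [.y, .k, .y]),
  (.ofNat 2078784000, [.p, .k, .p], [.y, .p, .z]),
  (.negSucc 1864252799, [.p, .k, .p], [.y, .y]),
  (.ofNat 1149444000, [.p, .k, .p, .k, .p], [.p]),
  (.ofNat 4518266400, [.p, .k, .p, .k, .p, .p], []),
  (.negSucc 2298887999, [.p, .k, .p, .k, .y], [.y]),
  (.negSucc 9036532799, [.p, .k, .p, .k, .y, .y], []),
  (.negSucc 4103135999, [.p, .k, .p, .p], [.p]),
  (.ofNat 332683200, [.p, .k, .p, .p], [.y, .z]),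
  (.ofNat 3200148000, [.p, .k, .p, .p, .k, .p], []),
  (.ofNat 680853600, [.p, .k, .p, .p, .p], []),
  (.ofNat 1120780800, [.p, .k, .p, .p, .y], [.z]),
  (.negSucc 460425599, [.p, .k, .p, .p, .y, .z], []),
  (.negSucc 1377647999, [.p, .k, .p, .y], [.p, .z]),
  (.ofNat 2160129600, [.p, .k, .p, .y], [.y]),
  (.ofNat 797169600, [.p, .k, .p, .y], [.z, .p]),
  (.negSucc 6400295999, [.p, .k, .p, .y, .k, .y], []),
  (.negSucc 1120780799, [.p, .k, .p, .y, .p], [.z]),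
  (.ofNat 460425600, [.p, .k, .p, .y, .p, .z], []),
  (.negSucc 1361707199, [.p, .k, .p, .y, .y], []),
  (.ofNat 1989014400, [.p, .k, .p, .y, .z], [.p]),
  (.negSucc 460425599, [.p, .k, .p, .y, .z, .p], []),
  (.ofNat 425260800, [.p, .k, .y], [.p, .z, .p]),
  (.ofNat 6980731200, [.p, .k, .y], [.y, .k, .p]),
  (.ofNat 1187956800, [.p, .k, .y], [.y, .p]),
  (.ofNat 425260800, [.p, .k, .y], [.y, .y, .z]),
  (.ofNat 580478400, [.p, .k, .y, .p], [.z, .p]),
  (.negSucc 868233599, [.p, .k, .y, .p, .z], [.p]),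
  (.ofNat 6046142400, [.p, .k, .y, .y], [.p]),
  (.ofNat 1044964800, [.p, .k, .y, .y], [.y, .z]),
  (.negSucc 1044964799, [.p, .k, .y, .y], [.z, .y]),
  (.negSucc 580478399, [.p, .k, .y, .z], [.p, .p]),
  (.ofNat 868233600, [.p, .k, .y, .z, .p], [.p]),
  (.negSucc 2763071999, [.p, .p], []),
  (.ofNat 1659106800, [.p, .p], [.p, .p]),
  (.negSucc 4145817599, [.p, .p], [.p, .y, .z]),
  (.ofNat 612144000, [.p, .p], [.y, .p, .z]),
  (.ofNat 144028800, [.p, .p], [.y, .y]),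
  (.ofNat 3086791200, [.p, .p], [.y, .z, .y, .z]),
  (.negSucc 3086791199, [.p, .p], [.y, .z, .z, .y]),
  (.ofNat 4808331600, [.p, .p, .k, .k, .p, .p], []),
  (.negSucc 9616663199, [.p, .p, .k, .k, .y, .y], []),
  (.ofNat 1204156800, [.p, .p, .k, .p, .p], []),
  (.ofNat 2728080000, [.p, .p, .k, .p, .y], [.z]),
  (.ofNat 719755200, [.p, .p, .k, .p, .y, .z], []),
  (.negSucc 2728079999, [.p, .p, .k, .y, .p], [.z]),
  (.negSucc 719755199, [.p, .p, .k, .y, .p, .z], []),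
  (.negSucc 2408313599, [.p, .p, .k, .y, .y], []),
  (.ofNat 2728080000, [.p, .p, .k, .y, .z], [.p]),
  (.ofNat 719755200, [.p, .p, .k, .y, .z, .p], []),
  (.ofNat 78170400, [.p, .p, .p], [.p]),
  (.negSucc 177940799, [.p, .p, .p], [.y, .z]),
  (.ofNat 715186800, [.p, .p, .p, .p], []),
  (.ofNat 1162684800, [.p, .p, .p, .y], [.z]),
  (.negSucc 816091199, [.p, .p, .p, .y, .z], []),
  (.ofNat 177940800, [.p, .p, .y], [.p, .z]),
  (.negSucc 156340799, [.p, .p, .y], [.y]),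
  (.negSucc 3099470399, [.p, .p, .y], [.z, .p]),
  (.negSucc 4097260799, [.p, .p, .y], [.z, .y, .z]),
  (.ofNat 2048630400, [.p, .p, .y], [.z, .z, .y]),
  (.negSucc 1162684799, [.p, .p, .y, .p], [.z]),
  (.ofNat 816091200, [.p, .p, .y, .p, .z], []),
  (.negSucc 1430373599, [.p, .p, .y, .y], []),
  (.ofNat 2217715200, [.p, .p, .y, .z], [.p]),
  (.negSucc 460727999, [.p, .p, .y, .z], [.y, .z]),
  (.ofNat 460728000, [.p, .p, .y, .z], [.z, .y]),
  (.negSucc 816091199, [.p, .p, .y, .z, .p], []),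
  (.negSucc 3462242399, [.p, .y], [.y, .p]),
  (.ofNat 1637496000, [.p, .y], [.z]),
  (.negSucc 2921529599, [.p, .y, .p], [.p, .z]),
  (.ofNat 2048630400, [.p, .y, .p], [.z, .y, .z]),
  (.negSucc 920116799, [.p, .y, .p, .y, .z], [.z]),
  (.negSucc 1055030399, [.p, .y, .p, .z], [.p]),
  (.negSucc 5712854399, [.p, .y, .p, .z], [.y, .z]),
  (.negSucc 460727999, [.p, .y, .p, .z], [.z, .y]),
  (.ofNat 920116800, [.p, .y, .p, .z, .y], [.z]),
  (.ofNat 920116800, [.p, .y, .y, .p, .z], [.z]),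
  (.ofNat 3086791200, [.p, .y, .y, .z], [.p, .z]),
  (.negSucc 920116799, [.p, .y, .y, .z, .p], [.z]),
  (.negSucc 384523199, [.p, .y, .z], []),
  (.negSucc 1783771199, [.p, .y, .z], [.p, .y, .z]),
  (.ofNat 1518912000, [.p, .y, .z], [.p, .z, .y]),
  (.ofNat 529718400, [.p, .y, .z], [.y, .z, .p]),
  (.negSucc 264859199, [.p, .y, .z], [.z, .y, .p]),
  (.ofNat 1055030400, [.p, .y, .z, .p], [.p]),
  (.ofNat 2626063200, [.p, .y, .z, .p], [.y, .z]),
  (.ofNat 460728000, [.p, .y, .z, .p], [.z, .y]),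
  (.negSucc 920116799, [.p, .y, .z, .p, .y], [.z]),
  (.ofNat 550908000, [.p, .y, .z, .p, .y, .z], []),
  (.negSucc 1101815999, [.p, .y, .z, .p, .z, .y], []),
  (.ofNat 920116800, [.p, .y, .z, .y, .p], [.z]),
  (.ofNat 550908000, [.p, .y, .z, .y, .z, .p], []),
  (.ofNat 550908000, [.p, .y, .z, .z, .p, .y], []),
  (.negSucc 550907999, [.p, .y, .z, .z, .y, .p], [])]

set_option maxRecDepth 100000 in
theorem cB1 : blkOK smulL e1 gB1 wB1 = true := by decide +kernel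

end Pool.Agent.H14Z
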