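import Pool.Agent.Lib.H14Z.E2
import Pool.Agent.Lib.H2AF.B2

/-! # Certificate B, block 2 (P1_T1, sq, size 50): the word form of the block -/

namespace Pool.Agent.H14Z

open Pool.Agent.H2AF

/-- The value of the block, one word pair per class. -/
def wB2 : E :=
 [(.ofNat 19840302000, [.k], [.p, .k, .k, .k, .p]),
  (.negSucc 10893580199, [.k], [.p, .k, .k, .p]),
  (.ofNat 5181649200, [.k], [.p, .k, .k, .y, .z]),
  (.ofNat 2422309600, [.k], [.p, .k, .p]),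
  (.ofNat 16677435600, [.k], [.p, .k, .p, .p, .p]),
  (.negSucc 4336217999, [.k], [.p, .k, .p, .y, .y]),
  (.ofNat 2151338400, [.k], [.p, .k, .y, .k, .z]),
  (.ofNat 4277296800, [.k], [.p, .k, .y, .p, .y]),
  (.negSucc 9909269999, [.k], [.p, .k, .y, .y, .p]),
  (.negSucc 15618430799, [.k], [.p, .k, .y, .z]),
  (.negSucc 5138704511, [.k], [.p, .p]),
  (.ofNat 487351800, [.k], [.p, .p, .p, .p]),
  (.ofNat 2084184000, [.k], [.p, .p, .p, .y, .z]),
  (.negSucc 4541255999, [.k], [.p, .p, .y, .p, .z]),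
  (.ofNat 3056011200, [.k], [.p, .p, .y, .y]),
  (.ofNat 4541256000, [.k], [.p, .p, .y, .z, .p]),
  (.ofNat 503463600, [.k], [.p, .y, .k, .p, .y]),
  (.negSucc 503463599, [.k], [.p, .y, .k, .y, .p]),
  (.ofNat 3912609600, [.k], [.p, .y, .p, .p, .z]),
  (.negSucc 9162089999, [.k], [.p, .y, .p, .y]),
  (.negSucc 603043199, [.k], [.p, .y, .p, .z, .p]),
  (.ofNat 9835696800, [.k], [.p, .y, .y, .p]),
  (.negSucc 3309566399, [.k], [.p, .y, .y, .y, .z]),
  (.ofNat 9404888400, [.k], [.p, .y, .z]),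
  (.ofNat 46811266200, [.k, .k], [.k, .p, .k, .p]),
  (.negSucc 11779927199, [.k, .k], [.k, .p, .p]),
  (.ofNat 44931800700, [.k, .k], [.k, .p, .p, .k]),
  (.ofNat 16899526800, [.k, .k], [.k, .p, .y, .z]),
  (.ofNat 40786541100, [.k, .k], [.p, .k, .k, .p]),
  (.negSucc 27387475199, [.k, .k], [.p, .k, .p]),
  (.ofNat 22495928400, [.k, .k], [.p, .k, .y, .z]),
  (.negSucc 26102256515, [.k, .k], [.p, .p]),
  (.ofNat 3152698200, [.k, .k], [.p, .p, .p, .p]),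
  (.negSucc 9505425599, [.k, .k], [.p, .p, .y, .y]),
  (.ofNat 17161445700, [.k, .k], [.p, .y, .p, .y]),
  (.negSucc 22672052099, [.k, .k], [.p, .y, .y, .p]),
  (.negSucc 25673396399, [.k, .k], [.p, .y, .z]),
  (.ofNat 5326696600, [.k, .k, .k], [.k, .p, .p]),
  (.negSucc 10151811999, [.k, .k, .k], [.p, .k, .p]),
  (.negSucc 2027105999, [.k, .k, .k], [.p, .p]),
  (.negSucc 7192954799, [.k, .k, .k], [.p, .y, .z]),
  (.ofNat 30205081800, [.k, .k, .k, .k], [.p, .p]),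
  (.negSucc 16729907399, [.k, .k, .k, .k, .p], [.p]),
  (.negSucc 20682093599, [.k, .k, .k, .p], [.k, .p]),
  (.negSucc 222829199, [.k, .k, .k, .p], [.p]),
  (.negSucc 15544627199, [.k, .k, .k, .p], [.p, .k]),
  (.ofNat 14599868400, [.k, .k, .k, .p], [.y, .z]),
  (.ofNat 14154755400, [.k, .k, .k, .p, .k], [.p]),
  (.ofNat 677926800, [.k, .k, .k, .p, .y], [.z]),
  (.ofNat 11622434400, [.k, .k, .p], [.k, .k, .p]),
  (.ofNat 13800664800, [.k, .k, .p], [.k, .p]),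
  (.negSucc 26783929799, [.k, .k, .p], [.k, .p, .k]),
  (.ofNat 20543050800, [.k, .k, .p], [.k, .y, .z]),
  (.negSucc 15492281399, [.k, .k, .p], [.p]),
  (.negSucc 702827999, [.k, .k, .p], [.p, .k]),
  (.ofNat 28886400, [.k, .k, .p], [.p, .k, .k]),
  (.negSucc 1633802399, [.k, .k, .p], [.p, .p, .p]),
  (.ofNat 15596542800, [.k, .k, .p], [.p, .y, .y]),
  (.negSucc 1966507199, [.k, .k, .p], [.y, .k, .z]),
  (.negSucc 5179215599, [.k, .k, .p], [.y, .p, .y]),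
  (.negSucc 6860271599, [.k, .k, .p], [.y, .y, .p]),
  (.negSucc 17980847999, [.k, .k, .p], [.y, .z]),
  (.negSucc 12094588799, [.k, .k, .p], [.y, .z, .k]),
  (.negSucc 6118774199, [.k, .k, .p, .k], [.k, .p]),
  (.ofNat 1865822400, [.k, .k, .p, .k], [.p]),
  (.ofNat 16546755600, [.k, .k, .p, .k], [.p, .k]),
  (.ofNat 23296438800, [.k, .k, .p, .k], [.y, .z]),
  (.ofNat 12593100600, [.k, .k, .p, .k, .k], [.p]),
  (.negSucc 2884870799, [.k, .k, .p, .k, .k, .p], []),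
  (.ofNat 4912034400, [.k, .k, .p, .k, .p], []),
  (.negSucc 19738355399, [.k, .k, .p, .k, .p], [.k]),
  (.ofNat 22846212000, [.k, .k, .p, .k, .p, .k], []),
  (.ofNat 262497600, [.k, .k, .p, .k, .y], [.z]),
  (.negSucc 3556310399, [.k, .k, .p, .k, .y, .z], []),
  (.ofNat 2979934200, [.k, .k, .p, .p], []),
  (.ofNat 24923615400, [.k, .k, .p, .p], [.k]),
  (.negSucc 4589821799, [.k, .k, .p, .p], [.k, .k]),
  (.negSucc 1856973599, [.k, .k, .p, .p], [.p, .p]),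
  (.negSucc 25635236399, [.k, .k, .p, .p], [.y, .y]),
  (.negSucc 16462873799, [.k, .k, .p, .p, .k], []),
  (.negSucc 33926061599, [.k, .k, .p, .p, .k], [.k]),
  (.ofNat 21861095400, [.k, .k, .p, .p, .k, .k], []),
  (.ofNat 718927200, [.k, .k, .p, .p, .p], [.p]),
  (.ofNat 1657447200, [.k, .k, .p, .p, .p, .p], []),
  (.ofNat 109555200, [.k, .k, .p, .p, .y], [.y]),
  (.negSucc 3738538799, [.k, .k, .p, .p, .y, .y], []),
  (.negSucc 6429355199, [.k, .k, .p, .y], [.k, .z]),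
  (.ofNat 2273529600, [.k, .k, .p, .y], [.p, .y]),
  (.ofNat 12569551200, [.k, .k, .p, .y], [.y, .p]),
  (.ofNat 11563682400, [.k, .k, .p, .y], [.z]),
  (.ofNat 3557728800, [.k, .k, .p, .y], [.z, .k]),
  (.ofNat 2435713200, [.k, .k, .p, .y, .k], [.z]),
  (.ofNat 1766278800, [.k, .k, .p, .y, .k, .z], []),
  (.ofNat 325486800, [.k, .k, .p, .y, .p], [.y]),
  (.negSucc 62071199, [.k, .k, .p, .y, .p, .y], []),
  (.negSucc 9315557999, [.k, .k, .p, .y, .y], [.p]),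
  (.ofNat 2720642400, [.k, .k, .p, .y, .y, .p], []),
  (.ofNat 5010688800, [.k, .k, .p, .y, .z], []),
  (.negSucc 9901983599, [.k, .k, .p, .y, .z], [.k]),
  (.ofNat 16421850000, [.k, .k, .p, .y, .z, .k], []),
  (.ofNat 16562769768, [.k, .p], [.k, .p]),
  (.negSucc 5149889279, [.k, .p], [.p]),
  (.ofNat 64602777600, [.k, .p], [.p, .k]),
  (.ofNat 5720626800, [.k, .p], [.p, .k, .y, .y]),
  (.negSucc 13188018599, [.k, .p], [.p, .p, .k, .p]),
  (.negSucc 1752595199, [.k, .p], [.p, .p, .p]),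
  (.ofNat 1898668800, [.k, .p], [.p, .p, .y, .z]),
  (.negSucc 4047519599, [.k, .p], [.p, .y, .k, .y]),
  (.ofNat 803750400, [.k, .p], [.p, .y, .p, .z]),
  (.negSucc 10231127999, [.k, .p], [.p, .y, .y]),
  (.negSucc 3531297599, [.k, .p], [.p, .y, .z, .p]),
  (.ofNat 13833262800, [.k, .p], [.y, .k, .k, .z]),
  (.negSucc 10456289999, [.k, .p], [.y, .k, .p, .y]),
  (.ofNat 4735663200, [.k, .p], [.y, .k, .y, .p]),
  (.ofNat 1185177600, [.k, .p], [.y, .k, .z]),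
  (.ofNat 3907494000, [.k, .p], [.y, .p, .k, .y]),
  (.ofNat 4236840000, [.k, .p], [.y, .p, .p, .z]),
  (.ofNat 2901783600, [.k, .p], [.y, .p, .y]),
  (.negSucc 2282731199, [.k, .p], [.y, .p, .z, .p]),
  (.ofNat 22248054000, [.k, .p], [.y, .y, .k, .p]),
  (.negSucc 13591713599, [.k, .p], [.y, .y, .p]),
  (.ofNat 3837326400, [.k, .p], [.y, .y, .y, .z]),
  (.negSucc 9584366399, [.k, .p], [.y, .y, .z, .y]),
  (.ofNat 10621605456, [.k, .p], [.y, .z]),
  (.negSucc 1837641599, [.k, .p], [.y, .z, .p, .p]),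
  (.negSucc 889905599, [.k, .p], [.y, .z, .y, .y]),
  (.ofNat 4797027000, [.k, .p], [.y, .z, .z, .z]),
  (.ofNat 9065124000, [.k, .p, .k], [.k, .p]),
  (.negSucc 37637416799, [.k, .p, .k], [.k, .p, .k]),
  (.negSucc 25851135599, [.k, .p, .k], [.k, .y, .z]),
  (.negSucc 6446374199, [.k, .p, .k], [.p]),
  (.negSucc 1461443399, [.k, .p, .k], [.p, .p, .p]),
  (.ofNat 8768001600, [.k, .p, .k], [.p, .y, .y]),
  (.ofNat 5982458400, [.k, .p, .k], [.y, .k, .z]),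
  (.negSucc 6038171999, [.k, .p, .k], [.y, .p, .y]),
  (.ofNat 17125596000, [.k, .p, .k], [.y, .z]),
  (.negSucc 2391218999, [.k, .p, .k, .k, .k, .p], []),
  (.negSucc 1946179799, [.k, .p, .k, .k, .p], []),
  (.negSucc 16505369999, [.k, .p, .k, .k, .p], [.k]),
  (.ofNat 19907901000, [.k, .p, .k, .k, .p, .k], []),
  (.negSucc 1210121999, [.k, .p, .k, .k, .y], [.z]),
  (.ofNat 2076501600, [.k, .p, .k, .k, .y, .z], []),
  (.ofNat 1235478600, [.k, .p, .k, .p], []),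
  (.ofNat 18803383200, [.k, .p, .k, .p], [.k]),
  (.negSucc 2218239899, [.k, .p, .k, .p], [.p, .p]),
  (.negSucc 12326680799, [.k, .p, .k, .p], [.y, .y]),
  (.negSucc 6739880399, [.k, .p, .k, .p, .k], []),
  (.negSucc 29943874799, [.k, .p, .k, .p, .k], [.k]),
  (.ofNat 1344519000, [.k, .p, .k, .p, .p], [.p]),
  (.negSucc 1966442399, [.k, .p, .k, .p, .p, .p], []),
  (.ofNat 1043845200, [.k, .p, .k, .p, .y], [.y]),
  (.ofNat 546037200, [.k, .p, .k, .p, .y, .y], []),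
  (.negSucc 18443685599, [.k, .p, .k, .y], [.k, .z]),
  (.ofNat 17456918400, [.k, .p, .k, .y], [.p, .y]),
  (.negSucc 11696345999, [.k, .p, .k, .y], [.y, .p]),
  (.negSucc 9044974799, [.k, .p, .k, .y], [.z]),
  (.ofNat 11020521600, [.k, .p, .k, .y], [.z, .k]),
  (.negSucc 878144399, [.k, .p, .k, .y, .k], [.z]),
  (.ofNat 2344467600, [.k, .p, .k, .y, .k, .z], []),
  (.negSucc 6044029199, [.k, .p, .k, .y, .p], [.y]),
  (.ofNat 3170221200, [.k, .p, .k, .y, .p, .y], []),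
  (.negSucc 2283227999, [.k, .p, .k, .y, .y], [.p]),
  (.ofNat 827053200, [.k, .p, .k, .y, .y, .p], []),
  (.ofNat 6077422800, [.k, .p, .k, .y, .z], []),
  (.negSucc 9383331599, [.k, .p, .k, .y, .z], [.k]),
  (.ofNat 11385460800, [.k, .p, .k, .y, .z, .k], []),
  (.negSucc 2198627675, [.k, .p, .p], []),
  (.negSucc 82045823199, [.k, .p, .p], [.k]),
  (.ofNat 845582400, [.k, .p, .p], [.k, .y, .y]),
  (.ofNat 5734820600, [.k, .p, .p], [.p, .k, .p]),
  (.negSucc 97156799, [.k, .p, .p], [.p, .p]),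
  (.ofNat 11980887200, [.k, .p, .p], [.p, .p, .k]),
  (.negSucc 3142569599, [.k, .p, .p], [.p, .y, .z]),
  (.negSucc 20948101199, [.k, .p, .p], [.y, .k, .y]),
  (.ofNat 817228800, [.k, .p, .p], [.y, .p, .z]),
  (.ofNat 12438943200, [.k, .p, .p], [.y, .y]),
  (.negSucc 8638199999, [.k, .p, .p], [.y, .y, .k]),
  (.ofNat 1558958400, [.k, .p, .p], [.y, .z, .p]),
  (.ofNat 9808027200, [.k, .p, .p, .k], []),
  (.ofNat 12197631600, [.k, .p, .p, .k], [.k]),
  (.negSucc 24989389199, [.k, .p, .p, .k], [.y, .y]),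
  (.ofNat 16613283600, [.k, .p, .p, .k, .y], [.y]),
  (.negSucc 221857199, [.k, .p, .p, .p], [.k, .p]),
  (.ofNat 1253728800, [.k, .p, .p, .p], [.p]),
  (.negSucc 28658548799, [.k, .p, .p, .p], [.p, .k]),
  (.ofNat 7600060800, [.k, .p, .p, .p], [.y, .z]),
  (.ofNat 533835000, [.k, .p, .p, .p, .p], []),
  (.ofNat 21562608600, [.k, .p, .p, .p, .p], [.k]),
  (.ofNat 2639865600, [.k, .p, .p, .p, .y], [.z]),
  (.ofNat 19155906000, [.k, .p, .p, .y], [.k, .y]),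
  (.negSucc 380649599, [.k, .p, .p, .y], [.p, .z]),
  (.negSucc 7242418799, [.k, .p, .p, .y], [.y]),
  (.ofNat 2623687200, [.k, .p, .p, .y], [.y, .k]),
  (.negSucc 2667931199, [.k, .p, .p, .y], [.z, .p]),
  (.ofNat 3862620000, [.k, .p, .p, .y, .k], [.y]),
  (.ofNat 543052800, [.k, .p, .p, .y, .p], [.z]),
  (.ofNat 370486800, [.k, .p, .p, .y, .y], []),
  (.negSucc 11023628399, [.k, .p, .p, .y, .y], [.k]),
  (.negSucc 2486897999, [.k, .p, .y], [.k, .p, .y]),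
  (.ofNat 1641315600, [.k, .p, .y], [.k, .y, .p]),
  (.ofNat 15973959600, [.k, .p, .y], [.k, .z]),
  (.ofNat 9878320800, [.k, .p, .y], [.p, .k, .y]),
  (.negSucc 332006399, [.k, .p, .y], [.p, .p, .z]),
  (.negSucc 6719151599, [.k, .p, .y], [.p, .y]),
  (.negSucc 17997137999, [.k, .p, .y], [.p, .y, .k]),
  (.negSucc 2693649599, [.k, .p, .y], [.p, .z, .p]),
  (.ofNat 2807650800, [.k, .p, .y], [.y, .k, .p]),
  (.negSucc 6210590399, [.k, .p, .y], [.y, .p]),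
  (.ofNat 4767062400, [.k, .p, .y], [.y, .p, .k]),
  (.ofNat 3973658400, [.k, .p, .y], [.y, .y, .z]),
  (.ofNat 3082176000, [.k, .p, .y], [.y, .z, .y]),
  (.negSucc 50669535599, [.k, .p, .y], [.z]),
  (.ofNat 11574889200, [.k, .p, .y], [.z, .k]),
  (.negSucc 791524799, [.k, .p, .y], [.z, .p, .p]),
  (.ofNat 3167712000, [.k, .p, .y], [.z, .y, .y]),
  (.ofNat 572659200, [.k, .p, .y], [.z, .z, .z]),
  (.ofNat 12177259200, [.k, .p, .y, .k], [.k, .z]),
  (.ofNat 25800944400, [.k, .p, .y, .k], [.p, .y]),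
  (.negSucc 811555199, [.k, .p, .y, .k], [.y, .p]),
  (.ofNat 2770948800, [.k, .p, .y, .k], [.z]),
  (.ofNat 1347591600, [.k, .p, .y, .k, .k, .z], []),
  (.negSucc 8208496799, [.k, .p, .y, .k, .p], [.y]),
  (.negSucc 1670443199, [.k, .p, .y, .k, .p, .y], []),
  (.negSucc 8404786799, [.k, .p, .y, .k, .y], [.p]),
  (.ofNat 1670443200, [.k, .p, .y, .k, .y, .p], []),
  (.negSucc 8491341599, [.k, .p, .y, .k, .z], []),
  (.negSucc 2580919199, [.k, .p, .y, .k, .z], [.k]),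
  (.negSucc 12821414399, [.k, .p, .y, .p], [.k, .y]),
  (.ofNat 1585497600, [.k, .p, .y, .p], [.p, .z]),
  (.ofNat 10198364400, [.k, .p, .y, .p], [.y]),
  (.ofNat 17062495200, [.k, .p, .y, .p], [.y, .k]),
  (.ofNat 3433464000, [.k, .p, .y, .p], [.z, .p]),
  (.negSucc 3862619999, [.k, .p, .y, .p, .k], [.y]),
  (.ofNat 3789828000, [.k, .p, .y, .p, .k, .y], []),
  (.ofNat 543009600, [.k, .p, .y, .p, .p], [.z]),
  (.negSucc 1762113599, [.k, .p, .y, .p, .p, .z], []),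
  (.ofNat 3876055200, [.k, .p, .y, .p, .y], []),
  (.negSucc 14775368399, [.k, .p, .y, .p, .y], [.k]),
  (.ofNat 7084059300, [.k, .p, .y, .p, .y, .k], []),
  (.ofNat 346147200, [.k, .p, .y, .p, .z], [.p]),
  (.ofNat 354326400, [.k, .p, .y, .p, .z, .p], []),
  (.negSucc 2343970799, [.k, .p, .y, .y], [.k, .p]),
  (.ofNat 5486025600, [.k, .p, .y, .y], [.p]),
  (.ofNat 24736651200, [.k, .p, .y, .y], [.p, .k]),
  (.negSucc 508107599, [.k, .p, .y, .y], [.y, .z]),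
  (.ofNat 10712520000, [.k, .p, .y, .y], [.z, .y]),
  (.negSucc 3789827999, [.k, .p, .y, .y, .k, .p], []),
  (.negSucc 6308438399, [.k, .p, .y, .y, .p], []),
  (.ofNat 1594054800, [.k, .p, .y, .y, .p], [.k]),
  (.negSucc 7084059299, [.k, .p, .y, .y, .p, .k], []),
  (.negSucc 9534113999, [.k, .p, .y, .y, .y], [.z]),
  (.ofNat 1762113600, [.k, .p, .y, .y, .y, .z], []),
  (.ofNat 2293718400, [.k, .p, .y, .y, .z], [.y]),
  (.negSucc 354326399, [.k, .p, .y, .y, .z, .y], []),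
  (.negSucc 6545498399, [.k, .p, .y, .z], []),
  (.ofNat 29023279200, [.k, .p, .y, .z], [.k]),
  (.negSucc 702763199, [.k, .p, .y, .z], [.p, .p]),
  (.negSucc 2345817599, [.k, .p, .y, .z], [.y, .y]),
  (.ofNat 4599907200, [.k, .p, .y, .z], [.z, .z]),
  (.negSucc 20140689599, [.k, .p, .y, .z, .k], []),
  (.negSucc 13682595599, [.k, .p, .y, .z, .k], [.k]),
  (.ofNat 3163219200, [.k, .p, .y, .z, .p], [.p]),
  (.negSucc 502847999, [.k, .p, .y, .z, .p, .p], []),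
  (.negSucc 2620166399, [.k, .p, .y, .z, .y], [.y]),
  (.ofNat 502848000, [.k, .p, .y, .z, .y, .y], []),
  (.negSucc 6597763199, [.k, .p, .y, .z, .z], [.z]),
  (.ofNat 1443927600, [.k, .p, .y, .z, .z, .z], []),
  (.negSucc 18056743055, [.p], [.p]),
  (.ofNat 10953752400, [.p, .k, .k, .k, .k, .p], []),
  (.negSucc 1595510999, [.p, .k, .k, .k, .p], []),
  (.ofNat 2781086400, [.p, .k, .k, .k, .y], [.z]),
  (.negSucc 551033999, [.p, .k, .k, .k, .y, .z], []),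
  (.negSucc 14638080599, [.p, .k, .k, .p], []),
  (.negSucc 1618638299, [.p, .k, .k, .p], [.p, .p]),
  (.negSucc 15720023699, [.p, .k, .k, .p], [.y, .y]),
  (.negSucc 4993894799, [.p, .k, .k, .p, .p], [.p]),
  (.ofNat 11444374800, [.p, .k, .k, .p, .p, .p], []),
  (.negSucc 3797017199, [.p, .k, .k, .p, .y], [.y]),
  (.ofNat 2599837200, [.p, .k, .k, .p, .y, .y], []),
  (.ofNat 12389850900, [.p, .k, .k, .y], [.p, .y]),
  (.negSucc 5343364799, [.p, .k, .k, .y], [.y, .p]),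
  (.negSucc 3899836799, [.p, .k, .k, .y], [.z]),
  (.ofNat 1854576000, [.p, .k, .k, .y, .k, .z], []),
  (.negSucc 1647212399, [.p, .k, .k, .y, .p], [.y]),
  (.negSucc 3571844399, [.p, .k, .k, .y, .p, .y], []),
  (.ofNat 12244176000, [.p, .k, .k, .y, .y], [.p]),
  (.negSucc 6440277599, [.p, .k, .k, .y, .y, .p], []),
  (.negSucc 1763452799, [.p, .k, .k, .y, .z], []),
  (.negSucc 5555880287, [.p, .k, .p], []),
  (.ofNat 3147346800, [.p, .k, .p], [.p, .p]),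
  (.ofNat 1035158400, [.p, .k, .p], [.p, .y, .z]),
  (.ofNat 1470045600, [.p, .k, .p], [.y, .k, .y]),
  (.ofNat 2578420800, [.p, .k, .p], [.y, .p, .z]),
  (.ofNat 9276519600, [.p, .k, .p], [.y, .y]),
  (.ofNat 3901795200, [.p, .k, .p, .k, .y], [.y]),
  (.ofNat 657165600, [.p, .k, .p, .p], [.p]),
  (.ofNat 5423299200, [.p, .k, .p, .p], [.y, .z]),
  (.ofNat 1604696400, [.p, .k, .p, .p, .p], []),
  (.ofNat 972763200, [.p, .k, .p, .p, .y], [.z]),
  (.negSucc 5370523199, [.p, .k, .p, .y], [.p, .z]),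
  (.negSucc 1643867999, [.p, .k, .p, .y], [.y]),
  (.negSucc 338702399, [.p, .k, .p, .y], [.z, .p]),
  (.ofNat 718747200, [.p, .k, .p, .y, .p], [.z]),
  (.negSucc 1515283199, [.p, .k, .p, .y, .y], []),
  (.ofNat 252842400, [.p, .k, .y], [.p, .k, .y]),
  (.negSucc 1067371199, [.p, .k, .y], [.p, .p, .z]),
  (.negSucc 10045972799, [.p, .k, .y], [.p, .y]),
  (.negSucc 5195433599, [.p, .k, .y], [.p, .z, .p]),
  (.negSucc 1722887999, [.p, .k, .y], [.y, .k, .p]),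
  (.ofNat 1401051600, [.p, .k, .y], [.y, .p]),
  (.negSucc 716781599, [.p, .k, .y], [.y, .y, .z]),
  (.negSucc 4723790399, [.p, .k, .y], [.z]),
  (.negSucc 1503813599, [.p, .k, .y], [.z, .z, .z]),
  (.negSucc 3901795199, [.p, .k, .y, .k, .p], [.y]),
  (.ofNat 648601200, [.p, .k, .y, .k, .p, .y], []),
  (.negSucc 648601199, [.p, .k, .y, .k, .y, .p], []),
  (.negSucc 2983323599, [.p, .k, .y, .k, .z], []),
  (.ofNat 326203200, [.p, .k, .y, .p], [.p, .z]),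
  (.ofNat 10697551200, [.p, .k, .y, .p], [.y]),
  (.ofNat 1456545600, [.p, .k, .y, .p], [.z, .p]),
  (.ofNat 6880066200, [.p, .k, .y, .p, .k, .y], []),
  (.negSucc 4903415999, [.p, .k, .y, .p, .p], [.z]),
  (.ofNat 536472000, [.p, .k, .y, .p, .p, .z], []),
  (.negSucc 6262045199, [.p, .k, .y, .p, .y], []),
  (.ofNat 2572963200, [.p, .k, .y, .p, .z], [.p]),
  (.negSucc 1208505599, [.p, .k, .y, .p, .z, .p], []),
  (.negSucc 5716389599, [.p, .k, .y, .y], [.p]),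
  (.ofNat 11016482400, [.p, .k, .y, .y], [.y, .z]),
  (.ofNat 4305456000, [.p, .k, .y, .y], [.z, .y]),
  (.negSucc 6880066199, [.p, .k, .y, .y, .k, .p], []),
  (.ofNat 3757431600, [.p, .k, .y, .y, .p], []),
  (.negSucc 4315384799, [.p, .k, .y, .y, .y], [.z]),
  (.negSucc 536471999, [.p, .k, .y, .y, .y, .z], []),
  (.negSucc 1600199999, [.p, .k, .y, .y, .z], [.y]),
  (.ofNat 1208505600, [.p, .k, .y, .y, .z, .y], []),
  (.negSucc 4257294299, [.p, .k, .y, .z], []),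
  (.ofNat 283305600, [.p, .k, .y, .z], [.p, .p]),
  (.negSucc 11551823999, [.p, .k, .y, .z], [.y, .y]),
  (.ofNat 5592114000, [.p, .k, .y, .z], [.z, .z]),
  (.negSucc 1098676799, [.p, .k, .y, .z, .p], [.p]),
  (.ofNat 3763166400, [.p, .k, .y, .z, .p, .p], []),
  (.ofNat 1817424000, [.p, .k, .y, .z, .y], [.y]),
  (.negSucc 3763166399, [.p, .k, .y, .z, .y, .y], []),
  (.ofNat 2954804400, [.p, .k, .y, .z, .z], [.z]),
  (.negSucc 3196159199, [.p, .k, .y, .z, .z, .z], []),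
  (.ofNat 45497006856, [.p, .p], []),
  (.negSucc 8602343999, [.p, .p], [.p, .p]),
  (.ofNat 3234556800, [.p, .p], [.p, .y, .p, .y]),
  (.negSucc 4020688799, [.p, .p], [.p, .y, .y, .p]),
  (.negSucc 9887183999, [.p, .p], [.p, .y, .z]),
  (.negSucc 7072891199, [.p, .p], [.y, .p, .p, .y]),
  (.ofNat 9686620800, [.p, .p], [.y, .p, .z]),
  (.ofNat 25609860000, [.p, .p], [.y, .y]),
  (.ofNat 4168440000, [.p, .p], [.y, .z, .y, .z]),
  (.negSucc 3890361599, [.p, .p], [.y, .z, .z, .y]),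
  (.negSucc 447321599, [.p, .p, .k, .p, .y], [.z]),
  (.ofNat 447321600, [.p, .p, .k, .y, .p], [.z]),
  (.ofNat 1984194000, [.p, .p, .k, .y, .z], [.p]),
  (.ofNat 24523106400, [.p, .p, .p], [.p]),
  (.negSucc 3608611199, [.p, .p, .p], [.p, .p, .p]),
  (.ofNat 17905766400, [.p, .p, .p], [.p, .y, .y]),
  (.negSucc 1135382399, [.p, .p, .p], [.y, .p, .y]),
  (.ofNat 2194473600, [.p, .p, .p], [.y, .z]),
  (.ofNat 254088000, [.p, .p, .p, .k, .y, .z], []),
  (.negSucc 22186763999, [.p, .p, .p, .p], []),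
  (.ofNat 9337939200, [.p, .p, .p, .p], [.p, .p]),
  (.negSucc 14284454399, [.p, .p, .p, .p], [.y, .y]),
  (.negSucc 11156399999, [.p, .p, .p, .p, .p], [.p]),
  (.ofNat 8213085000, [.p, .p, .p, .p, .p, .p], []),
  (.ofNat 2326348800, [.p, .p, .p, .p, .y], [.y]),
  (.negSucc 2259219599, [.p, .p, .p, .p, .y, .y], []),
  (.negSucc 384667199, [.p, .p, .p, .y], [.p, .y]),
  (.negSucc 6361631999, [.p, .p, .p, .y], [.y, .p]),
  (.negSucc 5322182399, [.p, .p, .p, .y], [.z]),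
  (.ofNat 5597985600, [.p, .p, .p, .y, .p], [.y]),
  (.negSucc 1530007199, [.p, .p, .p, .y, .p, .y], []),
  (.ofNat 3187296000, [.p, .p, .p, .y, .y], [.p]),
  (.negSucc 2156990399, [.p, .p, .p, .y, .y, .p], []),
  (.negSucc 2451081599, [.p, .p, .p, .y, .z], []),
  (.ofNat 864720000, [.p, .p, .y], [.p, .p, .y]),
  (.ofNat 4230360000, [.p, .p, .y], [.p, .y, .p]),
  (.ofNat 2040811200, [.p, .p, .y], [.p, .z]),
  (.negSucc 14808700799, [.p, .p, .y], [.y]),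
  (.ofNat 5540947200, [.p, .p, .y], [.y, .p, .p]),
  (.ofNat 9011548800, [.p, .p, .y], [.y, .z, .z]),
  (.ofNat 6714460800, [.p, .p, .y], [.z, .p]),
  (.negSucc 863063999, [.p, .p, .y], [.z, .y, .z]),
  (.ofNat 30110400, [.p, .p, .y], [.z, .z, .y]),
  (.negSucc 985330799, [.p, .p, .y, .k, .p, .z], []),
  (.ofNat 985330800, [.p, .p, .y, .k, .z, .p], []),
  (.ofNat 1908921600, [.p, .p, .y, .p], [.p, .y]),
  (.negSucc 6827500799, [.p, .p, .y, .p], [.y, .p]),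
  (.negSucc 12439108799, [.p, .p, .y, .p], [.z]),
  (.ofNat 2355566400, [.p, .p, .y, .p, .p], [.y]),
  (.negSucc 576547199, [.p, .p, .y, .p, .p, .y], []),
  (.ofNat 80049600, [.p, .p, .y, .p, .y], [.p]),
  (.ofNat 1139889600, [.p, .p, .y, .p, .y, .p], []),
  (.ofNat 4032763200, [.p, .p, .y, .p, .z], []),
  (.ofNat 18201934800, [.p, .p, .y, .y], []),
  (.negSucc 8677310399, [.p, .p, .y, .y], [.p, .p]),
  (.negSucc 13257532799, [.p, .p, .y, .y], [.z, .z]),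
  (.ofNat 4569422400, [.p, .p, .y, .y, .p], [.p]),
  (.negSucc 4186339199, [.p, .p, .y, .y, .p, .p], []),
  (.ofNat 9990518400, [.p, .p, .y, .y, .z], [.z]),
  (.negSucc 4186339199, [.p, .p, .y, .y, .z, .z], []),
  (.ofNat 5471510400, [.p, .p, .y, .z], [.p]),
  (.ofNat 163252800, [.p, .p, .y, .z], [.y, .z]),
  (.ofNat 1322035200, [.p, .p, .y, .z], [.z, .y]),
  (.negSucc 4032763199, [.p, .p, .y, .z, .p], []),
  (.ofNat 390182400, [.p, .p, .y, .z, .y], [.z]),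
  (.ofNat 1139889600, [.p, .p, .y, .z, .y, .z], []),
  (.ofNat 2355566400, [.p, .p, .y, .z, .z], [.y]),
  (.negSucc 576547199, [.p, .p, .y, .z, .z, .y], []),
  (.ofNat 11566879200, [.p, .y], [.p, .y]),
  (.negSucc 6108163199, [.p, .y], [.y, .p]),
  (.negSucc 7912295999, [.p, .y], [.z]),
  (.ofNat 3085052400, [.p, .y, .k, .k, .p, .y], []),
  (.negSucc 3085052399, [.p, .y, .k, .k, .y, .p], []),
  (.ofNat 514098000, [.p, .y, .k, .p, .p, .z], []),
  (.negSucc 2408914799, [.p, .y, .k, .p, .y], []),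
  (.ofNat 5963126400, [.p, .y, .k, .p, .z], [.p]),
  (.negSucc 1820516399, [.p, .y, .k, .p, .z, .p], []),
  (.ofNat 2408914800, [.p, .y, .k, .y, .p], []),
  (.negSucc 514097999, [.p, .y, .k, .y, .y, .z], []),
  (.negSucc 2281132799, [.p, .y, .k, .y, .z], [.y]),
  (.ofNat 1820516400, [.p, .y, .k, .y, .z, .y], []),
  (.negSucc 3681993599, [.p, .y, .k, .z, .p], [.p]),
  (.negSucc 1005379199, [.p, .y, .p], [.p, .y, .p]),
  (.negSucc 4788979199, [.p, .y, .p], [.p, .z]),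
  (.negSucc 19295107199, [.p, .y, .p], [.y]),
  (.negSucc 614260799, [.p, .y, .p], [.z, .y, .z]),
  (.negSucc 537523199, [.p, .y, .p, .p, .p, .y], []),
  (.ofNat 3709108800, [.p, .y, .p, .p, .y], [.p]),
  (.negSucc 2337746399, [.p, .y, .p, .p, .y, .p], []),
  (.negSucc 3213403199, [.p, .y, .p, .p, .z], []),
  (.ofNat 3624840000, [.p, .y, .p, .y], []),
  (.negSucc 2629871999, [.p, .y, .p, .y, .p], [.p]),
  (.negSucc 2629871999, [.p, .y, .p, .y, .z], [.z]),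
  (.negSucc 8970883199, [.p, .y, .p, .z], [.p]),
  (.ofNat 586886400, [.p, .y, .p, .z], [.y, .z]),
  (.ofNat 1173816000, [.p, .y, .p, .z], [.z, .y]),
  (.ofNat 2980440000, [.p, .y, .p, .z, .p], []),
  (.ofNat 3297312000, [.p, .y, .p, .z, .y], [.z]),
  (.negSucc 2337746399, [.p, .y, .p, .z, .y, .z], []),
  (.negSucc 537523199, [.p, .y, .p, .z, .z, .y], []),
  (.ofNat 13546821600, [.p, .y, .y, .p], []),
  (.ofNat 411796800, [.p, .y, .y, .p, .z], [.z]),
  (.negSucc 222235199, [.p, .y, .y, .y, .p], [.y]),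
  (.ofNat 2579558400, [.p, .y, .y, .y, .y, .p], []),
  (.ofNat 232963200, [.p, .y, .y, .y, .z], []),
  (.ofNat 1102752000, [.p, .y, .y, .z], [.p, .z]),
  (.negSucc 523511999, [.p, .y, .y, .z], [.y]),
  (.negSucc 6169744799, [.p, .y, .y, .z], [.z, .p]),
  (.ofNat 222235200, [.p, .y, .y, .z, .p], [.z]),
  (.negSucc 2579558399, [.p, .y, .y, .z, .z, .p], []),
  (.ofNat 5393188800, [.p, .y, .z], []),
  (.ofNat 834609600, [.p, .y, .z], [.p, .z, .y]),
  (.negSucc 600825599, [.p, .y, .z], [.y, .z, .p]),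
  (.negSucc 391118399, [.p, .y, .z], [.z, .y, .p]),
  (.ofNat 4820817600, [.p, .y, .z, .p], [.p]),
  (.negSucc 3182529599, [.p, .y, .z, .p], [.z, .y])]

set_option maxRecDepth 100000 in
theorem cB2 : blkOK smulL e2 gB2 wB2 = true := by decide +kernel

end Pool.Agent.H14Z
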