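import Pool.Agent.Lib.H14Z.E3
import Pool.Agent.Lib.H2AF.B3

/-! # Certificate B, block 3 (P1_B1, sq, size 27): the word form of the block -/

namespace Pool.Agent.H14Z

open Pool.Agent.H2AF

/-- The value of the block, one word pair per class. -/
def wB3 : E :=
 [(.ofNat 11158156800, [.k], [.p, .k, .p, .p, .p]),
  (.ofNat 11158156800, [.k], [.p, .k, .p, .y, .y]),
  (.ofNat 9679474800, [.k], [.p, .p, .k, .p, .p]),
  (.ofNat 9679474800, [.k], [.p, .p, .k, .y, .y]),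
  (.negSucc 1113091199, [.k], [.p, .p, .p, .p]),
  (.ofNat 2686233600, [.k], [.p, .p, .p, .y, .z]),
  (.ofNat 2165842800, [.k], [.p, .p, .y, .p, .z]),
  (.negSucc 1113091199, [.k], [.p, .p, .y, .y]),
  (.negSucc 520390799, [.k], [.p, .p, .y, .z, .p]),
  (.ofNat 15054476400, [.k, .k], [.p, .p, .p, .p]),
  (.ofNat 15054476400, [.k, .k], [.p, .p, .y, .y]),
  (.ofNat 6701788800, [.k, .k, .p], [.p, .p, .p]),
  (.ofNat 6701788800, [.k, .k, .p], [.p, .y, .y]),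
  (.ofNat 347702400, [.k, .k, .p, .p], [.p, .p]),
  (.ofNat 347702400, [.k, .k, .p, .p], [.y, .y]),
  (.negSucc 9903578399, [.k, .p], [.p, .k, .p, .p]),
  (.negSucc 12190147199, [.k, .p], [.p, .k, .y, .y]),
  (.ofNat 294595200, [.k, .p], [.p, .p, .k, .p]),
  (.negSucc 3429647999, [.k, .p], [.p, .p, .p]),
  (.ofNat 1249113600, [.k, .p], [.p, .p, .y, .z]),
  (.negSucc 153763199, [.k, .p], [.p, .y, .k, .y]),
  (.ofNat 3789403200, [.k, .p], [.p, .y, .p, .z]),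
  (.negSucc 1988783999, [.k, .p], [.p, .y, .y]),
  (.ofNat 4622230800, [.k, .p], [.p, .y, .z, .p]),
  (.ofNat 2286568800, [.k, .p], [.y, .k, .y, .p]),
  (.ofNat 1199797200, [.k, .p], [.y, .p, .z, .p]),
  (.ofNat 448358400, [.k, .p], [.y, .y, .k, .p]),
  (.negSucc 1440863999, [.k, .p], [.y, .y, .p]),
  (.negSucc 6589704599, [.k, .p], [.y, .z, .p, .p]),
  (.negSucc 195902999, [.k, .p], [.y, .z, .y, .y]),
  (.ofNat 5511657600, [.k, .p], [.y, .z, .z, .z]),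
  (.ofNat 421430400, [.k, .p, .k], [.p, .p, .p]),
  (.ofNat 421430400, [.k, .p, .k], [.p, .y, .y]),
  (.ofNat 7194988800, [.k, .p, .k, .p], [.p, .p]),
  (.negSucc 425203199, [.k, .p, .k, .p], [.y, .y]),
  (.negSucc 5856479999, [.k, .p, .k, .p, .p], [.p]),
  (.ofNat 7620192000, [.k, .p, .k, .y], [.y, .p]),
  (.negSucc 5856479999, [.k, .p, .k, .y, .y], [.p]),
  (.negSucc 22322239199, [.k, .p, .p], [.k, .p, .p]),
  (.negSucc 11785197599, [.k, .p, .p], [.k, .y, .y]),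
  (.negSucc 5730076799, [.k, .p, .p], [.p, .k, .p]),
  (.negSucc 3894652799, [.k, .p, .p], [.p, .p]),
  (.negSucc 5062607999, [.k, .p, .p], [.p, .p, .k]),
  (.negSucc 1248854399, [.k, .p, .p], [.p, .y, .z]),
  (.negSucc 4289327999, [.k, .p, .p], [.y, .k, .y]),
  (.negSucc 1845284399, [.k, .p, .p], [.y, .p, .z]),
  (.negSucc 3018931199, [.k, .p, .p], [.y, .y]),
  (.negSucc 5062607999, [.k, .p, .p], [.y, .y, .k]),
  (.negSucc 111581999, [.k, .p, .p], [.y, .z, .p]),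
  (.ofNat 16626618000, [.k, .p, .p, .k], [.p, .p]),
  (.ofNat 3185539200, [.k, .p, .p, .k], [.y, .y]),
  (.negSucc 5178959999, [.k, .p, .p, .k, .p], [.p]),
  (.negSucc 1658530799, [.k, .p, .p, .k, .p, .p], []),
  (.ofNat 3918873600, [.k, .p, .p, .k, .y], [.y]),
  (.negSucc 1658530799, [.k, .p, .p, .k, .y, .y], []),
  (.negSucc 15283439999, [.k, .p, .p, .p], [.k, .p]),
  (.ofNat 1188201600, [.k, .p, .p, .p], [.p]),
  (.ofNat 1829923200, [.k, .p, .p, .p], [.p, .k]),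
  (.ofNat 1736017200, [.k, .p, .p, .p], [.y, .z]),
  (.ofNat 11385349200, [.k, .p, .p, .p, .k], [.p]),
  (.negSucc 4002519599, [.k, .p, .p, .p, .k, .p], []),
  (.ofNat 2213222400, [.k, .p, .p, .p, .p], []),
  (.negSucc 16163251199, [.k, .p, .p, .p, .p], [.k]),
  (.ofNat 9133728000, [.k, .p, .p, .p, .p, .k], []),
  (.negSucc 1268639999, [.k, .p, .p, .p, .y], [.z]),
  (.ofNat 613814400, [.k, .p, .p, .p, .y, .z], []),
  (.negSucc 6429398399, [.k, .p, .p, .y], [.k, .y]),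
  (.ofNat 141660000, [.k, .p, .p, .y], [.p, .z]),
  (.negSucc 587433599, [.k, .p, .p, .y], [.y]),
  (.ofNat 1829923200, [.k, .p, .p, .y], [.y, .k]),
  (.negSucc 2257909199, [.k, .p, .p, .y], [.z, .p]),
  (.ofNat 11385349200, [.k, .p, .p, .y, .k], [.y]),
  (.negSucc 4002519599, [.k, .p, .p, .y, .k, .y], []),
  (.ofNat 44902800, [.k, .p, .p, .y, .p], [.z]),
  (.negSucc 703688399, [.k, .p, .p, .y, .p, .z], []),
  (.ofNat 2213222400, [.k, .p, .p, .y, .y], []),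
  (.negSucc 16163251199, [.k, .p, .p, .y, .y], [.k]),
  (.ofNat 9133728000, [.k, .p, .p, .y, .y, .k], []),
  (.ofNat 4126759200, [.k, .p, .p, .y, .z], [.p]),
  (.negSucc 1317502799, [.k, .p, .p, .y, .z, .p], []),
  (.negSucc 10537041599, [.k, .p, .y], [.k, .y, .p]),
  (.negSucc 1486288799, [.k, .p, .y], [.p, .z, .p]),
  (.negSucc 1440748799, [.k, .p, .y], [.y, .k, .p]),
  (.negSucc 875721599, [.k, .p, .y], [.y, .p]),
  (.negSucc 3382639199, [.k, .p, .y], [.z, .p, .p]),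
  (.negSucc 114029999, [.k, .p, .y], [.z, .y, .y]),
  (.ofNat 1297472400, [.k, .p, .y], [.z, .z, .z]),
  (.ofNat 13441078800, [.k, .p, .y, .k], [.y, .p]),
  (.negSucc 9097833599, [.k, .p, .y, .k, .y], [.p]),
  (.ofNat 661446000, [.k, .p, .y, .p], [.z, .p]),
  (.ofNat 278575200, [.k, .p, .y, .p, .z], [.p]),
  (.negSucc 8854041599, [.k, .p, .y, .y], [.k, .p]),
  (.ofNat 1775635200, [.k, .p, .y, .y], [.p]),
  (.negSucc 3082323599, [.k, .p, .y, .z], [.p, .p]),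
  (.negSucc 3273890399, [.k, .p, .y, .z], [.y, .y]),
  (.ofNat 1133431200, [.k, .p, .y, .z], [.z, .z]),
  (.negSucc 2534641199, [.k, .p, .y, .z, .p], [.p]),
  (.ofNat 13622869800, [.p, .k, .k, .p], [.p, .p]),
  (.negSucc 10638748799, [.p, .k, .k, .p, .p], [.p]),
  (.ofNat 13622869800, [.p, .k, .k, .y], [.y, .p]),
  (.negSucc 10638748799, [.p, .k, .k, .y, .y], [.p]),
  (.negSucc 11234447999, [.p, .k, .p], [.p, .k, .p]),
  (.negSucc 2022134399, [.p, .k, .p], [.p, .p]),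
  (.negSucc 12592483199, [.p, .k, .p], [.p, .y, .z]),
  (.negSucc 1163894399, [.p, .k, .p], [.y, .k, .y]),
  (.negSucc 3079180799, [.p, .k, .p], [.y, .p, .z]),
  (.negSucc 1081497599, [.p, .k, .p], [.y, .y]),
  (.negSucc 7485422399, [.p, .k, .p, .k, .p], [.p]),
  (.ofNat 9315471600, [.p, .k, .p, .k, .p, .p], []),
  (.negSucc 7485422399, [.p, .k, .p, .k, .y], [.y]),
  (.ofNat 9315471600, [.p, .k, .p, .k, .y, .y], []),
  (.ofNat 5502441600, [.p, .k, .p, .p], [.p]),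
  (.ofNat 415080000, [.p, .k, .p, .p], [.y, .z]),
  (.ofNat 5517253800, [.p, .k, .p, .p, .k, .p], []),
  (.ofNat 702806400, [.p, .k, .p, .p, .p], []),
  (.ofNat 1491199200, [.p, .k, .p, .p, .y], [.z]),
  (.negSucc 13111199, [.p, .k, .p, .p, .y, .z], []),
  (.ofNat 1249423200, [.p, .k, .p, .y], [.p, .z]),
  (.ofNat 1085328000, [.p, .k, .p, .y], [.y]),
  (.negSucc 6133586399, [.p, .k, .p, .y], [.z, .p]),
  (.ofNat 5517253800, [.p, .k, .p, .y, .k, .y], []),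
  (.negSucc 1046066399, [.p, .k, .p, .y, .p], [.z]),
  (.ofNat 1842588000, [.p, .k, .p, .y, .p, .z], []),
  (.ofNat 702806400, [.p, .k, .p, .y, .y], []),
  (.negSucc 2080645199, [.p, .k, .p, .y, .z], [.p]),
  (.ofNat 1855699200, [.p, .k, .p, .y, .z, .p], []),
  (.negSucc 4159371599, [.p, .k, .y], [.p, .z, .p]),
  (.negSucc 10070553599, [.p, .k, .y], [.y, .k, .p]),
  (.negSucc 940636799, [.p, .k, .y], [.y, .p]),
  (.negSucc 5353930799, [.p, .k, .y], [.y, .y, .z]),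
  (.ofNat 3889897200, [.p, .k, .y, .p], [.z, .p]),
  (.negSucc 2094307199, [.p, .k, .y, .p, .z], [.p]),
  (.ofNat 4417113600, [.p, .k, .y, .y], [.p]),
  (.negSucc 879019199, [.p, .k, .y, .y], [.y, .z]),
  (.negSucc 1618286399, [.p, .k, .y, .y], [.z, .y]),
  (.ofNat 11597094000, [.p, .k, .y, .z], [.p, .p]),
  (.negSucc 2550927599, [.p, .k, .y, .z, .p], [.p]),
  (.negSucc 1157547815, [.p, .p], [.p, .p]),
  (.ofNat 241340400, [.p, .p], [.p, .y, .z]),
  (.ofNat 566881200, [.p, .p], [.y, .p, .z]),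
  (.negSucc 1265030999, [.p, .p], [.y, .y]),
  (.ofNat 704496600, [.p, .p], [.y, .z, .y, .z]),
  (.negSucc 3266229599, [.p, .p], [.y, .z, .z, .y]),
  (.ofNat 5600766000, [.p, .p, .k, .k, .p, .p], []),
  (.ofNat 5600766000, [.p, .p, .k, .k, .y, .y], []),
  (.ofNat 1445518800, [.p, .p, .k, .p, .p], []),
  (.ofNat 1634886000, [.p, .p, .k, .p, .y], [.z]),
  (.ofNat 850564800, [.p, .p, .k, .p, .y, .z], []),
  (.negSucc 1918529999, [.p, .p, .k, .y, .p], [.z]),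
  (.ofNat 2303064000, [.p, .p, .k, .y, .p, .z], []),
  (.ofNat 1445518800, [.p, .p, .k, .y, .y], []),
  (.negSucc 3553415999, [.p, .p, .k, .y, .z], [.p]),
  (.ofNat 1452499200, [.p, .p, .k, .y, .z, .p], []),
  (.negSucc 117748799, [.p, .p, .p], [.p]),
  (.negSucc 2882267999, [.p, .p, .p], [.y, .z]),
  (.ofNat 1378140300, [.p, .p, .p, .p], []),
  (.negSucc 1532392199, [.p, .p, .p, .y], [.z]),
  (.ofNat 1477602000, [.p, .p, .p, .y, .z], []),
  (.negSucc 1215406799, [.p, .p, .y], [.p, .z]),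
  (.negSucc 117748799, [.p, .p, .y], [.y]),
  (.ofNat 2023110000, [.p, .p, .y], [.z, .p]),
  (.ofNat 1819414800, [.p, .p, .y], [.z, .y, .z]),
  (.negSucc 112928399, [.p, .p, .y], [.z, .z, .y]),
  (.ofNat 1255282200, [.p, .p, .y, .p], [.z]),
  (.negSucc 251387999, [.p, .p, .y, .p, .z], []),
  (.ofNat 1378140300, [.p, .p, .y, .y], []),
  (.ofNat 2512404000, [.p, .p, .y, .z], [.p]),
  (.negSucc 1793568599, [.p, .p, .y, .z], [.y, .z]),
  (.negSucc 921463199, [.p, .p, .y, .z], [.z, .y]),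
  (.negSucc 1728989999, [.p, .p, .y, .z, .p], []),
  (.ofNat 107483184, [.p, .y], [.y, .p]),
  (.negSucc 30707999, [.p, .y, .p], [.p, .z]),
  (.negSucc 647287199, [.p, .y, .p], [.z, .y, .z]),
  (.negSucc 609325199, [.p, .y, .p, .y, .z], [.z]),
  (.negSucc 177073199, [.p, .y, .p, .z], [.p]),
  (.ofNat 4102794000, [.p, .y, .p, .z], [.y, .z]),
  (.ofNat 142696800, [.p, .y, .p, .z], [.z, .y]),
  (.negSucc 846280799, [.p, .y, .p, .z, .y], [.z]),
  (.ofNat 2991999600, [.p, .y, .y, .p, .z], [.z]),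
  (.negSucc 524222999, [.p, .y, .y, .z], [.p, .z]),
  (.ofNat 1800018000, [.p, .y, .y, .z, .p], [.z]),
  (.negSucc 2475176399, [.p, .y, .z], [.p, .y, .z]),
  (.ofNat 1427364000, [.p, .y, .z], [.p, .z, .y]),
  (.ofNat 1188846000, [.p, .y, .z], [.y, .z, .p]),
  (.negSucc 134063999, [.p, .y, .z], [.z, .y, .p]),
  (.ofNat 98197200, [.p, .y, .z, .p], [.p]),
  (.ofNat 213890400, [.p, .y, .z, .p], [.y, .z]),
  (.negSucc 1171808999, [.p, .y, .z, .p], [.z, .y]),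
  (.ofNat 7988400, [.p, .y, .z, .p, .y], [.z]),
  (.negSucc 173345399, [.p, .y, .z, .p, .y, .z], []),
  (.ofNat 1629169200, [.p, .y, .z, .p, .z, .y], []),
  (.negSucc 947037599, [.p, .y, .z, .y, .p], [.z]),
  (.ofNat 223016400, [.p, .y, .z, .y, .z, .p], []),
  (.negSucc 750931199, [.p, .y, .z, .z, .p, .y], []),
  (.negSucc 2330429399, [.p, .y, .z, .z, .y, .p], [])]

set_option maxRecDepth 100000 in
theorem cB3 : blkOK smulL e3 gB3 wB3 = true := by decide +kernel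

end Pool.Agent.H14Z
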