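import Pool.Agent.Lib.H14Z.E4
import Pool.Agent.Lib.H2AF.B4

/-! # Certificate B, block 4 (P1_T2, sq, size 27): the word form of the block -/

namespace Pool.Agent.H14Z

open Pool.Agent.H2AF

/-- The value of the block, one word pair per class. -/
def wB4 : E :=
 [(.negSucc 7607692799, [.k], [.p, .k, .y, .p, .y]),
  (.negSucc 7607692799, [.k], [.p, .k, .y, .y, .p]),
  (.ofNat 2206137600, [.k], [.p, .p, .y, .p, .z]),
  (.ofNat 2206137600, [.k], [.p, .p, .y, .z, .p]),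
  (.negSucc 4484501999, [.k], [.p, .y, .k, .p, .y]),
  (.negSucc 4484501999, [.k], [.p, .y, .k, .y, .p]),
  (.negSucc 5056369199, [.k], [.p, .y, .p, .p, .z]),
  (.ofNat 3847420800, [.k], [.p, .y, .p, .y]),
  (.negSucc 3291436799, [.k], [.p, .y, .p, .z, .p]),
  (.ofNat 3847420800, [.k], [.p, .y, .y, .p]),
  (.negSucc 1764932399, [.k], [.p, .y, .y, .y, .z]),
  (.negSucc 7665524099, [.k, .k], [.p, .y, .p, .y]),
  (.negSucc 7665524099, [.k, .k], [.p, .y, .y, .p]),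
  (.ofNat 5547312000, [.k, .k, .p], [.y, .p, .y]),
  (.ofNat 5547312000, [.k, .k, .p], [.y, .y, .p]),
  (.negSucc 4342204799, [.k, .k, .p, .y], [.p, .y]),
  (.negSucc 4342204799, [.k, .k, .p, .y], [.y, .p]),
  (.ofNat 10022803200, [.k, .p], [.p, .k, .y, .y]),
  (.negSucc 4000715999, [.k, .p], [.p, .p, .y, .z]),
  (.ofNat 4642704000, [.k, .p], [.p, .y, .k, .y]),
  (.ofNat 793180800, [.k, .p], [.p, .y, .p, .z]),
  (.negSucc 4102963199, [.k, .p], [.p, .y, .y]),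
  (.negSucc 881942399, [.k, .p], [.p, .y, .z, .p]),
  (.ofNat 18729532800, [.k, .p], [.y, .k, .p, .y]),
  (.ofNat 8706729600, [.k, .p], [.y, .k, .y, .p]),
  (.ofNat 13140316800, [.k, .p], [.y, .p, .k, .y]),
  (.ofNat 5511283200, [.k, .p], [.y, .p, .p, .z]),
  (.negSucc 14427331199, [.k, .p], [.y, .p, .y]),
  (.ofNat 180662400, [.k, .p], [.y, .p, .z, .p]),
  (.ofNat 8497612800, [.k, .p], [.y, .y, .k, .p]),
  (.negSucc 10324367999, [.k, .p], [.y, .y, .p]),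
  (.ofNat 3815308800, [.k, .p], [.y, .y, .y, .z]),
  (.ofNat 6055336800, [.k, .p], [.y, .y, .z, .y]),
  (.negSucc 1525103999, [.k, .p], [.y, .z, .p, .p]),
  (.negSucc 3200227199, [.k, .p], [.y, .z, .y, .y]),
  (.negSucc 3569932799, [.k, .p], [.y, .z, .z, .z]),
  (.ofNat 8023248000, [.k, .p, .k], [.p, .y, .y]),
  (.ofNat 8023248000, [.k, .p, .k], [.y, .p, .y]),
  (.negSucc 8512041599, [.k, .p, .k, .p], [.y, .y]),
  (.ofNat 4842547200, [.k, .p, .k, .p, .y], [.y]),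
  (.negSucc 12287894399, [.k, .p, .k, .y], [.p, .y]),
  (.negSucc 3775852799, [.k, .p, .k, .y], [.y, .p]),
  (.ofNat 4842547200, [.k, .p, .k, .y, .p], [.y]),
  (.ofNat 4501209600, [.k, .p, .p], [.k, .y, .y]),
  (.negSucc 391593599, [.k, .p, .p], [.p, .y, .z]),
  (.negSucc 2920895999, [.k, .p, .p], [.y, .k, .y]),
  (.negSucc 1013183999, [.k, .p, .p], [.y, .p, .z]),
  (.ofNat 7490736000, [.k, .p, .p], [.y, .y]),
  (.negSucc 1816387199, [.k, .p, .p], [.y, .z, .p]),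
  (.negSucc 11147795999, [.k, .p, .p, .k], [.y, .y]),
  (.ofNat 2674684800, [.k, .p, .p, .k, .y], [.y]),
  (.ofNat 3134995200, [.k, .p, .p, .p], [.y, .z]),
  (.ofNat 929635200, [.k, .p, .p, .p, .y], [.z]),
  (.ofNat 2901456000, [.k, .p, .p, .y], [.k, .y]),
  (.negSucc 259919999, [.k, .p, .p, .y], [.p, .z]),
  (.negSucc 563817599, [.k, .p, .p, .y], [.y]),
  (.ofNat 430848000, [.k, .p, .p, .y], [.z, .p]),
  (.negSucc 915865199, [.k, .p, .p, .y, .k], [.y]),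
  (.negSucc 1846742399, [.k, .p, .p, .y, .p], [.z]),
  (.ofNat 3631521600, [.k, .p, .y], [.k, .p, .y]),
  (.negSucc 869687999, [.k, .p, .y], [.k, .y, .p]),
  (.negSucc 6068419199, [.k, .p, .y], [.p, .k, .y]),
  (.negSucc 2514286799, [.k, .p, .y], [.p, .p, .z]),
  (.ofNat 9339062400, [.k, .p, .y], [.p, .y]),
  (.negSucc 894239999, [.k, .p, .y], [.p, .y, .k]),
  (.ofNat 2924470800, [.k, .p, .y], [.p, .z, .p]),
  (.negSucc 3147523199, [.k, .p, .y], [.y, .k, .p]),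
  (.ofNat 1848326400, [.k, .p, .y], [.y, .p]),
  (.negSucc 894239999, [.k, .p, .y], [.y, .p, .k]),
  (.ofNat 1672830000, [.k, .p, .y], [.y, .y, .z]),
  (.ofNat 3169702800, [.k, .p, .y], [.y, .z, .y]),
  (.ofNat 671990400, [.k, .p, .y], [.z, .p, .p]),
  (.negSucc 131212799, [.k, .p, .y], [.z, .y, .y]),
  (.ofNat 4333478400, [.k, .p, .y], [.z, .z, .z]),
  (.negSucc 14660445599, [.k, .p, .y, .k], [.p, .y]),
  (.negSucc 3512649599, [.k, .p, .y, .k], [.y, .p]),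
  (.ofNat 1803859200, [.k, .p, .y, .k, .p], [.y]),
  (.ofNat 158536800, [.k, .p, .y, .k, .p, .y], []),
  (.negSucc 870825599, [.k, .p, .y, .k, .y], [.p]),
  (.ofNat 158536800, [.k, .p, .y, .k, .y, .p], []),
  (.ofNat 5867164800, [.k, .p, .y, .p], [.k, .y]),
  (.negSucc 1620428399, [.k, .p, .y, .p], [.p, .z]),
  (.ofNat 848880000, [.k, .p, .y, .p], [.y]),
  (.ofNat 3601814400, [.k, .p, .y, .p], [.y, .k]),
  (.negSucc 861163199, [.k, .p, .y, .p], [.z, .p]),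
  (.negSucc 915865199, [.k, .p, .y, .p, .k], [.y]),
  (.negSucc 2480903999, [.k, .p, .y, .p, .k, .y], []),
  (.negSucc 366289199, [.k, .p, .y, .p, .p], [.z]),
  (.negSucc 5457599, [.k, .p, .y, .p, .p, .z], []),
  (.negSucc 1269878399, [.k, .p, .y, .p, .y], []),
  (.ofNat 7589376000, [.k, .p, .y, .p, .y], [.k]),
  (.negSucc 5958537299, [.k, .p, .y, .p, .y, .k], []),
  (.negSucc 1796270399, [.k, .p, .y, .p, .z], [.p]),
  (.ofNat 1627488000, [.k, .p, .y, .p, .z, .p], []),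
  (.ofNat 2965708800, [.k, .p, .y, .y], [.k, .p]),
  (.ofNat 1412697600, [.k, .p, .y, .y], [.p]),
  (.ofNat 3601814400, [.k, .p, .y, .y], [.p, .k]),
  (.negSucc 6485093999, [.k, .p, .y, .y], [.y, .z]),
  (.negSucc 7214932799, [.k, .p, .y, .y], [.z, .y]),
  (.negSucc 2480903999, [.k, .p, .y, .y, .k, .p], []),
  (.negSucc 1269878399, [.k, .p, .y, .y, .p], []),
  (.ofNat 7589376000, [.k, .p, .y, .y, .p], [.k]),
  (.negSucc 5958537299, [.k, .p, .y, .y, .p, .k], []),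
  (.ofNat 200149200, [.k, .p, .y, .y, .y], [.z]),
  (.negSucc 5457599, [.k, .p, .y, .y, .y, .z], []),
  (.negSucc 2725905599, [.k, .p, .y, .y, .z], [.y]),
  (.ofNat 1627488000, [.k, .p, .y, .y, .z, .y], []),
  (.negSucc 2198073599, [.k, .p, .y, .z], [.p, .p]),
  (.negSucc 1507305599, [.k, .p, .y, .z], [.y, .y]),
  (.negSucc 1645891199, [.k, .p, .y, .z], [.z, .z]),
  (.ofNat 1768453200, [.k, .p, .y, .z, .p], [.p]),
  (.ofNat 1515222000, [.k, .p, .y, .z, .p, .p], []),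
  (.ofNat 3615195600, [.k, .p, .y, .z, .y], [.y]),
  (.ofNat 1515222000, [.k, .p, .y, .z, .y, .y], []),
  (.ofNat 566438400, [.k, .p, .y, .z, .z], [.z]),
  (.negSucc 5855255099, [.p, .k, .k, .p], [.y, .y]),
  (.ofNat 6468249600, [.p, .k, .k, .p, .y], [.y]),
  (.negSucc 5855255099, [.p, .k, .k, .y], [.p, .y]),
  (.ofNat 6468249600, [.p, .k, .k, .y, .p], [.y]),
  (.negSucc 445679999, [.p, .k, .p], [.p, .y, .z]),
  (.negSucc 2398219199, [.p, .k, .p], [.y, .k, .y]),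
  (.ofNat 2095200000, [.p, .k, .p], [.y, .p, .z]),
  (.ofNat 2788243200, [.p, .k, .p], [.y, .y]),
  (.ofNat 2023660800, [.p, .k, .p, .k, .y], [.y]),
  (.ofNat 4550227200, [.p, .k, .p, .p], [.y, .z]),
  (.negSucc 1073980799, [.p, .k, .p, .p, .y], [.z]),
  (.negSucc 1698019199, [.p, .k, .p, .y], [.p, .z]),
  (.negSucc 4896719999, [.p, .k, .p, .y], [.y]),
  (.ofNat 658022400, [.p, .k, .p, .y], [.z, .p]),
  (.negSucc 430703999, [.p, .k, .p, .y, .p], [.z]),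
  (.negSucc 3531700799, [.p, .k, .y], [.p, .k, .y]),
  (.negSucc 1290160799, [.p, .k, .y], [.p, .p, .z]),
  (.ofNat 4240108800, [.p, .k, .y], [.p, .y]),
  (.negSucc 445679999, [.p, .k, .y], [.p, .z, .p]),
  (.negSucc 1133481599, [.p, .k, .y], [.y, .k, .p]),
  (.ofNat 1451865600, [.p, .k, .y], [.y, .p]),
  (.negSucc 975290399, [.p, .k, .y], [.y, .y, .z]),
  (.ofNat 2410070400, [.p, .k, .y], [.z, .z, .z]),
  (.ofNat 2023660800, [.p, .k, .y, .k, .p], [.y]),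
  (.negSucc 4524137999, [.p, .k, .y, .k, .p, .y], []),
  (.negSucc 4524137999, [.p, .k, .y, .k, .y, .p], []),
  (.negSucc 545756399, [.p, .k, .y, .p], [.p, .z]),
  (.negSucc 12550636799, [.p, .k, .y, .p], [.y]),
  (.ofNat 708220800, [.p, .k, .y, .p], [.z, .p]),
  (.negSucc 5127343199, [.p, .k, .y, .p, .k, .y], []),
  (.ofNat 403729200, [.p, .k, .y, .p, .p], [.z]),
  (.negSucc 1183885199, [.p, .k, .y, .p, .p, .z], []),
  (.ofNat 3453033600, [.p, .k, .y, .p, .y], []),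
  (.negSucc 1012006799, [.p, .k, .y, .p, .z], [.p]),
  (.negSucc 1433786399, [.p, .k, .y, .p, .z, .p], []),
  (.negSucc 7653916799, [.p, .k, .y, .y], [.p]),
  (.negSucc 1387436399, [.p, .k, .y, .y], [.y, .z]),
  (.negSucc 4500028799, [.p, .k, .y, .y], [.z, .y]),
  (.negSucc 5127343199, [.p, .k, .y, .y, .k, .p], []),
  (.ofNat 3453033600, [.p, .k, .y, .y, .p], []),
  (.ofNat 1965610800, [.p, .k, .y, .y, .y], [.z]),
  (.negSucc 1183885199, [.p, .k, .y, .y, .y, .z], []),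
  (.ofNat 61974000, [.p, .k, .y, .y, .z], [.y]),
  (.negSucc 1433786399, [.p, .k, .y, .y, .z, .y], []),
  (.negSucc 4539772799, [.p, .k, .y, .z], [.p, .p]),
  (.negSucc 7588627199, [.p, .k, .y, .z], [.y, .y]),
  (.negSucc 5588553599, [.p, .k, .y, .z], [.z, .z]),
  (.negSucc 56955599, [.p, .k, .y, .z, .p], [.p]),
  (.ofNat 3946233600, [.p, .k, .y, .z, .p, .p], []),
  (.ofNat 373748400, [.p, .k, .y, .z, .y], [.y]),
  (.ofNat 3946233600, [.p, .k, .y, .z, .y, .y], []),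
  (.ofNat 1561881600, [.p, .k, .y, .z, .z], [.z]),
  (.negSucc 914345999, [.p, .p], [.p, .y, .p, .y]),
  (.negSucc 1217361599, [.p, .p], [.p, .y, .y, .p]),
  (.ofNat 808416000, [.p, .p], [.p, .y, .z]),
  (.negSucc 1025825399, [.p, .p], [.y, .p, .p, .y]),
  (.ofNat 1521907200, [.p, .p], [.y, .p, .z]),
  (.negSucc 3744586799, [.p, .p], [.y, .y]),
  (.ofNat 804963600, [.p, .p], [.y, .z, .y, .z]),
  (.ofNat 337593600, [.p, .p], [.y, .z, .z, .y]),
  (.negSucc 2867183999, [.p, .p, .k, .p, .y], [.z]),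
  (.negSucc 2867183999, [.p, .p, .k, .y, .p], [.z]),
  (.ofNat 1521640800, [.p, .p, .p], [.p, .y, .y]),
  (.negSucc 900435599, [.p, .p, .p], [.y, .p, .y]),
  (.negSucc 4171910399, [.p, .p, .p], [.y, .z]),
  (.negSucc 3068323199, [.p, .p, .p, .p], [.y, .y]),
  (.ofNat 3543300000, [.p, .p, .p, .p, .y], [.y]),
  (.negSucc 61016399, [.p, .p, .p, .y], [.p, .y]),
  (.negSucc 870992999, [.p, .p, .p, .y], [.y, .p]),
  (.ofNat 3444796800, [.p, .p, .p, .y], [.z]),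
  (.ofNat 1712476800, [.p, .p, .p, .y, .p], [.y]),
  (.ofNat 910555200, [.p, .p, .y], [.p, .p, .y]),
  (.negSucc 1626476399, [.p, .p, .y], [.p, .y, .p]),
  (.negSucc 5768812799, [.p, .p, .y], [.p, .z]),
  (.ofNat 4869309600, [.p, .p, .y], [.y]),
  (.negSucc 445514399, [.p, .p, .y], [.y, .p, .p]),
  (.negSucc 1076126399, [.p, .p, .y], [.y, .z, .z]),
  (.negSucc 341279999, [.p, .p, .y], [.z, .p]),
  (.ofNat 2269814400, [.p, .p, .y], [.z, .y, .z]),
  (.negSucc 647207999, [.p, .p, .y], [.z, .z, .y]),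
  (.ofNat 908136000, [.p, .p, .y, .k, .p, .z], []),
  (.ofNat 908136000, [.p, .p, .y, .k, .z, .p], []),
  (.negSucc 1390453199, [.p, .p, .y, .p], [.p, .y]),
  (.ofNat 413123400, [.p, .p, .y, .p], [.y, .p]),
  (.ofNat 9810604800, [.p, .p, .y, .p], [.z]),
  (.ofNat 467380800, [.p, .p, .y, .p, .p], [.y]),
  (.ofNat 276800400, [.p, .p, .y, .p, .p, .y], []),
  (.ofNat 297504000, [.p, .p, .y, .p, .y], [.p]),
  (.ofNat 509317200, [.p, .p, .y, .p, .y, .p], []),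
  (.negSucc 1968566399, [.p, .p, .y, .p, .z], []),
  (.ofNat 1605868200, [.p, .p, .y, .y], [.p, .p]),
  (.ofNat 1462455000, [.p, .p, .y, .y], [.z, .z]),
  (.ofNat 1047816000, [.p, .p, .y, .y, .p], [.p]),
  (.negSucc 1818680399, [.p, .p, .y, .y, .p, .p], []),
  (.negSucc 4591115999, [.p, .p, .y, .y, .z], [.z]),
  (.ofNat 1818680400, [.p, .p, .y, .y, .z, .z], []),
  (.ofNat 4538188800, [.p, .p, .y, .z], [.p]),
  (.negSucc 870870599, [.p, .p, .y, .z], [.y, .z]),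
  (.ofNat 1302382800, [.p, .p, .y, .z], [.z, .y]),
  (.negSucc 1968566399, [.p, .p, .y, .z, .p], []),
  (.negSucc 2009980799, [.p, .p, .y, .z, .y], [.z]),
  (.negSucc 509317199, [.p, .p, .y, .z, .y, .z], []),
  (.negSucc 467380799, [.p, .p, .y, .z, .z], [.y]),
  (.negSucc 276800399, [.p, .p, .y, .z, .z, .y], []),
  (.negSucc 4652981999, [.p, .y], [.p, .y]),
  (.negSucc 908395199, [.p, .y], [.y, .p]),
  (.negSucc 3220397999, [.p, .y, .k, .k, .p, .y], []),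
  (.negSucc 3220397999, [.p, .y, .k, .k, .y, .p], []),
  (.negSucc 1301878799, [.p, .y, .k, .p, .p, .z], []),
  (.ofNat 1362891600, [.p, .y, .k, .p, .y], []),
  (.ofNat 248223600, [.p, .y, .k, .p, .z], [.p]),
  (.negSucc 956775599, [.p, .y, .k, .p, .z, .p], []),
  (.ofNat 1362891600, [.p, .y, .k, .y, .p], []),
  (.negSucc 1301878799, [.p, .y, .k, .y, .y, .z], []),
  (.negSucc 613954799, [.p, .y, .k, .y, .z], [.y]),
  (.negSucc 956775599, [.p, .y, .k, .y, .z, .y], []),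
  (.ofNat 862178400, [.p, .y, .k, .z, .p], [.p]),
  (.ofNat 1208260800, [.p, .y, .p], [.p, .y, .p]),
  (.negSucc 542131199, [.p, .y, .p], [.p, .z]),
  (.ofNat 4869309600, [.p, .y, .p], [.y]),
  (.negSucc 428371199, [.p, .y, .p], [.z, .y, .z]),
  (.negSucc 976863599, [.p, .y, .p, .p, .p, .y], []),
  (.ofNat 1487134800, [.p, .y, .p, .p, .y], [.p]),
  (.negSucc 1335954599, [.p, .y, .p, .p, .y, .p], []),
  (.ofNat 1880467200, [.p, .y, .p, .p, .z], []),
  (.negSucc 1395291599, [.p, .y, .p, .y], []),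
  (.ofNat 887054400, [.p, .y, .p, .y, .p], [.p]),
  (.negSucc 887054399, [.p, .y, .p, .y, .z], [.z]),
  (.negSucc 2849007599, [.p, .y, .p, .z], [.p]),
  (.ofNat 88070400, [.p, .y, .p, .z], [.y, .z]),
  (.ofNat 648518400, [.p, .y, .p, .z], [.z, .y]),
  (.ofNat 854110800, [.p, .y, .p, .z, .p], []),
  (.negSucc 1159275599, [.p, .y, .p, .z, .y], [.z]),
  (.ofNat 1335954600, [.p, .y, .p, .z, .y, .z], []),
  (.ofNat 976863600, [.p, .y, .p, .z, .z, .y], []),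
  (.negSucc 1395291599, [.p, .y, .y, .p], []),
  (.negSucc 327859199, [.p, .y, .y, .p, .z], [.z]),
  (.negSucc 389239199, [.p, .y, .y, .y, .p], [.y]),
  (.ofNat 1486821600, [.p, .y, .y, .y, .y, .p], []),
  (.ofNat 1026356400, [.p, .y, .y, .y, .z], []),
  (.negSucc 20372399, [.p, .y, .y, .z], [.p, .z]),
  (.negSucc 2266556399, [.p, .y, .y, .z], [.y]),
  (.ofNat 2088354600, [.p, .y, .y, .z], [.z, .p]),
  (.negSucc 389239199, [.p, .y, .y, .z, .p], [.z]),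
  (.ofNat 1486821600, [.p, .y, .y, .z, .z, .p], []),
  (.negSucc 263347199, [.p, .y, .z], [.p, .z, .y]),
  (.ofNat 257097600, [.p, .y, .z], [.y, .z, .p]),
  (.negSucc 779889599, [.p, .y, .z], [.z, .y, .p]),
  (.ofNat 1245168000, [.p, .y, .z, .p], [.p]),
  (.ofNat 688231800, [.p, .y, .z, .p], [.z, .y])]

set_option maxRecDepth 100000 in
theorem cB4 : blkOK smulL e4 gB4 wB4 = true := by decide +kernel

end Pool.Agent.H14Z
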