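import Pool.Agent.Lib.H14Z.E5
import Pool.Agent.Lib.H2AF.B5

/-! # Certificate B, block 5 (P4_T1, xx, size 13): the word form of the block -/

namespace Pool.Agent.H14Z

open Pool.Agent.H2AF

/-- The value of the block, one word pair per class. -/
def wB5 : E :=
 [(.ofNat 7606713600, [.k, .k, .p], [.k, .k, .p]),
  (.ofNat 8912332800, [.k, .k, .p], [.k, .p]),
  (.ofNat 20433628800, [.k, .k, .p], [.k, .p, .k]),
  (.ofNat 5943657600, [.k, .k, .p], [.k, .y, .z]),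
  (.negSucc 10758628799, [.k, .k, .p], [.p]),
  (.ofNat 8811907200, [.k, .k, .p], [.p, .k]),
  (.ofNat 7959893400, [.k, .k, .p], [.p, .k, .k]),
  (.ofNat 16515345600, [.k, .k, .p], [.p, .p, .p]),
  (.negSucc 710495999, [.k, .k, .p], [.p, .y, .y]),
  (.ofNat 11797920000, [.k, .k, .p], [.y, .k, .z]),
  (.negSucc 6279263999, [.k, .k, .p], [.y, .p, .y]),
  (.negSucc 233510399, [.k, .k, .p], [.y, .y, .p]),
  (.negSucc 421459199, [.k, .k, .p], [.y, .z]),
  (.ofNat 5848732800, [.k, .k, .p], [.y, .z, .k]),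
  (.ofNat 23251831200, [.k, .p], [.k, .p]),
  (.negSucc 46414454399, [.k, .p], [.p]),
  (.ofNat 23282626608, [.k, .p], [.p, .k]),
  (.ofNat 20778508800, [.k, .p], [.p, .p, .p]),
  (.ofNat 22801996800, [.k, .p], [.p, .y, .y]),
  (.negSucc 19236441599, [.k, .p], [.y, .k, .z]),
  (.negSucc 2161411199, [.k, .p], [.y, .p, .y]),
  (.ofNat 22729276800, [.k, .p], [.y, .y, .p]),
  (.ofNat 73328630400, [.k, .p], [.y, .z]),
  (.negSucc 30201263999, [.k, .p, .k], [.k, .p]),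
  (.ofNat 17836504200, [.k, .p, .k], [.k, .p, .k]),
  (.ofNat 60695769600, [.k, .p, .k], [.k, .y, .z]),
  (.ofNat 14087361600, [.k, .p, .k], [.p]),
  (.ofNat 5471078400, [.k, .p, .k], [.p, .p, .p]),
  (.negSucc 23557132799, [.k, .p, .k], [.p, .y, .y]),
  (.ofNat 21485174400, [.k, .p, .k], [.y, .k, .z]),
  (.negSucc 5121791999, [.k, .p, .k], [.y, .p, .y]),
  (.negSucc 37993780799, [.k, .p, .k], [.y, .z]),
  (.ofNat 16512465600, [.k, .p, .y], [.k, .p, .y]),
  (.negSucc 16512465599, [.k, .p, .y], [.k, .y, .p]),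
  (.negSucc 47736316799, [.k, .p, .y], [.k, .z]),
  (.ofNat 18772992000, [.k, .p, .y], [.p, .k, .y]),
  (.ofNat 14221123200, [.k, .p, .y], [.p, .p, .z]),
  (.negSucc 45785318399, [.k, .p, .y], [.p, .y]),
  (.ofNat 16626272400, [.k, .p, .y], [.p, .y, .k]),
  (.ofNat 2268979200, [.k, .p, .y], [.p, .z, .p]),
  (.negSucc 18772991999, [.k, .p, .y], [.y, .k, .p]),
  (.ofNat 45785318400, [.k, .p, .y], [.y, .p]),
  (.negSucc 16626272399, [.k, .p, .y], [.y, .p, .k]),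
  (.negSucc 14221123199, [.k, .p, .y], [.y, .y, .z]),
  (.negSucc 2268979199, [.k, .p, .y], [.y, .z, .y]),
  (.ofNat 46647792000, [.k, .p, .y], [.z]),
  (.negSucc 47799878399, [.k, .p, .y], [.z, .k]),
  (.ofNat 14165913600, [.k, .p, .y], [.z, .p, .p]),
  (.negSucc 14165913599, [.k, .p, .y], [.z, .y, .y]),
  (.negSucc 7313270399, [.k, .p, .y], [.z, .z, .z]),
  (.ofNat 12066872400, [.p], [.p]),
  (.ofNat 3336688800, [.p, .k, .y], [.p, .k, .y]),
  (.ofNat 7298150400, [.p, .k, .y], [.p, .p, .z]),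
  (.negSucc 11754705599, [.p, .k, .y], [.p, .y]),
  (.ofNat 3070368000, [.p, .k, .y], [.p, .z, .p]),
  (.negSucc 3336688799, [.p, .k, .y], [.y, .k, .p]),
  (.ofNat 11754705600, [.p, .k, .y], [.y, .p]),
  (.negSucc 7298150399, [.p, .k, .y], [.y, .y, .z]),
  (.ofNat 9060321600, [.p, .k, .y], [.z]),
  (.ofNat 2923156800, [.p, .k, .y], [.z, .z, .z]),
  (.negSucc 10988992799, [.p, .p, .p], [.p]),
  (.ofNat 5257558800, [.p, .p, .p], [.p, .p, .p]),
  (.ofNat 6003532800, [.p, .p, .p], [.p, .y, .y]),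
  (.negSucc 3206015999, [.p, .p, .p], [.y, .p, .y]),
  (.ofNat 9683424000, [.p, .p, .p], [.y, .z]),
  (.negSucc 3186849599, [.p, .p, .y], [.p, .p, .y]),
  (.negSucc 490521599, [.p, .p, .y], [.p, .y, .p]),
  (.ofNat 20361686400, [.p, .p, .y], [.p, .z]),
  (.negSucc 21723206399, [.p, .p, .y], [.y]),
  (.negSucc 3309335999, [.p, .p, .y], [.y, .p, .p]),
  (.negSucc 3309335999, [.p, .p, .y], [.y, .z, .z]),
  (.negSucc 20361686399, [.p, .p, .y], [.z, .p]),
  (.negSucc 490521599, [.p, .p, .y], [.z, .y, .z]),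
  (.negSucc 3186849599, [.p, .p, .y], [.z, .z, .y]),
  (.ofNat 16411284000, [.p, .y], [.p, .y]),
  (.negSucc 16411283999, [.p, .y], [.y, .p]),
  (.negSucc 36084038399, [.p, .y], [.z]),
  (.negSucc 373031999, [.p, .y, .p], [.p, .y, .p]),
  (.ofNat 1478851200, [.p, .y, .p], [.p, .z]),
  (.ofNat 1216080000, [.p, .y, .p], [.y]),
  (.negSucc 373031999, [.p, .y, .p], [.z, .y, .z])]

set_option maxRecDepth 100000 in
theorem cB5 : blkOK tensL e5 gB5 wB5 = true := by decide +kernel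

end Pool.Agent.H14Z
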