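import Pool.Agent.Lib.H14Z.E6
import Pool.Agent.Lib.H2AF.B6

/-! # Certificate B, block 6 (T2_m3, loc, size 17): the word form of the block -/

namespace Pool.Agent.H14Z

open Pool.Agent.H2AF

/-- The value of the block, one word pair per class. -/
def wB6 : E :=
 [(.negSucc 1949731199, [.k], [.p, .k, .k, .k, .p]),
  (.ofNat 3696868800, [.k], [.p, .k, .k, .p]),
  (.ofNat 5105131200, [.k], [.p, .k, .k, .y, .z]),
  (.ofNat 24255561600, [.k], [.p, .k, .p]),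
  (.negSucc 710510399, [.k], [.p, .k, .p, .p, .p]),
  (.negSucc 710510399, [.k], [.p, .k, .p, .y, .y]),
  (.ofNat 1949731200, [.k], [.p, .k, .y, .k, .z]),
  (.negSucc 1362571199, [.k], [.p, .k, .y, .p, .y]),
  (.ofNat 3742560000, [.k], [.p, .k, .y, .y, .p]),
  (.negSucc 7393737599, [.k], [.p, .k, .y, .z]),
  (.ofNat 18870048000, [.k], [.p, .p]),
  (.ofNat 905428800, [.k], [.p, .p, .p, .p]),
  (.ofNat 710510400, [.k], [.p, .p, .p, .y, .z]),
  (.ofNat 905428800, [.k], [.p, .p, .y, .y]),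
  (.negSucc 710510399, [.k], [.p, .p, .y, .z, .p]),
  (.negSucc 2073081599, [.k], [.p, .y, .k, .p, .y]),
  (.ofNat 1082318400, [.k], [.p, .y, .k, .y, .p]),
  (.ofNat 2783592000, [.k], [.p, .y, .p, .p, .z]),
  (.negSucc 905428799, [.k], [.p, .y, .p, .y]),
  (.ofNat 710510400, [.k], [.p, .y, .p, .z, .p]),
  (.negSucc 4602297599, [.k], [.p, .y, .y, .p]),
  (.negSucc 1082318399, [.k], [.p, .y, .y, .y, .z]),
  (.ofNat 1849075200, [.k], [.p, .y, .z]),
  (.ofNat 7471008000, [.k, .k], [.k, .p, .k, .p]),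
  (.ofNat 14582563200, [.k, .k], [.k, .p, .p]),
  (.negSucc 11548072799, [.k, .k], [.k, .p, .p, .k]),
  (.negSucc 404294399, [.k, .k], [.k, .p, .y, .z]),
  (.negSucc 16208330399, [.k, .k], [.p, .k, .k, .p]),
  (.negSucc 8807126399, [.k, .k], [.p, .k, .p]),
  (.ofNat 11100888000, [.k, .k], [.p, .k, .y, .z]),
  (.ofNat 28963476000, [.k, .k], [.p, .p]),
  (.ofNat 1191081600, [.k, .k], [.p, .y, .p, .y]),
  (.ofNat 10495195200, [.k, .k], [.p, .y, .y, .p]),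
  (.negSucc 264887999, [.k, .k], [.p, .y, .z]),
  (.ofNat 29500905600, [.k, .k, .k], [.k, .p, .p]),
  (.negSucc 22305830399, [.k, .k, .k], [.p, .k, .p]),
  (.negSucc 22566916799, [.k, .k, .k], [.p, .p]),
  (.negSucc 5004475199, [.k, .k, .k], [.p, .y, .z]),
  (.negSucc 28029268799, [.k, .k, .k, .k], [.p, .p]),
  (.ofNat 11530713600, [.k, .k, .k, .k, .p], [.p]),
  (.negSucc 9999374399, [.k, .k, .k, .p], [.k, .p]),
  (.ofNat 13565289600, [.k, .k, .k, .p], [.p]),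
  (.ofNat 79977600, [.k, .k, .k, .p], [.p, .k]),
  (.ofNat 3931286400, [.k, .k, .k, .p], [.y, .z]),
  (.ofNat 10615089600, [.k, .k, .k, .p, .k], [.p]),
  (.ofNat 12735028800, [.k, .k, .k, .p, .y], [.z]),
  (.negSucc 2168539199, [.k, .k, .p], [.k, .k, .p]),
  (.negSucc 4519396799, [.k, .k, .p], [.k, .p]),
  (.ofNat 11624904000, [.k, .k, .p], [.k, .p, .k]),
  (.negSucc 25595783999, [.k, .k, .p], [.k, .y, .z]),
  (.negSucc 3486801599, [.k, .k, .p], [.p]),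
  (.negSucc 6299812799, [.k, .k, .p], [.p, .k]),
  (.ofNat 2311430400, [.k, .k, .p], [.p, .p, .p]),
  (.negSucc 784094399, [.k, .k, .p], [.p, .y, .y]),
  (.ofNat 20978827200, [.k, .k, .p], [.y, .k, .z]),
  (.ofNat 3305275200, [.k, .k, .p], [.y, .p, .y]),
  (.ofNat 2649628800, [.k, .k, .p], [.y, .y, .p]),
  (.ofNat 23330131200, [.k, .k, .p], [.y, .z]),
  (.ofNat 1499961600, [.k, .k, .p], [.y, .z, .k]),
  (.ofNat 4778251200, [.k, .k, .p, .k], [.k, .p]),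
  (.ofNat 4459910400, [.k, .k, .p, .k], [.p]),
  (.negSucc 4151145599, [.k, .k, .p, .k], [.p, .k]),
  (.ofNat 56700403200, [.k, .k, .p, .k], [.y, .z]),
  (.negSucc 11530713599, [.k, .k, .p, .k, .y], [.z]),
  (.ofNat 9010454400, [.k, .k, .p, .p], [.p, .p]),
  (.negSucc 6416553599, [.k, .k, .p, .p], [.y, .y]),
  (.negSucc 3286468799, [.k, .k, .p, .p, .p], [.p]),
  (.ofNat 3982118400, [.k, .k, .p, .p, .y], [.y]),
  (.ofNat 23587214400, [.k, .k, .p, .y], [.k, .z]),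
  (.negSucc 6632755199, [.k, .k, .p, .y], [.p, .y]),
  (.ofNat 7543094400, [.k, .k, .p, .y], [.y, .p]),
  (.negSucc 5839084799, [.k, .k, .p, .y], [.z]),
  (.negSucc 8508974399, [.k, .k, .p, .y], [.z, .k]),
  (.negSucc 10615089599, [.k, .k, .p, .y, .k], [.z]),
  (.negSucc 8752910399, [.k, .k, .p, .y, .p], [.y]),
  (.negSucc 3286468799, [.k, .k, .p, .y, .y], [.p]),
  (.ofNat 14150520000, [.k, .p], [.k, .p]),
  (.negSucc 7205990399, [.k, .p], [.p]),
  (.negSucc 4858228799, [.k, .p], [.p, .k]),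
  (.negSucc 79977599, [.k, .p], [.p, .k, .y, .y]),
  (.ofNat 3696494400, [.k, .p], [.p, .p, .k, .p]),
  (.negSucc 3035851199, [.k, .p], [.p, .p, .p]),
  (.negSucc 1123487999, [.k, .p], [.p, .p, .y, .z]),
  (.negSucc 2565777599, [.k, .p], [.p, .y, .k, .y]),
  (.negSucc 287049599, [.k, .p], [.p, .y, .p, .z]),
  (.ofNat 11799590400, [.k, .p], [.p, .y, .y]),
  (.ofNat 7985088000, [.k, .p], [.p, .y, .z, .p]),
  (.ofNat 14614027200, [.k, .p], [.y, .k, .k, .z]),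
  (.negSucc 4825295999, [.k, .p], [.y, .k, .p, .y]),
  (.ofNat 2140776000, [.k, .p], [.y, .k, .y, .p]),
  (.ofNat 28433462400, [.k, .p], [.y, .k, .z]),
  (.ofNat 2163024000, [.k, .p], [.y, .p, .k, .y]),
  (.ofNat 3530030400, [.k, .p], [.y, .p, .p, .z]),
  (.ofNat 9335534400, [.k, .p], [.y, .p, .y]),
  (.ofNat 514656000, [.k, .p], [.y, .p, .z, .p]),
  (.negSucc 6705446399, [.k, .p], [.y, .y, .k, .p]),
  (.ofNat 4789526400, [.k, .p], [.y, .y, .p]),
  (.negSucc 2847988799, [.k, .p], [.y, .y, .y, .z]),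
  (.ofNat 1461398400, [.k, .p], [.y, .y, .z, .y]),
  (.ofNat 6202224000, [.k, .p], [.y, .z]),
  (.negSucc 1925193599, [.k, .p], [.y, .z, .p, .p]),
  (.ofNat 6032059200, [.k, .p], [.y, .z, .y, .y]),
  (.negSucc 551721599, [.k, .p], [.y, .z, .z, .z]),
  (.negSucc 41125809599, [.k, .p, .k], [.k, .y, .z]),
  (.negSucc 22239993599, [.k, .p, .k], [.p]),
  (.negSucc 10097567999, [.k, .p, .k], [.p, .y, .y]),
  (.ofNat 10680926400, [.k, .p, .k], [.y, .k, .z]),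
  (.ofNat 6531811200, [.k, .p, .k], [.y, .p, .y]),
  (.ofNat 22566916800, [.k, .p, .k], [.y, .z]),
  (.negSucc 3767716799, [.k, .p, .k, .k, .k, .p], []),
  (.negSucc 2907403199, [.k, .p, .k, .k, .p], []),
  (.ofNat 7452043200, [.k, .p, .k, .k, .p], [.k]),
  (.negSucc 3939076799, [.k, .p, .k, .k, .p, .k], []),
  (.negSucc 12989923199, [.k, .p, .k, .k, .y], [.z]),
  (.negSucc 496526399, [.k, .p, .k, .k, .y, .z], []),
  (.negSucc 3703291199, [.k, .p, .k, .p], []),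
  (.negSucc 457603199, [.k, .p, .k, .p], [.p, .p]),
  (.negSucc 5334710399, [.k, .p, .k, .p], [.y, .y]),
  (.negSucc 1823169599, [.k, .p, .k, .p, .p], [.p]),
  (.ofNat 757065600, [.k, .p, .k, .p, .p, .p], []),
  (.negSucc 1127519999, [.k, .p, .k, .p, .y], [.y]),
  (.ofNat 757065600, [.k, .p, .k, .p, .y, .y], []),
  (.ofNat 6679512000, [.k, .p, .k, .y], [.k, .z]),
  (.ofNat 237672000, [.k, .p, .k, .y], [.p, .y]),
  (.ofNat 2216923200, [.k, .p, .k, .y], [.y, .p]),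
  (.negSucc 18025199999, [.k, .p, .k, .y], [.z]),
  (.negSucc 12329236799, [.k, .p, .k, .y], [.z, .k]),
  (.negSucc 10615089599, [.k, .p, .k, .y, .k], [.z]),
  (.ofNat 3767716800, [.k, .p, .k, .y, .k, .z], []),
  (.negSucc 10059710399, [.k, .p, .k, .y, .p], [.y]),
  (.ofNat 893880000, [.k, .p, .k, .y, .p, .y], []),
  (.ofNat 520459200, [.k, .p, .k, .y, .y], [.p]),
  (.ofNat 397353600, [.k, .p, .k, .y, .y, .p], []),
  (.ofNat 2907403200, [.k, .p, .k, .y, .z], []),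
  (.negSucc 7452043199, [.k, .p, .k, .y, .z], [.k]),
  (.ofNat 7878153600, [.k, .p, .k, .y, .z, .k], []),
  (.negSucc 11675159999, [.k, .p, .p], []),
  (.negSucc 36952948799, [.k, .p, .p], [.k]),
  (.negSucc 29500905599, [.k, .p, .p], [.k, .y, .y]),
  (.ofNat 5710435200, [.k, .p, .p], [.p, .k, .p]),
  (.ofNat 109368000, [.k, .p, .p], [.p, .p]),
  (.negSucc 5041036799, [.k, .p, .p], [.p, .p, .k]),
  (.negSucc 3389774399, [.k, .p, .p], [.p, .y, .z]),
  (.ofNat 16243934400, [.k, .p, .p], [.y, .k, .y]),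
  (.ofNat 12479529600, [.k, .p, .p], [.y, .p, .z]),
  (.ofNat 5925297600, [.k, .p, .p], [.y, .y]),
  (.ofNat 6491088000, [.k, .p, .p], [.y, .y, .k]),
  (.ofNat 42724800, [.k, .p, .p], [.y, .z, .p]),
  (.ofNat 15487149600, [.k, .p, .p, .k], []),
  (.ofNat 39577341600, [.k, .p, .p, .k], [.y, .y]),
  (.negSucc 11530713599, [.k, .p, .p, .k, .y], [.y]),
  (.negSucc 1925193599, [.k, .p, .p, .p], [.k, .p]),
  (.ofNat 4702190400, [.k, .p, .p, .p], [.p]),
  (.ofNat 279604800, [.k, .p, .p, .p], [.p, .k]),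
  (.ofNat 612619200, [.k, .p, .p, .p], [.y, .z]),
  (.negSucc 757065599, [.k, .p, .p, .p, .p], []),
  (.ofNat 695649600, [.k, .p, .p, .p, .y], [.z]),
  (.ofNat 15800284800, [.k, .p, .p, .y], [.k, .y]),
  (.ofNat 3010089600, [.k, .p, .p, .y], [.p, .z]),
  (.negSucc 11780769599, [.k, .p, .p, .y], [.y]),
  (.negSucc 7815887999, [.k, .p, .p, .y], [.y, .k]),
  (.negSucc 434102399, [.k, .p, .p, .y], [.z, .p]),
  (.negSucc 10615089599, [.k, .p, .p, .y, .k], [.y]),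
  (.negSucc 12039379199, [.k, .p, .p, .y, .p], [.z]),
  (.negSucc 757065599, [.k, .p, .p, .y, .y], []),
  (.ofNat 2531476800, [.k, .p, .y], [.k, .p, .y]),
  (.ofNat 4268059200, [.k, .p, .y], [.k, .y, .p]),
  (.negSucc 10063166399, [.k, .p, .y], [.k, .z]),
  (.negSucc 2856095999, [.k, .p, .y], [.p, .k, .y]),
  (.ofNat 2505816000, [.k, .p, .y], [.p, .p, .z]),
  (.negSucc 1805673599, [.k, .p, .y], [.p, .y]),
  (.ofNat 4991126400, [.k, .p, .y], [.p, .y, .k]),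
  (.negSucc 1273723199, [.k, .p, .y], [.p, .z, .p]),
  (.ofNat 8657236800, [.k, .p, .y], [.y, .k, .p]),
  (.ofNat 1125964800, [.k, .p, .y], [.y, .p]),
  (.negSucc 5041036799, [.k, .p, .y], [.y, .p, .k]),
  (.negSucc 7209734399, [.k, .p, .y], [.y, .y, .z]),
  (.negSucc 3968683199, [.k, .p, .y], [.y, .z, .y]),
  (.negSucc 20387735999, [.k, .p, .y], [.z]),
  (.negSucc 8282750399, [.k, .p, .y], [.z, .k]),
  (.negSucc 2361340799, [.k, .p, .y], [.z, .y, .y]),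
  (.ofNat 3761481600, [.k, .p, .y], [.z, .z, .z]),
  (.ofNat 22469040000, [.k, .p, .y, .k], [.k, .z]),
  (.negSucc 1197820799, [.k, .p, .y, .k], [.p, .y]),
  (.negSucc 555955199, [.k, .p, .y, .k], [.y, .p]),
  (.negSucc 4459910399, [.k, .p, .y, .k], [.z]),
  (.ofNat 3767716800, [.k, .p, .y, .k, .k, .z], []),
  (.ofNat 156499200, [.k, .p, .y, .k, .p], [.y]),
  (.ofNat 1650945600, [.k, .p, .y, .k, .p, .y], []),
  (.negSucc 1302710399, [.k, .p, .y, .k, .y], [.p]),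
  (.ofNat 1154419200, [.k, .p, .y, .k, .y, .p], []),
  (.ofNat 2907403200, [.k, .p, .y, .k, .z], []),
  (.negSucc 7452043199, [.k, .p, .y, .k, .z], [.k]),
  (.negSucc 7382635199, [.k, .p, .y, .p], [.k, .y]),
  (.ofNat 542145600, [.k, .p, .y, .p], [.p, .z]),
  (.negSucc 9588023999, [.k, .p, .y, .p], [.y]),
  (.ofNat 1097380800, [.k, .p, .y, .p], [.y, .k]),
  (.ofNat 943012800, [.k, .p, .y, .p], [.z, .p]),
  (.ofNat 1823169600, [.k, .p, .y, .p, .p], [.z]),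
  (.negSucc 757065599, [.k, .p, .y, .p, .p, .z], []),
  (.ofNat 757065600, [.k, .p, .y, .p, .y], []),
  (.ofNat 1823169600, [.k, .p, .y, .p, .z], [.p]),
  (.negSucc 757065599, [.k, .p, .y, .p, .z, .p], []),
  (.ofNat 2225952000, [.k, .p, .y, .y], [.k, .p]),
  (.negSucc 3404059199, [.k, .p, .y, .y], [.p]),
  (.negSucc 4498646399, [.k, .p, .y, .y], [.p, .k]),
  (.ofNat 8016868800, [.k, .p, .y, .y], [.y, .z]),
  (.negSucc 7380892799, [.k, .p, .y, .y], [.z, .y]),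
  (.ofNat 3767716800, [.k, .p, .y, .y, .k, .p], []),
  (.ofNat 3664468800, [.k, .p, .y, .y, .p], []),
  (.negSucc 7452043199, [.k, .p, .y, .y, .p], [.k]),
  (.ofNat 3939076800, [.k, .p, .y, .y, .p, .k], []),
  (.negSucc 1983758399, [.k, .p, .y, .y, .y], [.z]),
  (.negSucc 1154419199, [.k, .p, .y, .y, .y, .z], []),
  (.ofNat 3129969600, [.k, .p, .y, .y, .z], [.y]),
  (.negSucc 1650945599, [.k, .p, .y, .y, .z, .y], []),
  (.ofNat 900820800, [.k, .p, .y, .z], []),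
  (.negSucc 457603199, [.k, .p, .y, .z], [.p, .p]),
  (.negSucc 13665527999, [.k, .p, .y, .z], [.y, .y]),
  (.ofNat 4408689600, [.k, .p, .y, .z], [.z, .z]),
  (.negSucc 1823169599, [.k, .p, .y, .z, .p], [.p]),
  (.ofNat 757065600, [.k, .p, .y, .z, .p, .p], []),
  (.ofNat 3286468800, [.k, .p, .y, .z, .y], [.y]),
  (.negSucc 1463299199, [.k, .p, .y, .z, .z], [.z]),
  (.negSucc 757065599, [.k, .p, .y, .z, .z, .z], []),
  (.negSucc 5875372799, [.p], [.p]),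
  (.negSucc 6226343999, [.p, .k, .k, .k, .k, .p], []),
  (.negSucc 2997863999, [.p, .k, .k, .k, .p], []),
  (.negSucc 5810011199, [.p, .k, .k, .k, .y], [.z]),
  (.ofNat 4691836800, [.p, .k, .k, .k, .y, .z], []),
  (.ofNat 13160520000, [.p, .k, .k, .p], []),
  (.negSucc 493127999, [.p, .k, .k, .p], [.p, .p]),
  (.ofNat 13702932000, [.p, .k, .k, .p], [.y, .y]),
  (.negSucc 52977599, [.p, .k, .k, .p, .p], [.p]),
  (.ofNat 251265600, [.p, .k, .k, .p, .p, .p], []),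
  (.negSucc 9562550399, [.p, .k, .k, .p, .y], [.y]),
  (.ofNat 251265600, [.p, .k, .k, .p, .y, .y], []),
  (.ofNat 1190880000, [.p, .k, .k, .y], [.p, .y]),
  (.ofNat 2808403200, [.p, .k, .k, .y], [.y, .p]),
  (.negSucc 1080158399, [.p, .k, .k, .y], [.z]),
  (.ofNat 12452688000, [.p, .k, .k, .y, .k, .z], []),
  (.negSucc 3906316799, [.p, .k, .k, .y, .p], [.y]),
  (.ofNat 2181427200, [.p, .k, .k, .y, .p, .y], []),
  (.negSucc 7272691199, [.p, .k, .k, .y, .y], [.p]),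
  (.ofNat 6873264000, [.p, .k, .k, .y, .y, .p], []),
  (.ofNat 270964800, [.p, .k, .k, .y, .z], []),
  (.ofNat 11804990400, [.p, .k, .p], []),
  (.negSucc 2962295999, [.p, .k, .p], [.p, .p]),
  (.ofNat 3627316800, [.p, .k, .p], [.p, .y, .z]),
  (.negSucc 3122769599, [.p, .k, .p], [.y, .k, .y]),
  (.negSucc 4163155199, [.p, .k, .p], [.y, .p, .z]),
  (.ofNat 10646467200, [.p, .k, .p], [.y, .y]),
  (.negSucc 7325668799, [.p, .k, .p, .k, .y], [.y]),
  (.negSucc 5090111999, [.p, .k, .p, .p], [.p]),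
  (.ofNat 8630366400, [.p, .k, .p, .p], [.y, .z]),
  (.ofNat 1141228800, [.p, .k, .p, .p, .p], []),
  (.negSucc 8068809599, [.p, .k, .p, .p, .y], [.z]),
  (.ofNat 182505600, [.p, .k, .p, .y], [.p, .z]),
  (.ofNat 792072000, [.p, .k, .p, .y], [.y]),
  (.negSucc 638783999, [.p, .k, .p, .y], [.z, .p]),
  (.negSucc 2367201599, [.p, .k, .p, .y, .p], [.z]),
  (.ofNat 1141228800, [.p, .k, .p, .y, .y], []),
  (.ofNat 372772800, [.p, .k, .y], [.p, .k, .y]),
  (.negSucc 5609203199, [.p, .k, .y], [.p, .p, .z]),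
  (.ofNat 1265990400, [.p, .k, .y], [.p, .y]),
  (.negSucc 1388491199, [.p, .k, .y], [.p, .z, .p]),
  (.negSucc 2772431999, [.p, .k, .y], [.y, .p]),
  (.ofNat 5078995200, [.p, .k, .y], [.y, .y, .z]),
  (.ofNat 3430180800, [.p, .k, .y], [.z]),
  (.negSucc 2901542399, [.p, .k, .y], [.z, .z, .z]),
  (.negSucc 1515657599, [.p, .k, .y, .k, .p], [.y]),
  (.ofNat 2432692800, [.p, .k, .y, .k, .p, .y], []),
  (.ofNat 7124529600, [.p, .k, .y, .k, .y, .p], []),
  (.ofNat 2997864000, [.p, .k, .y, .k, .z], []),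
  (.negSucc 2303553599, [.p, .k, .y, .p], [.p, .z]),
  (.negSucc 2556259199, [.p, .k, .y, .p], [.y]),
  (.ofNat 1317124800, [.p, .k, .y, .p], [.z, .p]),
  (.ofNat 978609600, [.p, .k, .y, .p, .p], [.z]),
  (.negSucc 251265599, [.p, .k, .y, .p, .p, .z], []),
  (.ofNat 2478513600, [.p, .k, .y, .p, .y], []),
  (.ofNat 52977600, [.p, .k, .y, .p, .z], [.p]),
  (.negSucc 251265599, [.p, .k, .y, .p, .z, .p], []),
  (.negSucc 2872555199, [.p, .k, .y, .y], [.p]),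
  (.negSucc 2881915199, [.p, .k, .y, .y], [.y, .z]),
  (.ofNat 230371200, [.p, .k, .y, .y], [.z, .y]),
  (.ofNat 6226344000, [.p, .k, .y, .y, .k, .p], []),
  (.ofNat 2749478400, [.p, .k, .y, .y, .p], []),
  (.ofNat 8172547200, [.p, .k, .y, .y, .y], [.z]),
  (.negSucc 7124529599, [.p, .k, .y, .y, .y, .z], []),
  (.ofNat 2596478400, [.p, .k, .y, .y, .z], [.y]),
  (.negSucc 2432692799, [.p, .k, .y, .y, .z, .y], []),
  (.ofNat 2755584000, [.p, .k, .y, .z], []),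
  (.negSucc 1036396799, [.p, .k, .y, .z], [.p, .p]),
  (.negSucc 1578153599, [.p, .k, .y, .z], [.y, .y]),
  (.negSucc 2713492799, [.p, .k, .y, .z], [.z, .z]),
  (.negSucc 52977599, [.p, .k, .y, .z, .p], [.p]),
  (.ofNat 251265600, [.p, .k, .y, .z, .p, .p], []),
  (.ofNat 2445148800, [.p, .k, .y, .z, .y], [.y]),
  (.negSucc 25775999, [.p, .k, .y, .z, .z], [.z]),
  (.negSucc 251265599, [.p, .k, .y, .z, .z, .z], []),
  (.ofNat 8339947200, [.p, .p], []),
  (.negSucc 2121854399, [.p, .p], [.p, .p]),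
  (.negSucc 206683199, [.p, .p], [.p, .y, .p, .y]),
  (.ofNat 3526063200, [.p, .p], [.p, .y, .y, .p]),
  (.ofNat 11216304000, [.p, .p], [.p, .y, .z]),
  (.ofNat 3778120800, [.p, .p], [.y, .p, .p, .y]),
  (.negSucc 2531649599, [.p, .p], [.y, .p, .z]),
  (.ofNat 3765492000, [.p, .p], [.y, .y]),
  (.negSucc 636422399, [.p, .p], [.y, .z, .y, .z]),
  (.negSucc 93153599, [.p, .p], [.y, .z, .z, .y]),
  (.ofNat 833256000, [.p, .p, .k, .p, .p], []),
  (.negSucc 9459115199, [.p, .p, .k, .p, .y], [.z]),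
  (.ofNat 323640000, [.p, .p, .k, .y, .p], [.z]),
  (.ofNat 833256000, [.p, .p, .k, .y, .y], []),
  (.negSucc 4081147199, [.p, .p, .k, .y, .z], [.p]),
  (.ofNat 1843387200, [.p, .p, .p], [.p]),
  (.negSucc 380390399, [.p, .p, .p], [.p, .p, .p]),
  (.negSucc 1074974399, [.p, .p, .p], [.p, .y, .y]),
  (.ofNat 694612800, [.p, .p, .p], [.y, .p, .y]),
  (.ofNat 1008244800, [.p, .p, .p], [.y, .z]),
  (.ofNat 1766376000, [.p, .p, .p, .k, .y, .z], []),
  (.negSucc 364319999, [.p, .p, .p, .p], []),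
  (.negSucc 1036043999, [.p, .p, .p, .p], [.p, .p]),
  (.ofNat 5083898400, [.p, .p, .p, .p], [.y, .y]),
  (.ofNat 975556800, [.p, .p, .p, .p, .p], [.p]),
  (.negSucc 416627999, [.p, .p, .p, .p, .p, .p], []),
  (.negSucc 7143177599, [.p, .p, .p, .p, .y], [.y]),
  (.negSucc 833255999, [.p, .p, .p, .p, .y, .y], []),
  (.ofNat 3294403200, [.p, .p, .p, .y], [.p, .y]),
  (.negSucc 2739499199, [.p, .p, .p, .y], [.y, .p]),
  (.ofNat 6464203200, [.p, .p, .p, .y], [.z]),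
  (.negSucc 2467051199, [.p, .p, .p, .y, .p], [.y]),
  (.negSucc 613396799, [.p, .p, .p, .y, .p, .y], []),
  (.ofNat 78753600, [.p, .p, .p, .y, .y], [.p]),
  (.ofNat 1152979200, [.p, .p, .p, .y, .y, .p], []),
  (.negSucc 3158870399, [.p, .p, .p, .y, .z], []),
  (.negSucc 215812799, [.p, .p, .y], [.p, .p, .y]),
  (.negSucc 2037599999, [.p, .p, .y], [.p, .y, .p]),
  (.ofNat 3830068800, [.p, .p, .y], [.p, .z]),
  (.ofNat 5464540800, [.p, .p, .y], [.y]),
  (.negSucc 212068799, [.p, .p, .y], [.y, .p, .p]),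
  (.negSucc 433295999, [.p, .p, .y], [.y, .z, .z]),
  (.negSucc 6114830399, [.p, .p, .y], [.z, .p]),
  (.negSucc 1025812799, [.p, .p, .y], [.z, .y, .z]),
  (.ofNat 221227200, [.p, .p, .y], [.z, .z, .y]),
  (.ofNat 1446652800, [.p, .p, .y, .k, .p, .z], []),
  (.negSucc 319723199, [.p, .p, .y, .k, .z, .p], []),
  (.negSucc 3889022399, [.p, .p, .y, .p], [.p, .y]),
  (.ofNat 2607782400, [.p, .p, .y, .p], [.y, .p]),
  (.negSucc 9047894399, [.p, .p, .y, .p], [.z]),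
  (.ofNat 975556800, [.p, .p, .y, .p, .p], [.y]),
  (.negSucc 833255999, [.p, .p, .y, .p, .p, .y], []),
  (.ofNat 2315937600, [.p, .p, .y, .p, .y], [.p]),
  (.negSucc 833255999, [.p, .p, .y, .p, .y, .p], []),
  (.ofNat 219859200, [.p, .p, .y, .p, .z], []),
  (.negSucc 364319999, [.p, .p, .y, .y], []),
  (.ofNat 2962310400, [.p, .p, .y, .y], [.p, .p]),
  (.ofNat 928123200, [.p, .p, .y, .y], [.z, .z]),
  (.negSucc 3716323199, [.p, .p, .y, .y, .p], [.p]),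
  (.ofNat 416628000, [.p, .p, .y, .y, .p, .p], []),
  (.negSucc 1686455999, [.p, .p, .y, .y, .z], [.z]),
  (.ofNat 2699913600, [.p, .p, .y, .z], [.p]),
  (.ofNat 352728000, [.p, .p, .y, .z], [.y, .z]),
  (.negSucc 577108799, [.p, .p, .y, .z], [.z, .y]),
  (.ofNat 3378729600, [.p, .p, .y, .z, .p], []),
  (.ofNat 1469059200, [.p, .p, .y, .z, .y], [.z]),
  (.ofNat 1446652800, [.p, .p, .y, .z, .y, .z], []),
  (.negSucc 78753599, [.p, .p, .y, .z, .z], [.y]),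
  (.negSucc 319723199, [.p, .p, .y, .z, .z, .y], []),
  (.ofNat 24292800, [.p, .y], [.p, .y]),
  (.negSucc 1220068799, [.p, .y], [.y, .p]),
  (.negSucc 7409260799, [.p, .y], [.z]),
  (.ofNat 115920000, [.p, .y, .k, .k, .p, .y], []),
  (.ofNat 6460768800, [.p, .y, .k, .k, .y, .p], []),
  (.ofNat 203803200, [.p, .y, .k, .p, .p, .z], []),
  (.ofNat 2786486400, [.p, .y, .k, .p, .y], []),
  (.negSucc 1714751999, [.p, .y, .k, .p, .z], [.p]),
  (.negSucc 4151447999, [.p, .y, .k, .p, .z, .p], []),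
  (.ofNat 59587200, [.p, .y, .k, .y, .p], []),
  (.negSucc 9897019199, [.p, .y, .k, .y, .y, .z], []),
  (.ofNat 3318004800, [.p, .y, .k, .y, .z], [.y]),
  (.negSucc 1562572799, [.p, .y, .k, .y, .z, .y], []),
  (.ofNat 1765209600, [.p, .y, .k, .z, .p], [.p]),
  (.negSucc 380390399, [.p, .y, .p], [.p, .y, .p]),
  (.negSucc 4312972799, [.p, .y, .p], [.p, .z]),
  (.ofNat 1515355200, [.p, .y, .p], [.y]),
  (.ofNat 949176000, [.p, .y, .p, .p, .p, .y], []),
  (.negSucc 2366395199, [.p, .y, .p, .p, .y], [.p]),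
  (.ofNat 2652213600, [.p, .y, .p, .p, .y, .p], []),
  (.negSucc 3885307199, [.p, .y, .p, .p, .z], []),
  (.negSucc 942681599, [.p, .y, .p, .y], []),
  (.ofNat 975556800, [.p, .y, .p, .y, .p], [.p]),
  (.negSucc 2315937599, [.p, .y, .p, .y, .z], [.z]),
  (.ofNat 5754355200, [.p, .y, .p, .z], [.p]),
  (.ofNat 1068163200, [.p, .y, .p, .z], [.y, .z]),
  (.ofNat 429062400, [.p, .y, .p, .z], [.z, .y]),
  (.negSucc 1712217599, [.p, .y, .p, .z, .p], []),
  (.ofNat 3241569600, [.p, .y, .p, .z, .y], [.z]),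
  (.negSucc 1446652799, [.p, .y, .p, .z, .y, .z], []),
  (.negSucc 1126929599, [.p, .y, .p, .z, .z, .y], []),
  (.negSucc 7317489599, [.p, .y, .y, .p], []),
  (.ofNat 1765209600, [.p, .y, .y, .p, .z], [.z]),
  (.ofNat 1977624000, [.p, .y, .y, .y, .p], [.y]),
  (.negSucc 4641811199, [.p, .y, .y, .y, .y, .p], []),
  (.ofNat 553809600, [.p, .y, .y, .y, .z], []),
  (.ofNat 524894400, [.p, .y, .y, .z], [.p, .z]),
  (.ofNat 591552000, [.p, .y, .y, .z], [.y]),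
  (.negSucc 257860799, [.p, .y, .y, .z], [.z, .p]),
  (.negSucc 839577599, [.p, .y, .y, .z, .p], [.z]),
  (.ofNat 319723200, [.p, .y, .y, .z, .z, .p], []),
  (.ofNat 2991787200, [.p, .y, .z], []),
  (.negSucc 1188662399, [.p, .y, .z], [.p, .z, .y]),
  (.ofNat 592516800, [.p, .y, .z], [.y, .z, .p]),
  (.ofNat 212068800, [.p, .y, .z], [.z, .y, .p]),
  (.negSucc 6403161599, [.p, .y, .z, .p], [.p]),
  (.negSucc 733391999, [.p, .y, .z, .p], [.z, .y])]

set_option maxRecDepth 100000 in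
theorem cB6 : blkOK locL e6 gB6 wB6 = true := by decide +kernel

end Pool.Agent.H14Z
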