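import Pool.Agent.Lib.H14Z.E7
import Pool.Agent.Lib.H2AF.B7

/-! # Certificate B, block 7 (T2_m1, loc, size 37): the word form of the block -/

namespace Pool.Agent.H14Z

open Pool.Agent.H2AF

/-- The value of the block, one word pair per class. -/
def wB7 : E :=
 [(.ofNat 105067501344, [], []),
  (.ofNat 85906131552, [.k], []),
  (.negSucc 91038411199, [.k], [.k]),
  (.negSucc 65294366399, [.k], [.p, .k, .k, .k, .p]),
  (.negSucc 24727355999, [.k], [.p, .k, .k, .p]),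
  (.negSucc 20768817599, [.k], [.p, .k, .k, .y, .z]),
  (.ofNat 20519236800, [.k], [.p, .k, .p]),
  (.negSucc 128802038399, [.k], [.p, .k, .p, .p, .p]),
  (.ofNat 10120420800, [.k], [.p, .k, .p, .y, .y]),
  (.ofNat 9846547200, [.k], [.p, .k, .y, .k, .z]),
  (.ofNat 10061668800, [.k], [.p, .k, .y, .p, .y]),
  (.ofNat 13071398400, [.k], [.p, .k, .y, .y, .p]),
  (.ofNat 10293926400, [.k], [.p, .k, .y, .z]),
  (.ofNat 18118395648, [.k], [.p, .p]),
  (.negSucc 63185284799, [.k], [.p, .p, .k, .p, .p]),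
  (.ofNat 9241416000, [.k], [.p, .p, .k, .y, .y]),
  (.negSucc 43074453599, [.k], [.p, .p, .p, .p]),
  (.negSucc 16835255999, [.k], [.p, .p, .p, .y, .z]),
  (.negSucc 4592663999, [.k], [.p, .p, .y, .p, .z]),
  (.ofNat 25756718400, [.k], [.p, .p, .y, .y]),
  (.negSucc 3737059199, [.k], [.p, .p, .y, .z, .p]),
  (.ofNat 4845081600, [.k], [.p, .y, .k, .p, .y]),
  (.negSucc 4845081599, [.k], [.p, .y, .k, .y, .p]),
  (.negSucc 6469603199, [.k], [.p, .y, .p, .p, .z]),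
  (.ofNat 8083296000, [.k], [.p, .y, .p, .y]),
  (.negSucc 4166870399, [.k], [.p, .y, .p, .z, .p]),
  (.ofNat 3641414400, [.k], [.p, .y, .y, .p]),
  (.ofNat 10636473600, [.k], [.p, .y, .y, .y, .z]),
  (.negSucc 7311887999, [.k], [.p, .y, .z]),
  (.negSucc 73224917279, [.k, .k], []),
  (.ofNat 3982102848, [.k, .k], [.k]),
  (.ofNat 232040904336, [.k, .k], [.k, .k]),
  (.negSucc 111789539999, [.k, .k], [.k, .p, .k, .p]),
  (.negSucc 18705326399, [.k, .k], [.k, .p, .p]),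
  (.negSucc 273975425999, [.k, .k], [.k, .p, .p, .k]),
  (.ofNat 6238166400, [.k, .k], [.k, .p, .y, .z]),
  (.negSucc 64227632399, [.k, .k], [.p, .k, .k, .p]),
  (.ofNat 50676616800, [.k, .k], [.p, .k, .p]),
  (.negSucc 20097460799, [.k, .k], [.p, .k, .y, .z]),
  (.ofNat 258585029136, [.k, .k], [.p, .p]),
  (.negSucc 112904013599, [.k, .k], [.p, .p, .p, .p]),
  (.ofNat 70690176000, [.k, .k], [.p, .p, .y, .y]),
  (.negSucc 66960331199, [.k, .k], [.p, .y, .p, .y]),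
  (.ofNat 18674553600, [.k, .k], [.p, .y, .y, .p]),
  (.ofNat 97439184000, [.k, .k], [.p, .y, .z]),
  (.negSucc 75990916799, [.k, .k, .k], []),
  (.negSucc 176499262399, [.k, .k, .k], [.k]),
  (.ofNat 619668000, [.k, .k, .k], [.k, .k]),
  (.ofNat 136139113600, [.k, .k, .k], [.k, .k, .k]),
  (.ofNat 306046247200, [.k, .k, .k], [.k, .p, .p]),
  (.ofNat 72704750400, [.k, .k, .k], [.p, .k, .p]),
  (.ofNat 92604312000, [.k, .k, .k], [.p, .p]),
  (.ofNat 27048657600, [.k, .k, .k], [.p, .y, .z]),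
  (.ofNat 60312286800, [.k, .k, .k, .k], []),
  (.ofNat 12391027200, [.k, .k, .k, .k], [.k]),
  (.negSucc 262229313599, [.k, .k, .k, .k], [.k, .k]),
  (.negSucc 113734785599, [.k, .k, .k, .k], [.p, .p]),
  (.negSucc 26908012799, [.k, .k, .k, .k, .k], []),
  (.ofNat 131398560000, [.k, .k, .k, .k, .k], [.k]),
  (.negSucc 61966461599, [.k, .k, .k, .k, .k, .k], []),
  (.ofNat 38563336800, [.k, .k, .k, .k, .p], [.p]),
  (.negSucc 25130015999, [.k, .k, .k, .k, .p, .p], []),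
  (.ofNat 94934836800, [.k, .k, .k, .p], [.k, .p]),
  (.negSucc 9810287999, [.k, .k, .k, .p], [.p]),
  (.negSucc 5588193599, [.k, .k, .k, .p], [.p, .k]),
  (.negSucc 85181399999, [.k, .k, .k, .p], [.y, .z]),
  (.negSucc 114631581599, [.k, .k, .k, .p, .k], [.p]),
  (.negSucc 6261062399, [.k, .k, .k, .p, .k, .p], []),
  (.negSucc 13512830399, [.k, .k, .k, .p, .p], []),
  (.ofNat 6815145600, [.k, .k, .k, .p, .p], [.k]),
  (.negSucc 119559801599, [.k, .k, .k, .p, .p, .k], []),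
  (.ofNat 25750483200, [.k, .k, .k, .p, .y], [.z]),
  (.negSucc 6668351999, [.k, .k, .k, .p, .y, .z], []),
  (.negSucc 43829121599, [.k, .k, .p], [.k, .k, .p]),
  (.negSucc 169271323199, [.k, .k, .p], [.k, .p]),
  (.negSucc 18025120799, [.k, .k, .p], [.k, .p, .k]),
  (.ofNat 16567560000, [.k, .k, .p], [.k, .y, .z]),
  (.ofNat 91420797600, [.k, .k, .p], [.p]),
  (.negSucc 26269559999, [.k, .k, .p], [.p, .k]),
  (.negSucc 30278527199, [.k, .k, .p], [.p, .k, .k]),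
  (.negSucc 81633412799, [.k, .k, .p], [.p, .p, .p]),
  (.negSucc 100699502399, [.k, .k, .p], [.p, .y, .y]),
  (.ofNat 58748472000, [.k, .k, .p], [.y, .k, .z]),
  (.ofNat 30976344000, [.k, .k, .p], [.y, .p, .y]),
  (.negSucc 12301055999, [.k, .k, .p], [.y, .y, .p]),
  (.ofNat 33757747200, [.k, .k, .p], [.y, .z]),
  (.ofNat 177336158400, [.k, .k, .p], [.y, .z, .k]),
  (.ofNat 21968460000, [.k, .k, .p, .k], [.k, .p]),
  (.negSucc 53477783999, [.k, .k, .p, .k], [.p]),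
  (.negSucc 856569599, [.k, .k, .p, .k], [.p, .k]),
  (.negSucc 120713327999, [.k, .k, .p, .k], [.y, .z]),
  (.negSucc 50828464799, [.k, .k, .p, .k, .k], [.p]),
  (.negSucc 160891199, [.k, .k, .p, .k, .k, .p], []),
  (.negSucc 5499575999, [.k, .k, .p, .k, .p], []),
  (.ofNat 22028407200, [.k, .k, .p, .k, .p], [.k]),
  (.negSucc 91673884799, [.k, .k, .p, .k, .p, .k], []),
  (.negSucc 12609820799, [.k, .k, .p, .k, .y], [.z]),
  (.ofNat 744854400, [.k, .k, .p, .k, .y, .z], []),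
  (.negSucc 24120323999, [.k, .k, .p, .p], []),
  (.negSucc 91760133599, [.k, .k, .p, .p], [.k]),
  (.negSucc 152883050399, [.k, .k, .p, .p], [.k, .k]),
  (.ofNat 21001939200, [.k, .k, .p, .p], [.p, .p]),
  (.ofNat 23579251200, [.k, .k, .p, .p], [.y, .y]),
  (.negSucc 24740575199, [.k, .k, .p, .p, .k], []),
  (.ofNat 273870374400, [.k, .k, .p, .p, .k], [.k]),
  (.negSucc 61966461599, [.k, .k, .p, .p, .k, .k], []),
  (.ofNat 11085566400, [.k, .k, .p, .p, .p], [.p]),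
  (.negSucc 11344895999, [.k, .k, .p, .p, .p, .p], []),
  (.ofNat 1597492800, [.k, .k, .p, .p, .y], [.y]),
  (.ofNat 13785120000, [.k, .k, .p, .p, .y, .y], []),
  (.negSucc 350265599, [.k, .k, .p, .y], [.k, .z]),
  (.negSucc 12361780799, [.k, .k, .p, .y], [.p, .y]),
  (.negSucc 40255977599, [.k, .k, .p, .y], [.y, .p]),
  (.negSucc 81666359999, [.k, .k, .p, .y], [.z]),
  (.negSucc 174963902399, [.k, .k, .p, .y], [.z, .k]),
  (.negSucc 12375489599, [.k, .k, .p, .y, .k], [.z]),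
  (.negSucc 6100171199, [.k, .k, .p, .y, .k, .z], []),
  (.ofNat 22553654400, [.k, .k, .p, .y, .p], [.y]),
  (.negSucc 5879491199, [.k, .k, .p, .y, .p, .y], []),
  (.ofNat 13368441600, [.k, .k, .p, .y, .y], [.p]),
  (.ofNat 1533715200, [.k, .k, .p, .y, .y, .p], []),
  (.negSucc 2345558399, [.k, .k, .p, .y, .z], []),
  (.ofNat 27371433600, [.k, .k, .p, .y, .z], [.k]),
  (.negSucc 27885916799, [.k, .k, .p, .y, .z, .k], []),
  (.negSucc 91298498399, [.k, .p], [.k, .p]),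
  (.negSucc 2668967999, [.k, .p], [.p]),
  (.negSucc 194752641599, [.k, .p], [.p, .k]),
  (.ofNat 822916800, [.k, .p], [.p, .k, .p, .p]),
  (.ofNat 48668155200, [.k, .p], [.p, .k, .y, .y]),
  (.ofNat 43538320800, [.k, .p], [.p, .p, .k, .p]),
  (.negSucc 60623503199, [.k, .p], [.p, .p, .p]),
  (.negSucc 1759766399, [.k, .p], [.p, .p, .y, .z]),
  (.negSucc 10714579199, [.k, .p], [.p, .y, .k, .y]),
  (.negSucc 11658355199, [.k, .p], [.p, .y, .p, .z]),
  (.negSucc 34560129599, [.k, .p], [.p, .y, .y]),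
  (.negSucc 23965372799, [.k, .p], [.p, .y, .z, .p]),
  (.negSucc 16782998399, [.k, .p], [.y, .k, .k, .z]),
  (.ofNat 17672443200, [.k, .p], [.y, .k, .p, .y]),
  (.negSucc 31560134399, [.k, .p], [.y, .k, .y, .p]),
  (.negSucc 60947553599, [.k, .p], [.y, .k, .z]),
  (.negSucc 28074095999, [.k, .p], [.y, .p, .k, .y]),
  (.negSucc 1287259199, [.k, .p], [.y, .p, .p, .z]),
  (.negSucc 17676878399, [.k, .p], [.y, .p, .y]),
  (.ofNat 18214761600, [.k, .p], [.y, .p, .z, .p]),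
  (.negSucc 46956859199, [.k, .p], [.y, .y, .k, .p]),
  (.ofNat 11515075200, [.k, .p], [.y, .y, .p]),
  (.ofNat 6971227200, [.k, .p], [.y, .y, .y, .z]),
  (.ofNat 12479673600, [.k, .p], [.y, .y, .z, .y]),
  (.ofNat 39066103296, [.k, .p], [.y, .z]),
  (.ofNat 12520872000, [.k, .p], [.y, .z, .p, .p]),
  (.ofNat 19528898400, [.k, .p], [.y, .z, .y, .y]),
  (.negSucc 35735925599, [.k, .p], [.y, .z, .z, .z]),
  (.ofNat 150013843200, [.k, .p, .k], [.k, .p]),
  (.ofNat 73905069600, [.k, .p, .k], [.k, .p, .k]),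
  (.negSucc 60592262399, [.k, .p, .k], [.k, .y, .z]),
  (.ofNat 44854783200, [.k, .p, .k], [.p]),
  (.negSucc 21667384799, [.k, .p, .k], [.p, .p, .p]),
  (.negSucc 2433326399, [.k, .p, .k], [.p, .y, .y]),
  (.negSucc 48534263999, [.k, .p, .k], [.y, .k, .z]),
  (.negSucc 205027199, [.k, .p, .k], [.y, .p, .y]),
  (.ofNat 144400550400, [.k, .p, .k], [.y, .z]),
  (.ofNat 9735429600, [.k, .p, .k, .k, .k, .p], []),
  (.negSucc 8450661599, [.k, .p, .k, .k, .p], []),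
  (.ofNat 26510126400, [.k, .p, .k, .k, .p], [.k]),
  (.negSucc 62362043999, [.k, .p, .k, .k, .p, .k], []),
  (.negSucc 7400260799, [.k, .p, .k, .k, .y], [.z]),
  (.negSucc 2343355199, [.k, .p, .k, .k, .y, .z], []),
  (.negSucc 106972207199, [.k, .p, .k, .p], []),
  (.negSucc 73449791999, [.k, .p, .k, .p], [.k]),
  (.negSucc 3603905999, [.k, .p, .k, .p], [.p, .p]),
  (.ofNat 4576852800, [.k, .p, .k, .p], [.y, .y]),
  (.negSucc 10861869599, [.k, .p, .k, .p, .k], []),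
  (.ofNat 116146454400, [.k, .p, .k, .p, .k], [.k]),
  (.ofNat 25181200800, [.k, .p, .k, .p, .p], [.p]),
  (.ofNat 5079096000, [.k, .p, .k, .p, .p, .p], []),
  (.negSucc 5138395199, [.k, .p, .k, .p, .y], [.y]),
  (.negSucc 5336567999, [.k, .p, .k, .p, .y, .y], []),
  (.ofNat 44686900800, [.k, .p, .k, .y], [.k, .z]),
  (.negSucc 7034457599, [.k, .p, .k, .y], [.p, .y]),
  (.ofNat 54199526400, [.k, .p, .k, .y], [.y, .p]),
  (.negSucc 15441609599, [.k, .p, .k, .y], [.z]),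
  (.negSucc 46850083199, [.k, .p, .k, .y], [.z, .k]),
  (.ofNat 18974764800, [.k, .p, .k, .y, .k], [.z]),
  (.negSucc 9545284799, [.k, .p, .k, .y, .k, .z], []),
  (.ofNat 12771561600, [.k, .p, .k, .y, .p], [.y]),
  (.negSucc 4503801599, [.k, .p, .k, .y, .p, .y], []),
  (.ofNat 13419720000, [.k, .p, .k, .y, .y], [.p]),
  (.negSucc 2870855999, [.k, .p, .k, .y, .y, .p], []),
  (.negSucc 11879942399, [.k, .p, .k, .y, .z], []),
  (.ofNat 30938212800, [.k, .p, .k, .y, .z], [.k]),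
  (.negSucc 26131723199, [.k, .p, .k, .y, .z, .k], []),
  (.negSucc 141313395599, [.k, .p, .p], []),
  (.negSucc 112473347199, [.k, .p, .p], [.k]),
  (.ofNat 142398406400, [.k, .p, .p], [.k, .p, .p]),
  (.negSucc 56718388799, [.k, .p, .p], [.k, .y, .y]),
  (.ofNat 51469672800, [.k, .p, .p], [.p, .k, .p]),
  (.ofNat 52848129600, [.k, .p, .p], [.p, .p]),
  (.negSucc 58657262399, [.k, .p, .p], [.p, .p, .k]),
  (.ofNat 26463456000, [.k, .p, .p], [.p, .y, .z]),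
  (.negSucc 15810307199, [.k, .p, .p], [.y, .k, .y]),
  (.negSucc 50132087999, [.k, .p, .p], [.y, .p, .z]),
  (.negSucc 97812633599, [.k, .p, .p], [.y, .y]),
  (.ofNat 24568617600, [.k, .p, .p], [.y, .y, .k]),
  (.negSucc 8761435199, [.k, .p, .p], [.y, .z, .p]),
  (.ofNat 97496949600, [.k, .p, .p, .k], []),
  (.ofNat 6712063200, [.k, .p, .p, .k], [.k]),
  (.negSucc 152510587199, [.k, .p, .p, .k], [.p, .p]),
  (.ofNat 68273971200, [.k, .p, .p, .k], [.y, .y]),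
  (.ofNat 41819961600, [.k, .p, .p, .k, .p], [.p]),
  (.ofNat 6044860800, [.k, .p, .p, .k, .p, .p], []),
  (.negSucc 33270811199, [.k, .p, .p, .k, .y], [.y]),
  (.ofNat 11161209600, [.k, .p, .p, .k, .y, .y], []),
  (.ofNat 88362316800, [.k, .p, .p, .p], [.k, .p]),
  (.negSucc 27610430399, [.k, .p, .p, .p], [.p]),
  (.ofNat 97722792000, [.k, .p, .p, .p], [.p, .k]),
  (.negSucc 48468254399, [.k, .p, .p, .p], [.y, .z]),
  (.negSucc 56998468799, [.k, .p, .p, .p, .k], [.p]),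
  (.ofNat 10674885600, [.k, .p, .p, .p, .k, .p], []),
  (.negSucc 11292127199, [.k, .p, .p, .p, .p], []),
  (.ofNat 29744229600, [.k, .p, .p, .p, .p], [.k]),
  (.negSucc 68021222399, [.k, .p, .p, .p, .p, .k], []),
  (.negSucc 1864367999, [.k, .p, .p, .p, .y], [.z]),
  (.negSucc 1348070399, [.k, .p, .p, .p, .y, .z], []),
  (.negSucc 31024454399, [.k, .p, .p, .y], [.k, .y]),
  (.ofNat 29309400000, [.k, .p, .p, .y], [.p, .z]),
  (.ofNat 87468984000, [.k, .p, .p, .y], [.y]),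
  (.ofNat 12981484800, [.k, .p, .p, .y], [.y, .k]),
  (.ofNat 11169172800, [.k, .p, .p, .y], [.z, .p]),
  (.negSucc 13284187199, [.k, .p, .p, .y, .k], [.y]),
  (.ofNat 23457657600, [.k, .p, .p, .y, .k, .y], []),
  (.negSucc 15954321599, [.k, .p, .p, .y, .p], [.z]),
  (.ofNat 3641025600, [.k, .p, .p, .y, .p, .z], []),
  (.negSucc 32200228799, [.k, .p, .p, .y, .y], []),
  (.negSucc 5036155199, [.k, .p, .p, .y, .y], [.k]),
  (.ofNat 31790901600, [.k, .p, .p, .y, .y, .k], []),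
  (.ofNat 7416129600, [.k, .p, .p, .y, .z], [.p]),
  (.ofNat 5500756800, [.k, .p, .p, .y, .z, .p], []),
  (.negSucc 33796958399, [.k, .p, .y], [.k, .p, .y]),
  (.ofNat 36669369600, [.k, .p, .y], [.k, .y, .p]),
  (.negSucc 34713403199, [.k, .p, .y], [.k, .z]),
  (.negSucc 210729599, [.k, .p, .y], [.p, .k, .y]),
  (.ofNat 11619604800, [.k, .p, .y], [.p, .p, .z]),
  (.ofNat 111637699200, [.k, .p, .y], [.p, .y]),
  (.ofNat 38911910400, [.k, .p, .y], [.p, .y, .k]),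
  (.negSucc 5235407999, [.k, .p, .y], [.p, .z, .p]),
  (.ofNat 110362478400, [.k, .p, .y], [.y, .k, .p]),
  (.negSucc 191924827199, [.k, .p, .y], [.y, .p]),
  (.ofNat 55185926400, [.k, .p, .y], [.y, .p, .k]),
  (.ofNat 42654326400, [.k, .p, .y], [.y, .y, .z]),
  (.negSucc 38547172799, [.k, .p, .y], [.y, .z, .y]),
  (.ofNat 53086593600, [.k, .p, .y], [.z]),
  (.ofNat 190201377600, [.k, .p, .y], [.z, .k]),
  (.negSucc 16351574399, [.k, .p, .y], [.z, .p, .p]),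
  (.ofNat 22571899200, [.k, .p, .y], [.z, .y, .y]),
  (.ofNat 29537035200, [.k, .p, .y], [.z, .z, .z]),
  (.negSucc 103677667199, [.k, .p, .y, .k], [.k, .z]),
  (.negSucc 53064287999, [.k, .p, .y, .k], [.p, .y]),
  (.ofNat 114246129600, [.k, .p, .y, .k], [.y, .p]),
  (.ofNat 49503715200, [.k, .p, .y, .k], [.z]),
  (.negSucc 14851828799, [.k, .p, .y, .k, .k, .z], []),
  (.ofNat 5539651200, [.k, .p, .y, .k, .p], [.y]),
  (.ofNat 1248696000, [.k, .p, .y, .k, .p, .y], []),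
  (.ofNat 21498955200, [.k, .p, .y, .k, .y], [.p]),
  (.negSucc 1248695999, [.k, .p, .y, .k, .y, .p], []),
  (.ofNat 35309260800, [.k, .p, .y, .k, .z], []),
  (.negSucc 12505147199, [.k, .p, .y, .k, .z], [.k]),
  (.ofNat 23550220800, [.k, .p, .y, .p], [.k, .y]),
  (.negSucc 19679788799, [.k, .p, .y, .p], [.p, .z]),
  (.negSucc 25173907199, [.k, .p, .y, .p], [.y]),
  (.negSucc 105620097599, [.k, .p, .y, .p], [.y, .k]),
  (.ofNat 5875905600, [.k, .p, .y, .p], [.z, .p]),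
  (.negSucc 119735999, [.k, .p, .y, .p, .k], [.y]),
  (.ofNat 939456000, [.k, .p, .y, .p, .k, .y], []),
  (.ofNat 9132552000, [.k, .p, .y, .p, .p], [.z]),
  (.negSucc 385919999, [.k, .p, .y, .p, .p, .z], []),
  (.ofNat 14828472000, [.k, .p, .y, .p, .y], []),
  (.ofNat 48913444800, [.k, .p, .y, .p, .y], [.k]),
  (.negSucc 5659178399, [.k, .p, .y, .p, .y, .k], []),
  (.ofNat 3231201600, [.k, .p, .y, .p, .z], [.p]),
  (.negSucc 1381204799, [.k, .p, .y, .p, .z, .p], []),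
  (.negSucc 10100851199, [.k, .p, .y, .y], [.k, .p]),
  (.ofNat 37018900800, [.k, .p, .y, .y], [.p]),
  (.negSucc 70879636799, [.k, .p, .y, .y], [.p, .k]),
  (.ofNat 29538374400, [.k, .p, .y, .y], [.y, .z]),
  (.ofNat 11602008000, [.k, .p, .y, .y], [.z, .y]),
  (.negSucc 939455999, [.k, .p, .y, .y, .k, .p], []),
  (.ofNat 16483017600, [.k, .p, .y, .y, .p], []),
  (.ofNat 16491556800, [.k, .p, .y, .y, .p], [.k]),
  (.ofNat 5659178400, [.k, .p, .y, .y, .p, .k], []),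
  (.ofNat 15153566400, [.k, .p, .y, .y, .y], [.z]),
  (.ofNat 385920000, [.k, .p, .y, .y, .y, .z], []),
  (.negSucc 7190899199, [.k, .p, .y, .y, .z], [.y]),
  (.ofNat 1381204800, [.k, .p, .y, .y, .z, .y], []),
  (.negSucc 66058329599, [.k, .p, .y, .z], []),
  (.negSucc 50209934399, [.k, .p, .y, .z], [.k]),
  (.ofNat 32657472000, [.k, .p, .y, .z], [.p, .p]),
  (.ofNat 23074099200, [.k, .p, .y, .z], [.y, .y]),
  (.negSucc 5846587199, [.k, .p, .y, .z], [.z, .z]),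
  (.ofNat 33911827200, [.k, .p, .y, .z, .k], []),
  (.ofNat 26325360000, [.k, .p, .y, .z, .k], [.k]),
  (.negSucc 8525951999, [.k, .p, .y, .z, .p], [.p]),
  (.ofNat 965764800, [.k, .p, .y, .z, .p, .p], []),
  (.negSucc 6127286399, [.k, .p, .y, .z, .y], [.y]),
  (.negSucc 965764799, [.k, .p, .y, .z, .y, .y], []),
  (.ofNat 25915680000, [.k, .p, .y, .z, .z], [.z]),
  (.negSucc 17463542399, [.k, .p, .y, .z, .z, .z], []),
  (.negSucc 20353968575, [.p], [.p]),
  (.negSucc 28130126399, [.p, .k, .k, .k, .k, .p], []),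
  (.negSucc 14200826399, [.p, .k, .k, .k, .p], []),
  (.negSucc 25605503999, [.p, .k, .k, .k, .y], [.z]),
  (.ofNat 4244961600, [.p, .k, .k, .k, .y, .z], []),
  (.ofNat 1052798400, [.p, .k, .k, .p], []),
  (.negSucc 70058854799, [.p, .k, .k, .p], [.p, .p]),
  (.negSucc 10315972799, [.p, .k, .k, .p], [.y, .y]),
  (.ofNat 77748235200, [.p, .k, .k, .p, .p], [.p]),
  (.negSucc 47626703999, [.p, .k, .k, .p, .p, .p], []),
  (.ofNat 18961545600, [.p, .k, .k, .p, .y], [.y]),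
  (.negSucc 3999844799, [.p, .k, .k, .p, .y, .y], []),
  (.negSucc 15337353599, [.p, .k, .k, .y], [.p, .y]),
  (.ofNat 10030809600, [.p, .k, .k, .y], [.y, .p]),
  (.negSucc 18435297599, [.p, .k, .k, .y], [.z]),
  (.ofNat 1262404800, [.p, .k, .k, .y, .k, .z], []),
  (.negSucc 12329798399, [.p, .k, .k, .y, .p], [.y]),
  (.ofNat 8495121600, [.p, .k, .k, .y, .p, .y], []),
  (.negSucc 8943076799, [.p, .k, .k, .y, .y], [.p]),
  (.ofNat 6084028800, [.p, .k, .k, .y, .y, .p], []),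
  (.ofNat 6689865600, [.p, .k, .k, .y, .z], []),
  (.negSucc 50830646399, [.p, .k, .p], []),
  (.ofNat 47574750400, [.p, .k, .p], [.p, .k, .p]),
  (.ofNat 20765520000, [.p, .k, .p], [.p, .p]),
  (.ofNat 44378323200, [.p, .k, .p], [.p, .y, .z]),
  (.negSucc 11962382399, [.p, .k, .p], [.y, .k, .y]),
  (.negSucc 13586803199, [.p, .k, .p], [.y, .p, .z]),
  (.negSucc 23732481599, [.p, .k, .p], [.y, .y]),
  (.ofNat 26166254400, [.p, .k, .p, .k, .p], [.p]),
  (.negSucc 56141481599, [.p, .k, .p, .k, .p, .p], []),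
  (.ofNat 25271395200, [.p, .k, .p, .k, .y], [.y]),
  (.negSucc 1922284799, [.p, .k, .p, .k, .y, .y], []),
  (.ofNat 13886294400, [.p, .k, .p, .p], [.p]),
  (.negSucc 8371339199, [.p, .k, .p, .p], [.y, .z]),
  (.negSucc 33897153599, [.p, .k, .p, .p, .k, .p], []),
  (.negSucc 42167735999, [.p, .k, .p, .p, .p], []),
  (.negSucc 17677195199, [.p, .k, .p, .p, .y], [.z]),
  (.ofNat 435801600, [.p, .k, .p, .p, .y, .z], []),
  (.ofNat 20074593600, [.p, .k, .p, .y], [.p, .z]),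
  (.ofNat 23993337600, [.p, .k, .p, .y], [.y]),
  (.ofNat 28151035200, [.p, .k, .p, .y], [.z, .p]),
  (.ofNat 4504622400, [.p, .k, .p, .y, .k, .y], []),
  (.ofNat 4280486400, [.p, .k, .p, .y, .p], [.z]),
  (.negSucc 10059710399, [.p, .k, .p, .y, .p, .z], []),
  (.ofNat 798206400, [.p, .k, .p, .y, .y], []),
  (.negSucc 950414399, [.p, .k, .p, .y, .z], [.p]),
  (.negSucc 4970404799, [.p, .k, .p, .y, .z, .p], []),
  (.ofNat 11962382400, [.p, .k, .y], [.p, .k, .y]),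
  (.ofNat 9714326400, [.p, .k, .y], [.p, .p, .z]),
  (.ofNat 10927756800, [.p, .k, .y], [.p, .y]),
  (.ofNat 39884457600, [.p, .k, .y], [.p, .z, .p]),
  (.ofNat 37885032000, [.p, .k, .y], [.y, .k, .p]),
  (.negSucc 85091630399, [.p, .k, .y], [.y, .p]),
  (.ofNat 59261961600, [.p, .k, .y], [.y, .y, .z]),
  (.ofNat 35473651200, [.p, .k, .y], [.z]),
  (.negSucc 3872476799, [.p, .k, .y], [.z, .z, .z]),
  (.negSucc 2016547199, [.p, .k, .y, .k, .p], [.y]),
  (.ofNat 3243686400, [.p, .k, .y, .k, .p, .y], []),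
  (.negSucc 3243686399, [.p, .k, .y, .k, .y, .p], []),
  (.ofNat 11782137600, [.p, .k, .y, .k, .z], []),
  (.ofNat 665006400, [.p, .k, .y, .p], [.p, .z]),
  (.negSucc 21888503999, [.p, .k, .y, .p], [.y]),
  (.negSucc 7393651199, [.p, .k, .y, .p], [.z, .p]),
  (.negSucc 5767027199, [.p, .k, .y, .p, .k, .y], []),
  (.ofNat 1740052800, [.p, .k, .y, .p, .p], [.z]),
  (.negSucc 1679097599, [.p, .k, .y, .p, .p, .z], []),
  (.ofNat 2976451200, [.p, .k, .y, .p, .y], []),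
  (.negSucc 6730516799, [.p, .k, .y, .p, .z], [.p]),
  (.ofNat 2130062400, [.p, .k, .y, .p, .z, .p], []),
  (.negSucc 1770681599, [.p, .k, .y, .y], [.p]),
  (.negSucc 28490486399, [.p, .k, .y, .y], [.y, .z]),
  (.ofNat 7284672000, [.p, .k, .y, .y], [.z, .y]),
  (.ofNat 5767027200, [.p, .k, .y, .y, .k, .p], []),
  (.negSucc 8268451199, [.p, .k, .y, .y, .p], []),
  (.ofNat 19816646400, [.p, .k, .y, .y, .y], [.z]),
  (.ofNat 1679097600, [.p, .k, .y, .y, .y, .z], []),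
  (.ofNat 300672000, [.p, .k, .y, .y, .z], [.y]),
  (.negSucc 2130062399, [.p, .k, .y, .y, .z, .y], []),
  (.ofNat 529354800, [.p, .k, .y, .z], []),
  (.negSucc 43289531999, [.p, .k, .y, .z], [.p, .p]),
  (.ofNat 10927036800, [.p, .k, .y, .z], [.y, .y]),
  (.negSucc 5704948799, [.p, .k, .y, .z], [.z, .z]),
  (.ofNat 10722182400, [.p, .k, .y, .z, .p], [.p]),
  (.negSucc 8514777599, [.p, .k, .y, .z, .p, .p], []),
  (.negSucc 7128158399, [.p, .k, .y, .z, .y], [.y]),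
  (.ofNat 8514777600, [.p, .k, .y, .z, .y, .y], []),
  (.negSucc 6916723199, [.p, .k, .y, .z, .z], [.z]),
  (.ofNat 6437217600, [.p, .k, .y, .z, .z, .z], []),
  (.negSucc 131030902943, [.p, .p], []),
  (.ofNat 35886628800, [.p, .p], [.p, .p]),
  (.negSucc 21270499199, [.p, .p], [.p, .y, .p, .y]),
  (.ofNat 10679068800, [.p, .p], [.p, .y, .y, .p]),
  (.ofNat 90478562400, [.p, .p], [.p, .y, .z]),
  (.negSucc 1421683199, [.p, .p], [.y, .p, .p, .y]),
  (.negSucc 33097751999, [.p, .p], [.y, .p, .z]),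
  (.negSucc 68505544799, [.p, .p], [.y, .y]),
  (.negSucc 41315810399, [.p, .p], [.y, .z, .y, .z]),
  (.ofNat 42202519200, [.p, .p], [.y, .z, .z, .y]),
  (.negSucc 40952073599, [.p, .p, .k, .k, .p, .p], []),
  (.ofNat 16747905600, [.p, .p, .k, .k, .y, .y], []),
  (.negSucc 25468351199, [.p, .p, .k, .p, .p], []),
  (.negSucc 14327798399, [.p, .p, .k, .p, .y], [.z]),
  (.negSucc 5355446399, [.p, .p, .k, .p, .y, .z], []),
  (.ofNat 18544406400, [.p, .p, .k, .y, .p], [.z]),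
  (.negSucc 5041497599, [.p, .p, .k, .y, .p, .z], []),
  (.ofNat 6661483200, [.p, .p, .k, .y, .y], []),
  (.negSucc 5566982399, [.p, .p, .k, .y, .z], [.p]),
  (.negSucc 8323113599, [.p, .p, .k, .y, .z, .p], []),
  (.negSucc 5827377599, [.p, .p, .p], [.p]),
  (.negSucc 3584836799, [.p, .p, .p], [.p, .p, .p]),
  (.negSucc 99309585599, [.p, .p, .p], [.p, .y, .y]),
  (.ofNat 10091433600, [.p, .p, .p], [.y, .p, .y]),
  (.negSucc 6632596799, [.p, .p, .p], [.y, .z]),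
  (.ofNat 463651200, [.p, .p, .p, .k, .y, .z], []),
  (.ofNat 30897802800, [.p, .p, .p, .p], []),
  (.negSucc 36013593599, [.p, .p, .p, .p], [.p, .p]),
  (.ofNat 36227196000, [.p, .p, .p, .p], [.y, .y]),
  (.ofNat 40790217600, [.p, .p, .p, .p, .p], [.p]),
  (.negSucc 30589099199, [.p, .p, .p, .p, .p, .p], []),
  (.ofNat 5166806400, [.p, .p, .p, .p, .y], [.y]),
  (.ofNat 6384931200, [.p, .p, .p, .p, .y, .y], []),
  (.ofNat 8497987200, [.p, .p, .p, .y], [.p, .y]),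
  (.ofNat 23107471200, [.p, .p, .p, .y], [.y, .p]),
  (.negSucc 19618106399, [.p, .p, .p, .y], [.z]),
  (.negSucc 18566625599, [.p, .p, .p, .y, .p], [.y]),
  (.ofNat 10092067200, [.p, .p, .p, .y, .p, .y], []),
  (.negSucc 6274871999, [.p, .p, .p, .y, .y], [.p]),
  (.ofNat 5654361600, [.p, .p, .p, .y, .y, .p], []),
  (.ofNat 5618548800, [.p, .p, .p, .y, .z], []),
  (.ofNat 702648000, [.p, .p, .y], [.p, .p, .y]),
  (.negSucc 19084881599, [.p, .p, .y], [.p, .y, .p]),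
  (.negSucc 14220820799, [.p, .p, .y], [.p, .z]),
  (.ofNat 63535680000, [.p, .p, .y], [.y]),
  (.negSucc 13147228799, [.p, .p, .y], [.y, .p, .p]),
  (.negSucc 19129766399, [.p, .p, .y], [.y, .z, .z]),
  (.ofNat 82680796800, [.p, .p, .y], [.z, .p]),
  (.ofNat 4472784000, [.p, .p, .y], [.z, .y, .z]),
  (.ofNat 4751121600, [.p, .p, .y], [.z, .z, .y]),
  (.ofNat 950112000, [.p, .p, .y, .k, .p, .z], []),
  (.negSucc 950111999, [.p, .p, .y, .k, .z, .p], []),
  (.negSucc 4778755199, [.p, .p, .y, .p], [.p, .y]),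
  (.ofNat 8591004000, [.p, .p, .y, .p], [.y, .p]),
  (.ofNat 38281183200, [.p, .p, .y, .p], [.z]),
  (.negSucc 7989969599, [.p, .p, .y, .p, .p], [.y]),
  (.ofNat 4100457600, [.p, .p, .y, .p, .p, .y], []),
  (.ofNat 4602873600, [.p, .p, .y, .p, .y], [.p]),
  (.negSucc 1718639999, [.p, .p, .y, .p, .y, .p], []),
  (.negSucc 5268715199, [.p, .p, .y, .p, .z], []),
  (.negSucc 78173852399, [.p, .p, .y, .y], []),
  (.ofNat 34254799200, [.p, .p, .y, .y], [.p, .p]),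
  (.ofNat 43713900000, [.p, .p, .y, .y], [.z, .z]),
  (.negSucc 6820199999, [.p, .p, .y, .y, .p], [.p]),
  (.ofNat 10362974400, [.p, .p, .y, .y, .p, .p], []),
  (.negSucc 16286212799, [.p, .p, .y, .y, .z], [.z]),
  (.ofNat 10362974400, [.p, .p, .y, .y, .z, .z], []),
  (.negSucc 55873555199, [.p, .p, .y, .z], [.p]),
  (.ofNat 18137649600, [.p, .p, .y, .z], [.y, .z]),
  (.negSucc 9780335999, [.p, .p, .y, .z], [.z, .y]),
  (.ofNat 8357500800, [.p, .p, .y, .z, .p], []),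
  (.ofNat 7206681600, [.p, .p, .y, .z, .y], [.z]),
  (.negSucc 1718639999, [.p, .p, .y, .z, .y, .z], []),
  (.negSucc 7989969599, [.p, .p, .y, .z, .z], [.y]),
  (.ofNat 4100457600, [.p, .p, .y, .z, .z, .y], []),
  (.negSucc 73086386399, [.p, .y], [.p, .y]),
  (.negSucc 1444324895, [.p, .y], [.y, .p]),
  (.negSucc 73940296319, [.p, .y], [.z]),
  (.negSucc 3666427199, [.p, .y, .k, .k, .p, .y], []),
  (.ofNat 3666427200, [.p, .y, .k, .k, .y, .p], []),
  (.ofNat 761068800, [.p, .y, .k, .p, .p, .z], []),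
  (.negSucc 8262403199, [.p, .y, .k, .p, .y], []),
  (.negSucc 11883441599, [.p, .y, .k, .p, .z], [.p]),
  (.ofNat 1191628800, [.p, .y, .k, .p, .z, .p], []),
  (.negSucc 11569017599, [.p, .y, .k, .y, .p], []),
  (.negSucc 761068799, [.p, .y, .k, .y, .y, .z], []),
  (.ofNat 3289550400, [.p, .y, .k, .y, .z], [.y]),
  (.negSucc 1191628799, [.p, .y, .k, .y, .z, .y], []),
  (.ofNat 8593891200, [.p, .y, .k, .z, .p], [.p]),
  (.ofNat 3337401600, [.p, .y, .p], [.p, .y, .p]),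
  (.ofNat 48554380800, [.p, .y, .p], [.p, .z]),
  (.ofNat 61529860800, [.p, .y, .p], [.y]),
  (.negSucc 490204799, [.p, .y, .p], [.z, .y, .z]),
  (.ofNat 3700900800, [.p, .y, .p, .p, .p, .y], []),
  (.negSucc 7023974399, [.p, .y, .p, .p, .y], [.p]),
  (.ofNat 3193228800, [.p, .y, .p, .p, .y, .p], []),
  (.negSucc 4488825599, [.p, .y, .p, .p, .z], []),
  (.ofNat 12839342400, [.p, .y, .p, .y], []),
  (.ofNat 6099854400, [.p, .y, .p, .y, .p], [.p]),
  (.ofNat 20586240000, [.p, .y, .p, .y, .z], [.z]),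
  (.ofNat 40901371200, [.p, .y, .p, .z], [.p]),
  (.ofNat 3632961600, [.p, .y, .p, .z], [.y, .z]),
  (.negSucc 11595484799, [.p, .y, .p, .z], [.z, .y]),
  (.negSucc 8432625599, [.p, .y, .p, .z, .p], []),
  (.negSucc 9964915199, [.p, .y, .p, .z, .y], [.z]),
  (.ofNat 3193228800, [.p, .y, .p, .z, .y, .z], []),
  (.ofNat 3700900800, [.p, .y, .p, .z, .z, .y], []),
  (.negSucc 28443139199, [.p, .y, .y, .p], []),
  (.negSucc 15782587199, [.p, .y, .y, .p, .z], [.z]),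
  (.ofNat 4978267200, [.p, .y, .y, .y, .p], [.y]),
  (.negSucc 3021580799, [.p, .y, .y, .y, .y, .p], []),
  (.negSucc 6909969599, [.p, .y, .y, .y, .z], []),
  (.negSucc 15169247999, [.p, .y, .y, .z], [.p, .z]),
  (.ofNat 6673118400, [.p, .y, .y, .z], [.y]),
  (.ofNat 19864987200, [.p, .y, .y, .z], [.z, .p]),
  (.negSucc 5933908799, [.p, .y, .y, .z, .p], [.z]),
  (.ofNat 3021580800, [.p, .y, .y, .z, .z, .p], []),
  (.negSucc 54429422399, [.p, .y, .z], []),
  (.ofNat 17120923200, [.p, .y, .z], [.p, .y, .z]),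
  (.negSucc 15060542399, [.p, .y, .z], [.p, .z, .y]),
  (.negSucc 9466617599, [.p, .y, .z], [.y, .z, .p]),
  (.ofNat 3337401600, [.p, .y, .z], [.z, .y, .p]),
  (.negSucc 11956694399, [.p, .y, .z, .p], [.p]),
  (.negSucc 11512310399, [.p, .y, .z, .p], [.y, .z]),
  (.ofNat 11950041600, [.p, .y, .z, .p], [.z, .y]),
  (.ofNat 4595198400, [.p, .y, .z, .p, .y], [.z]),
  (.negSucc 2432159999, [.p, .y, .z, .p, .y, .z], []),
  (.negSucc 3270340799, [.p, .y, .z, .p, .z, .y], []),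
  (.ofNat 597585600, [.p, .y, .z, .y, .p], [.z]),
  (.negSucc 4213209599, [.p, .y, .z, .y, .z, .p], []),
  (.ofNat 34473600, [.p, .y, .z, .z, .p, .y], []),
  (.ofNat 9881236800, [.p, .y, .z, .z, .y, .p], [])]

set_option maxRecDepth 100000 in
theorem cB7 : blkOK locL e7 gB7 wB7 = true := by decide +kernel

end Pool.Agent.H14Z
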