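import Pool.Agent.Lib.H14Z.E8
import Pool.Agent.Lib.H2AF.B8

/-! # Certificate B, block 8 (T2_1, loc, size 36): the word form of the block -/

namespace Pool.Agent.H14Z

open Pool.Agent.H2AF

/-- The value of the block, one word pair per class. -/
def wB8 : E :=
 [(.ofNat 14140389600, [], []),
  (.ofNat 14217069600, [.k], []),
  (.negSucc 67273790399, [.k], [.k]),
  (.negSucc 12117110399, [.k], [.p, .k, .k, .k, .p]),
  (.ofNat 62355297600, [.k], [.p, .k, .k, .p]),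
  (.negSucc 5062910399, [.k], [.p, .k, .k, .y, .z]),
  (.ofNat 86090760000, [.k], [.p, .k, .p]),
  (.negSucc 4397155199, [.k], [.p, .k, .p, .p, .p]),
  (.ofNat 10476129600, [.k], [.p, .k, .p, .y, .y]),
  (.negSucc 20401631999, [.k], [.p, .k, .y, .k, .z]),
  (.ofNat 3942777600, [.k], [.p, .k, .y, .p, .y]),
  (.ofNat 52574184000, [.k], [.p, .k, .y, .y, .p]),
  (.ofNat 61695489600, [.k], [.p, .k, .y, .z]),
  (.negSucc 32078073599, [.k], [.p, .p]),
  (.ofNat 44629099200, [.k], [.p, .p, .p, .p]),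
  (.negSucc 5812300799, [.k], [.p, .p, .p, .y, .z]),
  (.ofNat 7494120000, [.k], [.p, .p, .y, .p, .z]),
  (.negSucc 34363439999, [.k], [.p, .p, .y, .y]),
  (.negSucc 23724359999, [.k], [.p, .p, .y, .z, .p]),
  (.ofNat 13477305600, [.k], [.p, .y, .k, .p, .y]),
  (.ofNat 24039777600, [.k], [.p, .y, .k, .y, .p]),
  (.ofNat 8000006400, [.k], [.p, .y, .p, .p, .z]),
  (.ofNat 14274720000, [.k], [.p, .y, .p, .y]),
  (.ofNat 18866678400, [.k], [.p, .y, .p, .z, .p]),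
  (.negSucc 52986988799, [.k], [.p, .y, .y, .p]),
  (.ofNat 10650398400, [.k], [.p, .y, .y, .y, .z]),
  (.negSucc 40168843199, [.k], [.p, .y, .z]),
  (.ofNat 39441787200, [.k, .k], []),
  (.negSucc 741391199, [.k, .k], [.k]),
  (.negSucc 27858779999, [.k, .k], [.k, .k]),
  (.negSucc 59387630399, [.k, .k], [.k, .p, .k, .p]),
  (.ofNat 24928056000, [.k, .k], [.k, .p, .p]),
  (.negSucc 44506439999, [.k, .k], [.k, .p, .p, .k]),
  (.negSucc 70941758399, [.k, .k], [.k, .p, .y, .z]),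
  (.negSucc 82710201599, [.k, .k], [.p, .k, .k, .p]),
  (.ofNat 75168568800, [.k, .k], [.p, .k, .p]),
  (.negSucc 80987140799, [.k, .k], [.p, .k, .y, .z]),
  (.ofNat 19604728800, [.k, .k], [.p, .p]),
  (.ofNat 3441974400, [.k, .k], [.p, .p, .p, .p]),
  (.negSucc 15184526399, [.k, .k], [.p, .p, .y, .y]),
  (.ofNat 26307172800, [.k, .k], [.p, .y, .p, .y]),
  (.ofNat 90702165600, [.k, .k], [.p, .y, .y, .p]),
  (.negSucc 9430430399, [.k, .k], [.p, .y, .z]),
  (.negSucc 28141523999, [.k, .k, .k], []),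
  (.ofNat 46404964800, [.k, .k, .k], [.k]),
  (.ofNat 9990050400, [.k, .k, .k], [.k, .k]),
  (.negSucc 14610383999, [.k, .k, .k], [.k, .p, .p]),
  (.negSucc 42663988799, [.k, .k, .k], [.p, .k, .p]),
  (.negSucc 28363564799, [.k, .k, .k], [.p, .p]),
  (.ofNat 16980724800, [.k, .k, .k], [.p, .y, .z]),
  (.negSucc 4854571199, [.k, .k, .k, .k], []),
  (.negSucc 20802124799, [.k, .k, .k, .k], [.k]),
  (.negSucc 40072039199, [.k, .k, .k, .k], [.p, .p]),
  (.ofNat 25477920000, [.k, .k, .k, .k, .k], []),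
  (.ofNat 26100619200, [.k, .k, .k, .k, .p], [.p]),
  (.ofNat 49332931200, [.k, .k, .k, .p], [.k, .p]),
  (.negSucc 4836599999, [.k, .k, .k, .p], [.p]),
  (.ofNat 13342939200, [.k, .k, .k, .p], [.p, .k]),
  (.negSucc 29563401599, [.k, .k, .k, .p], [.y, .z]),
  (.negSucc 8383060799, [.k, .k, .k, .p, .k], [.p]),
  (.negSucc 3546071999, [.k, .k, .k, .p, .p], []),
  (.ofNat 6707088000, [.k, .k, .k, .p, .y], [.z]),
  (.negSucc 30918931199, [.k, .k, .p], [.k, .k, .p]),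
  (.ofNat 78907363200, [.k, .k, .p], [.k, .p]),
  (.negSucc 29582841599, [.k, .k, .p], [.k, .p, .k]),
  (.negSucc 96918609599, [.k, .k, .p], [.k, .y, .z]),
  (.negSucc 95965775999, [.k, .k, .p], [.p]),
  (.ofNat 38639692800, [.k, .k, .p], [.p, .k]),
  (.negSucc 382334399, [.k, .k, .p], [.p, .p, .p]),
  (.ofNat 2514110400, [.k, .k, .p], [.p, .y, .y]),
  (.negSucc 119052950399, [.k, .k, .p], [.y, .k, .z]),
  (.negSucc 10850241599, [.k, .k, .p], [.y, .p, .y]),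
  (.ofNat 15624014400, [.k, .k, .p], [.y, .y, .p]),
  (.ofNat 52732051200, [.k, .k, .p], [.y, .z]),
  (.negSucc 35309995199, [.k, .k, .p], [.y, .z, .k]),
  (.negSucc 2271614399, [.k, .k, .p, .k], [.k, .p]),
  (.negSucc 41752987199, [.k, .k, .p, .k], [.p]),
  (.ofNat 18107380800, [.k, .k, .p, .k], [.p, .k]),
  (.negSucc 29172830399, [.k, .k, .p, .k], [.y, .z]),
  (.ofNat 456062400, [.k, .k, .p, .k, .k], [.p]),
  (.ofNat 11700374400, [.k, .k, .p, .k, .k, .p], []),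
  (.negSucc 8876001599, [.k, .k, .p, .k, .p], []),
  (.ofNat 9027100800, [.k, .k, .p, .k, .p], [.k]),
  (.ofNat 289036800, [.k, .k, .p, .k, .p, .k], []),
  (.ofNat 23090544000, [.k, .k, .p, .k, .y], [.z]),
  (.ofNat 13480387200, [.k, .k, .p, .k, .y, .z], []),
  (.ofNat 66602750400, [.k, .k, .p, .p], []),
  (.negSucc 22901918399, [.k, .k, .p, .p], [.k]),
  (.ofNat 4136097600, [.k, .k, .p, .p], [.k, .k]),
  (.negSucc 6783134399, [.k, .k, .p, .p], [.p, .p]),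
  (.ofNat 49303584000, [.k, .k, .p, .p], [.y, .y]),
  (.ofNat 81547372800, [.k, .k, .p, .p, .k], []),
  (.ofNat 34215523200, [.k, .k, .p, .p, .k], [.k]),
  (.negSucc 25477919999, [.k, .k, .p, .p, .k, .k], []),
  (.negSucc 10674806399, [.k, .k, .p, .p, .p], [.p]),
  (.ofNat 4715107200, [.k, .k, .p, .p, .p, .p], []),
  (.negSucc 6017831999, [.k, .k, .p, .p, .y], [.y]),
  (.ofNat 1169035200, [.k, .k, .p, .p, .y, .y], []),
  (.ofNat 2480472000, [.k, .k, .p, .y], [.k, .z]),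
  (.ofNat 27369072000, [.k, .k, .p, .y], [.p, .y]),
  (.negSucc 96667199, [.k, .k, .p, .y], [.y, .p]),
  (.ofNat 43532740800, [.k, .k, .p, .y], [.z]),
  (.ofNat 22213526400, [.k, .k, .p, .y], [.z, .k]),
  (.ofNat 13247726400, [.k, .k, .p, .y, .k], [.z]),
  (.negSucc 964943999, [.k, .k, .p, .y, .k, .z], []),
  (.negSucc 15102691199, [.k, .k, .p, .y, .p], [.y]),
  (.ofNat 6127776000, [.k, .k, .p, .y, .p, .y], []),
  (.ofNat 27180259200, [.k, .k, .p, .y, .y], [.p]),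
  (.negSucc 12416284799, [.k, .k, .p, .y, .y, .p], []),
  (.negSucc 27617644799, [.k, .k, .p, .y, .z], []),
  (.ofNat 17924385600, [.k, .k, .p, .y, .z], [.k]),
  (.negSucc 37801483199, [.k, .k, .p, .y, .z, .k], []),
  (.negSucc 121980297599, [.k, .p], [.k, .p]),
  (.negSucc 77046839999, [.k, .p], [.p]),
  (.ofNat 34642526400, [.k, .p], [.p, .k]),
  (.ofNat 13244702400, [.k, .p], [.p, .k, .y, .y]),
  (.ofNat 15507230400, [.k, .p], [.p, .p, .k, .p]),
  (.ofNat 22608612000, [.k, .p], [.p, .p, .p]),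
  (.negSucc 1099007999, [.k, .p], [.p, .p, .y, .z]),
  (.negSucc 7345871999, [.k, .p], [.p, .y, .k, .y]),
  (.negSucc 5512737599, [.k, .p], [.p, .y, .p, .z]),
  (.negSucc 20401502399, [.k, .p], [.p, .y, .y]),
  (.negSucc 5529887999, [.k, .p], [.p, .y, .z, .p]),
  (.negSucc 53164079999, [.k, .p], [.y, .k, .k, .z]),
  (.negSucc 46525953599, [.k, .p], [.y, .k, .p, .y]),
  (.negSucc 30788035199, [.k, .p], [.y, .k, .y, .p]),
  (.ofNat 101732212800, [.k, .p], [.y, .k, .z]),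
  (.negSucc 41831870399, [.k, .p], [.y, .p, .k, .y]),
  (.negSucc 41230886399, [.k, .p], [.y, .p, .p, .z]),
  (.ofNat 63735076800, [.k, .p], [.y, .p, .y]),
  (.negSucc 1409860799, [.k, .p], [.y, .p, .z, .p]),
  (.negSucc 75486556799, [.k, .p], [.y, .y, .k, .p]),
  (.negSucc 26615836799, [.k, .p], [.y, .y, .p]),
  (.negSucc 35384601599, [.k, .p], [.y, .y, .y, .z]),
  (.negSucc 275615999, [.k, .p], [.y, .y, .z, .y]),
  (.negSucc 31969915199, [.k, .p], [.y, .z]),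
  (.negSucc 10678269599, [.k, .p], [.y, .z, .p, .p]),
  (.ofNat 15683616000, [.k, .p], [.y, .z, .y, .y]),
  (.negSucc 12861503999, [.k, .p], [.y, .z, .z, .z]),
  (.negSucc 3315196799, [.k, .p, .k], [.k, .p]),
  (.ofNat 5298580800, [.k, .p, .k], [.k, .p, .k]),
  (.negSucc 37660463999, [.k, .p, .k], [.k, .y, .z]),
  (.ofNat 61456118400, [.k, .p, .k], [.p]),
  (.ofNat 46788033600, [.k, .p, .k], [.p, .y, .y]),
  (.negSucc 72017193599, [.k, .p, .k], [.y, .k, .z]),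
  (.ofNat 5723539200, [.k, .p, .k], [.y, .p, .y]),
  (.negSucc 78600095999, [.k, .p, .k], [.y, .z]),
  (.ofNat 3597163200, [.k, .p, .k, .k, .k, .p], []),
  (.ofNat 21291321600, [.k, .p, .k, .k, .p], []),
  (.ofNat 32059310400, [.k, .p, .k, .k, .p], [.k]),
  (.negSucc 13330483199, [.k, .p, .k, .k, .p, .k], []),
  (.ofNat 25230672000, [.k, .p, .k, .k, .y], [.z]),
  (.negSucc 5466124799, [.k, .p, .k, .k, .y, .z], []),
  (.ofNat 58886179200, [.k, .p, .k, .p], []),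
  (.negSucc 17110972799, [.k, .p, .k, .p], [.k]),
  (.negSucc 990503999, [.k, .p, .k, .p], [.p, .p]),
  (.ofNat 42778238400, [.k, .p, .k, .p], [.y, .y]),
  (.ofNat 34252596000, [.k, .p, .k, .p, .k], []),
  (.ofNat 3629044800, [.k, .p, .k, .p, .k], [.k]),
  (.negSucc 631166399, [.k, .p, .k, .p, .p], [.p]),
  (.ofNat 2029608000, [.k, .p, .k, .p, .p, .p], []),
  (.negSucc 18940291199, [.k, .p, .k, .p, .y], [.y]),
  (.ofNat 2395353600, [.k, .p, .k, .p, .y, .y], []),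
  (.ofNat 22408329600, [.k, .p, .k, .y], [.k, .z]),
  (.negSucc 13365979199, [.k, .p, .k, .y], [.p, .y]),
  (.negSucc 12709727999, [.k, .p, .k, .y], [.y, .p]),
  (.ofNat 69565752000, [.k, .p, .k, .y], [.z]),
  (.ofNat 15097233600, [.k, .p, .k, .y], [.z, .k]),
  (.negSucc 4847097599, [.k, .p, .k, .y, .k], [.z]),
  (.negSucc 3600302399, [.k, .p, .k, .y, .k, .z], []),
  (.ofNat 433440000, [.k, .p, .k, .y, .p], [.y]),
  (.negSucc 9070963199, [.k, .p, .k, .y, .p, .y], []),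
  (.ofNat 14242521600, [.k, .p, .k, .y, .y], [.p]),
  (.negSucc 834710399, [.k, .p, .k, .y, .y, .p], []),
  (.negSucc 17210419199, [.k, .p, .k, .y, .z], []),
  (.ofNat 14047156800, [.k, .p, .k, .y, .z], [.k]),
  (.negSucc 27288273599, [.k, .p, .k, .y, .z, .k], []),
  (.ofNat 7979889600, [.k, .p, .p], []),
  (.ofNat 67277160000, [.k, .p, .p], [.k]),
  (.negSucc 5421067199, [.k, .p, .p], [.k, .y, .y]),
  (.ofNat 11088230400, [.k, .p, .p], [.p, .k, .p]),
  (.negSucc 52658783999, [.k, .p, .p], [.p, .p]),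
  (.ofNat 2903256000, [.k, .p, .p], [.p, .p, .k]),
  (.ofNat 9862012800, [.k, .p, .p], [.p, .y, .z]),
  (.ofNat 93495614400, [.k, .p, .p], [.y, .k, .y]),
  (.ofNat 34185571200, [.k, .p, .p], [.y, .p, .z]),
  (.ofNat 23607576000, [.k, .p, .p], [.y, .y]),
  (.ofNat 16167628800, [.k, .p, .p], [.y, .y, .k]),
  (.ofNat 31581360000, [.k, .p, .p], [.y, .z, .p]),
  (.ofNat 4169577600, [.k, .p, .p, .k], []),
  (.negSucc 52119381599, [.k, .p, .p, .k], [.k]),
  (.ofNat 82387980000, [.k, .p, .p, .k], [.y, .y]),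
  (.negSucc 61927084799, [.k, .p, .p, .k, .y], [.y]),
  (.negSucc 11423491199, [.k, .p, .p, .p], [.k, .p]),
  (.negSucc 6344107199, [.k, .p, .p, .p], [.p]),
  (.ofNat 5824065600, [.k, .p, .p, .p], [.p, .k]),
  (.negSucc 24673147199, [.k, .p, .p, .p], [.y, .z]),
  (.negSucc 4499179199, [.k, .p, .p, .p, .p], []),
  (.negSucc 4083393599, [.k, .p, .p, .p, .p], [.k]),
  (.ofNat 15473390400, [.k, .p, .p, .p, .y], [.z]),
  (.negSucc 59527180799, [.k, .p, .p, .y], [.k, .y]),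
  (.negSucc 6305687999, [.k, .p, .p, .y], [.p, .z]),
  (.negSucc 19383897599, [.k, .p, .p, .y], [.y]),
  (.negSucc 19315972799, [.k, .p, .p, .y], [.y, .k]),
  (.negSucc 3213129599, [.k, .p, .p, .y], [.z, .p]),
  (.negSucc 5449708799, [.k, .p, .p, .y, .k], [.y]),
  (.ofNat 3954513600, [.k, .p, .p, .y, .p], [.z]),
  (.ofNat 32566622400, [.k, .p, .p, .y, .y], []),
  (.ofNat 11858342400, [.k, .p, .p, .y, .y], [.k]),
  (.negSucc 36960983999, [.k, .p, .y], [.k, .p, .y]),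
  (.negSucc 3274358399, [.k, .p, .y], [.k, .y, .p]),
  (.ofNat 163608984000, [.k, .p, .y], [.k, .z]),
  (.negSucc 86955105599, [.k, .p, .y], [.p, .k, .y]),
  (.negSucc 60267067199, [.k, .p, .y], [.p, .p, .z]),
  (.ofNat 62306222400, [.k, .p, .y], [.p, .y]),
  (.negSucc 34842614399, [.k, .p, .y], [.p, .y, .k]),
  (.negSucc 4166078399, [.k, .p, .y], [.p, .z, .p]),
  (.negSucc 7655615999, [.k, .p, .y], [.y, .k, .p]),
  (.ofNat 62101598400, [.k, .p, .y], [.y, .p]),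
  (.ofNat 868910400, [.k, .p, .y], [.y, .p, .k]),
  (.negSucc 888883199, [.k, .p, .y], [.y, .y, .z]),
  (.ofNat 25295889600, [.k, .p, .y], [.y, .z, .y]),
  (.negSucc 46587815999, [.k, .p, .y], [.z]),
  (.negSucc 69538996799, [.k, .p, .y], [.z, .k]),
  (.ofNat 7054113600, [.k, .p, .y], [.z, .y, .y]),
  (.negSucc 12248827199, [.k, .p, .y], [.z, .z, .z]),
  (.ofNat 32499590400, [.k, .p, .y, .k], [.k, .z]),
  (.ofNat 6736896000, [.k, .p, .y, .k], [.p, .y]),
  (.negSucc 30655713599, [.k, .p, .y, .k], [.y, .p]),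
  (.negSucc 49186439999, [.k, .p, .y, .k], [.z]),
  (.ofNat 5693745600, [.k, .p, .y, .k, .k, .z], []),
  (.ofNat 23494982400, [.k, .p, .y, .k, .p], [.y]),
  (.ofNat 2031796800, [.k, .p, .y, .k, .p, .y], []),
  (.ofNat 17845372800, [.k, .p, .y, .k, .y], [.p]),
  (.negSucc 8337830399, [.k, .p, .y, .k, .y, .p], []),
  (.negSucc 6399835199, [.k, .p, .y, .k, .z], []),
  (.ofNat 30280867200, [.k, .p, .y, .k, .z], [.k]),
  (.ofNat 14534352000, [.k, .p, .y, .p], [.k, .y]),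
  (.ofNat 21171758400, [.k, .p, .y, .p], [.p, .z]),
  (.negSucc 11645179199, [.k, .p, .y, .p], [.y]),
  (.ofNat 22969483200, [.k, .p, .y, .p], [.y, .k]),
  (.negSucc 37095119999, [.k, .p, .y, .p], [.z, .p]),
  (.ofNat 16701033600, [.k, .p, .y, .p, .k], [.y]),
  (.negSucc 5100883199, [.k, .p, .y, .p, .k, .y], []),
  (.negSucc 12627287999, [.k, .p, .y, .p, .p], [.z]),
  (.ofNat 8332632000, [.k, .p, .y, .p, .p, .z], []),
  (.negSucc 25856927999, [.k, .p, .y, .p, .y], []),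
  (.negSucc 17699875199, [.k, .p, .y, .p, .y], [.k]),
  (.negSucc 627307199, [.k, .p, .y, .p, .y, .k], []),
  (.ofNat 3448972800, [.k, .p, .y, .p, .z], [.p]),
  (.negSucc 4732991999, [.k, .p, .y, .p, .z, .p], []),
  (.ofNat 21288844800, [.k, .p, .y, .y], [.k, .p]),
  (.negSucc 53924731199, [.k, .p, .y, .y], [.p]),
  (.negSucc 36871574399, [.k, .p, .y, .y], [.p, .k]),
  (.negSucc 9909244799, [.k, .p, .y, .y], [.y, .z]),
  (.negSucc 16806931199, [.k, .p, .y, .y], [.z, .y]),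
  (.ofNat 23328936000, [.k, .p, .y, .y, .k, .p], []),
  (.ofNat 8445830400, [.k, .p, .y, .y, .p], []),
  (.negSucc 43303636799, [.k, .p, .y, .y, .p], [.k]),
  (.ofNat 40787733600, [.k, .p, .y, .y, .p, .k], []),
  (.ofNat 24862003200, [.k, .p, .y, .y, .y], [.z]),
  (.negSucc 6138763199, [.k, .p, .y, .y, .y, .z], []),
  (.ofNat 4974206400, [.k, .p, .y, .y, .z], [.y]),
  (.negSucc 3766910399, [.k, .p, .y, .y, .z, .y], []),
  (.ofNat 86536324800, [.k, .p, .y, .z], []),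
  (.negSucc 45313617599, [.k, .p, .y, .z], [.k]),
  (.ofNat 5726476800, [.k, .p, .y, .z], [.p, .p]),
  (.ofNat 17123097600, [.k, .p, .y, .z], [.y, .y]),
  (.negSucc 16558588799, [.k, .p, .y, .z], [.z, .z]),
  (.ofNat 50219726400, [.k, .p, .y, .z, .k], []),
  (.ofNat 28405022400, [.k, .p, .y, .z, .k], [.k]),
  (.negSucc 3909196799, [.k, .p, .y, .z, .p], [.p]),
  (.negSucc 4656139199, [.k, .p, .y, .z, .p, .p], []),
  (.negSucc 79156799, [.k, .p, .y, .z, .y], [.y]),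
  (.negSucc 5990327999, [.k, .p, .y, .z, .y, .y], []),
  (.ofNat 1333555200, [.k, .p, .y, .z, .z], [.z]),
  (.ofNat 12444897600, [.k, .p, .y, .z, .z, .z], []),
  (.negSucc 3529684799, [.p], [.p]),
  (.negSucc 9458539199, [.p, .k, .k, .k, .k, .p], []),
  (.ofNat 21635827200, [.p, .k, .k, .k, .p], []),
  (.ofNat 20291169600, [.p, .k, .k, .k, .y], [.z]),
  (.negSucc 6732662399, [.p, .k, .k, .k, .y, .z], []),
  (.ofNat 58899405600, [.p, .k, .k, .p], []),
  (.negSucc 1822665599, [.p, .k, .k, .p], [.p, .p]),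
  (.ofNat 81838569600, [.p, .k, .k, .p], [.y, .y]),
  (.negSucc 621489599, [.p, .k, .k, .p, .p], [.p]),
  (.ofNat 1597939200, [.p, .k, .k, .p, .p, .p], []),
  (.negSucc 18850219199, [.p, .k, .k, .p, .y], [.y]),
  (.negSucc 6650769599, [.p, .k, .k, .p, .y, .y], []),
  (.negSucc 13067495999, [.p, .k, .k, .y], [.p, .y]),
  (.ofNat 5984971200, [.p, .k, .k, .y], [.y, .p]),
  (.ofNat 32243673600, [.p, .k, .k, .y], [.z]),
  (.negSucc 21133396799, [.p, .k, .k, .y, .k, .z], []),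
  (.negSucc 1814327999, [.p, .k, .k, .y, .p], [.y]),
  (.ofNat 3610828800, [.p, .k, .k, .y, .p, .y], []),
  (.negSucc 22993444799, [.p, .k, .k, .y, .y], [.p]),
  (.ofNat 12803817600, [.p, .k, .k, .y, .y, .p], []),
  (.ofNat 3009672000, [.p, .k, .k, .y, .z], []),
  (.negSucc 31728556799, [.p, .k, .p], []),
  (.negSucc 23848459199, [.p, .k, .p], [.p, .p]),
  (.ofNat 18336412800, [.p, .k, .p], [.p, .y, .z]),
  (.ofNat 9946065600, [.p, .k, .p], [.y, .k, .y]),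
  (.ofNat 4042929600, [.p, .k, .p], [.y, .p, .z]),
  (.negSucc 22969036799, [.p, .k, .p], [.y, .y]),
  (.negSucc 2510308799, [.p, .k, .p, .k, .y], [.y]),
  (.negSucc 17655868799, [.p, .k, .p, .p], [.p]),
  (.negSucc 42182927999, [.p, .k, .p, .p], [.y, .z]),
  (.ofNat 28731657600, [.p, .k, .p, .p, .p], []),
  (.ofNat 17645227200, [.p, .k, .p, .p, .y], [.z]),
  (.ofNat 7258636800, [.p, .k, .p, .y], [.p, .z]),
  (.negSucc 13519742399, [.p, .k, .p, .y], [.y]),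
  (.negSucc 4929292799, [.p, .k, .p, .y], [.z, .p]),
  (.ofNat 8121672000, [.p, .k, .p, .y, .p], [.z]),
  (.ofNat 6415876800, [.p, .k, .p, .y, .y], []),
  (.negSucc 13319985599, [.p, .k, .y], [.p, .k, .y]),
  (.negSucc 23353459199, [.p, .k, .y], [.p, .p, .z]),
  (.ofNat 57644712000, [.p, .k, .y], [.p, .y]),
  (.negSucc 11820225599, [.p, .k, .y], [.p, .z, .p]),
  (.ofNat 29020536000, [.p, .k, .y], [.y, .p]),
  (.negSucc 10122983999, [.p, .k, .y], [.y, .y, .z]),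
  (.negSucc 56714011199, [.p, .k, .y], [.z]),
  (.negSucc 8071905599, [.p, .k, .y], [.z, .z, .z]),
  (.ofNat 10222401600, [.p, .k, .y, .k, .p], [.y]),
  (.ofNat 10632297600, [.p, .k, .y, .k, .p, .y], []),
  (.ofNat 17616643200, [.p, .k, .y, .k, .y, .p], []),
  (.negSucc 901799999, [.p, .k, .y, .k, .z], []),
  (.ofNat 1461312000, [.p, .k, .y, .p], [.p, .z]),
  (.ofNat 34509528000, [.p, .k, .y, .p], [.y]),
  (.negSucc 18410759999, [.p, .k, .y, .p], [.z, .p]),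
  (.negSucc 2216318399, [.p, .k, .y, .p, .k, .y], []),
  (.ofNat 15825254400, [.p, .k, .y, .p, .p], [.z]),
  (.ofNat 4561142400, [.p, .k, .y, .p, .p, .z], []),
  (.ofNat 6040252800, [.p, .k, .y, .p, .y], []),
  (.ofNat 12303907200, [.p, .k, .y, .p, .z], [.p]),
  (.ofNat 7273152000, [.p, .k, .y, .p, .z, .p], []),
  (.ofNat 12620088000, [.p, .k, .y, .y], [.p]),
  (.negSucc 7203383999, [.p, .k, .y, .y], [.y, .z]),
  (.ofNat 2842257600, [.p, .k, .y, .y], [.z, .y]),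
  (.ofNat 35063812800, [.p, .k, .y, .y, .k, .p], []),
  (.negSucc 20147025599, [.p, .k, .y, .y, .p], []),
  (.negSucc 19278633599, [.p, .k, .y, .y, .y], [.z]),
  (.ofNat 12367987200, [.p, .k, .y, .y, .y, .z], []),
  (.ofNat 4386168000, [.p, .k, .y, .y, .z], [.y]),
  (.ofNat 4046659200, [.p, .k, .y, .y, .z, .y], []),
  (.ofNat 12907195200, [.p, .k, .y, .z], []),
  (.ofNat 17592084000, [.p, .k, .y, .z], [.p, .p]),
  (.ofNat 68453827200, [.p, .k, .y, .z], [.y, .y]),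
  (.ofNat 9378100800, [.p, .k, .y, .z], [.z, .z]),
  (.ofNat 1281600000, [.p, .k, .y, .z, .p], [.p]),
  (.negSucc 23380617599, [.p, .k, .y, .z, .p, .p], []),
  (.negSucc 4268203199, [.p, .k, .y, .z, .y], [.y]),
  (.negSucc 10053575999, [.p, .k, .y, .z, .y, .y], []),
  (.negSucc 12357950399, [.p, .k, .y, .z, .z], [.z]),
  (.ofNat 6598684800, [.p, .k, .y, .z, .z, .z], []),
  (.ofNat 5856652800, [.p, .p], []),
  (.ofNat 12596385600, [.p, .p], [.p, .p]),
  (.ofNat 11589624000, [.p, .p], [.p, .y, .p, .y]),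
  (.ofNat 5993740800, [.p, .p], [.p, .y, .y, .p]),
  (.negSucc 49198010399, [.p, .p], [.p, .y, .z]),
  (.ofNat 29219889600, [.p, .p], [.y, .p, .p, .y]),
  (.negSucc 15100790399, [.p, .p], [.y, .p, .z]),
  (.negSucc 16618967999, [.p, .p], [.y, .y]),
  (.ofNat 5050713600, [.p, .p], [.y, .z, .y, .z]),
  (.negSucc 4664721599, [.p, .p], [.y, .z, .z, .y]),
  (.ofNat 14402772000, [.p, .p, .k, .p, .p], []),
  (.ofNat 17483227200, [.p, .p, .k, .p, .y], [.z]),
  (.ofNat 6958396800, [.p, .p, .k, .y, .p], [.z]),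
  (.negSucc 3277180799, [.p, .p, .k, .y, .y], []),
  (.ofNat 4683096000, [.p, .p, .k, .y, .z], [.p]),
  (.ofNat 11323425600, [.p, .p, .p], [.p]),
  (.negSucc 2630563199, [.p, .p, .p], [.p, .p, .p]),
  (.negSucc 987710399, [.p, .p, .p], [.p, .y, .y]),
  (.ofNat 9895017600, [.p, .p, .p], [.y, .p, .y]),
  (.negSucc 11600092799, [.p, .p, .p], [.y, .z]),
  (.negSucc 3246379199, [.p, .p, .p, .k, .y, .z], []),
  (.ofNat 3742351200, [.p, .p, .p, .p], []),
  (.negSucc 302119199, [.p, .p, .p, .p], [.p, .p]),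
  (.ofNat 27520646400, [.p, .p, .p, .p], [.y, .y]),
  (.ofNat 2859825600, [.p, .p, .p, .p, .p], [.p]),
  (.negSucc 1846612799, [.p, .p, .p, .p, .p, .p], []),
  (.negSucc 21279326399, [.p, .p, .p, .p, .y], [.y]),
  (.ofNat 3485203200, [.p, .p, .p, .p, .y, .y], []),
  (.negSucc 9608529599, [.p, .p, .p, .y], [.p, .y]),
  (.ofNat 8476862400, [.p, .p, .p, .y], [.y, .p]),
  (.ofNat 19548216000, [.p, .p, .p, .y], [.z]),
  (.negSucc 8800199999, [.p, .p, .p, .y, .p], [.y]),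
  (.negSucc 3358641599, [.p, .p, .p, .y, .p, .y], []),
  (.negSucc 6553065599, [.p, .p, .p, .y, .y], [.p]),
  (.ofNat 1820620800, [.p, .p, .p, .y, .y, .p], []),
  (.ofNat 4808793600, [.p, .p, .p, .y, .z], []),
  (.ofNat 5505811200, [.p, .p, .y], [.p, .p, .y]),
  (.ofNat 12746016000, [.p, .p, .y], [.p, .y, .p]),
  (.negSucc 52735175999, [.p, .p, .y], [.p, .z]),
  (.ofNat 57592771200, [.p, .p, .y], [.y]),
  (.ofNat 6214910400, [.p, .p, .y], [.y, .p, .p]),
  (.ofNat 707227200, [.p, .p, .y], [.y, .z, .z]),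
  (.negSucc 16789507199, [.p, .p, .y], [.z, .p]),
  (.ofNat 2427969600, [.p, .p, .y], [.z, .y, .z]),
  (.ofNat 3032640000, [.p, .p, .y], [.z, .z, .y]),
  (.negSucc 719351999, [.p, .p, .y, .k, .p, .z], []),
  (.negSucc 4935398399, [.p, .p, .y, .k, .z, .p], []),
  (.ofNat 7259947200, [.p, .p, .y, .p], [.p, .y]),
  (.ofNat 14428339200, [.p, .p, .y, .p], [.y, .p]),
  (.negSucc 19699286399, [.p, .p, .y, .p], [.z]),
  (.negSucc 4880246399, [.p, .p, .y, .p, .p], [.y]),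
  (.negSucc 2145110399, [.p, .p, .y, .p, .p, .y], []),
  (.negSucc 7524921599, [.p, .p, .y, .p, .y], [.p]),
  (.negSucc 5047660799, [.p, .p, .y, .p, .y, .p], []),
  (.negSucc 4599503999, [.p, .p, .y, .p, .z], []),
  (.ofNat 5139936000, [.p, .p, .y, .y], []),
  (.negSucc 8831505599, [.p, .p, .y, .y], [.p, .p]),
  (.ofNat 3017822400, [.p, .p, .y, .y], [.z, .z]),
  (.negSucc 10698724799, [.p, .p, .y, .y, .p], [.p]),
  (.ofNat 12556159200, [.p, .p, .y, .y, .p, .p], []),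
  (.negSucc 5081543999, [.p, .p, .y, .y, .z], [.z]),
  (.negSucc 208022399, [.p, .p, .y, .y, .z, .z], []),
  (.negSucc 6681398399, [.p, .p, .y, .z], [.p]),
  (.negSucc 6636657599, [.p, .p, .y, .z], [.y, .z]),
  (.ofNat 661867200, [.p, .p, .y, .z], [.z, .y]),
  (.ofNat 23206464000, [.p, .p, .y, .z, .p], []),
  (.negSucc 2508623999, [.p, .p, .y, .z, .y], [.z]),
  (.negSucc 1247572799, [.p, .p, .y, .z, .y, .z], []),
  (.ofNat 1118851200, [.p, .p, .y, .z, .z], [.y]),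
  (.negSucc 290447999, [.p, .p, .y, .z, .z, .y], []),
  (.negSucc 20212761599, [.p, .y], [.p, .y]),
  (.negSucc 32483231999, [.p, .y], [.y, .p]),
  (.negSucc 32078044799, [.p, .y], [.z]),
  (.ofNat 3407572800, [.p, .y, .k, .k, .p, .y], []),
  (.ofNat 14410288800, [.p, .y, .k, .k, .y, .p], []),
  (.ofNat 2263147200, [.p, .y, .k, .p, .p, .z], []),
  (.ofNat 9456235200, [.p, .y, .k, .p, .y], []),
  (.negSucc 13385015999, [.p, .y, .k, .p, .z], [.p]),
  (.ofNat 15071716800, [.p, .y, .k, .p, .z, .p], []),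
  (.negSucc 2024582399, [.p, .y, .k, .y, .p], []),
  (.ofNat 17998891200, [.p, .y, .k, .y, .y, .z], []),
  (.ofNat 4068691200, [.p, .y, .k, .y, .z], [.y]),
  (.ofNat 301968000, [.p, .y, .k, .y, .z, .y], []),
  (.negSucc 313545599, [.p, .y, .k, .z, .p], [.p]),
  (.negSucc 2537625599, [.p, .y, .p], [.p, .y, .p]),
  (.negSucc 17966678399, [.p, .y, .p], [.p, .z]),
  (.negSucc 10874519999, [.p, .y, .p], [.y]),
  (.ofNat 1326168000, [.p, .y, .p, .p, .p, .y], []),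
  (.negSucc 9845049599, [.p, .y, .p, .p, .y], [.p]),
  (.ofNat 8004348000, [.p, .y, .p, .p, .y, .p], []),
  (.ofNat 13384497600, [.p, .y, .p, .p, .z], []),
  (.negSucc 19735747199, [.p, .y, .p, .y], []),
  (.ofNat 904723200, [.p, .y, .p, .y, .p], [.p]),
  (.ofNat 3042172800, [.p, .y, .p, .y, .z], [.z]),
  (.ofNat 5354798400, [.p, .y, .p, .z], [.p]),
  (.negSucc 111283199, [.p, .y, .p, .z], [.y, .z]),
  (.ofNat 5871254400, [.p, .y, .p, .z], [.z, .y]),
  (.negSucc 5447217599, [.p, .y, .p, .z, .p], []),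
  (.negSucc 3238300799, [.p, .y, .p, .z, .y], [.z]),
  (.ofNat 3105604800, [.p, .y, .p, .z, .y, .z], []),
  (.negSucc 4250030399, [.p, .y, .p, .z, .z, .y], []),
  (.negSucc 11639073599, [.p, .y, .y, .p], []),
  (.ofNat 915998400, [.p, .y, .y, .p, .z], [.z]),
  (.negSucc 4593902399, [.p, .y, .y, .y, .p], [.y]),
  (.negSucc 8487345599, [.p, .y, .y, .y, .y, .p], []),
  (.negSucc 505627199, [.p, .y, .y, .y, .z], []),
  (.negSucc 139319999, [.p, .y, .y, .z], [.p, .z]),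
  (.ofNat 3193272000, [.p, .y, .y, .z], [.y]),
  (.negSucc 2442571199, [.p, .y, .y, .z], [.z, .p]),
  (.ofNat 4563576000, [.p, .y, .y, .z, .p], [.z]),
  (.ofNat 1144425600, [.p, .y, .y, .z, .z, .p], []),
  (.ofNat 30498321600, [.p, .y, .z], []),
  (.ofNat 2075515200, [.p, .y, .z], [.p, .z, .y]),
  (.ofNat 3297772800, [.p, .y, .z], [.y, .z, .p]),
  (.ofNat 2991470400, [.p, .y, .z], [.z, .y, .p]),
  (.negSucc 11127369599, [.p, .y, .z, .p], [.p]),
  (.ofNat 2420294400, [.p, .y, .z, .p], [.z, .y])]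

set_option maxRecDepth 100000 in
theorem cB8 : blkOK locL e8 gB8 wB8 = true := by decide +kernel

end Pool.Agent.H14Z
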