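import Pool.Agent.Lib.H14Z.E9
import Pool.Agent.Lib.H2AF.B9

/-! # Certificate B, block 9 (T2_3, loc, size 17): the word form of the block -/

namespace Pool.Agent.H14Z

open Pool.Agent.H2AF

/-- The value of the block, one word pair per class. -/
def wB9 : E :=
 [(.ofNat 2249510400, [.k], [.p, .k, .k, .p]),
  (.negSucc 1058428799, [.k], [.p, .k, .p]),
  (.negSucc 679708799, [.k], [.p, .k, .p, .p, .p]),
  (.negSucc 679708799, [.k], [.p, .k, .p, .y, .y]),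
  (.ofNat 679708800, [.k], [.p, .k, .y, .p, .y]),
  (.ofNat 679708800, [.k], [.p, .k, .y, .y, .p]),
  (.negSucc 2121955199, [.k], [.p, .k, .y, .z]),
  (.negSucc 2730153599, [.k], [.p, .p]),
  (.ofNat 325152000, [.k], [.p, .p, .k, .p, .p]),
  (.ofNat 325152000, [.k], [.p, .p, .k, .y, .y]),
  (.ofNat 5126400, [.k], [.p, .p, .p, .p]),
  (.ofNat 74160000, [.k], [.p, .p, .p, .y, .z]),
  (.ofNat 556862400, [.k], [.p, .p, .y, .p, .z]),
  (.ofNat 5126400, [.k], [.p, .p, .y, .y]),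
  (.ofNat 482702400, [.k], [.p, .p, .y, .z, .p]),
  (.negSucc 325151999, [.k], [.p, .y, .k, .p, .y]),
  (.negSucc 325151999, [.k], [.p, .y, .k, .y, .p]),
  (.ofNat 261043200, [.k], [.p, .y, .p, .p, .z]),
  (.negSucc 193910399, [.k], [.p, .y, .p, .y]),
  (.ofNat 167601600, [.k], [.p, .y, .p, .z, .p]),
  (.negSucc 784598399, [.k], [.p, .y, .y, .p]),
  (.ofNat 93441600, [.k], [.p, .y, .y, .y, .z]),
  (.ofNat 1837958400, [.k], [.p, .y, .z]),
  (.negSucc 4828463999, [.k, .k], [.k, .p, .p]),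
  (.negSucc 122558399, [.k, .k], [.p, .k, .p]),
  (.ofNat 4151808000, [.k, .k], [.p, .p]),
  (.negSucc 1478390399, [.k, .k], [.p, .p, .p, .p]),
  (.negSucc 1478390399, [.k, .k], [.p, .p, .y, .y]),
  (.ofNat 1478390400, [.k, .k], [.p, .y, .p, .y]),
  (.ofNat 1478390400, [.k, .k], [.p, .y, .y, .p]),
  (.negSucc 966196799, [.k, .k], [.p, .y, .z]),
  (.ofNat 4528785600, [.k, .k, .k], [.p, .p]),
  (.negSucc 5024275199, [.k, .k, .k, .p], [.p]),
  (.negSucc 1003766399, [.k, .k, .p], [.k, .p]),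
  (.ofNat 662428800, [.k, .k, .p], [.p]),
  (.ofNat 1768636800, [.k, .k, .p], [.p, .k]),
  (.negSucc 213292799, [.k, .k, .p], [.p, .p, .p]),
  (.negSucc 213292799, [.k, .k, .p], [.p, .y, .y]),
  (.ofNat 213292800, [.k, .k, .p], [.y, .p, .y]),
  (.ofNat 213292800, [.k, .k, .p], [.y, .y, .p]),
  (.negSucc 7036358399, [.k, .k, .p], [.y, .z]),
  (.ofNat 5065286400, [.k, .k, .p, .k], [.p]),
  (.ofNat 99835200, [.k, .k, .p, .p], [.p, .p]),
  (.ofNat 99835200, [.k, .k, .p, .p], [.y, .y]),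
  (.negSucc 99835199, [.k, .k, .p, .y], [.p, .y]),
  (.negSucc 99835199, [.k, .k, .p, .y], [.y, .p]),
  (.ofNat 4063363200, [.k, .k, .p, .y], [.z]),
  (.negSucc 4838947199, [.k, .p], [.k, .p]),
  (.ofNat 892022400, [.k, .p], [.p]),
  (.negSucc 1368748799, [.k, .p], [.p, .k]),
  (.negSucc 585835199, [.k, .p], [.p, .k, .p, .p]),
  (.ofNat 1182801600, [.k, .p], [.p, .k, .y, .y]),
  (.ofNat 448300800, [.k, .p], [.p, .p, .k, .p]),
  (.negSucc 1620259199, [.k, .p], [.p, .p, .p]),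
  (.ofNat 1908806400, [.k, .p], [.p, .p, .y, .z]),
  (.negSucc 1660665599, [.k, .p], [.p, .y, .k, .y]),
  (.ofNat 1397995200, [.k, .p], [.p, .y, .p, .z]),
  (.negSucc 885657599, [.k, .p], [.p, .y, .y]),
  (.negSucc 194327999, [.k, .p], [.p, .y, .z, .p]),
  (.ofNat 585835200, [.k, .p], [.y, .k, .p, .y]),
  (.negSucc 1182801599, [.k, .p], [.y, .k, .y, .p]),
  (.ofNat 2986934400, [.k, .p], [.y, .k, .z]),
  (.negSucc 448300799, [.k, .p], [.y, .p, .k, .y]),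
  (.negSucc 4377599, [.k, .p], [.y, .p, .p, .z]),
  (.negSucc 645897599, [.k, .p], [.y, .p, .y]),
  (.ofNat 1672876800, [.k, .p], [.y, .p, .z, .p]),
  (.ofNat 1660665600, [.k, .p], [.y, .y, .k, .p]),
  (.negSucc 474998399, [.k, .p], [.y, .y, .p]),
  (.ofNat 650822400, [.k, .p], [.y, .y, .y, .z]),
  (.ofNat 450662400, [.k, .p], [.y, .y, .z, .y]),
  (.negSucc 986659199, [.k, .p], [.y, .z]),
  (.ofNat 1428148800, [.k, .p], [.y, .z, .p, .p]),
  (.negSucc 1019534399, [.k, .p], [.y, .z, .y, .y]),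
  (.negSucc 886751999, [.k, .p], [.y, .z, .z, .z]),
  (.negSucc 3738095999, [.k, .p, .k], [.k, .p]),
  (.ofNat 5197075200, [.k, .p, .k], [.p]),
  (.negSucc 496540799, [.k, .p, .k], [.p, .p, .p]),
  (.ofNat 496540800, [.k, .p, .k], [.y, .p, .y]),
  (.negSucc 4894631999, [.k, .p, .k], [.y, .z]),
  (.negSucc 2148537599, [.k, .p, .k, .k, .p], []),
  (.ofNat 1042416000, [.k, .p, .k, .p], []),
  (.negSucc 3196540799, [.k, .p, .k, .p], [.k]),
  (.ofNat 513331200, [.k, .p, .k, .p], [.p, .p]),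
  (.negSucc 1087084799, [.k, .p, .k, .p], [.y, .y]),
  (.ofNat 3568795200, [.k, .p, .k, .p, .k], []),
  (.negSucc 1660636799, [.k, .p, .k, .p, .p], [.p]),
  (.ofNat 1660636800, [.k, .p, .k, .p, .y], [.y]),
  (.negSucc 513331199, [.k, .p, .k, .y], [.p, .y]),
  (.ofNat 1087084800, [.k, .p, .k, .y], [.y, .p]),
  (.ofNat 80956800, [.k, .p, .k, .y], [.z]),
  (.ofNat 1660636800, [.k, .p, .k, .y, .p], [.y]),
  (.negSucc 1660636799, [.k, .p, .k, .y, .y], [.p]),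
  (.ofNat 1873267200, [.k, .p, .k, .y, .z], []),
  (.ofNat 2329228800, [.k, .p, .p], []),
  (.negSucc 8886729599, [.k, .p, .p], [.k]),
  (.ofNat 2401891200, [.k, .p, .p], [.k, .p, .p]),
  (.negSucc 2426572799, [.k, .p, .p], [.k, .y, .y]),
  (.ofNat 309643200, [.k, .p, .p], [.p, .k, .p]),
  (.ofNat 408816000, [.k, .p, .p], [.p, .p]),
  (.negSucc 1545537599, [.k, .p, .p], [.p, .y, .z]),
  (.negSucc 309643199, [.k, .p, .p], [.y, .k, .y]),
  (.negSucc 626140799, [.k, .p, .p], [.y, .p, .z]),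
  (.negSucc 2374963199, [.k, .p, .p], [.y, .y]),
  (.negSucc 1109908799, [.k, .p, .p], [.y, .z, .p]),
  (.ofNat 5444668800, [.k, .p, .p, .k], []),
  (.ofNat 1875873600, [.k, .p, .p, .k], [.k]),
  (.negSucc 2963217599, [.k, .p, .p, .k], [.p, .p]),
  (.ofNat 3441441600, [.k, .p, .p, .k], [.y, .y]),
  (.ofNat 3572582400, [.k, .p, .p, .k, .p], [.p]),
  (.negSucc 1116187199, [.k, .p, .p, .k, .p, .p], []),
  (.negSucc 1451692799, [.k, .p, .p, .k, .y], [.y]),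
  (.negSucc 1116187199, [.k, .p, .p, .k, .y, .y], []),
  (.ofNat 2884939200, [.k, .p, .p, .p], [.k, .p]),
  (.negSucc 6091199, [.k, .p, .p, .p], [.p]),
  (.ofNat 1104004800, [.k, .p, .p, .p], [.p, .k]),
  (.ofNat 361065600, [.k, .p, .p, .p], [.y, .z]),
  (.negSucc 2532643199, [.k, .p, .p, .p, .k], [.p]),
  (.ofNat 1074268800, [.k, .p, .p, .p, .k, .p], []),
  (.ofNat 392040000, [.k, .p, .p, .p, .p], []),
  (.ofNat 2469600000, [.k, .p, .p, .p, .p], [.k]),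
  (.negSucc 1784397599, [.k, .p, .p, .p, .p, .k], []),
  (.ofNat 1689235200, [.k, .p, .p, .p, .y], [.z]),
  (.negSucc 936633599, [.k, .p, .p, .p, .y, .z], []),
  (.ofNat 381268800, [.k, .p, .p, .y], [.k, .y]),
  (.negSucc 1734739199, [.k, .p, .p, .y], [.p, .z]),
  (.ofNat 3162542400, [.k, .p, .p, .y], [.y]),
  (.ofNat 1104004800, [.k, .p, .p, .y], [.y, .k]),
  (.ofNat 3063744000, [.k, .p, .p, .y], [.z, .p]),
  (.ofNat 1074268800, [.k, .p, .p, .y, .k, .y], []),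
  (.ofNat 3876984000, [.k, .p, .p, .y, .p], [.z]),
  (.negSucc 996825599, [.k, .p, .p, .y, .p, .z], []),
  (.ofNat 392040000, [.k, .p, .p, .y, .y], []),
  (.ofNat 2469600000, [.k, .p, .p, .y, .y], [.k]),
  (.negSucc 1784397599, [.k, .p, .p, .y, .y, .k], []),
  (.negSucc 1875614399, [.k, .p, .p, .y, .z], [.p]),
  (.negSucc 60191999, [.k, .p, .p, .y, .z, .p], []),
  (.negSucc 2401891199, [.k, .p, .y], [.k, .p, .y]),
  (.ofNat 2426572800, [.k, .p, .y], [.k, .y, .p]),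
  (.ofNat 8217014400, [.k, .p, .y], [.k, .z]),
  (.negSucc 309643199, [.k, .p, .y], [.p, .k, .y]),
  (.ofNat 642326400, [.k, .p, .y], [.p, .p, .z]),
  (.ofNat 523382400, [.k, .p, .y], [.p, .y]),
  (.negSucc 1397447999, [.k, .p, .y], [.p, .z, .p]),
  (.ofNat 309643200, [.k, .p, .y], [.y, .k, .p]),
  (.ofNat 39081600, [.k, .p, .y], [.y, .p]),
  (.negSucc 257169599, [.k, .p, .y], [.y, .y, .z]),
  (.ofNat 1288368000, [.k, .p, .y], [.y, .z, .y]),
  (.negSucc 1270799999, [.k, .p, .y], [.z]),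
  (.ofNat 3550579200, [.k, .p, .y], [.z, .k]),
  (.negSucc 1268467199, [.k, .p, .y], [.z, .p, .p]),
  (.ofNat 692798400, [.k, .p, .y], [.z, .y, .y]),
  (.ofNat 405259200, [.k, .p, .y], [.z, .z, .z]),
  (.ofNat 2963217600, [.k, .p, .y, .k], [.p, .y]),
  (.negSucc 3441441599, [.k, .p, .y, .k], [.y, .p]),
  (.negSucc 6941159999, [.k, .p, .y, .k], [.z]),
  (.negSucc 3572582399, [.k, .p, .y, .k, .p], [.y]),
  (.ofNat 1116187200, [.k, .p, .y, .k, .p, .y], []),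
  (.ofNat 1451692800, [.k, .p, .y, .k, .y], [.p]),
  (.ofNat 1116187200, [.k, .p, .y, .k, .y, .p], []),
  (.ofNat 2148537600, [.k, .p, .y, .k, .z], []),
  (.negSucc 2884939199, [.k, .p, .y, .p], [.k, .y]),
  (.negSucc 1894391999, [.k, .p, .y, .p], [.p, .z]),
  (.ofNat 2218132800, [.k, .p, .y, .p], [.y]),
  (.negSucc 1104004799, [.k, .p, .y, .p], [.y, .k]),
  (.ofNat 2452075200, [.k, .p, .y, .p], [.z, .p]),
  (.ofNat 2532643200, [.k, .p, .y, .p, .k], [.y]),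
  (.negSucc 1074268799, [.k, .p, .y, .p, .k, .y], []),
  (.ofNat 964684800, [.k, .p, .y, .p, .p], [.z]),
  (.negSucc 119361599, [.k, .p, .y, .p, .p, .z], []),
  (.negSucc 153316799, [.k, .p, .y, .p, .y], []),
  (.negSucc 2469599999, [.k, .p, .y, .p, .y], [.k]),
  (.ofNat 1784397600, [.k, .p, .y, .p, .y, .k], []),
  (.negSucc 667353599, [.k, .p, .y, .p, .z], [.p]),
  (.negSucc 1055995199, [.k, .p, .y, .p, .z, .p], []),
  (.negSucc 381268799, [.k, .p, .y, .y], [.k, .p]),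
  (.negSucc 1298289599, [.k, .p, .y, .y], [.p]),
  (.negSucc 1104004799, [.k, .p, .y, .y], [.p, .k]),
  (.ofNat 326808000, [.k, .p, .y, .y], [.y, .z]),
  (.negSucc 1404532799, [.k, .p, .y, .y], [.z, .y]),
  (.negSucc 1074268799, [.k, .p, .y, .y, .k, .p], []),
  (.ofNat 1719950400, [.k, .p, .y, .y, .p], []),
  (.negSucc 2469599999, [.k, .p, .y, .y, .p], [.k]),
  (.ofNat 1784397600, [.k, .p, .y, .y, .p, .k], []),
  (.negSucc 695951999, [.k, .p, .y, .y, .y], [.z]),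
  (.negSucc 119361599, [.k, .p, .y, .y, .y, .z], []),
  (.ofNat 815472000, [.k, .p, .y, .y, .z], [.y]),
  (.negSucc 1055995199, [.k, .p, .y, .y, .z, .y], []),
  (.negSucc 785519999, [.k, .p, .y, .z], []),
  (.ofNat 3728707200, [.k, .p, .y, .z], [.k]),
  (.ofNat 1012939200, [.k, .p, .y, .z], [.p, .p]),
  (.ofNat 1858881600, [.k, .p, .y, .z], [.y, .y]),
  (.ofNat 1764201600, [.k, .p, .y, .z], [.z, .z]),
  (.negSucc 3568795199, [.k, .p, .y, .z, .k], []),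
  (.ofNat 1520395200, [.k, .p, .y, .z, .p], [.p]),
  (.negSucc 1116187199, [.k, .p, .y, .z, .p, .p], []),
  (.negSucc 1060142399, [.k, .p, .y, .z, .y], [.y]),
  (.negSucc 1116187199, [.k, .p, .y, .z, .y, .y], []),
  (.negSucc 1660636799, [.k, .p, .y, .z, .z], [.z]),
  (.negSucc 1691999999, [.p], [.p]),
  (.ofNat 1944907200, [.p, .k, .k, .k, .p], []),
  (.ofNat 539092800, [.p, .k, .k, .p], []),
  (.negSucc 1075586399, [.p, .k, .k, .p], [.p, .p]),
  (.ofNat 1075586400, [.p, .k, .k, .p], [.y, .y]),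
  (.ofNat 1233705600, [.p, .k, .k, .p, .p], [.p]),
  (.negSucc 1233705599, [.p, .k, .k, .p, .y], [.y]),
  (.ofNat 1075586400, [.p, .k, .k, .y], [.p, .y]),
  (.negSucc 1075586399, [.p, .k, .k, .y], [.y, .p]),
  (.ofNat 2871129600, [.p, .k, .k, .y], [.z]),
  (.negSucc 1233705599, [.p, .k, .k, .y, .p], [.y]),
  (.ofNat 1233705600, [.p, .k, .k, .y, .y], [.p]),
  (.negSucc 2916691199, [.p, .k, .k, .y, .z], []),
  (.negSucc 471326399, [.p, .k, .p], []),
  (.negSucc 753508799, [.p, .k, .p], [.p, .k, .p]),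
  (.ofNat 191793600, [.p, .k, .p], [.p, .p]),
  (.ofNat 1281600, [.p, .k, .p], [.p, .y, .z]),
  (.ofNat 753508800, [.p, .k, .p], [.y, .k, .y]),
  (.negSucc 985867199, [.p, .k, .p], [.y, .p, .z]),
  (.negSucc 420998399, [.p, .k, .p], [.y, .y]),
  (.negSucc 822340799, [.p, .k, .p, .k, .p], [.p]),
  (.ofNat 806529600, [.p, .k, .p, .k, .p, .p], []),
  (.ofNat 806529600, [.p, .k, .p, .k, .y, .y], []),
  (.ofNat 633801600, [.p, .k, .p, .p], [.p]),
  (.negSucc 961257599, [.p, .k, .p, .p], [.y, .z]),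
  (.negSucc 972453599, [.p, .k, .p, .p, .k, .p], []),
  (.ofNat 341424000, [.p, .k, .p, .p, .p], []),
  (.negSucc 1942271999, [.p, .k, .p, .p, .y], [.z]),
  (.ofNat 1458345600, [.p, .k, .p, .p, .y, .z], []),
  (.ofNat 1271332800, [.p, .k, .p, .y], [.p, .z]),
  (.ofNat 1914854400, [.p, .k, .p, .y], [.y]),
  (.negSucc 2514571199, [.p, .k, .p, .y], [.z, .p]),
  (.negSucc 972453599, [.p, .k, .p, .y, .k, .y], []),
  (.negSucc 2519740799, [.p, .k, .p, .y, .p], [.z]),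
  (.ofNat 847656000, [.p, .k, .p, .y, .p, .z], []),
  (.ofNat 341424000, [.p, .k, .p, .y, .y], []),
  (.ofNat 1316937600, [.p, .k, .p, .y, .z], [.p]),
  (.negSucc 610689599, [.p, .k, .p, .y, .z, .p], []),
  (.ofNat 753508800, [.p, .k, .y], [.p, .k, .y]),
  (.negSucc 514137599, [.p, .k, .y], [.p, .p, .z]),
  (.ofNat 403819200, [.p, .k, .y], [.p, .y]),
  (.negSucc 1456315199, [.p, .k, .y], [.p, .z, .p]),
  (.negSucc 753508799, [.p, .k, .y], [.y, .k, .p]),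
  (.negSucc 576244799, [.p, .k, .y], [.y, .p]),
  (.ofNat 1457596800, [.p, .k, .y], [.y, .y, .z]),
  (.ofNat 464054400, [.p, .k, .y], [.z]),
  (.negSucc 471729599, [.p, .k, .y], [.z, .z, .z]),
  (.ofNat 822340800, [.p, .k, .y, .k, .p], [.y]),
  (.negSucc 806529599, [.p, .k, .y, .k, .p, .y], []),
  (.negSucc 806529599, [.p, .k, .y, .k, .y, .p], []),
  (.negSucc 1944907199, [.p, .k, .y, .k, .z], []),
  (.ofNat 1055448000, [.p, .k, .y, .p], [.p, .z]),
  (.negSucc 2652422399, [.p, .k, .y, .p], [.y]),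
  (.negSucc 2053281599, [.p, .k, .y, .p], [.z, .p]),
  (.ofNat 972453600, [.p, .k, .y, .p, .k, .y], []),
  (.negSucc 545169599, [.p, .k, .y, .p, .p], [.z]),
  (.negSucc 41126399, [.p, .k, .y, .p, .p, .z], []),
  (.negSucc 259171199, [.p, .k, .y, .p, .y], []),
  (.negSucc 20030399, [.p, .k, .y, .p, .z], [.p]),
  (.ofNat 1417219200, [.p, .k, .y, .p, .z, .p], []),
  (.ofNat 3651350400, [.p, .k, .y, .y], [.p]),
  (.negSucc 604180799, [.p, .k, .y, .y], [.y, .z]),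
  (.ofNat 1073995200, [.p, .k, .y, .y], [.z, .y]),
  (.ofNat 972453600, [.p, .k, .y, .y, .k, .p], []),
  (.negSucc 3175862399, [.p, .k, .y, .y, .p], []),
  (.ofNat 688536000, [.p, .k, .y, .y, .y], [.z]),
  (.negSucc 41126399, [.p, .k, .y, .y, .y, .z], []),
  (.negSucc 1130414399, [.p, .k, .y, .y, .z], [.y]),
  (.ofNat 1417219200, [.p, .k, .y, .y, .z, .y], []),
  (.ofNat 837043200, [.p, .k, .y, .z], []),
  (.negSucc 306748799, [.p, .k, .y, .z], [.p, .p]),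
  (.negSucc 1240905599, [.p, .k, .y, .z], [.y, .y]),
  (.negSucc 973900799, [.p, .k, .y, .z], [.z, .z]),
  (.negSucc 597499199, [.p, .k, .y, .z, .p], [.p]),
  (.ofNat 806529600, [.p, .k, .y, .z, .p, .p], []),
  (.ofNat 186523200, [.p, .k, .y, .z, .y], [.y]),
  (.ofNat 806529600, [.p, .k, .y, .z, .y, .y], []),
  (.ofNat 1233705600, [.p, .k, .y, .z, .z], [.z]),
  (.ofNat 1766692800, [.p, .p], []),
  (.ofNat 235504800, [.p, .p], [.p, .p]),
  (.ofNat 606715200, [.p, .p], [.p, .y, .p, .y]),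
  (.ofNat 753328800, [.p, .p], [.p, .y, .y, .p]),
  (.negSucc 563875199, [.p, .p], [.p, .y, .z]),
  (.ofNat 818539200, [.p, .p], [.y, .p, .p, .y]),
  (.ofNat 1179979200, [.p, .p], [.y, .p, .z]),
  (.negSucc 1618063199, [.p, .p], [.y, .y]),
  (.ofNat 1842753600, [.p, .p], [.y, .z, .y, .z]),
  (.ofNat 2178511200, [.p, .p], [.y, .z, .z, .y]),
  (.negSucc 684316799, [.p, .p, .k, .k, .p, .p], []),
  (.negSucc 684316799, [.p, .p, .k, .k, .y, .y], []),
  (.negSucc 366379199, [.p, .p, .k, .p, .p], []),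
  (.ofNat 2109844800, [.p, .p, .k, .p, .y], [.z]),
  (.negSucc 925833599, [.p, .p, .k, .p, .y, .z], []),
  (.ofNat 2439446400, [.p, .p, .k, .y, .p], [.z]),
  (.negSucc 1291737599, [.p, .p, .k, .y, .p, .z], []),
  (.negSucc 366379199, [.p, .p, .k, .y, .y], []),
  (.ofNat 329601600, [.p, .p, .k, .y, .z], [.p]),
  (.negSucc 365903999, [.p, .p, .k, .y, .z, .p], []),
  (.negSucc 919598399, [.p, .p, .p], [.p]),
  (.negSucc 351489599, [.p, .p, .p], [.p, .y, .y]),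
  (.ofNat 286272000, [.p, .p, .p], [.y, .p, .y]),
  (.negSucc 1358668799, [.p, .p, .p], [.y, .z]),
  (.ofNat 799430400, [.p, .p, .p, .p], []),
  (.ofNat 579369600, [.p, .p, .p, .p], [.y, .y]),
  (.negSucc 222897599, [.p, .p, .p, .p, .y], [.y]),
  (.negSucc 401126399, [.p, .p, .p, .y], [.p, .y]),
  (.ofNat 85665600, [.p, .p, .p, .y], [.y, .p]),
  (.ofNat 2594059200, [.p, .p, .p, .y], [.z]),
  (.ofNat 592027200, [.p, .p, .p, .y, .p], [.y]),
  (.negSucc 110188799, [.p, .p, .p, .y, .z], []),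
  (.negSucc 346348799, [.p, .p, .y], [.p, .p, .y]),
  (.negSucc 76982399, [.p, .p, .y], [.p, .y, .p]),
  (.ofNat 741052800, [.p, .p, .y], [.p, .z]),
  (.ofNat 1153756800, [.p, .p, .y], [.y]),
  (.ofNat 351489600, [.p, .p, .y], [.y, .z, .z]),
  (.ofNat 483004800, [.p, .p, .y], [.z, .p]),
  (.negSucc 428471999, [.p, .p, .y], [.z, .y, .z]),
  (.negSucc 532007999, [.p, .p, .y], [.z, .z, .y]),
  (.negSucc 1368633599, [.p, .p, .y, .k, .p, .z], []),
  (.negSucc 1368633599, [.p, .p, .y, .k, .z, .p], []),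
  (.negSucc 666043199, [.p, .p, .y, .p], [.p, .y]),
  (.ofNat 30384000, [.p, .p, .y, .p], [.y, .p]),
  (.ofNat 609624000, [.p, .p, .y, .p], [.z]),
  (.ofNat 602870400, [.p, .p, .y, .p, .p], [.y]),
  (.ofNat 76896000, [.p, .p, .y, .p, .p, .y], []),
  (.negSucc 904103999, [.p, .p, .y, .p, .y], [.p]),
  (.ofNat 1002729600, [.p, .p, .y, .p, .y, .p], []),
  (.negSucc 867239999, [.p, .p, .y, .p, .z], []),
  (.ofNat 799430400, [.p, .p, .y, .y], []),
  (.negSucc 99835199, [.p, .p, .y, .y], [.p, .p]),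
  (.negSucc 479534399, [.p, .p, .y, .y], [.z, .z]),
  (.negSucc 1233705599, [.p, .p, .y, .y, .p], [.p]),
  (.ofNat 684316800, [.p, .p, .y, .y, .p, .p], []),
  (.ofNat 1456603200, [.p, .p, .y, .y, .z], [.z]),
  (.negSucc 684316799, [.p, .p, .y, .y, .z, .z], []),
  (.ofNat 895766400, [.p, .p, .y, .z], [.p]),
  (.negSucc 6062399, [.p, .p, .y, .z], [.y, .z]),
  (.ofNat 1040846400, [.p, .p, .y, .z], [.z, .y]),
  (.negSucc 757051199, [.p, .p, .y, .z, .p], []),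
  (.ofNat 312076800, [.p, .p, .y, .z, .y], [.z]),
  (.negSucc 1002729599, [.p, .p, .y, .z, .y, .z], []),
  (.negSucc 602870399, [.p, .p, .y, .z, .z], [.y]),
  (.negSucc 76895999, [.p, .p, .y, .z, .z, .y], []),
  (.negSucc 25869599, [.p, .y], [.p, .y]),
  (.ofNat 342784800, [.p, .y], [.y, .p]),
  (.negSucc 1007539199, [.p, .y], [.z]),
  (.ofNat 684316800, [.p, .y, .k, .k, .p, .y], []),
  (.ofNat 684316800, [.p, .y, .k, .k, .y, .p], []),
  (.negSucc 76895999, [.p, .y, .k, .p, .p, .z], []),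
  (.ofNat 203774400, [.p, .y, .k, .p, .y], []),
  (.ofNat 2137809600, [.p, .y, .k, .p, .z], [.p]),
  (.negSucc 1002729599, [.p, .y, .k, .p, .z, .p], []),
  (.negSucc 1553212799, [.p, .y, .k, .y, .p], []),
  (.negSucc 76895999, [.p, .y, .k, .y, .y, .z], []),
  (.ofNat 904104000, [.p, .y, .k, .y, .z], [.y]),
  (.negSucc 1002729599, [.p, .y, .k, .y, .z, .y], []),
  (.ofNat 1233705600, [.p, .y, .k, .z, .p], [.p]),
  (.ofNat 261216000, [.p, .y, .p], [.p, .y, .p]),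
  (.ofNat 943257600, [.p, .y, .p], [.p, .z]),
  (.ofNat 668174400, [.p, .y, .p], [.y]),
  (.ofNat 547488000, [.p, .y, .p], [.z, .y, .z]),
  (.ofNat 81302400, [.p, .y, .p, .p, .p, .y], []),
  (.negSucc 1549555199, [.p, .y, .p, .p, .y], [.p]),
  (.ofNat 845013600, [.p, .y, .p, .p, .y, .p], []),
  (.ofNat 321379200, [.p, .y, .p, .p, .z], []),
  (.negSucc 1079107199, [.p, .y, .p, .y], []),
  (.negSucc 1008863999, [.p, .y, .p, .y, .p], [.p]),
  (.negSucc 1127001599, [.p, .y, .p, .y, .z], [.z]),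
  (.ofNat 197452800, [.p, .y, .p, .z], [.p]),
  (.negSucc 849427199, [.p, .y, .p, .z], [.y, .z]),
  (.negSucc 722044799, [.p, .y, .p, .z], [.z, .y]),
  (.ofNat 253857600, [.p, .y, .p, .z, .p], []),
  (.ofNat 1114156800, [.p, .y, .p, .z, .y], [.z]),
  (.negSucc 845013599, [.p, .y, .p, .z, .y, .z], []),
  (.negSucc 81302399, [.p, .y, .p, .z, .z, .y], []),
  (.negSucc 1206417599, [.p, .y, .y, .p], []),
  (.negSucc 2882836799, [.p, .y, .y, .p, .z], [.z]),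
  (.ofNat 83908800, [.p, .y, .y, .y, .p], [.y]),
  (.negSucc 114782399, [.p, .y, .y, .y, .y, .p], []),
  (.ofNat 1824508800, [.p, .y, .y, .y, .z], []),
  (.ofNat 203882400, [.p, .y, .y, .z], [.p, .z]),
  (.ofNat 702331200, [.p, .y, .y, .z], [.y]),
  (.negSucc 838994399, [.p, .y, .y, .z], [.z, .p]),
  (.negSucc 641678399, [.p, .y, .y, .z, .p], [.z]),
  (.negSucc 114782399, [.p, .y, .y, .z, .z, .p], []),
  (.ofNat 904651200, [.p, .y, .z], []),
  (.negSucc 85132799, [.p, .y, .z], [.p, .y, .z]),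
  (.ofNat 103536000, [.p, .y, .z], [.p, .z, .y]),
  (.ofNat 76982400, [.p, .y, .z], [.y, .z, .p]),
  (.negSucc 261215999, [.p, .y, .z], [.z, .y, .p]),
  (.ofNat 610372800, [.p, .y, .z, .p], [.p]),
  (.ofNat 152496000, [.p, .y, .z, .p], [.y, .z]),
  (.negSucc 815428799, [.p, .y, .z, .p], [.z, .y]),
  (.negSucc 946684799, [.p, .y, .z, .p, .y], [.z]),
  (.ofNat 921909600, [.p, .y, .z, .p, .y, .z], []),
  (.ofNat 1160928000, [.p, .y, .z, .p, .z, .y], []),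
  (.negSucc 489902399, [.p, .y, .z, .y, .p], [.z]),
  (.ofNat 1117512000, [.p, .y, .z, .y, .z, .p], []),
  (.ofNat 765619200, [.p, .y, .z, .z, .p, .y], []),
  (.ofNat 1644112800, [.p, .y, .z, .z, .y, .p], [])]

set_option maxRecDepth 100000 in
theorem cB9 : blkOK locL e9 gB9 wB9 = true := by decide +kernel

end Pool.Agent.H14Z
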