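import Pool.Agent.Lib.H14Z.B
import Pool.Agent.Lib.H95P.P5
import Pool.Agent.Lib.H75C.C9

/-! # The bridge to the functional `H75C.LL` -/

namespace Pool.Agent.H14Z

open Finset Pool.Agent.H2AF Pool.Agent.H75C Matrix

/-- The letters as elements of `Fin 4`. -/
def toF : Le → Fin 4
  | .k => 0
  | .p => 1
  | .y => 2
  | .z => 3

/-- Words. -/
def cv (w : Wo) : Wd := w.map toF

/-- Elements. -/
def cvE (z : E) : El := z.map fun t => (t.1, cv t.2.1, cv t.2.2)

theorem cv_app (u v : Wo) : cv (u ++ v) = cv u ++ cv v := by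
  unfold cv
  rw [List.map_append]

theorem cv_rev (u : Wo) : cv u.reverse = (cv u).reverse := by
  unfold cv
  rw [List.map_reverse]

theorem cv_cnt (w : Wo) : (cv w).count 1 = na w ∧ (cv w).count 2 = nb w ∧
    (cv w).count 3 = nc w := by
  induction w with
  | nil => exact ⟨rfl, rfl, rfl⟩
  | cons l w ih =>
    obtain ⟨h1, h2, h3⟩ := ih
    have h : cv (l :: w) = toF l :: cv w := rfl
    rw [h]
    simp only [List.count_cons, h1, h2, h3]
    cases l <;> simp [toF, na, nb, nc]

theorem cv_p3 (w : Wo) : cv (w.map p3) = (cv w).map H95P.p3 := by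
  unfold cv
  rw [List.map_map, List.map_map]
  refine List.map_congr_left fun l _ => ?_
  cases l <;> rfl

theorem cv_p4 (w : Wo) : cv (w.map p4) = (cv w).map H95P.p4 := by
  unfold cv
  rw [List.map_map, List.map_map]
  refine List.map_congr_left fun l _ => ?_
  cases l <;> rfl

theorem sg_cv (w : Wo) : H75C.sg (cv w) = (-1) ^ nb w := by
  induction w with
  | nil => rfl
  | cons l w ih =>
    have h : cv (l :: w) = toF l :: cv w := rfl
    rw [h, H75C.sg, ih]
    cases l <;> simp [toF, nb, pow_succ]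

theorem lin_cvE (f : Wd → Wd → ℝ) (z : E) :
    H75C.lin f (cvE z) = lin (fun u v => f (cv u) (cv v)) z := by
  induction z with
  | nil => rfl
  | cons t z ih =>
    have h : cvE (t :: z) = (t.1, cv t.2.1, cv t.2.2) :: cvE z := rfl
    rw [h, H75C.lin_cons, ih]
    rfl

/-- The functional on the words of `H14Z`. -/
noncomputable def LF {ι κ : Type*} [Fintype ι] [DecidableEq ι] [Fintype κ]
    (δ : H92U.Design 2 12) (B : Fin 2 → Matrix κ ι ℂ) (X : Matrix ι ι ℂ) (u v : Wo) : ℝ :=
  LL δ B X (cv u) (cv v)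

theorem sy_LF {ι κ : Type*} [Fintype ι] [DecidableEq ι] [Fintype κ]
    (δ : H92U.Design 2 12) (B : Fin 2 → Matrix κ ι ℂ) {X : Matrix ι ι ℂ} (hX : X.IsHermitian) :
    Sy (LF δ B X) := by
  have hlen : ∀ w : Wo, (cv w).length = w.length := fun w => by
    unfold cv
    rw [List.length_map]
  have hD : ∀ u v : Wo, u.length + v.length ≤ 6 → 2 * ((cv u).length + (cv v).length) ≤ 12 := by
    intro u v h
    rw [hlen, hlen]
    omega
  constructor
  · intro u v
    exact H95P.LL_comm δ X B _ _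
  · intro u v
    unfold LF
    rw [H95P.LL_rev δ hX B, cv_rev, cv_rev, sg_cv, sg_cv, ← pow_add]
    push_cast
    rfl
  · intro u v hl h
    unfold LF
    refine H95P.LL_zero δ X B _ _ (hD u v hl) (Or.inl ?_)
    rw [(cv_cnt u).1, (cv_cnt v).1, (cv_cnt u).2.1, (cv_cnt v).2.1]
    omega
  · intro u v hl h
    unfold LF
    refine H95P.LL_zero δ X B _ _ (hD u v hl) (Or.inr ?_)
    rw [(cv_cnt u).1, (cv_cnt v).1, (cv_cnt u).2.2, (cv_cnt v).2.2]
    omega
  · intro u v hl
    unfold LF
    rw [H95P.LL_PZ δ X B _ _ (hD u v hl), cv_p3, cv_p3, (cv_cnt u).1, (cv_cnt v).1]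
  · intro u v hl t ht
    unfold LF
    rw [H95P.LL_PY δ X B _ _ (hD u v hl), cv_p4, cv_p4, (cv_cnt u).1, (cv_cnt v).1,
      (cv_cnt u).2.1, (cv_cnt v).2.1, ht]
    congr 2
    omega

/-! ### the kernel products -/

theorem sgn_eq (w : Wo) : sgn w = H75C.sg (cv w) := by
  rw [sg_cv]
  induction w with
  | nil => rfl
  | cons l w ih =>
    cases l
    · exact ih
    · exact ih
    · change Int.neg (sgn w) = _
      rw [ih]
      change -((-1 : ℤ) ^ nb w) = (-1) ^ (nb w + 1)
      rw [pow_succ]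
      ring
    · exact ih

theorem lin_app (F : Wo → Wo → ℝ) (z z' : E) : lin F (z ++ z') = lin F z + lin F z' := by
  induction z with
  | nil => simp [lin]
  | cons t z ih =>
    rw [List.cons_append, lin, lin, ih]
    ring

/-- Sum over a list of pairs. -/
theorem lin_pr (F : Wo → Wo → ℝ) (c : Int) (ur vr : Wo) (z r : E) :
    lin F (pr c ur vr z r) =
      (z.map fun t => ((c * t.1 : ℤ) : ℝ) * F (ur ++ t.2.1) (t.2.2 ++ vr)).sum + lin F r := by
  induction z with
  | nil =>
    change lin F r = _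
    simp
  | cons t z ih =>
    change lin F ((Int.mul c t.1, ap ur t.2.1, ap t.2.2 vr) :: pr c ur vr z r) = _
    rw [lin, ih, List.map_cons, List.sum_cons, ap_eq, ap_eq]
    have h : Int.mul c t.1 = c * t.1 := rfl
    rw [h, add_assoc]

theorem H75C_lin_map {α : Type} (f : Wd → Wd → ℝ) (z : List α) (g : α → ℤ × Wd × Wd) :
    H75C.lin f (z.map g) = (z.map fun t => ((g t).1 : ℝ) * f (g t).2.1 (g t).2.2).sum := by
  unfold H75C.lin
  rw [List.map_map]
  rfl

theorem lin_smulL (f : Wd → Wd → ℝ) (z z' : E) :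
    lin (fun u v => f (cv u) (cv v)) (smulL z z') = H75C.lin f (smul' (cvE z) (cvE z')) := by
  induction z with
  | nil => rfl
  | cons t z ih =>
    have h1 : smulL (t :: z) z' = pr (Int.mul (Int.mul (sgn t.2.1) (sgn t.2.2)) t.1)
      (rva t.2.1 []) (rva t.2.2 []) z' (smulL z z') := rfl
    have h2 : smul' (cvE (t :: z)) (cvE z') = ((cvE z').map fun t' =>
        (H75C.sg (cv t.2.1) * H75C.sg (cv t.2.2) * (t.1 * t'.1),
          (cv t.2.1).reverse ++ t'.2.1, t'.2.2 ++ (cv t.2.2).reverse)) ++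
        smul' (cvE z) (cvE z') := rfl
    rw [h1, lin_pr, ih, h2, H75C.lin_append, H75C_lin_map]
    congr 1
    unfold cvE
    rw [List.map_map]
    congr 1
    refine List.map_congr_left fun t' _ => ?_
    simp only [Function.comp_apply, rva_eq, List.append_nil, cv_app, cv_rev, sgn_eq]
    have h3 : Int.mul (Int.mul (H75C.sg (cv t.2.1)) (H75C.sg (cv t.2.2))) t.1 * t'.1 =
        H75C.sg (cv t.2.1) * H75C.sg (cv t.2.2) * (t.1 * t'.1) := by
      change H75C.sg (cv t.2.1) * H75C.sg (cv t.2.2) * t.1 * t'.1 = _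
      ring
    rw [h3]

theorem lin_tensL (f : Wd → Wd → ℝ) (z z' : E) :
    lin (fun u v => f (cv u) (cv v)) (tensL z z') = H75C.lin f (tens' (cvE z) (cvE z')) := by
  induction z with
  | nil => rfl
  | cons t z ih =>
    have h1 : tensL (t :: z) z' = tr t.1 t.2.1 z' (tensL z z') := rfl
    have h2 : tens' (cvE (t :: z)) (cvE z') = ((cvE z').map fun t' =>
        (H75C.sg t'.2.1 * (t.1 * t'.1), cv t.2.1, t'.2.1.reverse)) ++
        tens' (cvE z) (cvE z') := rfl
    have h4 : ∀ (w r : E), lin (fun u v => f (cv u) (cv v)) (tr t.1 t.2.1 w r) =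
        (w.map fun t' => ((H75C.sg (cv t'.2.1) * (t.1 * t'.1) : ℤ) : ℝ) *
          f (cv t.2.1) (cv t'.2.1).reverse).sum + lin (fun u v => f (cv u) (cv v)) r := by
      intro w r
      induction w with
      | nil =>
        change lin _ r = _
        simp
      | cons t' w ihw =>
        change lin _ ((Int.mul t.1 (Int.mul (sgn t'.2.1) t'.1), t.2.1, rva t'.2.1 []) ::
          tr t.1 t.2.1 w r) = _
        rw [lin, ihw, List.map_cons, List.sum_cons, rva_eq, List.append_nil, sgn_eq]
        have h5 : Int.mul t.1 (Int.mul (H75C.sg (cv t'.2.1)) t'.1) =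
            H75C.sg (cv t'.2.1) * (t.1 * t'.1) := by
          change t.1 * (H75C.sg (cv t'.2.1) * t'.1) = _
          ring
        simp only [h5, cv_rev]
        ring
    rw [h1, h4, ih, h2, H75C.lin_append, H75C_lin_map]
    congr 1
    unfold cvE
    rw [List.map_map]
    rfl

/-- The one sided elements of the localizer. -/
def cvG (G : List (Int × Wo)) : List (ℤ × Wd) := G.map fun a => (a.1, cv a.2)

theorem lin_gm1 (f : Wd → Wd → ℝ) (a : Int × Wo) (z z' r : E) :
    lin (fun u v => f (cv u) (cv v)) (gm1 a z z' r) =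
      H75C.lin f ((cvE z).flatMap fun t => (cvE z').map fun t' =>
        (a.1 * (H75C.sg t.2.1 * H75C.sg t.2.2 * (t.1 * t'.1)), t.2.1.reverse ++ (cv a.2 ++ t'.2.1),
          t'.2.2 ++ t.2.2.reverse)) + lin (fun u v => f (cv u) (cv v)) r := by
  induction z with
  | nil =>
    change lin _ r = _
    rw [show (cvE []) = [] from rfl, List.flatMap_nil, H75C.lin_nil, zero_add]
  | cons t z ih =>
    have h1 : gm1 a (t :: z) z' r =
      pr (Int.mul a.1 (Int.mul (Int.mul (sgn t.2.1) (sgn t.2.2)) t.1))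
      (ap (rva t.2.1 []) a.2) (rva t.2.2 []) z' (gm1 a z z' r) := rfl
    have h2 : cvE (t :: z) = (t.1, cv t.2.1, cv t.2.2) :: cvE z := rfl
    rw [h1, lin_pr, ih, h2, List.flatMap_cons, H75C.lin_append, H75C_lin_map, add_assoc]
    congr 1
    unfold cvE
    rw [List.map_map]
    congr 1
    refine List.map_congr_left fun t' _ => ?_
    simp only [Function.comp_apply, rva_eq, ap_eq, List.append_nil, cv_app, cv_rev, sgn_eq,
      List.append_assoc]
    have h3 : Int.mul a.1 (Int.mul (Int.mul (H75C.sg (cv t.2.1)) (H75C.sg (cv t.2.2))) t.1) *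
        t'.1 = a.1 * (H75C.sg (cv t.2.1) * H75C.sg (cv t.2.2) * (t.1 * t'.1)) := by
      change a.1 * (H75C.sg (cv t.2.1) * H75C.sg (cv t.2.2) * t.1) * t'.1 = _
      ring
    rw [h3]

theorem lin_gmulL (f : Wd → Wd → ℝ) (G : List (Int × Wo)) (z z' r : E) :
    lin (fun u v => f (cv u) (cv v)) (gmulL G z z' r) =
      H75C.lin f (gmul (cvG G) (cvE z) (cvE z')) + lin (fun u v => f (cv u) (cv v)) r := by
  induction G with
  | nil =>
    change lin _ r = _
    rw [show cvG [] = [] from rfl]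
    unfold gmul
    rw [List.flatMap_nil, H75C.lin_nil, zero_add]
  | cons a G ih =>
    have h1 : gmulL (a :: G) z z' r = gm1 a z z' (gmulL G z z' r) := rfl
    have h2 : gmul (cvG (a :: G)) (cvE z) (cvE z') =
      ((cvE z).flatMap fun t => (cvE z').map fun t' =>
        (a.1 * (H75C.sg t.2.1 * H75C.sg t.2.2 * (t.1 * t'.1)), t.2.1.reverse ++ (cv a.2 ++ t'.2.1),
          t'.2.2 ++ t.2.2.reverse)) ++ gmul (cvG G) (cvE z) (cvE z') := rfl
    rw [h1, lin_gm1, ih, h2, H75C.lin_append, add_assoc]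

theorem cvG_00 : cvG g00 = gij 0 0 := rfl
theorem cvG_01 : cvG g01 = gij 0 1 := rfl
theorem cvG_10 : cvG g10 = gij 1 0 := rfl
theorem cvG_11 : cvG g11 = gij 1 1 := rfl

theorem lin_locL (f : Wd → Wd → ℝ) (z z' : E × E) :
    lin (fun u v => f (cv u) (cv v)) (locL z z') =
      H75C.lin f (loc' (cvE z.1, cvE z.2) (cvE z'.1, cvE z'.2)) := by
  unfold locL loc'
  rw [lin_gmulL, lin_gmulL, lin_gmulL, lin_gmulL, cvG_00, cvG_01, cvG_10, cvG_11,
    H75C.lin_append, H75C.lin_append, H75C.lin_append]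
  have h : lin (fun u v => f (cv u) (cv v)) [] = 0 := rfl
  rw [h, add_zero]

end Pool.Agent.H14Z
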