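import Pool.Agent.Lib.H14Z.T

/-! # The canonical form of a pair of words -/

namespace Pool.Agent.H14Z

/-! ### counting letters -/

/-- Number of letters `P`. -/
def na : Wo → ℕ
  | [] => 0
  | .p :: w => na w + 1
  | _ :: w => na w

/-- Number of letters `Y`. -/
def nb : Wo → ℕ
  | [] => 0
  | .y :: w => nb w + 1
  | _ :: w => nb w

/-- Number of letters `Z`. -/
def nc : Wo → ℕ
  | [] => 0
  | .z :: w => nc w + 1
  | _ :: w => nc w

/-- Number of letters `K`. -/
def nk : Wo → ℕ
  | [] => 0
  | .k :: w => nk w + 1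
  | _ :: w => nk w

/-- Exchange of `P` and `Z`. -/
def p3 : Le → Le
  | .k => .k
  | .p => .z
  | .y => .y
  | .z => .p

/-- Exchange of `P` and `Y`. -/
def p4 : Le → Le
  | .k => .k
  | .p => .y
  | .y => .p
  | .z => .z

/-- The symmetries of the averaged functional. -/
structure Sy (F : Wo → Wo → ℝ) : Prop where
  comm : ∀ u v, F u v = F v u
  rev : ∀ u v, F u v = (-1) ^ (nb u + nb v) * F u.reverse v.reverse
  par1 : ∀ u v, u.length + v.length ≤ 6 → (na u + na v + (nb u + nb v)) % 2 = 1 → F u v = 0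
  par2 : ∀ u v, u.length + v.length ≤ 6 → (na u + na v + (nc u + nc v)) % 2 = 1 → F u v = 0
  v3 : ∀ u v, u.length + v.length ≤ 6 →
    F u v = (-1) ^ (na u + na v) * F (u.map p3) (v.map p3)
  v4 : ∀ u v, u.length + v.length ≤ 6 → ∀ t, na u + na v + (nb u + nb v) = 2 * t →
    F u v = (-1) ^ t * F (u.map p4) (v.map p4)

theorem len_eq (w : Wo) : w.length = na w + nb w + nc w + nk w := by
  induction w with
  | nil => rfl
  | cons l w ih => cases l <;> simp only [na, nb, nc, nk, List.length_cons, ih] <;> ring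

theorem cnt_p3 (w : Wo) : na (w.map p3) = nc w ∧ nb (w.map p3) = nb w ∧ nc (w.map p3) = na w := by
  induction w with
  | nil => exact ⟨rfl, rfl, rfl⟩
  | cons l w ih =>
    obtain ⟨h1, h2, h3⟩ := ih
    cases l <;> simp only [List.map_cons, p3, na, nb, nc, h1, h2, h3, and_self]

theorem cnt_p4 (w : Wo) : na (w.map p4) = nb w ∧ nb (w.map p4) = na w ∧ nc (w.map p4) = nc w := by
  induction w with
  | nil => exact ⟨rfl, rfl, rfl⟩
  | cons l w ih =>
    obtain ⟨h1, h2, h3⟩ := ih
    cases l <;> simp only [List.map_cons, p4, na, nb, nc, h1, h2, h3, and_self]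

theorem cnt_app (u v : Wo) : na (u ++ v) = na u + na v ∧ nb (u ++ v) = nb u + nb v ∧
    nc (u ++ v) = nc u + nc v ∧ nk (u ++ v) = nk u + nk v := by
  induction u with
  | nil => simp [na, nb, nc, nk]
  | cons l w ih =>
    obtain ⟨h1, h2, h3, h4⟩ := ih
    cases l <;> simp only [List.cons_append, na, nb, nc, nk, h1, h2, h3, h4] <;>
      refine ⟨?_, ?_, ?_, ?_⟩ <;> first | trivial | omega

theorem cnt_rev (u : Wo) : na u.reverse = na u ∧ nb u.reverse = nb u ∧
    nc u.reverse = nc u ∧ nk u.reverse = nk u := by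
  induction u with
  | nil => simp [na, nb, nc, nk]
  | cons l w ih =>
    obtain ⟨h1, h2, h3, h4⟩ := ih
    obtain ⟨g1, g2, g3, g4⟩ := cnt_app w.reverse [l]
    rw [List.reverse_cons, g1, g2, g3, g4, h1, h2, h3, h4]
    cases l <;> simp [na, nb, nc, nk]

/-! ### renaming by first occurrence -/

/-- The letters met so far. -/
inductive Oc
  | n | p | y | z | py | pz | yp | yz | zp | zy

/-- One step. -/
noncomputable def os (l : Le) : Oc → Oc :=
  Le.rec (motive := fun _ => Oc → Oc) (fun s => s)
    (fun s => Oc.rec (motive := fun _ => Oc) .p .p .yp .zp .py .pz .yp .yz .zp .zy s)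
    (fun s => Oc.rec (motive := fun _ => Oc) .y .py .y .zy .py .pz .yp .yz .zp .zy s)
    (fun s => Oc.rec (motive := fun _ => Oc) .z .pz .yz .z .py .pz .yp .yz .zp .zy s) l

/-- The state after a word. -/
noncomputable def fo (w : Wo) : Oc → Oc :=
  List.rec (motive := fun _ => Oc → Oc) (fun s => s) (fun l _ ih s => ih (os l s)) w

/-- The renaming (first letter to `P`, second letter to `Y`). -/
noncomputable def mf (s : Oc) (l : Le) : Le :=
  Le.rec (motive := fun _ => Le) .k
    (Oc.rec (motive := fun _ => Le) .p .p .y .z .p .p .y .z .y .z s)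
    (Oc.rec (motive := fun _ => Le) .y .y .p .y .y .z .p .p .z .y s)
    (Oc.rec (motive := fun _ => Le) .z .z .z .p .z .y .z .y .p .p s) l

/-- The sign exponent of the renaming. -/
noncomputable def ex (s : Oc) (a b c : ℕ) : ℕ :=
  Oc.rec (motive := fun _ => ℕ) 0 0 (Nat.div (Nat.add a b) 2) a 0 (Nat.div (Nat.add b c) 2)
    (Nat.div (Nat.add a b) 2) (Nat.add a (Nat.div (Nat.add b c) 2))
    (Nat.add (Nat.div (Nat.add a b) 2) b) a s

theorem map_mf_id {s : Oc} (hs : mf s = id) (w : Wo) : w.map (mf s) = w := by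
  rw [hs, List.map_id]

theorem mf_n : mf .n = id := by funext l; cases l <;> rfl
theorem mf_p : mf .p = id := by funext l; cases l <;> rfl
theorem mf_py : mf .py = id := by funext l; cases l <;> rfl
theorem mf_y : mf .y = p4 := by funext l; cases l <;> rfl
theorem mf_yp : mf .yp = p4 := by funext l; cases l <;> rfl
theorem mf_z : mf .z = p3 := by funext l; cases l <;> rfl
theorem mf_zy : mf .zy = p3 := by funext l; cases l <;> rfl
theorem mf_yz : mf .yz = p4 ∘ p3 := by funext l; cases l <;> rfl
theorem mf_zp : mf .zp = p3 ∘ p4 := by funext l; cases l <;> rfl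
theorem mf_pz : mf .pz = p3 ∘ p4 ∘ p3 := by funext l; cases l <;> rfl

/-- The renaming changes the functional by a sign. -/
theorem Sy.ren {F : Wo → Wo → ℝ} (hF : Sy F) (s : Oc) (u v : Wo) (hl : u.length + v.length ≤ 6)
    (h1 : (na u + na v + (nb u + nb v)) % 2 = 0) (h2 : (na u + na v + (nc u + nc v)) % 2 = 0) :
    F u v = (-1) ^ ex s (na u + na v) (nb u + nb v) (nc u + nc v) *
      F (u.map (mf s)) (v.map (mf s)) := by
  obtain ⟨t, ht⟩ : ∃ t, na u + na v + (nb u + nb v) = 2 * t := ⟨(na u + na v + (nb u + nb v)) / 2, by omega⟩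
  obtain ⟨r, hr⟩ : ∃ r, nb u + nb v + (nc u + nc v) = 2 * r := ⟨(nb u + nb v + (nc u + nc v)) / 2, by omega⟩
  have e1 : Nat.div (Nat.add (na u + na v) (nb u + nb v)) 2 = t := by
    change (na u + na v + (nb u + nb v)) / 2 = t
    omega
  have e2 : Nat.div (Nat.add (nb u + nb v) (nc u + nc v)) 2 = r := by
    change (nb u + nb v + (nc u + nc v)) / 2 = r
    omega
  have i3 := hF.v3 u v hl
  have i4 := hF.v4 u v hl t ht
  have l3 : (u.map p3).length + (v.map p3).length ≤ 6 := by simpa using hl
  have l4 : (u.map p4).length + (v.map p4).length ≤ 6 := by simpa using hl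
  cases s with
  | n => rw [map_mf_id mf_n, map_mf_id mf_n]; simp [ex]
  | p => rw [map_mf_id mf_p, map_mf_id mf_p]; simp [ex]
  | py => rw [map_mf_id mf_py, map_mf_id mf_py]; simp [ex]
  | y => rw [mf_y]; simp only [ex, e1]; exact i4
  | yp => rw [mf_yp]; simp only [ex, e1]; exact i4
  | z => rw [mf_z]; simp only [ex]; exact i3
  | zy => rw [mf_zy]; simp only [ex]; exact i3
  | yz =>
    rw [mf_yz, ← List.map_map, ← List.map_map]
    simp only [ex, e2]
    have e : Nat.add (na u + na v) r = (na u + na v) + r := rfl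
    rw [e, pow_add, i3, hF.v4 _ _ l3 r (by
      rw [(cnt_p3 u).1, (cnt_p3 v).1, (cnt_p3 u).2.1, (cnt_p3 v).2.1]
      omega), mul_assoc]
  | zp =>
    rw [mf_zp, ← List.map_map, ← List.map_map]
    simp only [ex, e1]
    have e : Nat.add t (nb u + nb v) = t + (nb u + nb v) := rfl
    rw [e, pow_add, i4, hF.v3 _ _ l4, (cnt_p4 u).1, (cnt_p4 v).1, mul_assoc]
  | pz =>
    rw [mf_pz, ← List.map_map, ← List.map_map, ← List.map_map, ← List.map_map]
    simp only [ex, e2]
    have l34 : ((u.map p3).map p4).length + ((v.map p3).map p4).length ≤ 6 := by simpa using hl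
    have j1 := hF.v4 _ _ l3 r (by
      rw [(cnt_p3 u).1, (cnt_p3 v).1, (cnt_p3 u).2.1, (cnt_p3 v).2.1]
      omega)
    have j2 := hF.v3 _ _ l34
    rw [(cnt_p4 _).1, (cnt_p4 _).1, (cnt_p3 u).2.1, (cnt_p3 v).2.1] at j2
    rw [i3, j1, j2]
    have k : ((-1 : ℝ)) ^ (na u + na v) * (-1) ^ (nb u + nb v) = 1 := by
      rw [← pow_add, ht, pow_mul]
      norm_num
    calc (-1 : ℝ) ^ (na u + na v) * ((-1) ^ r * ((-1) ^ (nb u + nb v) *
          F (((u.map p3).map p4).map p3) (((v.map p3).map p4).map p3))) =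
        ((-1 : ℝ) ^ (na u + na v) * (-1) ^ (nb u + nb v)) * ((-1) ^ r *
          F (((u.map p3).map p4).map p3) (((v.map p3).map p4).map p3)) := by ring
      _ = _ := by rw [k, one_mul]

/-! ### kernel versions of list functions -/

/-- `reverse w ++ acc`. -/
noncomputable def rva (w : Wo) : Wo → Wo :=
  List.rec (motive := fun _ => Wo → Wo) (fun acc => acc) (fun l _ ih acc => ih (l :: acc)) w

theorem rva_eq (w acc : Wo) : rva w acc = w.reverse ++ acc := by
  induction w generalizing acc with
  | nil => rfl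
  | cons l w ih =>
    have h : rva (l :: w) acc = rva w (l :: acc) := rfl
    rw [h, ih]
    simp

/-- `w.map f`. -/
noncomputable def mp (f : Le → Le) (w : Wo) : Wo :=
  List.rec (motive := fun _ => Wo) [] (fun l _ ih => f l :: ih) w

theorem mp_eq (f : Le → Le) (w : Wo) : mp f w = w.map f := by
  induction w with
  | nil => rfl
  | cons l w ih =>
    have h : mp f (l :: w) = f l :: mp f w := rfl
    rw [h, ih, List.map_cons]

/-- `u ++ v`. -/
noncomputable def ap (u v : Wo) : Wo :=
  List.rec (motive := fun _ => Wo) v (fun l _ ih => l :: ih) u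

theorem ap_eq (u v : Wo) : ap u v = u ++ v := by
  induction u with
  | nil => rfl
  | cons l w ih =>
    have h : ap (l :: w) v = l :: ap w v := rfl
    rw [h, ih, List.cons_append]

/-- Four counters. -/
inductive Q
  | mk : ℕ → ℕ → ℕ → ℕ → Q

/-- Count one letter. -/
noncomputable def upd (l : Le) (q : Q) : Q :=
  Q.rec (motive := fun _ => Q) (fun a b c n => Le.rec (motive := fun _ => Q)
    (.mk a b c (Nat.succ n)) (.mk (Nat.succ a) b c n) (.mk a (Nat.succ b) c n)
    (.mk a b (Nat.succ c) n) l) q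

/-- Count the letters of a word. -/
noncomputable def cnt (w : Wo) : Q → Q :=
  List.rec (motive := fun _ => Q → Q) (fun q => q) (fun l _ ih q => ih (upd l q)) w

theorem cnt_eq (w : Wo) (a b c n : ℕ) :
    cnt w (.mk a b c n) = .mk (a + na w) (b + nb w) (c + nc w) (n + nk w) := by
  induction w generalizing a b c n with
  | nil => rfl
  | cons l w ih =>
    have h : cnt (l :: w) (.mk a b c n) = cnt w (upd l (.mk a b c n)) := rfl
    rw [h]
    cases l
    · change cnt w (.mk a b c (n + 1)) = _
      rw [ih]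
      simp only [na, nb, nc, nk]
      congr 1
      omega
    · change cnt w (.mk (a + 1) b c n) = _
      rw [ih]
      simp only [na, nb, nc, nk]
      congr 1
      omega
    · change cnt w (.mk a (b + 1) c n) = _
      rw [ih]
      simp only [na, nb, nc, nk]
      congr 1
      omega
    · change cnt w (.mk a b (c + 1) n) = _
      rw [ih]
      simp only [na, nb, nc, nk]
      congr 1
      omega

/-! ### codes -/

/-- The digit of a renamed letter. -/
noncomputable def dg (s : Oc) (l : Le) : ℕ :=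
  Le.rec (motive := fun _ => ℕ) 0 1 2 3 (mf s l)

/-- The code of a renamed word. -/
noncomputable def cd (s : Oc) (w : Wo) : ℕ → ℕ :=
  List.rec (motive := fun _ => ℕ → ℕ) (fun n => n)
    (fun l _ ih n => ih (Nat.add (Nat.mul 5 n) (dg s l))) w

/-- The code of a renamed pair. -/
noncomputable def cp (s : Oc) (u v : Wo) : ℕ := cd s v (Nat.add (Nat.mul 5 (cd s u 1)) 4)

/-- The element `± c (u', v')` after the renaming `s`, with additional sign exponent `e`. -/
noncomputable def fn (c : Int) (a b d e : ℕ) (s : Oc) (u v : Wo) : T2 :=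
  ins (Bool.rec (motive := fun _ => Int) c (Int.neg c) (Nat.beq (Nat.mod (Nat.add (ex s a b d) e) 2) 1))
    (mp (mf s) u) (mp (mf s) v) .lf

theorem neg_pow_eq (n : ℕ) : ((-1 : ℝ)) ^ n = if n % 2 = 1 then -1 else 1 := by
  rcases Nat.mod_two_eq_zero_or_one n with h | h
  · rw [if_neg (by omega)]
    exact Even.neg_one_pow (Nat.even_iff.mpr h)
  · rw [if_pos h]
    exact Odd.neg_one_pow (Nat.odd_iff.mpr h)

theorem v2_fn {F : Wo → Wo → ℝ} (hF : Sy F) (c : Int) (e : ℕ) (s : Oc) (u v : Wo)
    (hl : u.length + v.length ≤ 6)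
    (h1 : (na u + na v + (nb u + nb v)) % 2 = 0) (h2 : (na u + na v + (nc u + nc v)) % 2 = 0)
    {a b d : ℕ} (ha : a = na u + na v) (hb : b = nb u + nb v) (hd : d = nc u + nc v) :
    v2 (fn c a b d e s u v) F = (c : ℝ) * ((-1) ^ e * F u v) := by
  subst ha hb hd
  unfold fn
  rw [v2_ins, mp_eq, mp_eq, hF.ren s u v hl h1 h2]
  set m := ex s (na u + na v) (nb u + nb v) (nc u + nc v) with hm
  set G := F (u.map (mf s)) (v.map (mf s))
  have hz : v2 .lf F = 0 := rfl
  rw [hz, zero_add]
  have h3 : ((-1 : ℝ)) ^ e * ((-1) ^ m * G) = (-1) ^ (m + e) * G := by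
    rw [pow_add]
    ring
  rw [h3, neg_pow_eq]
  by_cases h : (m + e) % 2 = 1
  · have hb : Nat.beq (Nat.mod (Nat.add m e) 2) 1 = true := by
      change Nat.beq ((m + e) % 2) 1 = true
      rw [h]
      rfl
    rw [hb, if_pos h]
    change ((Int.neg c : ℤ) : ℝ) * G = _
    have : Int.neg c = -c := rfl
    rw [this]
    push_cast
    ring
  · have h' : (m + e) % 2 = 0 := by omega
    have hb : Nat.beq (Nat.mod (Nat.add m e) 2) 1 = false := by
      change Nat.beq ((m + e) % 2) 1 = false
      rw [h']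
      rfl
    rw [hb, if_neg h]
    change ((c : ℤ) : ℝ) * G = _
    ring

/-- Four choices. -/
inductive D4
  | a | b | c | d

/-- The smaller of two codes. -/
noncomputable def pick (c1 : ℕ) (d1 : D4) (c2 : ℕ) (d2 : D4) (k : ℕ → D4 → T2) : T2 :=
  Bool.rec (motive := fun _ => T2) (k c2 d2) (k c1 d1) (Nat.ble c1 c2)

/-- The canonical representative of `c (u, v)`, where `ru`, `rv` are the reversed words. -/
noncomputable def can (c : Int) (a b d : ℕ) (u v ru rv : Wo) (s1 s2 s3 s4 : Oc) : T2 :=
  pick (cp s1 u v) .a (cp s2 v u) .b fun x i =>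
  pick (cp s3 ru rv) .c (cp s4 rv ru) .d fun y j =>
  pick x i y j fun _ r => D4.rec (motive := fun _ => T2)
    (fn c a b d 0 s1 u v) (fn c a b d 0 s2 v u) (fn c a b d b s3 ru rv) (fn c a b d b s4 rv ru) r

theorem pick_ind {P : T2 → Prop} (c1 : ℕ) (d1 : D4) (c2 : ℕ) (d2 : D4) (k : ℕ → D4 → T2)
    (h : ∀ n d, P (k n d)) : P (pick c1 d1 c2 d2 k) := by
  unfold pick
  cases Nat.ble c1 c2
  · exact h _ _
  · exact h _ _

theorem v2_can {F : Wo → Wo → ℝ} (hF : Sy F) (c : Int) (u v ru rv : Wo) (s1 s2 s3 s4 : Oc)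
    (hu : u = ru.reverse) (hv : v = rv.reverse)
    (hl : u.length + v.length ≤ 6)
    (h1 : (na u + na v + (nb u + nb v)) % 2 = 0) (h2 : (na u + na v + (nc u + nc v)) % 2 = 0)
    {a b d : ℕ} (ha : a = na u + na v) (hb : b = nb u + nb v) (hd : d = nc u + nc v) :
    v2 (can c a b d u v ru rv s1 s2 s3 s4) F = (c : ℝ) * F u v := by
  have eu := cnt_rev ru
  have ev := cnt_rev rv
  rw [← hu] at eu
  rw [← hv] at ev
  obtain ⟨u1, u2, u3, -⟩ := eu
  obtain ⟨w1, w2, w3, -⟩ := ev
  have lu : ru.length = u.length := by rw [hu, List.length_reverse]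
  have lv : rv.length = v.length := by rw [hv, List.length_reverse]
  have key : F ru rv = (-1) ^ b * F u v := by
    rw [hF.rev ru rv, ← hu, ← hv, hb, u2, w2]
  have sq : ((-1 : ℝ)) ^ b * (-1) ^ b = 1 := by
    rw [← pow_add, ← two_mul, pow_mul]
    norm_num
  unfold can
  refine pick_ind (P := fun t => v2 t F = (c : ℝ) * F u v) _ _ _ _ _ fun x i => ?_
  refine pick_ind (P := fun t => v2 t F = (c : ℝ) * F u v) _ _ _ _ _ fun y j => ?_
  refine pick_ind (P := fun t => v2 t F = (c : ℝ) * F u v) _ _ _ _ _ fun _ r => ?_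
  cases r
  · change v2 (fn c a b d 0 s1 u v) F = _
    rw [v2_fn hF c 0 s1 u v hl h1 h2 ha hb hd, pow_zero, one_mul]
  · change v2 (fn c a b d 0 s2 v u) F = _
    rw [v2_fn hF c 0 s2 v u (by omega) (by omega) (by omega) (by omega) (by omega) (by omega),
      pow_zero, one_mul, hF.comm v u]
  · change v2 (fn c a b d b s3 ru rv) F = _
    rw [v2_fn hF c b s3 ru rv (by omega) (by omega) (by omega) (by omega) (by omega) (by omega),
      key, ← mul_assoc ((-1 : ℝ) ^ b), sq, one_mul]
  · change v2 (fn c a b d b s4 rv ru) F = _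
    rw [v2_fn hF c b s4 rv ru (by omega) (by omega) (by omega) (by omega) (by omega) (by omega),
      hF.comm rv ru, key, ← mul_assoc ((-1 : ℝ) ^ b), sq, one_mul]

/-- The canonical form of `c (u, v)`, `ru`, `rv` the reversed words. -/
noncomputable def leafQ (c : Int) (u v ru rv : Wo) (q : Q) : T2 :=
  Q.rec (motive := fun _ => T2) (fun a b d n =>
    Bool.rec (motive := fun _ => T2) (ins c u v .lf)
      (Bool.rec (motive := fun _ => T2) .lf
        (Bool.rec (motive := fun _ => T2) .lf
          (can c a b d u v ru rv (fo v (fo u .n)) (fo u (fo v .n)) (fo rv (fo ru .n)) (fo ru (fo rv .n)))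
          (Nat.beq (Nat.mod (Nat.add a d) 2) 0))
        (Nat.beq (Nat.mod (Nat.add a b) 2) 0))
      (Nat.ble (Nat.add (Nat.add a b) (Nat.add d n)) 6)) q

/-- The canonical form of `c (ru.reverse, rv.reverse)`. -/
noncomputable def leaf (c : Int) (ru rv : Wo) : T2 :=
  Bool.rec (motive := fun _ => T2)
    (leafQ c (rva ru []) (rva rv []) ru rv (cnt rv (cnt ru (.mk 0 0 0 0)))) .lf (isz c)

theorem v2_leaf {F : Wo → Wo → ℝ} (hF : Sy F) (c : Int) (ru rv : Wo) :
    v2 (leaf c ru rv) F = (c : ℝ) * F ru.reverse rv.reverse := by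
  unfold leaf
  cases hz : isz c with
  | true =>
    rw [isz_eq hz]
    change (0 : ℝ) = _
    simp
  | false =>
    change v2 (leafQ c (rva ru []) (rva rv []) ru rv (cnt rv (cnt ru (.mk 0 0 0 0)))) F = _
    rw [cnt_eq, cnt_eq, rva_eq, rva_eq, List.append_nil, List.append_nil]
    simp only [Nat.zero_add]
    have h0 : ∀ x : ℕ, 0 + x = x := Nat.zero_add
    obtain ⟨u1, u2, u3, u4⟩ := cnt_rev ru
    obtain ⟨w1, w2, w3, w4⟩ := cnt_rev rv
    have lu : ru.reverse.length = na ru + nb ru + nc ru + nk ru := by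
      rw [List.length_reverse, len_eq]
    have lv : rv.reverse.length = na rv + nb rv + nc rv + nk rv := by
      rw [List.length_reverse, len_eq]
    set a := na ru + na rv with ha
    set b := nb ru + nb rv with hb
    set d := nc ru + nc rv with hd
    set n := nk ru + nk rv with hn
    change v2 (Bool.rec (motive := fun _ => T2) (ins c ru.reverse rv.reverse .lf)
      (Bool.rec (motive := fun _ => T2) .lf
        (Bool.rec (motive := fun _ => T2) .lf
          (can c a b d ru.reverse rv.reverse ru rv _ _ _ _)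
          (Nat.beq ((a + d) % 2) 0))
        (Nat.beq ((a + b) % 2) 0))
      (Nat.ble ((a + b) + (d + n)) 6)) F = _
    cases hle : Nat.ble ((a + b) + (d + n)) 6 with
    | false =>
      change v2 (ins c ru.reverse rv.reverse .lf) F = _
      rw [v2_ins]
      change (0 : ℝ) + _ = _
      rw [zero_add]
    | true =>
      have hl6 : (a + b) + (d + n) ≤ 6 := Nat.le_of_ble_eq_true hle
      have hl : ru.reverse.length + rv.reverse.length ≤ 6 := by omega
      change v2 (Bool.rec (motive := fun _ => T2) .lf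
        (Bool.rec (motive := fun _ => T2) .lf
          (can c a b d ru.reverse rv.reverse ru rv _ _ _ _)
          (Nat.beq ((a + d) % 2) 0))
        (Nat.beq ((a + b) % 2) 0)) F = _
      cases hp : Nat.beq ((a + b) % 2) 0 with
      | false =>
        have hp' : (a + b) % 2 = 1 := by
          rcases Nat.mod_two_eq_zero_or_one (a + b) with h | h
          · rw [h] at hp
            exact absurd hp (by decide)
          · exact h
        rw [hF.par1 _ _ hl (by rw [u1, u2, w1, w2]; omega)]
        change (0 : ℝ) = _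
        rw [mul_zero]
      | true =>
        have hp' : (a + b) % 2 = 0 := Nat.eq_of_beq_eq_true hp
        change v2 (Bool.rec (motive := fun _ => T2) .lf
            (can c a b d ru.reverse rv.reverse ru rv _ _ _ _)
            (Nat.beq ((a + d) % 2) 0)) F = _
        cases hq : Nat.beq ((a + d) % 2) 0 with
        | false =>
          have hq' : (a + d) % 2 = 1 := by
            rcases Nat.mod_two_eq_zero_or_one (a + d) with h | h
            · rw [h] at hq
              exact absurd hq (by decide)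
            · exact h
          rw [hF.par2 _ _ hl (by rw [u1, u3, w1, w3]; omega)]
          change (0 : ℝ) = _
          rw [mul_zero]
        | true =>
          have hq' : (a + d) % 2 = 0 := Nat.eq_of_beq_eq_true hq
          change v2 (can c a b d ru.reverse rv.reverse ru rv _ _ _ _) F = _
          exact v2_can hF c _ _ ru rv _ _ _ _ rfl rfl hl (by rw [u1, u2, w1, w2]; omega)
            (by rw [u1, u3, w1, w3]; omega) (by rw [u1, w1]) (by rw [u2, w2]) (by rw [u3, w3])

/-! ### the canonical form of a trie -/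

/-- Walk through the inner trie. -/
noncomputable def wk1 (t : T1) : Wo → Wo → T2 :=
  T1.rec (motive := fun _ => Wo → Wo → T2) (fun _ _ => .lf)
    (fun c _ _ _ _ ia ib ie jf ru rv => mrg2 (leaf c ru rv)
      (mrg2 (mrg2 (ia ru (.k :: rv)) (ib ru (.p :: rv)))
        (mrg2 (ie ru (.y :: rv)) (jf ru (.z :: rv))))) t

/-- Walk through the outer trie. -/
noncomputable def wk2 (t : T2) : Wo → T2 :=
  T2.rec (motive := fun _ => Wo → T2) (fun _ => .lf)
    (fun c _ _ _ _ ia ib ie jf ru => mrg2 (wk1 c ru [])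
      (mrg2 (mrg2 (ia (.k :: ru)) (ib (.p :: ru)))
        (mrg2 (ie (.y :: ru)) (jf (.z :: ru))))) t

theorem v2_wk1 {F : Wo → Wo → ℝ} (hF : Sy F) (t : T1) (ru rv : Wo) :
    v2 (wk1 t ru rv) F = v1 t (fun w => F ru.reverse (rv.reverse ++ w)) := by
  induction t generalizing rv with
  | lf => rfl
  | nd c a b e f ia ib ie jf =>
    have h : wk1 (.nd c a b e f) ru rv = mrg2 (leaf c ru rv)
      (mrg2 (mrg2 (wk1 a ru (.k :: rv)) (wk1 b ru (.p :: rv)))
        (mrg2 (wk1 e ru (.y :: rv)) (wk1 f ru (.z :: rv)))) := rfl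
    rw [h]
    simp only [v2_mrg2, v2_leaf hF, ia, ib, ie, jf, v1, List.reverse_cons, List.append_assoc,
      List.cons_append, List.nil_append, List.append_nil]
    ring

theorem v2_wk2 {F : Wo → Wo → ℝ} (hF : Sy F) (t : T2) (ru : Wo) :
    v2 (wk2 t ru) F = v2 t (fun w => F (ru.reverse ++ w)) := by
  induction t generalizing ru with
  | lf => rfl
  | nd c a b e f ia ib ie jf =>
    have h : wk2 (.nd c a b e f) ru = mrg2 (wk1 c ru [])
      (mrg2 (mrg2 (wk2 a (.k :: ru)) (wk2 b (.p :: ru)))
        (mrg2 (wk2 e (.y :: ru)) (wk2 f (.z :: ru)))) := rfl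
    rw [h]
    simp only [v2_mrg2, v2_wk1 hF, ia, ib, ie, jf, v2, List.reverse_cons, List.append_assoc,
      List.cons_append, List.nil_append, List.append_nil, List.reverse_nil]
    ring

/-- If the canonical form of a trie is zero then its value is zero. -/
theorem v2_zero {F : Wo → Wo → ℝ} (hF : Sy F) {t : T2} (h : z2 (wk2 t []) = true) :
    v2 t F = 0 := by
  have h1 := v2_wk2 hF t []
  rw [v2_z2 h] at h1
  simpa using h1.symm

end Pool.Agent.H14Z
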