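import Pool.Agent.Lib.H14Z.Br
import Pool.Agent.Lib.H14Z.A1
import Pool.Agent.Lib.H14Z.A2
import Pool.Agent.Lib.H14Z.A3
import Pool.Agent.Lib.H14Z.A4
import Pool.Agent.Lib.H14Z.A5
import Pool.Agent.Lib.H14Z.A6
import Pool.Agent.Lib.H14Z.A7
import Pool.Agent.Lib.H14Z.A8
import Pool.Agent.Lib.H14Z.A9

/-! # Certificate A: the total identity -/

namespace Pool.Agent.H14Z

open Pool.Agent.H2AF Pool.Agent.H75C

/-- `H75C.fA` in the words of `H14Z`. -/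
def fAx : E :=
 [(.ofNat 2160, [], []),
  (.ofNat 2160, [], [.k]),
  (.ofNat 2160, [], [.z]),
  (.negSucc 1079, [], []),
  (.negSucc 1079, [], [.k]),
  (.negSucc 1079, [], [.z]),
  (.negSucc 1079, [.k], []),
  (.negSucc 1079, [.k], [.k]),
  (.negSucc 1079, [.k], [.z]),
  (.negSucc 1079, [.z], []),
  (.negSucc 1079, [.z], [.k]),
  (.negSucc 1079, [.z], [.z]),
  (.ofNat 2160, [], []),
  (.ofNat 2160, [], [.k]),
  (.negSucc 2159, [], [.z]),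
  (.negSucc 1079, [], []),
  (.negSucc 1079, [], [.k]),
  (.ofNat 1080, [], [.z]),
  (.negSucc 1079, [.k], []),
  (.negSucc 1079, [.k], [.k]),
  (.ofNat 1080, [.k], [.z]),
  (.ofNat 1080, [.z], []),
  (.ofNat 1080, [.z], [.k]),
  (.negSucc 1079, [.z], [.z]),
  (.negSucc 89, [], [.k, .k]),
  (.negSucc 89, [], [.k, .z]),
  (.negSucc 89, [], [.z, .k]),
  (.negSucc 89, [], [.z, .z]),
  (.negSucc 89, [], [.k, .k, .k, .k]),
  (.ofNat 90, [], [.k, .k, .k, .z]),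
  (.negSucc 89, [], [.k, .k, .z, .k]),
  (.ofNat 90, [], [.k, .k, .z, .z]),
  (.ofNat 90, [], [.k, .z, .k, .k]),
  (.negSucc 89, [], [.k, .z, .k, .z]),
  (.ofNat 90, [], [.k, .z, .z, .k]),
  (.negSucc 89, [], [.k, .z, .z, .z]),
  (.negSucc 89, [], [.z, .k, .k, .k]),
  (.ofNat 90, [], [.z, .k, .k, .z]),
  (.negSucc 89, [], [.z, .k, .z, .k]),
  (.ofNat 90, [], [.z, .k, .z, .z]),
  (.ofNat 90, [], [.z, .z, .k, .k]),
  (.negSucc 89, [], [.z, .z, .k, .z]),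
  (.ofNat 90, [], [.z, .z, .z, .k]),
  (.negSucc 89, [], [.z, .z, .z, .z]),
  (.negSucc 89, [], [.k, .k, .k, .k]),
  (.negSucc 89, [], [.k, .k, .k, .z]),
  (.ofNat 90, [], [.k, .k, .z, .k]),
  (.ofNat 90, [], [.k, .k, .z, .z]),
  (.negSucc 89, [], [.k, .z, .k, .k]),
  (.negSucc 89, [], [.k, .z, .k, .z]),
  (.ofNat 90, [], [.k, .z, .z, .k]),
  (.ofNat 90, [], [.k, .z, .z, .z]),
  (.ofNat 90, [], [.z, .k, .k, .k]),
  (.ofNat 90, [], [.z, .k, .k, .z]),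
  (.negSucc 89, [], [.z, .k, .z, .k]),
  (.negSucc 89, [], [.z, .k, .z, .z]),
  (.ofNat 90, [], [.z, .z, .k, .k]),
  (.ofNat 90, [], [.z, .z, .k, .z]),
  (.negSucc 89, [], [.z, .z, .z, .k]),
  (.negSucc 89, [], [.z, .z, .z, .z]),
  (.negSucc 89, [], [.k, .k, .k, .k]),
  (.ofNat 90, [], [.k, .k, .k, .z]),
  (.negSucc 89, [], [.k, .k, .z, .k]),
  (.ofNat 90, [], [.k, .k, .z, .z]),
  (.negSucc 89, [], [.k, .z, .k, .k]),
  (.ofNat 90, [], [.k, .z, .k, .z]),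
  (.negSucc 89, [], [.k, .z, .z, .k]),
  (.ofNat 90, [], [.k, .z, .z, .z]),
  (.ofNat 90, [], [.z, .k, .k, .k]),
  (.negSucc 89, [], [.z, .k, .k, .z]),
  (.ofNat 90, [], [.z, .k, .z, .k]),
  (.negSucc 89, [], [.z, .k, .z, .z]),
  (.ofNat 90, [], [.z, .z, .k, .k]),
  (.negSucc 89, [], [.z, .z, .k, .z]),
  (.ofNat 90, [], [.z, .z, .z, .k]),
  (.negSucc 89, [], [.z, .z, .z, .z]),
  (.ofNat 360, [.k], [.k, .k, .k]),
  (.negSucc 359, [.k], [.k, .k, .z]),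
  (.ofNat 360, [.k], [.k, .z, .k]),
  (.negSucc 359, [.k], [.k, .z, .z]),
  (.negSucc 359, [.k], [.z, .k, .k]),
  (.ofNat 360, [.k], [.z, .k, .z]),
  (.negSucc 359, [.k], [.z, .z, .k]),
  (.ofNat 360, [.k], [.z, .z, .z]),
  (.ofNat 360, [.z], [.k, .k, .k]),
  (.negSucc 359, [.z], [.k, .k, .z]),
  (.ofNat 360, [.z], [.k, .z, .k]),
  (.negSucc 359, [.z], [.k, .z, .z]),
  (.negSucc 359, [.z], [.z, .k, .k]),
  (.ofNat 360, [.z], [.z, .k, .z]),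
  (.negSucc 359, [.z], [.z, .z, .k]),
  (.ofNat 360, [.z], [.z, .z, .z]),
  (.negSucc 89, [], [.k, .k]),
  (.ofNat 90, [], [.k, .z]),
  (.ofNat 90, [], [.z, .k]),
  (.negSucc 89, [], [.z, .z]),
  (.negSucc 89, [], [.k, .k, .k, .k]),
  (.negSucc 89, [], [.k, .k, .k, .z]),
  (.ofNat 90, [], [.k, .k, .z, .k]),
  (.ofNat 90, [], [.k, .k, .z, .z]),
  (.negSucc 89, [], [.k, .z, .k, .k]),
  (.negSucc 89, [], [.k, .z, .k, .z]),
  (.ofNat 90, [], [.k, .z, .z, .k]),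
  (.ofNat 90, [], [.k, .z, .z, .z]),
  (.ofNat 90, [], [.z, .k, .k, .k]),
  (.ofNat 90, [], [.z, .k, .k, .z]),
  (.negSucc 89, [], [.z, .k, .z, .k]),
  (.negSucc 89, [], [.z, .k, .z, .z]),
  (.ofNat 90, [], [.z, .z, .k, .k]),
  (.ofNat 90, [], [.z, .z, .k, .z]),
  (.negSucc 89, [], [.z, .z, .z, .k]),
  (.negSucc 89, [], [.z, .z, .z, .z]),
  (.negSucc 89, [], [.k, .k, .k, .k]),
  (.ofNat 90, [], [.k, .k, .k, .z]),
  (.negSucc 89, [], [.k, .k, .z, .k]),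
  (.ofNat 90, [], [.k, .k, .z, .z]),
  (.ofNat 90, [], [.k, .z, .k, .k]),
  (.negSucc 89, [], [.k, .z, .k, .z]),
  (.ofNat 90, [], [.k, .z, .z, .k]),
  (.negSucc 89, [], [.k, .z, .z, .z]),
  (.negSucc 89, [], [.z, .k, .k, .k]),
  (.ofNat 90, [], [.z, .k, .k, .z]),
  (.negSucc 89, [], [.z, .k, .z, .k]),
  (.ofNat 90, [], [.z, .k, .z, .z]),
  (.ofNat 90, [], [.z, .z, .k, .k]),
  (.negSucc 89, [], [.z, .z, .k, .z]),
  (.ofNat 90, [], [.z, .z, .z, .k]),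
  (.negSucc 89, [], [.z, .z, .z, .z]),
  (.negSucc 89, [], [.k, .k, .k, .k]),
  (.negSucc 89, [], [.k, .k, .k, .z]),
  (.ofNat 90, [], [.k, .k, .z, .k]),
  (.ofNat 90, [], [.k, .k, .z, .z]),
  (.ofNat 90, [], [.k, .z, .k, .k]),
  (.ofNat 90, [], [.k, .z, .k, .z]),
  (.negSucc 89, [], [.k, .z, .z, .k]),
  (.negSucc 89, [], [.k, .z, .z, .z]),
  (.negSucc 89, [], [.z, .k, .k, .k]),
  (.negSucc 89, [], [.z, .k, .k, .z]),
  (.ofNat 90, [], [.z, .k, .z, .k]),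
  (.ofNat 90, [], [.z, .k, .z, .z]),
  (.ofNat 90, [], [.z, .z, .k, .k]),
  (.ofNat 90, [], [.z, .z, .k, .z]),
  (.negSucc 89, [], [.z, .z, .z, .k]),
  (.negSucc 89, [], [.z, .z, .z, .z]),
  (.ofNat 360, [.k], [.k, .k, .k]),
  (.ofNat 360, [.k], [.k, .k, .z]),
  (.negSucc 359, [.k], [.k, .z, .k]),
  (.negSucc 359, [.k], [.k, .z, .z]),
  (.ofNat 360, [.k], [.z, .k, .k]),
  (.ofNat 360, [.k], [.z, .k, .z]),
  (.negSucc 359, [.k], [.z, .z, .k]),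
  (.negSucc 359, [.k], [.z, .z, .z]),
  (.negSucc 359, [.z], [.k, .k, .k]),
  (.negSucc 359, [.z], [.k, .k, .z]),
  (.ofNat 360, [.z], [.k, .z, .k]),
  (.ofNat 360, [.z], [.k, .z, .z]),
  (.negSucc 359, [.z], [.z, .k, .k]),
  (.negSucc 359, [.z], [.z, .k, .z]),
  (.ofNat 360, [.z], [.z, .z, .k]),
  (.ofNat 360, [.z], [.z, .z, .z]),
  (.negSucc 219, [.k], [.k]),
  (.ofNat 220, [.k], [.k, .k, .k]),
  (.ofNat 220, [.k], [.z, .k, .z]),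
  (.negSucc 219, [.k], [.z, .z, .k]),
  (.negSucc 219, [.k], [.k, .z, .z]),
  (.ofNat 220, [.k, .k, .k], [.k]),
  (.negSucc 219, [.k, .k, .k], [.k, .k, .k]),
  (.negSucc 219, [.k, .k, .k], [.z, .k, .z]),
  (.ofNat 220, [.k, .k, .k], [.z, .z, .k]),
  (.ofNat 220, [.k, .k, .k], [.k, .z, .z]),
  (.ofNat 220, [.z, .k, .z], [.k]),
  (.negSucc 219, [.z, .k, .z], [.k, .k, .k]),
  (.negSucc 219, [.z, .k, .z], [.z, .k, .z]),
  (.ofNat 220, [.z, .k, .z], [.z, .z, .k]),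
  (.ofNat 220, [.z, .k, .z], [.k, .z, .z]),
  (.negSucc 219, [.z, .z, .k], [.k]),
  (.ofNat 220, [.z, .z, .k], [.k, .k, .k]),
  (.ofNat 220, [.z, .z, .k], [.z, .k, .z]),
  (.negSucc 219, [.z, .z, .k], [.z, .z, .k]),
  (.negSucc 219, [.z, .z, .k], [.k, .z, .z]),
  (.negSucc 219, [.k, .z, .z], [.k]),
  (.ofNat 220, [.k, .z, .z], [.k, .k, .k]),
  (.ofNat 220, [.k, .z, .z], [.z, .k, .z]),
  (.negSucc 219, [.k, .z, .z], [.z, .z, .k]),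
  (.negSucc 219, [.k, .z, .z], [.k, .z, .z]),
  (.ofNat 936, [.p], [.p]),
  (.negSucc 935, [.p], [.p, .k]),
  (.negSucc 935, [.p], [.p, .z]),
  (.ofNat 936, [.p], [.y]),
  (.negSucc 935, [.p], [.y, .k]),
  (.negSucc 935, [.p], [.y, .z]),
  (.negSucc 935, [.y], [.p]),
  (.ofNat 936, [.y], [.p, .k]),
  (.ofNat 936, [.y], [.p, .z]),
  (.negSucc 935, [.y], [.y]),
  (.ofNat 936, [.y], [.y, .k]),
  (.ofNat 936, [.y], [.y, .z]),
  (.negSucc 935, [.k, .p], [.p]),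
  (.ofNat 936, [.k, .p], [.p, .k]),
  (.ofNat 936, [.k, .p], [.p, .z]),
  (.negSucc 935, [.k, .p], [.y]),
  (.ofNat 936, [.k, .p], [.y, .k]),
  (.ofNat 936, [.k, .p], [.y, .z]),
  (.ofNat 936, [.k, .y], [.p]),
  (.negSucc 935, [.k, .y], [.p, .k]),
  (.negSucc 935, [.k, .y], [.p, .z]),
  (.ofNat 936, [.k, .y], [.y]),
  (.negSucc 935, [.k, .y], [.y, .k]),
  (.negSucc 935, [.k, .y], [.y, .z]),
  (.negSucc 935, [.z, .p], [.p]),
  (.ofNat 936, [.z, .p], [.p, .k]),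
  (.ofNat 936, [.z, .p], [.p, .z]),
  (.negSucc 935, [.z, .p], [.y]),
  (.ofNat 936, [.z, .p], [.y, .k]),
  (.ofNat 936, [.z, .p], [.y, .z]),
  (.ofNat 936, [.z, .y], [.p]),
  (.negSucc 935, [.z, .y], [.p, .k]),
  (.negSucc 935, [.z, .y], [.p, .z]),
  (.ofNat 936, [.z, .y], [.y]),
  (.negSucc 935, [.z, .y], [.y, .k]),
  (.negSucc 935, [.z, .y], [.y, .z]),
  (.ofNat 18, [], []),
  (.negSucc 17, [], [.k]),
  (.negSucc 17, [], [.z]),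
  (.ofNat 18, [], [.k]),
  (.negSucc 17, [], [.k, .k]),
  (.negSucc 17, [], [.k, .z]),
  (.ofNat 18, [], [.z]),
  (.negSucc 17, [], [.z, .k]),
  (.negSucc 17, [], [.z, .z]),
  (.ofNat 18, [.k], []),
  (.negSucc 17, [.k], [.k]),
  (.negSucc 17, [.k], [.z]),
  (.ofNat 18, [.k], [.k]),
  (.negSucc 17, [.k], [.k, .k]),
  (.negSucc 17, [.k], [.k, .z]),
  (.ofNat 18, [.k], [.z]),
  (.negSucc 17, [.k], [.z, .k]),
  (.negSucc 17, [.k], [.z, .z]),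
  (.ofNat 18, [.z], []),
  (.negSucc 17, [.z], [.k]),
  (.negSucc 17, [.z], [.z]),
  (.ofNat 18, [.z], [.k]),
  (.negSucc 17, [.z], [.k, .k]),
  (.negSucc 17, [.z], [.k, .z]),
  (.ofNat 18, [.z], [.z]),
  (.negSucc 17, [.z], [.z, .k]),
  (.negSucc 17, [.z], [.z, .z]),
  (.negSucc 17, [.k], []),
  (.ofNat 18, [.k], [.k]),
  (.ofNat 18, [.k], [.z]),
  (.negSucc 17, [.k], [.k]),
  (.ofNat 18, [.k], [.k, .k]),
  (.ofNat 18, [.k], [.k, .z]),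
  (.negSucc 17, [.k], [.z]),
  (.ofNat 18, [.k], [.z, .k]),
  (.ofNat 18, [.k], [.z, .z]),
  (.negSucc 17, [.k, .k], []),
  (.ofNat 18, [.k, .k], [.k]),
  (.ofNat 18, [.k, .k], [.z]),
  (.negSucc 17, [.k, .k], [.k]),
  (.ofNat 18, [.k, .k], [.k, .k]),
  (.ofNat 18, [.k, .k], [.k, .z]),
  (.negSucc 17, [.k, .k], [.z]),
  (.ofNat 18, [.k, .k], [.z, .k]),
  (.ofNat 18, [.k, .k], [.z, .z]),
  (.negSucc 17, [.k, .z], []),
  (.ofNat 18, [.k, .z], [.k]),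
  (.ofNat 18, [.k, .z], [.z]),
  (.negSucc 17, [.k, .z], [.k]),
  (.ofNat 18, [.k, .z], [.k, .k]),
  (.ofNat 18, [.k, .z], [.k, .z]),
  (.negSucc 17, [.k, .z], [.z]),
  (.ofNat 18, [.k, .z], [.z, .k]),
  (.ofNat 18, [.k, .z], [.z, .z]),
  (.negSucc 17, [.z], []),
  (.ofNat 18, [.z], [.k]),
  (.ofNat 18, [.z], [.z]),
  (.negSucc 17, [.z], [.k]),
  (.ofNat 18, [.z], [.k, .k]),
  (.ofNat 18, [.z], [.k, .z]),
  (.negSucc 17, [.z], [.z]),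
  (.ofNat 18, [.z], [.z, .k]),
  (.ofNat 18, [.z], [.z, .z]),
  (.negSucc 17, [.z, .k], []),
  (.ofNat 18, [.z, .k], [.k]),
  (.ofNat 18, [.z, .k], [.z]),
  (.negSucc 17, [.z, .k], [.k]),
  (.ofNat 18, [.z, .k], [.k, .k]),
  (.ofNat 18, [.z, .k], [.k, .z]),
  (.negSucc 17, [.z, .k], [.z]),
  (.ofNat 18, [.z, .k], [.z, .k]),
  (.ofNat 18, [.z, .k], [.z, .z]),
  (.negSucc 17, [.z, .z], []),
  (.ofNat 18, [.z, .z], [.k]),
  (.ofNat 18, [.z, .z], [.z]),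
  (.negSucc 17, [.z, .z], [.k]),
  (.ofNat 18, [.z, .z], [.k, .k]),
  (.ofNat 18, [.z, .z], [.k, .z]),
  (.negSucc 17, [.z, .z], [.z]),
  (.ofNat 18, [.z, .z], [.z, .k]),
  (.ofNat 18, [.z, .z], [.z, .z]),
  (.negSucc 971, [], []),
  (.ofNat 972, [], [.k]),
  (.ofNat 972, [], [.z]),
  (.negSucc 971, [], [.k]),
  (.ofNat 972, [], [.k, .k]),
  (.ofNat 972, [], [.k, .z]),
  (.negSucc 971, [], [.z]),
  (.ofNat 972, [], [.z, .k]),
  (.ofNat 972, [], [.z, .z]),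
  (.ofNat 972, [], [.k]),
  (.negSucc 971, [], [.k, .k]),
  (.negSucc 971, [], [.k, .z]),
  (.ofNat 972, [], [.k, .k]),
  (.negSucc 971, [], [.k, .k, .k]),
  (.negSucc 971, [], [.k, .k, .z]),
  (.ofNat 972, [], [.k, .z]),
  (.negSucc 971, [], [.k, .z, .k]),
  (.negSucc 971, [], [.k, .z, .z]),
  (.ofNat 972, [], [.z]),
  (.negSucc 971, [], [.z, .k]),
  (.negSucc 971, [], [.z, .z]),
  (.ofNat 972, [], [.z, .k]),
  (.negSucc 971, [], [.z, .k, .k]),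
  (.negSucc 971, [], [.z, .k, .z]),
  (.ofNat 972, [], [.z, .z]),
  (.negSucc 971, [], [.z, .z, .k]),
  (.negSucc 971, [], [.z, .z, .z])]

set_option maxRecDepth 100000 in
theorem fAx_eq : cvE fAx = H75C.fA := by decide +kernel

set_option maxRecDepth 100000 in
theorem totA_ok : z2 (wk2 (mrg2 (insE (.ofNat 16777216) fAx .lf) (mrg2 (insE (.negSucc 3) wA1 .lf) (mrg2 (insE (.negSucc 3) wA2 .lf) (mrg2 (insE (.negSucc 3) wA3 .lf) (mrg2 (insE (.negSucc 3) wA4 .lf) (mrg2 (insE (.negSucc 3) wA5 .lf) (mrg2 (insE (.negSucc 0) wA6 .lf) (mrg2 (insE (.negSucc 0) wA7 .lf) (mrg2 (insE (.negSucc 0) wA8 .lf) (mrg2 (insE (.negSucc 0) wA9 .lf) .lf)))))))))) []) = true := by decide +kernel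

/-- The total identity of certificate A. -/
theorem totA {F : Wo → Wo → ℝ} (hF : Sy F) : 2 ^ 24 * lin F fAx =
    4 * (lin F wA1 + lin F wA2 + lin F wA3 + lin F wA4 + lin F wA5) +
    (lin F wA6 + lin F wA7 + lin F wA8 + lin F wA9) := by
  have h := v2_zero hF totA_ok
  simp only [v2_mrg2, v2_insE, v2_lf] at h
  have e3 : ((Int.negSucc 3 : ℤ) : ℝ) = -4 := by norm_num
  have e0 : ((Int.negSucc 0 : ℤ) : ℝ) = -1 := by norm_num
  have e24 : ((Int.ofNat 16777216 : ℤ) : ℝ) = 2 ^ 24 := by norm_num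
  rw [e3, e0, e24] at h
  linarith

end Pool.Agent.H14Z
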