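import Pool.Agent.Lib.H14Z.Br
import Pool.Agent.Lib.H14Z.B1
import Pool.Agent.Lib.H14Z.B2
import Pool.Agent.Lib.H14Z.B3
import Pool.Agent.Lib.H14Z.B4
import Pool.Agent.Lib.H14Z.B5
import Pool.Agent.Lib.H14Z.B6
import Pool.Agent.Lib.H14Z.B7
import Pool.Agent.Lib.H14Z.B8
import Pool.Agent.Lib.H14Z.B9

/-! # Certificate B: the total identity -/

namespace Pool.Agent.H14Z

open Pool.Agent.H2AF Pool.Agent.H75C

/-- `H75C.fB` in the words of `H14Z`. -/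
def fBx : E :=
 [(.ofNat 12960, [], []),
  (.ofNat 12960, [], [.k]),
  (.ofNat 12960, [], [.z]),
  (.negSucc 6479, [], []),
  (.negSucc 6479, [], [.k]),
  (.negSucc 6479, [], [.z]),
  (.negSucc 6479, [.k], []),
  (.negSucc 6479, [.k], [.k]),
  (.negSucc 6479, [.k], [.z]),
  (.negSucc 6479, [.z], []),
  (.negSucc 6479, [.z], [.k]),
  (.negSucc 6479, [.z], [.z]),
  (.ofNat 12960, [], []),
  (.ofNat 12960, [], [.k]),
  (.negSucc 12959, [], [.z]),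
  (.negSucc 6479, [], []),
  (.negSucc 6479, [], [.k]),
  (.ofNat 6480, [], [.z]),
  (.negSucc 6479, [.k], []),
  (.negSucc 6479, [.k], [.k]),
  (.ofNat 6480, [.k], [.z]),
  (.ofNat 6480, [.z], []),
  (.ofNat 6480, [.z], [.k]),
  (.negSucc 6479, [.z], [.z]),
  (.negSucc 449, [], [.k, .k]),
  (.negSucc 449, [], [.k, .z]),
  (.negSucc 449, [], [.z, .k]),
  (.negSucc 449, [], [.z, .z]),
  (.negSucc 449, [], [.k, .k, .k, .k]),
  (.ofNat 450, [], [.k, .k, .k, .z]),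
  (.negSucc 449, [], [.k, .k, .z, .k]),
  (.ofNat 450, [], [.k, .k, .z, .z]),
  (.ofNat 450, [], [.k, .z, .k, .k]),
  (.negSucc 449, [], [.k, .z, .k, .z]),
  (.ofNat 450, [], [.k, .z, .z, .k]),
  (.negSucc 449, [], [.k, .z, .z, .z]),
  (.negSucc 449, [], [.z, .k, .k, .k]),
  (.ofNat 450, [], [.z, .k, .k, .z]),
  (.negSucc 449, [], [.z, .k, .z, .k]),
  (.ofNat 450, [], [.z, .k, .z, .z]),
  (.ofNat 450, [], [.z, .z, .k, .k]),
  (.negSucc 449, [], [.z, .z, .k, .z]),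
  (.ofNat 450, [], [.z, .z, .z, .k]),
  (.negSucc 449, [], [.z, .z, .z, .z]),
  (.negSucc 449, [], [.k, .k, .k, .k]),
  (.negSucc 449, [], [.k, .k, .k, .z]),
  (.ofNat 450, [], [.k, .k, .z, .k]),
  (.ofNat 450, [], [.k, .k, .z, .z]),
  (.negSucc 449, [], [.k, .z, .k, .k]),
  (.negSucc 449, [], [.k, .z, .k, .z]),
  (.ofNat 450, [], [.k, .z, .z, .k]),
  (.ofNat 450, [], [.k, .z, .z, .z]),
  (.ofNat 450, [], [.z, .k, .k, .k]),
  (.ofNat 450, [], [.z, .k, .k, .z]),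
  (.negSucc 449, [], [.z, .k, .z, .k]),
  (.negSucc 449, [], [.z, .k, .z, .z]),
  (.ofNat 450, [], [.z, .z, .k, .k]),
  (.ofNat 450, [], [.z, .z, .k, .z]),
  (.negSucc 449, [], [.z, .z, .z, .k]),
  (.negSucc 449, [], [.z, .z, .z, .z]),
  (.negSucc 449, [], [.k, .k, .k, .k]),
  (.ofNat 450, [], [.k, .k, .k, .z]),
  (.negSucc 449, [], [.k, .k, .z, .k]),
  (.ofNat 450, [], [.k, .k, .z, .z]),
  (.negSucc 449, [], [.k, .z, .k, .k]),
  (.ofNat 450, [], [.k, .z, .k, .z]),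
  (.negSucc 449, [], [.k, .z, .z, .k]),
  (.ofNat 450, [], [.k, .z, .z, .z]),
  (.ofNat 450, [], [.z, .k, .k, .k]),
  (.negSucc 449, [], [.z, .k, .k, .z]),
  (.ofNat 450, [], [.z, .k, .z, .k]),
  (.negSucc 449, [], [.z, .k, .z, .z]),
  (.ofNat 450, [], [.z, .z, .k, .k]),
  (.negSucc 449, [], [.z, .z, .k, .z]),
  (.ofNat 450, [], [.z, .z, .z, .k]),
  (.negSucc 449, [], [.z, .z, .z, .z]),
  (.ofNat 1800, [.k], [.k, .k, .k]),
  (.negSucc 1799, [.k], [.k, .k, .z]),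
  (.ofNat 1800, [.k], [.k, .z, .k]),
  (.negSucc 1799, [.k], [.k, .z, .z]),
  (.negSucc 1799, [.k], [.z, .k, .k]),
  (.ofNat 1800, [.k], [.z, .k, .z]),
  (.negSucc 1799, [.k], [.z, .z, .k]),
  (.ofNat 1800, [.k], [.z, .z, .z]),
  (.ofNat 1800, [.z], [.k, .k, .k]),
  (.negSucc 1799, [.z], [.k, .k, .z]),
  (.ofNat 1800, [.z], [.k, .z, .k]),
  (.negSucc 1799, [.z], [.k, .z, .z]),
  (.negSucc 1799, [.z], [.z, .k, .k]),
  (.ofNat 1800, [.z], [.z, .k, .z]),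
  (.negSucc 1799, [.z], [.z, .z, .k]),
  (.ofNat 1800, [.z], [.z, .z, .z]),
  (.negSucc 449, [], [.k, .k]),
  (.ofNat 450, [], [.k, .z]),
  (.ofNat 450, [], [.z, .k]),
  (.negSucc 449, [], [.z, .z]),
  (.negSucc 449, [], [.k, .k, .k, .k]),
  (.negSucc 449, [], [.k, .k, .k, .z]),
  (.ofNat 450, [], [.k, .k, .z, .k]),
  (.ofNat 450, [], [.k, .k, .z, .z]),
  (.negSucc 449, [], [.k, .z, .k, .k]),
  (.negSucc 449, [], [.k, .z, .k, .z]),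
  (.ofNat 450, [], [.k, .z, .z, .k]),
  (.ofNat 450, [], [.k, .z, .z, .z]),
  (.ofNat 450, [], [.z, .k, .k, .k]),
  (.ofNat 450, [], [.z, .k, .k, .z]),
  (.negSucc 449, [], [.z, .k, .z, .k]),
  (.negSucc 449, [], [.z, .k, .z, .z]),
  (.ofNat 450, [], [.z, .z, .k, .k]),
  (.ofNat 450, [], [.z, .z, .k, .z]),
  (.negSucc 449, [], [.z, .z, .z, .k]),
  (.negSucc 449, [], [.z, .z, .z, .z]),
  (.negSucc 449, [], [.k, .k, .k, .k]),
  (.ofNat 450, [], [.k, .k, .k, .z]),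
  (.negSucc 449, [], [.k, .k, .z, .k]),
  (.ofNat 450, [], [.k, .k, .z, .z]),
  (.ofNat 450, [], [.k, .z, .k, .k]),
  (.negSucc 449, [], [.k, .z, .k, .z]),
  (.ofNat 450, [], [.k, .z, .z, .k]),
  (.negSucc 449, [], [.k, .z, .z, .z]),
  (.negSucc 449, [], [.z, .k, .k, .k]),
  (.ofNat 450, [], [.z, .k, .k, .z]),
  (.negSucc 449, [], [.z, .k, .z, .k]),
  (.ofNat 450, [], [.z, .k, .z, .z]),
  (.ofNat 450, [], [.z, .z, .k, .k]),
  (.negSucc 449, [], [.z, .z, .k, .z]),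
  (.ofNat 450, [], [.z, .z, .z, .k]),
  (.negSucc 449, [], [.z, .z, .z, .z]),
  (.negSucc 449, [], [.k, .k, .k, .k]),
  (.negSucc 449, [], [.k, .k, .k, .z]),
  (.ofNat 450, [], [.k, .k, .z, .k]),
  (.ofNat 450, [], [.k, .k, .z, .z]),
  (.ofNat 450, [], [.k, .z, .k, .k]),
  (.ofNat 450, [], [.k, .z, .k, .z]),
  (.negSucc 449, [], [.k, .z, .z, .k]),
  (.negSucc 449, [], [.k, .z, .z, .z]),
  (.negSucc 449, [], [.z, .k, .k, .k]),
  (.negSucc 449, [], [.z, .k, .k, .z]),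
  (.ofNat 450, [], [.z, .k, .z, .k]),
  (.ofNat 450, [], [.z, .k, .z, .z]),
  (.ofNat 450, [], [.z, .z, .k, .k]),
  (.ofNat 450, [], [.z, .z, .k, .z]),
  (.negSucc 449, [], [.z, .z, .z, .k]),
  (.negSucc 449, [], [.z, .z, .z, .z]),
  (.ofNat 1800, [.k], [.k, .k, .k]),
  (.ofNat 1800, [.k], [.k, .k, .z]),
  (.negSucc 1799, [.k], [.k, .z, .k]),
  (.negSucc 1799, [.k], [.k, .z, .z]),
  (.ofNat 1800, [.k], [.z, .k, .k]),
  (.ofNat 1800, [.k], [.z, .k, .z]),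
  (.negSucc 1799, [.k], [.z, .z, .k]),
  (.negSucc 1799, [.k], [.z, .z, .z]),
  (.negSucc 1799, [.z], [.k, .k, .k]),
  (.negSucc 1799, [.z], [.k, .k, .z]),
  (.ofNat 1800, [.z], [.k, .z, .k]),
  (.ofNat 1800, [.z], [.k, .z, .z]),
  (.negSucc 1799, [.z], [.z, .k, .k]),
  (.negSucc 1799, [.z], [.z, .k, .z]),
  (.ofNat 1800, [.z], [.z, .z, .k]),
  (.ofNat 1800, [.z], [.z, .z, .z]),
  (.negSucc 1099, [.k], [.k]),
  (.ofNat 1100, [.k], [.k, .k, .k]),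
  (.ofNat 1100, [.k], [.z, .k, .z]),
  (.negSucc 1099, [.k], [.z, .z, .k]),
  (.negSucc 1099, [.k], [.k, .z, .z]),
  (.ofNat 1100, [.k, .k, .k], [.k]),
  (.negSucc 1099, [.k, .k, .k], [.k, .k, .k]),
  (.negSucc 1099, [.k, .k, .k], [.z, .k, .z]),
  (.ofNat 1100, [.k, .k, .k], [.z, .z, .k]),
  (.ofNat 1100, [.k, .k, .k], [.k, .z, .z]),
  (.ofNat 1100, [.z, .k, .z], [.k]),
  (.negSucc 1099, [.z, .k, .z], [.k, .k, .k]),
  (.negSucc 1099, [.z, .k, .z], [.z, .k, .z]),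
  (.ofNat 1100, [.z, .k, .z], [.z, .z, .k]),
  (.ofNat 1100, [.z, .k, .z], [.k, .z, .z]),
  (.negSucc 1099, [.z, .z, .k], [.k]),
  (.ofNat 1100, [.z, .z, .k], [.k, .k, .k]),
  (.ofNat 1100, [.z, .z, .k], [.z, .k, .z]),
  (.negSucc 1099, [.z, .z, .k], [.z, .z, .k]),
  (.negSucc 1099, [.z, .z, .k], [.k, .z, .z]),
  (.negSucc 1099, [.k, .z, .z], [.k]),
  (.ofNat 1100, [.k, .z, .z], [.k, .k, .k]),
  (.ofNat 1100, [.k, .z, .z], [.z, .k, .z]),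
  (.negSucc 1099, [.k, .z, .z], [.z, .z, .k]),
  (.negSucc 1099, [.k, .z, .z], [.k, .z, .z]),
  (.ofNat 4230, [.p], [.p]),
  (.negSucc 4229, [.p], [.p, .k]),
  (.negSucc 4229, [.p], [.p, .z]),
  (.ofNat 4230, [.p], [.y]),
  (.negSucc 4229, [.p], [.y, .k]),
  (.negSucc 4229, [.p], [.y, .z]),
  (.negSucc 4229, [.y], [.p]),
  (.ofNat 4230, [.y], [.p, .k]),
  (.ofNat 4230, [.y], [.p, .z]),
  (.negSucc 4229, [.y], [.y]),
  (.ofNat 4230, [.y], [.y, .k]),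
  (.ofNat 4230, [.y], [.y, .z]),
  (.negSucc 4229, [.k, .p], [.p]),
  (.ofNat 4230, [.k, .p], [.p, .k]),
  (.ofNat 4230, [.k, .p], [.p, .z]),
  (.negSucc 4229, [.k, .p], [.y]),
  (.ofNat 4230, [.k, .p], [.y, .k]),
  (.ofNat 4230, [.k, .p], [.y, .z]),
  (.ofNat 4230, [.k, .y], [.p]),
  (.negSucc 4229, [.k, .y], [.p, .k]),
  (.negSucc 4229, [.k, .y], [.p, .z]),
  (.ofNat 4230, [.k, .y], [.y]),
  (.negSucc 4229, [.k, .y], [.y, .k]),
  (.negSucc 4229, [.k, .y], [.y, .z]),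
  (.negSucc 4229, [.z, .p], [.p]),
  (.ofNat 4230, [.z, .p], [.p, .k]),
  (.ofNat 4230, [.z, .p], [.p, .z]),
  (.negSucc 4229, [.z, .p], [.y]),
  (.ofNat 4230, [.z, .p], [.y, .k]),
  (.ofNat 4230, [.z, .p], [.y, .z]),
  (.ofNat 4230, [.z, .y], [.p]),
  (.negSucc 4229, [.z, .y], [.p, .k]),
  (.negSucc 4229, [.z, .y], [.p, .z]),
  (.ofNat 4230, [.z, .y], [.y]),
  (.negSucc 4229, [.z, .y], [.y, .k]),
  (.negSucc 4229, [.z, .y], [.y, .z]),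
  (.ofNat 846, [], []),
  (.negSucc 845, [], [.k]),
  (.negSucc 845, [], [.z]),
  (.ofNat 846, [], [.k]),
  (.negSucc 845, [], [.k, .k]),
  (.negSucc 845, [], [.k, .z]),
  (.ofNat 846, [], [.z]),
  (.negSucc 845, [], [.z, .k]),
  (.negSucc 845, [], [.z, .z]),
  (.ofNat 846, [.k], []),
  (.negSucc 845, [.k], [.k]),
  (.negSucc 845, [.k], [.z]),
  (.ofNat 846, [.k], [.k]),
  (.negSucc 845, [.k], [.k, .k]),
  (.negSucc 845, [.k], [.k, .z]),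
  (.ofNat 846, [.k], [.z]),
  (.negSucc 845, [.k], [.z, .k]),
  (.negSucc 845, [.k], [.z, .z]),
  (.ofNat 846, [.z], []),
  (.negSucc 845, [.z], [.k]),
  (.negSucc 845, [.z], [.z]),
  (.ofNat 846, [.z], [.k]),
  (.negSucc 845, [.z], [.k, .k]),
  (.negSucc 845, [.z], [.k, .z]),
  (.ofNat 846, [.z], [.z]),
  (.negSucc 845, [.z], [.z, .k]),
  (.negSucc 845, [.z], [.z, .z]),
  (.negSucc 845, [.k], []),
  (.ofNat 846, [.k], [.k]),
  (.ofNat 846, [.k], [.z]),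
  (.negSucc 845, [.k], [.k]),
  (.ofNat 846, [.k], [.k, .k]),
  (.ofNat 846, [.k], [.k, .z]),
  (.negSucc 845, [.k], [.z]),
  (.ofNat 846, [.k], [.z, .k]),
  (.ofNat 846, [.k], [.z, .z]),
  (.negSucc 845, [.k, .k], []),
  (.ofNat 846, [.k, .k], [.k]),
  (.ofNat 846, [.k, .k], [.z]),
  (.negSucc 845, [.k, .k], [.k]),
  (.ofNat 846, [.k, .k], [.k, .k]),
  (.ofNat 846, [.k, .k], [.k, .z]),
  (.negSucc 845, [.k, .k], [.z]),
  (.ofNat 846, [.k, .k], [.z, .k]),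
  (.ofNat 846, [.k, .k], [.z, .z]),
  (.negSucc 845, [.k, .z], []),
  (.ofNat 846, [.k, .z], [.k]),
  (.ofNat 846, [.k, .z], [.z]),
  (.negSucc 845, [.k, .z], [.k]),
  (.ofNat 846, [.k, .z], [.k, .k]),
  (.ofNat 846, [.k, .z], [.k, .z]),
  (.negSucc 845, [.k, .z], [.z]),
  (.ofNat 846, [.k, .z], [.z, .k]),
  (.ofNat 846, [.k, .z], [.z, .z]),
  (.negSucc 845, [.z], []),
  (.ofNat 846, [.z], [.k]),
  (.ofNat 846, [.z], [.z]),
  (.negSucc 845, [.z], [.k]),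
  (.ofNat 846, [.z], [.k, .k]),
  (.ofNat 846, [.z], [.k, .z]),
  (.negSucc 845, [.z], [.z]),
  (.ofNat 846, [.z], [.z, .k]),
  (.ofNat 846, [.z], [.z, .z]),
  (.negSucc 845, [.z, .k], []),
  (.ofNat 846, [.z, .k], [.k]),
  (.ofNat 846, [.z, .k], [.z]),
  (.negSucc 845, [.z, .k], [.k]),
  (.ofNat 846, [.z, .k], [.k, .k]),
  (.ofNat 846, [.z, .k], [.k, .z]),
  (.negSucc 845, [.z, .k], [.z]),
  (.ofNat 846, [.z, .k], [.z, .k]),
  (.ofNat 846, [.z, .k], [.z, .z]),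
  (.negSucc 845, [.z, .z], []),
  (.ofNat 846, [.z, .z], [.k]),
  (.ofNat 846, [.z, .z], [.z]),
  (.negSucc 845, [.z, .z], [.k]),
  (.ofNat 846, [.z, .z], [.k, .k]),
  (.ofNat 846, [.z, .z], [.k, .z]),
  (.negSucc 845, [.z, .z], [.z]),
  (.ofNat 846, [.z, .z], [.z, .k]),
  (.ofNat 846, [.z, .z], [.z, .z]),
  (.negSucc 5921, [], []),
  (.ofNat 5922, [], [.k]),
  (.ofNat 5922, [], [.z]),
  (.negSucc 5921, [], [.k]),
  (.ofNat 5922, [], [.k, .k]),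
  (.ofNat 5922, [], [.k, .z]),
  (.negSucc 5921, [], [.z]),
  (.ofNat 5922, [], [.z, .k]),
  (.ofNat 5922, [], [.z, .z]),
  (.ofNat 5922, [], [.k]),
  (.negSucc 5921, [], [.k, .k]),
  (.negSucc 5921, [], [.k, .z]),
  (.ofNat 5922, [], [.k, .k]),
  (.negSucc 5921, [], [.k, .k, .k]),
  (.negSucc 5921, [], [.k, .k, .z]),
  (.ofNat 5922, [], [.k, .z]),
  (.negSucc 5921, [], [.k, .z, .k]),
  (.negSucc 5921, [], [.k, .z, .z]),
  (.ofNat 5922, [], [.z]),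
  (.negSucc 5921, [], [.z, .k]),
  (.negSucc 5921, [], [.z, .z]),
  (.ofNat 5922, [], [.z, .k]),
  (.negSucc 5921, [], [.z, .k, .k]),
  (.negSucc 5921, [], [.z, .k, .z]),
  (.ofNat 5922, [], [.z, .z]),
  (.negSucc 5921, [], [.z, .z, .k]),
  (.negSucc 5921, [], [.z, .z, .z])]

set_option maxRecDepth 100000 in
theorem fBx_eq : cvE fBx = H75C.fB := by decide +kernel

set_option maxRecDepth 100000 in
theorem totB_ok : z2 (wk2 (mrg2 (insE (.ofNat 16777216) fBx .lf) (mrg2 (insE (.negSucc 3) wB1 .lf) (mrg2 (insE (.negSucc 3) wB2 .lf) (mrg2 (insE (.negSucc 3) wB3 .lf) (mrg2 (insE (.negSucc 3) wB4 .lf) (mrg2 (insE (.negSucc 3) wB5 .lf) (mrg2 (insE (.negSucc 0) wB6 .lf) (mrg2 (insE (.negSucc 0) wB7 .lf) (mrg2 (insE (.negSucc 0) wB8 .lf) (mrg2 (insE (.negSucc 0) wB9 .lf) .lf)))))))))) []) = true := by decide +kernel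

/-- The total identity of certificate B. -/
theorem totB {F : Wo → Wo → ℝ} (hF : Sy F) : 2 ^ 24 * lin F fBx =
    4 * (lin F wB1 + lin F wB2 + lin F wB3 + lin F wB4 + lin F wB5) +
    (lin F wB6 + lin F wB7 + lin F wB8 + lin F wB9) := by
  have h := v2_zero hF totB_ok
  simp only [v2_mrg2, v2_insE, v2_lf] at h
  have e3 : ((Int.negSucc 3 : ℤ) : ℝ) = -4 := by norm_num
  have e0 : ((Int.negSucc 0 : ℤ) : ℝ) = -1 := by norm_num
  have e24 : ((Int.ofNat 16777216 : ℤ) : ℝ) = 2 ^ 24 := by norm_num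
  rw [e3, e0, e24] at h
  linarith

end Pool.Agent.H14Z
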