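import Pool.Agent.Lib.H14Z.N
import Pool.Agent.Lib.H14Z.FA
import Pool.Agent.Lib.H14Z.FB
import Pool.Agent.Lib.H72CA.S1

/-! # The two certificates of the plane inequality -/

namespace Pool.Agent.H14Z

open Matrix Pool.Agent.H2AF Pool.Agent.H75C Pool.Agent.H16T Pool.Agent.H72CA
open scoped ComplexOrder

theorem certA : CertA := by
  intro α β _ _ _ _ B X hB hX δ
  have hXs := hX.posSemidef
  have h1 := nn_sq δ B hXs (m := 26) (rfl : e1.length = 26) okA1 cA1
  have h2 := nn_sq δ B hXs (m := 50) (rfl : e2.length = 50) okA2 cA2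
  have h3 := nn_sq δ B hXs (m := 27) (rfl : e3.length = 27) okA3 cA3
  have h4 := nn_sq δ B hXs (m := 27) (rfl : e4.length = 27) okA4 cA4
  have h5 := nn_xx δ B hXs (m := 13) (rfl : e5.length = 13) okA5 cA5
  have h6 := nn_loc δ hB hXs (m := 17) (rfl : e6.length = 17) okA6 cA6
  have h7 := nn_loc δ hB hXs (m := 37) (rfl : e7.length = 37) okA7 cA7
  have h8 := nn_loc δ hB hXs (m := 36) (rfl : e8.length = 36) okA8 cA8
  have h9 := nn_loc δ hB hXs (m := 17) (rfl : e9.length = 17) okA9 cA9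
  have ht := totA (sy_LF δ B hX.isHermitian)
  have hf : H75C.lin (LL δ B X) H75C.fA = lin (LF δ B X) fAx := by
    rw [← fAx_eq]
    exact lin_cvE (LL δ B X) fAx
  have hv := Av_FFA δ B X
  rw [hf] at hv
  linarith

theorem certB : CertB := by
  intro α β _ _ _ _ B X hB hX δ
  have hXs := hX.posSemidef
  have h1 := nn_sq δ B hXs (m := 26) (rfl : e1.length = 26) okB1 cB1
  have h2 := nn_sq δ B hXs (m := 50) (rfl : e2.length = 50) okB2 cB2
  have h3 := nn_sq δ B hXs (m := 27) (rfl : e3.length = 27) okB3 cB3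
  have h4 := nn_sq δ B hXs (m := 27) (rfl : e4.length = 27) okB4 cB4
  have h5 := nn_xx δ B hXs (m := 13) (rfl : e5.length = 13) okB5 cB5
  have h6 := nn_loc δ hB hXs (m := 17) (rfl : e6.length = 17) okB6 cB6
  have h7 := nn_loc δ hB hXs (m := 37) (rfl : e7.length = 37) okB7 cB7
  have h8 := nn_loc δ hB hXs (m := 36) (rfl : e8.length = 36) okB8 cB8
  have h9 := nn_loc δ hB hXs (m := 17) (rfl : e9.length = 17) okB9 cB9
  have ht := totB (sy_LF δ B hX.isHermitian)
  have hf : H75C.lin (LL δ B X) H75C.fB = lin (LF δ B X) fBx := by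
    rw [← fBx_eq]
    exact lin_cvE (LL δ B X) fBx
  have hv := Av_FFB δ B X
  rw [hf] at hv
  linarith

end Pool.Agent.H14Z
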