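import Pool.Agent.Lib.H14Z.B

/-! # The elements of block 4 (P1_T2, sq, size 27) of the certificates -/

namespace Pool.Agent.H14Z

/-- The elements of block 4. -/
def e4 : List E :=
 [[(.ofNat 1, [], [.p, .y]), (.ofNat 1, [], [.y, .p])],
  [(.ofNat 1, [.p], [.y]), (.ofNat 1, [.y], [.p])],
  [(.ofNat 1, [.p, .y], []), (.ofNat 1, [.y, .p], [])],
  [(.ofNat 1, [], [.k, .p, .y]), (.ofNat 1, [], [.k, .y, .p])],
  [(.ofNat 1, [], [.p, .k, .y]), (.ofNat 1, [], [.y, .k, .p])],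
  [(.ofNat 1, [], [.p, .y, .k]), (.ofNat 1, [], [.y, .p, .k])],
  [(.ofNat 1, [], [.p, .p, .z]), (.ofNat 1, [], [.y, .y, .z])],
  [(.ofNat 1, [], [.p, .z, .p]), (.ofNat 1, [], [.y, .z, .y])],
  [(.ofNat 1, [], [.z, .p, .p]), (.ofNat 1, [], [.z, .y, .y])],
  [(.ofNat 1, [.k], [.p, .y]), (.ofNat 1, [.k], [.y, .p])],
  [(.ofNat 1, [.p], [.k, .y]), (.ofNat 1, [.y], [.k, .p])],
  [(.ofNat 1, [.p], [.y, .k]), (.ofNat 1, [.y], [.p, .k])],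
  [(.ofNat 1, [.p], [.p, .z]), (.ofNat 1, [.y], [.y, .z])],
  [(.ofNat 1, [.p], [.z, .p]), (.ofNat 1, [.y], [.z, .y])],
  [(.ofNat 1, [.z], [.p, .p]), (.ofNat 1, [.z], [.y, .y])],
  [(.ofNat 1, [.k, .p], [.y]), (.ofNat 1, [.k, .y], [.p])],
  [(.ofNat 1, [.p, .k], [.y]), (.ofNat 1, [.y, .k], [.p])],
  [(.ofNat 1, [.p, .y], [.k]), (.ofNat 1, [.y, .p], [.k])],
  [(.ofNat 1, [.p, .p], [.z]), (.ofNat 1, [.y, .y], [.z])],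
  [(.ofNat 1, [.p, .z], [.p]), (.ofNat 1, [.y, .z], [.y])],
  [(.ofNat 1, [.z, .p], [.p]), (.ofNat 1, [.z, .y], [.y])],
  [(.ofNat 1, [.k, .p, .y], []), (.ofNat 1, [.k, .y, .p], [])],
  [(.ofNat 1, [.p, .k, .y], []), (.ofNat 1, [.y, .k, .p], [])],
  [(.ofNat 1, [.p, .y, .k], []), (.ofNat 1, [.y, .p, .k], [])],
  [(.ofNat 1, [.p, .p, .z], []), (.ofNat 1, [.y, .y, .z], [])],
  [(.ofNat 1, [.p, .z, .p], []), (.ofNat 1, [.y, .z, .y], [])],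
  [(.ofNat 1, [.z, .p, .p], []), (.ofNat 1, [.z, .y, .y], [])]]

end Pool.Agent.H14Z
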