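import Pool.Agent.Lib.H14Z.B

/-! # The elements of block 5 (P4_T1, xx, size 13) of the certificates -/

namespace Pool.Agent.H14Z

/-- The elements of block 5. -/
def e5 : List E :=
 [[(.ofNat 1, [.k, .z], [])],
  [(.ofNat 1, [.z, .k], [])],
  [(.ofNat 1, [.p, .y], []), (.negSucc 0, [.y, .p], []), (.negSucc 1, [.z], [])],
  [(.ofNat 1, [.k, .k, .z], [])],
  [(.ofNat 1, [.k, .z, .k], [])],
  [(.ofNat 1, [.k, .p, .y], []), (.negSucc 0, [.k, .y, .p], [])],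
  [(.ofNat 1, [.z, .k, .k], [])],
  [(.ofNat 1, [.p, .k, .y], []), (.negSucc 0, [.y, .k, .p], [])],
  [(.ofNat 1, [.p, .y, .k], []), (.negSucc 0, [.y, .p, .k], [])],
  [(.ofNat 1, [.p, .p, .z], []), (.negSucc 0, [.y, .y, .z], []), (.negSucc 1, [.z], [])],
  [(.ofNat 1, [.p, .z, .p], []), (.negSucc 0, [.y, .z, .y], []), (.ofNat 2, [.z], [])],
  [(.negSucc 1, [.z], []), (.ofNat 1, [.z, .p, .p], []), (.negSucc 0, [.z, .y, .y], [])],
  [(.negSucc 0, [.z], []), (.ofNat 1, [.z, .z, .z], [])]]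

end Pool.Agent.H14Z
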