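import Pool.Agent.Lib.H14Z.B

/-! # The elements of block 8 (T2_1, loc, size 36) of the certificates -/

namespace Pool.Agent.H14Z

/-- The elements of block 8. -/
def e8 : List (E × E) :=
 [([(.ofNat 1, [], [.p]), (.negSucc 0, [], [.y])], []),
  ([(.ofNat 1, [.p], []), (.negSucc 0, [.y], [])], []),
  ([(.ofNat 1, [], [.k, .p]), (.negSucc 0, [], [.k, .y])], []),
  ([(.ofNat 1, [], [.p, .k]), (.negSucc 0, [], [.y, .k])], []),
  ([(.ofNat 1, [], [.p, .z]), (.negSucc 0, [], [.y, .z])], []),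
  ([(.ofNat 1, [], [.z, .p]), (.negSucc 0, [], [.z, .y])], []),
  ([(.ofNat 1, [.k], [.p]), (.negSucc 0, [.k], [.y])], []),
  ([(.ofNat 1, [.p], [.k]), (.negSucc 0, [.y], [.k])], []),
  ([(.ofNat 1, [.p], [.z]), (.negSucc 0, [.y], [.z])], []),
  ([(.ofNat 1, [.z], [.p]), (.negSucc 0, [.z], [.y])], []),
  ([(.ofNat 1, [.k, .p], []), (.negSucc 0, [.k, .y], [])], []),
  ([(.ofNat 1, [.p, .k], []), (.negSucc 0, [.y, .k], [])], []),
  ([(.ofNat 1, [.p, .z], []), (.negSucc 0, [.y, .z], [])], []),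
  ([(.ofNat 1, [.z, .p], []), (.negSucc 0, [.z, .y], [])], []),
  ([], [(.negSucc 0, [], []), (.ofNat 1, [], [.k])]),
  ([], [(.ofNat 1, [], [.z])]),
  ([], [(.negSucc 0, [], []), (.ofNat 1, [.k], [])]),
  ([], [(.ofNat 1, [.z], [])]),
  ([], [(.negSucc 0, [], []), (.ofNat 1, [], [.k, .k])]),
  ([], [(.ofNat 1, [], [.k, .z])]),
  ([], [(.ofNat 1, [], [.z, .k])]),
  ([], [(.ofNat 1, [], [.p, .p]), (.ofNat 1, [], [.p, .y]), (.negSucc 0, [], [.y, .p]), (.negSucc 0, [], [.y, .y])]),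
  ([], [(.ofNat 1, [], [.p, .p]), (.negSucc 0, [], [.p, .y]), (.ofNat 1, [], [.y, .p]), (.negSucc 0, [], [.y, .y])]),
  ([], [(.ofNat 1, [], [.z, .z])]),
  ([], [(.negSucc 0, [], []), (.ofNat 1, [.k], [.k])]),
  ([], [(.ofNat 1, [.k], [.z])]),
  ([], [(.ofNat 1, [.z], [.k])]),
  ([], [(.ofNat 1, [.p], [.p]), (.ofNat 1, [.p], [.y]), (.negSucc 0, [.y], [.p]), (.negSucc 0, [.y], [.y])]),
  ([], [(.ofNat 1, [.p], [.p]), (.negSucc 0, [.p], [.y]), (.ofNat 1, [.y], [.p]), (.negSucc 0, [.y], [.y])]),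
  ([], [(.ofNat 1, [.z], [.z])]),
  ([], [(.negSucc 0, [], []), (.ofNat 1, [.k, .k], [])]),
  ([], [(.ofNat 1, [.k, .z], [])]),
  ([], [(.ofNat 1, [.z, .k], [])]),
  ([], [(.ofNat 1, [.p, .p], []), (.ofNat 1, [.p, .y], []), (.negSucc 0, [.y, .p], []), (.negSucc 0, [.y, .y], [])]),
  ([], [(.ofNat 1, [.p, .p], []), (.negSucc 0, [.p, .y], []), (.ofNat 1, [.y, .p], []), (.negSucc 0, [.y, .y], [])]),
  ([], [(.ofNat 1, [.z, .z], [])])]

end Pool.Agent.H14Z
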