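import Pool.Agent.Lib.H14Z.Br

/-! # Nonnegativity of the blocks -/

namespace Pool.Agent.H14Z

open Finset Pool.Agent.H2AF Pool.Agent.H75C Pool.Agent.H16T Matrix
open scoped ComplexOrder

variable {ι κ : Type*} [Fintype ι] [DecidableEq ι] [Fintype κ] [DecidableEq κ]

theorem nn_gen {α : Type} {F : Wo → Wo → ℝ} (hF : Sy F) {q : α → α → E} (d : α) {m : ℕ} {c : ℤ}
    {G L : List (List Int)} {zs : List α} {v : E}
    (hPK : ∀ (m : ℕ) (z : ℕ → α), PK m (fun i j => lin F (q (z i) (z j))))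
    (hm : zs.length = m) (hp : psdOK m c G L = true) (h : blkOK q zs G v = true) :
    0 ≤ lin F v := by
  have hs : ∀ x y, lin F (q x y) = lin F (q y x) := by
    intro x y
    have h1 := (hPK 2 (fun i => if i = 0 then x else y)).1 0 1
    simpa using h1
  have hG : ∀ i < zs.length, ∀ j < zs.length, ent G i j = ent G j i := by
    rw [hm]
    exact (psdOK_spec hp).2.1
  have h1 := blk_sound hF d hs hG h
  rw [← h1, hm]
  have h2 := hPK m (fun i => zs.getD i d)
  exact psd_sum hp _ h2.1 h2.2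

omit [DecidableEq κ] in
theorem nn_sq (δ : H92U.Design 2 12) (B : Fin 2 → Matrix κ ι ℂ) {X : Matrix ι ι ℂ}
    (hX : X.PosSemidef) {m : ℕ} {c : ℤ} {G L : List (List Int)} {zs : List E} {v : E}
    (hm : zs.length = m) (hp : psdOK m c G L = true) (h : blkOK smulL zs G v = true) :
    0 ≤ lin (LF δ B X) v := by
  refine nn_gen (sy_LF δ B hX.isHermitian) [] (fun m z => ?_) hm hp h
  refine (sq_PK δ B hX.isHermitian m (fun i => cvE (z i))).congr fun i j => ?_
  exact lin_smulL (LL δ B X) (z i) (z j)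

omit [DecidableEq κ] in
theorem nn_xx (δ : H92U.Design 2 12) (B : Fin 2 → Matrix κ ι ℂ) {X : Matrix ι ι ℂ}
    (hX : X.PosSemidef) {m : ℕ} {c : ℤ} {G L : List (List Int)} {zs : List E} {v : E}
    (hm : zs.length = m) (hp : psdOK m c G L = true) (h : blkOK tensL zs G v = true) :
    0 ≤ lin (LF δ B X) v := by
  refine nn_gen (sy_LF δ B hX.isHermitian) [] (fun m z => ?_) hm hp h
  refine (xx_PK δ B hX m (fun i => cvE (z i))).congr fun i j => ?_
  exact lin_tensL (LL δ B X) (z i) (z j)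

theorem nn_loc (δ : H92U.Design 2 12) {B : Fin 2 → Matrix κ ι ℂ} (hB : ConR B)
    {X : Matrix ι ι ℂ} (hX : X.PosSemidef) {m : ℕ} {c : ℤ} {G L : List (List Int)}
    {zs : List (E × E)} {v : E}
    (hm : zs.length = m) (hp : psdOK m c G L = true) (h : blkOK locL zs G v = true) :
    0 ≤ lin (LF δ B X) v := by
  refine nn_gen (sy_LF δ B hX.isHermitian) ([], []) (fun m z => ?_) hm hp h
  refine (loc_PK δ hB hX.isHermitian m (fun i => (cvE (z i).1, cvE (z i).2))).congr fun i j => ?_
  exact lin_locL (LL δ B X) (z i) (z j)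

end Pool.Agent.H14Z
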