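import Mathlib

/-! # Tries of two sided words with integer coefficients (for kernel computation) -/

namespace Pool.Agent.H14Z

/-- The four letters `K, P, Y, Z`. -/
inductive Le
  | k | p | y | z

/-- Words. -/
abbrev Wo := List Le

/-- Formal two sided elements. -/
abbrev E := List (Int × Wo × Wo)

/-- One sided tries. -/
inductive T1
  | lf : T1
  | nd : Int → T1 → T1 → T1 → T1 → T1

/-- Two sided tries. -/
inductive T2
  | lf : T2
  | nd : T1 → T2 → T2 → T2 → T2 → T2

/-- The linear form of a formal element. -/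
noncomputable def lin (F : Wo → Wo → ℝ) : E → ℝ
  | [] => 0
  | t :: z => (t.1 : ℝ) * F t.2.1 t.2.2 + lin F z

/-- The value of a one sided trie. -/
noncomputable def v1 : T1 → (Wo → ℝ) → ℝ
  | .lf, _ => 0
  | .nd c a b e f, F => (c : ℝ) * F [] + v1 a (fun w => F (.k :: w)) + v1 b (fun w => F (.p :: w)) +
      v1 e (fun w => F (.y :: w)) + v1 f (fun w => F (.z :: w))

/-- The value of a two sided trie. -/
noncomputable def v2 : T2 → (Wo → Wo → ℝ) → ℝ
  | .lf, _ => 0
  | .nd t a b e f, F => v1 t (F []) + v2 a (fun w => F (.k :: w)) + v2 b (fun w => F (.p :: w)) +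
      v2 e (fun w => F (.y :: w)) + v2 f (fun w => F (.z :: w))

/-! ### insertion -/

/-- Apply `k` to the child of index `l`. -/
noncomputable def stp1 (l : Le) (k : T1 → T1) : T1 → T1 :=
  Le.rec (motive := fun _ => T1 → T1)
    (fun t => T1.rec (motive := fun _ => T1) (.nd (.ofNat 0) (k .lf) .lf .lf .lf) (fun c a b e f _ _ _ _ => .nd c (k a) b e f) t)
    (fun t => T1.rec (motive := fun _ => T1) (.nd (.ofNat 0) .lf (k .lf) .lf .lf) (fun c a b e f _ _ _ _ => .nd c a (k b) e f) t)
    (fun t => T1.rec (motive := fun _ => T1) (.nd (.ofNat 0) .lf .lf (k .lf) .lf) (fun c a b e f _ _ _ _ => .nd c a b (k e) f) t)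
    (fun t => T1.rec (motive := fun _ => T1) (.nd (.ofNat 0) .lf .lf .lf (k .lf)) (fun c a b e f _ _ _ _ => .nd c a b e (k f)) t) l

/-- Apply `k` to the child of index `l`. -/
noncomputable def stp2 (l : Le) (k : T2 → T2) : T2 → T2 :=
  Le.rec (motive := fun _ => T2 → T2)
    (fun t => T2.rec (motive := fun _ => T2) (.nd .lf (k .lf) .lf .lf .lf) (fun c a b e f _ _ _ _ => .nd c (k a) b e f) t)
    (fun t => T2.rec (motive := fun _ => T2) (.nd .lf .lf (k .lf) .lf .lf) (fun c a b e f _ _ _ _ => .nd c a (k b) e f) t)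
    (fun t => T2.rec (motive := fun _ => T2) (.nd .lf .lf .lf (k .lf) .lf) (fun c a b e f _ _ _ _ => .nd c a b (k e) f) t)
    (fun t => T2.rec (motive := fun _ => T2) (.nd .lf .lf .lf .lf (k .lf)) (fun c a b e f _ _ _ _ => .nd c a b e (k f)) t) l

/-- Apply `k` at the end of a path. -/
noncomputable def pth1 (k : T1 → T1) (w : Wo) : T1 → T1 :=
  List.rec (motive := fun _ => T1 → T1) k (fun l _ ih => stp1 l ih) w

/-- Apply `k` at the end of a path. -/
noncomputable def pth2 (k : T2 → T2) (w : Wo) : T2 → T2 :=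
  List.rec (motive := fun _ => T2 → T2) k (fun l _ ih => stp2 l ih) w

/-- Add a coefficient at the root. -/
noncomputable def fin1 (c : Int) (t : T1) : T1 :=
  T1.rec (motive := fun _ => T1) (.nd c .lf .lf .lf .lf) (fun d a b e f _ _ _ _ => .nd (Int.add d c) a b e f) t

/-- Apply `k` to the root entry. -/
noncomputable def fin2 (k : T1 → T1) (t : T2) : T2 :=
  T2.rec (motive := fun _ => T2) (.nd (k .lf) .lf .lf .lf .lf) (fun d a b e f _ _ _ _ => .nd (k d) a b e f) t

/-- Add `c` times the word pair `(u, v)`. -/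
noncomputable def ins (c : Int) (u v : Wo) : T2 → T2 := pth2 (fin2 (pth1 (fin1 c) v)) u

theorem v1_fin1 (c : Int) (t : T1) (F : Wo → ℝ) : v1 (fin1 c t) F = v1 t F + (c : ℝ) * F [] := by
  cases t with
  | lf => simp [fin1, v1]
  | nd d a b e f =>
    have h : (Int.add d c) = d + c := rfl
    simp only [fin1, v1, h]
    push_cast
    ring

theorem v1_stp1 (l : Le) (k : T1 → T1) (x : (Wo → ℝ) → ℝ)
    (hk : ∀ t F, v1 (k t) F = v1 t F + x F) (t : T1) (F : Wo → ℝ) :
    v1 (stp1 l k t) F = v1 t F + x (fun w => F (l :: w)) := by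
  cases l <;> cases t <;>
    simp only [stp1, v1, hk] <;> push_cast <;> ring_nf <;> simp

theorem v1_pth1 (k : T1 → T1) (x : (Wo → ℝ) → ℝ) (hk : ∀ t F, v1 (k t) F = v1 t F + x F) (w : Wo)
    (t : T1) (F : Wo → ℝ) : v1 (pth1 k w t) F = v1 t F + x (fun w' => F (w ++ w')) := by
  induction w generalizing t F with
  | nil => exact hk t F
  | cons l w ih =>
    have h := v1_stp1 l (pth1 k w) (fun F => x (fun w' => F (w ++ w'))) (fun t F => ih t F) t F
    exact h

theorem v2_fin2 (k : T1 → T1) (x : (Wo → ℝ) → ℝ) (hk : ∀ t F, v1 (k t) F = v1 t F + x F)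
    (t : T2) (F : Wo → Wo → ℝ) : v2 (fin2 k t) F = v2 t F + x (F []) := by
  cases t with
  | lf => simp only [fin2, v2, hk, v1]; ring
  | nd d a b e f => simp only [fin2, v2, hk]; ring

theorem v2_stp2 (l : Le) (k : T2 → T2) (x : (Wo → Wo → ℝ) → ℝ)
    (hk : ∀ t F, v2 (k t) F = v2 t F + x F) (t : T2) (F : Wo → Wo → ℝ) :
    v2 (stp2 l k t) F = v2 t F + x (fun w => F (l :: w)) := by
  cases l <;> cases t <;>
    simp only [stp2, v2, hk, v1] <;> ring_nf

theorem v2_pth2 (k : T2 → T2) (x : (Wo → Wo → ℝ) → ℝ) (hk : ∀ t F, v2 (k t) F = v2 t F + x F)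
    (w : Wo) (t : T2) (F : Wo → Wo → ℝ) :
    v2 (pth2 k w t) F = v2 t F + x (fun w' => F (w ++ w')) := by
  induction w generalizing t F with
  | nil => exact hk t F
  | cons l w ih =>
    have h := v2_stp2 l (pth2 k w) (fun F => x (fun w' => F (w ++ w'))) (fun t F => ih t F) t F
    exact h

theorem v2_ins (c : Int) (u v : Wo) (t : T2) (F : Wo → Wo → ℝ) :
    v2 (ins c u v t) F = v2 t F + (c : ℝ) * F u v := by
  have h1 : ∀ t F, v1 (fin1 c t) F = v1 t F + (fun G : Wo → ℝ => (c : ℝ) * G []) F :=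
    fun t F => v1_fin1 c t F
  have h2 : ∀ t F, v1 (pth1 (fin1 c) v t) F = v1 t F + (fun G : Wo → ℝ => (c : ℝ) * G v) F := by
    intro t F
    have h := v1_pth1 (fin1 c) _ h1 v t F
    simpa using h
  have h3 : ∀ t F, v2 (fin2 (pth1 (fin1 c) v) t) F =
      v2 t F + (fun G : Wo → Wo → ℝ => (c : ℝ) * G [] v) F := fun t F => v2_fin2 _ _ h2 t F
  have h4 := v2_pth2 _ _ h3 u t F
  simpa [ins] using h4

/-! ### merging -/

/-- Sum of two tries. -/
noncomputable def mrg1 (t : T1) : T1 → T1 :=
  T1.rec (motive := fun _ => T1 → T1) (fun s => s)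
    (fun c a b e f ia ib ie jf s => T1.rec (motive := fun _ => T1) (.nd c a b e f)
      (fun c' a' b' e' f' _ _ _ _ => .nd (Int.add c c') (ia a') (ib b') (ie e') (jf f')) s) t

/-- Sum of two tries. -/
noncomputable def mrg2 (t : T2) : T2 → T2 :=
  T2.rec (motive := fun _ => T2 → T2) (fun s => s)
    (fun c a b e f ia ib ie jf s => T2.rec (motive := fun _ => T2) (.nd c a b e f)
      (fun c' a' b' e' f' _ _ _ _ => .nd (mrg1 c c') (ia a') (ib b') (ie e') (jf f')) s) t

theorem v1_mrg1 (t s : T1) (F : Wo → ℝ) : v1 (mrg1 t s) F = v1 t F + v1 s F := by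
  induction t generalizing s F with
  | lf => simp [mrg1, v1]
  | nd c a b e f ia ib ie jf =>
    cases s with
    | lf => simp [mrg1, v1]
    | nd c' a' b' e' f' =>
      have h : mrg1 (.nd c a b e f) (.nd c' a' b' e' f') =
        .nd (c + c') (mrg1 a a') (mrg1 b b') (mrg1 e e') (mrg1 f f') := rfl
      rw [h]
      simp only [v1, ia, ib, ie, jf]
      push_cast
      ring

theorem v2_mrg2 (t s : T2) (F : Wo → Wo → ℝ) : v2 (mrg2 t s) F = v2 t F + v2 s F := by
  induction t generalizing s F with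
  | lf => simp [mrg2, v2]
  | nd c a b e f ia ib ie jf =>
    cases s with
    | lf => simp [mrg2, v2]
    | nd c' a' b' e' f' =>
      have h : mrg2 (.nd c a b e f) (.nd c' a' b' e' f') =
        .nd (mrg1 c c') (mrg2 a a') (mrg2 b b') (mrg2 e e') (mrg2 f f') := rfl
      rw [h]
      simp only [v2, ia, ib, ie, jf, v1_mrg1]
      ring

/-! ### zero test -/

/-- Is the integer zero? -/
noncomputable def isz (c : Int) : Bool :=
  Int.rec (motive := fun _ => Bool) (fun n => Nat.beq n 0) (fun _ => false) c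

/-- Are all coefficients zero? -/
noncomputable def z1 (t : T1) : Bool :=
  T1.rec (motive := fun _ => Bool) true
    (fun c _ _ _ _ ia ib ie jf => and (isz c) (and ia (and ib (and ie jf)))) t

/-- Are all coefficients zero? -/
noncomputable def z2 (t : T2) : Bool :=
  T2.rec (motive := fun _ => Bool) true
    (fun c _ _ _ _ ia ib ie jf => and (z1 c) (and ia (and ib (and ie jf)))) t

theorem isz_eq {c : Int} (h : isz c = true) : c = 0 := by
  cases c with
  | ofNat n =>
    have h1 : Nat.beq n 0 = true := h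
    rw [Nat.eq_of_beq_eq_true h1]
    rfl
  | negSucc n => exact absurd h (by simp [isz])

theorem v1_z1 {t : T1} (h : z1 t = true) (F : Wo → ℝ) : v1 t F = 0 := by
  induction t generalizing F with
  | lf => rfl
  | nd c a b e f ia ib ie jf =>
    have h' : and (isz c) (and (z1 a) (and (z1 b) (and (z1 e) (z1 f)))) = true := h
    simp only [Bool.and_eq_true] at h'
    obtain ⟨h0, h1, h2, h3, h4⟩ := h'
    simp only [v1, ia h1, ib h2, ie h3, jf h4, isz_eq h0]
    simp

theorem v2_z2 {t : T2} (h : z2 t = true) (F : Wo → Wo → ℝ) : v2 t F = 0 := by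
  induction t generalizing F with
  | lf => rfl
  | nd c a b e f ia ib ie jf =>
    have h' : and (z1 c) (and (z2 a) (and (z2 b) (and (z2 e) (z2 f)))) = true := h
    simp only [Bool.and_eq_true] at h'
    obtain ⟨h0, h1, h2, h3, h4⟩ := h'
    simp only [v2, ia h1, ib h2, ie h3, jf h4, v1_z1 h0]
    simp

/-! ### insertion of an element -/

/-- Add `g` times the element `z`. -/
noncomputable def insE (g : Int) (z : E) : T2 → T2 :=
  List.rec (motive := fun _ => T2 → T2) (fun t => t)
    (fun x _ ih t => ih (ins (Int.mul g x.1) x.2.1 x.2.2 t)) z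

theorem v2_insE (g : Int) (z : E) (t : T2) (F : Wo → Wo → ℝ) :
    v2 (insE g z t) F = v2 t F + (g : ℝ) * lin F z := by
  induction z generalizing t with
  | nil => simp [insE, lin]
  | cons x z ih =>
    have h : insE g (x :: z) t = insE g z (ins (g * x.1) x.2.1 x.2.2 t) := rfl
    rw [h, ih, v2_ins, lin]
    push_cast
    ring

end Pool.Agent.H14Z
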